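import Pool.Agent.Lib.MP_efec9b_co.BS.Defs85

/-!
Row AM: the inequality of the means.
-/

set_option autoImplicit false

namespace Pool.Agent.Lib.MP_efec9b_co.BS

theorem am_core (a b : ℕ) (z₁ z₂ x y : ℝ) (ha : 0 < a) (hb : 0 < b) (h1 : 0 ≤ z₁) (h2 : 0 ≤ z₂)
    (hx : 0 ≤ x) (hy : 0 ≤ y) :
    z₁ ^ (a * a) * z₂ ^ (b * b) * x ^ (a * b) * y ^ (a * b) ≤
      (fac a b * (z₁ + z₂ + x + y) ^ (a + b)) ^ (a + b) := by
  have ha' : (0 : ℝ) < a := by exact_mod_cast ha
  have hb' : (0 : ℝ) < b := by exact_mod_cast hb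
  set A : ℝ := (a : ℝ) with hA
  set B : ℝ := (b : ℝ) with hB
  set S : ℝ := A + B with hS
  have hS0 : 0 < S := by positivity
  set s : ℝ := A / S with hs
  set u : ℝ := B / S with hu
  have hs0 : 0 < s := by positivity
  have hu0 : 0 < u := by positivity
  have hsu : s + u = 1 := by rw [hs, hu, ← add_div, div_self hS0.ne']
  have key := Real.geom_mean_le_arith_mean4_weighted (w₁ := s * s) (w₂ := u * u) (w₃ := s * u)
    (w₄ := s * u) (p₁ := z₁ / (s * s)) (p₂ := z₂ / (u * u)) (p₃ := x / (s * u))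
    (p₄ := y / (s * u)) (by positivity) (by positivity) (by positivity) (by positivity)
    (by positivity) (by positivity) (by positivity) (by positivity)
    (by nlinarith [hsu])
  have e1 : s * s * (z₁ / (s * s)) + u * u * (z₂ / (u * u)) + s * u * (x / (s * u)) +
      s * u * (y / (s * u)) = z₁ + z₂ + x + y := by
    field_simp
  rw [e1] at key
  -- raise to the power (a + b) ^ 2
  have hSn : S = ((a + b : ℕ) : ℝ) := by rw [hS, hA, hB]; push_cast; ring
  have pw : ∀ (p : ℝ) (w : ℝ) (m : ℕ), 0 ≤ p → w * (S * S) = m →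
      (p ^ w) ^ ((a + b) * (a + b)) = p ^ m := by
    intro p w m hp hw
    rw [← Real.rpow_natCast (p ^ w), ← Real.rpow_mul hp, ← Real.rpow_natCast p m, ← hw]
    congr 2
    rw [hSn]
    push_cast
    ring
  have hpow := pow_le_pow_left₀ (by positivity) key ((a + b) * (a + b))
  rw [mul_pow, mul_pow, mul_pow] at hpow
  have hss : s * s * (S * S) = ((a * a : ℕ) : ℝ) := by
    rw [hs]; push_cast; field_simp; rw [hA]
  have huu : u * u * (S * S) = ((b * b : ℕ) : ℝ) := by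
    rw [hu]; push_cast; field_simp; rw [hB]
  have hsu' : s * u * (S * S) = ((a * b : ℕ) : ℝ) := by
    rw [hs, hu]; push_cast; field_simp; rw [hA, hB]
  rw [pw _ _ _ (by positivity) hss, pw _ _ _ (by positivity) huu,
    pw _ _ _ (by positivity) hsu', pw _ _ _ (by positivity) hsu'] at hpow
  rw [div_pow, div_pow, div_pow, div_pow] at hpow
  have hf : fac a b = (s ^ a * u ^ b) ^ 2 := by
    unfold fac
    rw [hs, hu, hS, hA, hB]
  rw [hf, mul_pow, ← pow_mul, ← pow_mul]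
  have hD : (s * s) ^ (a * a) * (u * u) ^ (b * b) * (s * u) ^ (a * b) * (s * u) ^ (a * b) =
      (s ^ a * u ^ b) ^ (2 * (a + b)) := by
    simp only [mul_pow, ← pow_mul, ← pow_add]
    have : ∀ (p q r t : ℕ), s ^ p * u ^ q = s ^ r * u ^ t ↔ s ^ p * u ^ q = s ^ r * u ^ t :=
      fun _ _ _ _ => Iff.rfl
    ring_nf
  have hD0 : 0 < (s * s) ^ (a * a) * (u * u) ^ (b * b) * (s * u) ^ (a * b) *
      (s * u) ^ (a * b) := by positivity
  rw [← hD]
  have e2 : z₁ ^ (a * a) / (s * s) ^ (a * a) * (z₂ ^ (b * b) / (u * u) ^ (b * b)) *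
      (x ^ (a * b) / (s * u) ^ (a * b)) * (y ^ (a * b) / (s * u) ^ (a * b)) =
      (z₁ ^ (a * a) * z₂ ^ (b * b) * x ^ (a * b) * y ^ (a * b)) /
        ((s * s) ^ (a * a) * (u * u) ^ (b * b) * (s * u) ^ (a * b) * (s * u) ^ (a * b)) := by
    field_simp
  rw [e2, div_le_iff₀ hD0] at hpow
  calc _ ≤ _ := hpow
    _ = _ := by ring

theorem am46 : StAM := by
  intro a b N z₁ z₂ x y ha hb hN h1 h2 hx hy hA hB
  have hab : a + b ≠ 0 := by omega
  have hf : 0 ≤ fac a b * (z₁ + z₂ + x + y) ^ (a + b) := by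
    unfold fac; positivity
  refine (pow_le_pow_iff_left₀ hN hf hab).1 ?_
  refine le_trans ?_ (am_core a b z₁ z₂ x y ha hb h1 h2 hx hy)
  rcases le_total b a with h | h
  · -- b ≤ a
    rw [min_eq_right h, Nat.sub_eq_zero_of_le h, pow_zero, mul_one] at hB
    obtain ⟨c, rfl⟩ := Nat.exists_eq_add_of_le h
    rw [Nat.add_sub_cancel_left] at hB
    have p1 := pow_le_pow_left₀ hN hA b
    have p2 := pow_le_pow_left₀ hN hB (b + c)
    calc N ^ (b + c + b) = N ^ b * N ^ (b + c) := by rw [← pow_add]; congr 1; ring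
      _ ≤ (z₁ ^ (b + c) * z₂ ^ b) ^ b * ((x * y) ^ b * z₁ ^ c) ^ (b + c) :=
        mul_le_mul p1 p2 (pow_nonneg hN _) (by positivity)
      _ = _ := by simp only [mul_pow, ← pow_mul]; ring
  · rw [min_eq_left h, Nat.sub_eq_zero_of_le h, pow_zero, mul_one] at hB
    obtain ⟨c, rfl⟩ := Nat.exists_eq_add_of_le h
    rw [Nat.add_sub_cancel_left] at hB
    have p1 := pow_le_pow_left₀ hN hA a
    have p2 := pow_le_pow_left₀ hN hB (a + c)
    calc N ^ (a + (a + c)) = N ^ a * N ^ (a + c) := by rw [← pow_add]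
      _ ≤ (z₁ ^ a * z₂ ^ (a + c)) ^ a * ((x * y) ^ a * z₂ ^ c) ^ (a + c) :=
        mul_le_mul p1 p2 (pow_nonneg hN _) (by positivity)
      _ = _ := by simp only [mul_pow, ← pow_mul]; ring

end Pool.Agent.Lib.MP_efec9b_co.BS
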