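import Pool.Agent.Lib.MP_efec9b_co.BS.Defs85

/-!
MP_efec9b_co (52): row AM of the gluing theorem, a weighted AM-GM inequality.
-/

set_option autoImplicit false

namespace Pool.Agent.Lib.MP_efec9b_co.BS

open Finset

/-- weighted AM-GM with natural weights `a ^ 2, b ^ 2, a * b, a * b` -/
lemma amgm52 (a b : ℕ) (ha : 0 < a) (hb : 0 < b) (z₁ z₂ x y : ℝ) (h1 : 0 ≤ z₁) (h2 : 0 ≤ z₂)
    (h3 : 0 ≤ x) (h4 : 0 ≤ y) :
    z₁ ^ (a * a) * z₂ ^ (b * b) * x ^ (a * b) * y ^ (a * b) ≤
      (fac a b * (z₁ + z₂ + x + y) ^ (a + b)) ^ (a + b) := by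
  have ha' : (0 : ℝ) < a := by exact_mod_cast ha
  have hb' : (0 : ℝ) < b := by exact_mod_cast hb
  set s : ℝ := (a : ℝ) / ((a : ℝ) + b) with hs
  set r : ℝ := (b : ℝ) / ((a : ℝ) + b) with hr
  have hs0 : 0 < s := by positivity
  have hr0 : 0 < r := by positivity
  have hsr : s + r = 1 := by
    rw [hs, hr]
    field_simp
  have key := Real.geom_mean_le_arith_mean4_weighted (w₁ := s * s) (w₂ := r * r) (w₃ := s * r)
    (w₄ := s * r) (p₁ := z₁ / (s * s)) (p₂ := z₂ / (r * r)) (p₃ := x / (s * r))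
    (p₄ := y / (s * r)) (by positivity) (by positivity) (by positivity) (by positivity)
    (by positivity) (by positivity) (by positivity) (by positivity) (by
      have : s * s + r * r + s * r + s * r = (s + r) ^ 2 := by ring
      rw [this, hsr, one_pow])
  have e1 : s * s * (z₁ / (s * s)) + r * r * (z₂ / (r * r)) + s * r * (x / (s * r)) +
      s * r * (y / (s * r)) = z₁ + z₂ + x + y := by
    field_simp
  rw [e1] at key
  -- raise to the power `(a + b) ^ 2`
  have hW : ((a : ℝ) + b) ≠ 0 := by positivity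
  have pw : ∀ {p w : ℝ} {m : ℕ}, 0 ≤ p → w * ((a : ℝ) + b) ^ 2 = m →
      (p ^ w) ^ ((a + b) * (a + b)) = p ^ m := by
    intro p w m hp hm
    rw [← Real.rpow_natCast, ← Real.rpow_mul hp, ← Real.rpow_natCast p m, ← hm]
    congr 1
    push_cast
    ring
  have k2 := pow_le_pow_left₀ (by positivity) key ((a + b) * (a + b))
  rw [mul_pow, mul_pow, mul_pow,
    pw (m := a * a) (by positivity) (by rw [hs]; push_cast; field_simp),
    pw (m := b * b) (by positivity) (by rw [hr]; push_cast; field_simp),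
    pw (m := a * b) (by positivity) (by rw [hs, hr]; push_cast; field_simp),
    pw (m := a * b) (by positivity) (by rw [hs, hr]; push_cast; field_simp)] at k2
  have e2 : (z₁ / (s * s)) ^ (a * a) * (z₂ / (r * r)) ^ (b * b) * (x / (s * r)) ^ (a * b) *
      (y / (s * r)) ^ (a * b) =
      z₁ ^ (a * a) * z₂ ^ (b * b) * x ^ (a * b) * y ^ (a * b) / (fac a b) ^ (a + b) := by
    have hfac : (fac a b) ^ (a + b) =
        (s * s) ^ (a * a) * (r * r) ^ (b * b) * (s * r) ^ (a * b) * (s * r) ^ (a * b) := by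
      unfold fac
      rw [← hs, ← hr]
      ring
    rw [hfac, div_pow, div_pow, div_pow, div_pow]
    field_simp
  rw [e2, div_le_iff₀ (by unfold fac; positivity)] at k2
  calc _ ≤ _ := k2
    _ = _ := by rw [mul_pow, pow_mul]; ring

lemma am_case52 (a b : ℕ) (hab : b ≤ a) (hb : 0 < b) (N z₁ z₂ x y : ℝ) (hN : 0 ≤ N)
    (h1 : 0 ≤ z₁) (h2 : 0 ≤ z₂) (h3 : 0 ≤ x) (h4 : 0 ≤ y) (e1 : N ≤ z₁ ^ a * z₂ ^ b)
    (e2 : N ≤ (x * y) ^ b * z₁ ^ (a - b)) :
    N ≤ fac a b * (z₁ + z₂ + x + y) ^ (a + b) := by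
  have ha : 0 < a := hb.trans_le hab
  refine le_of_pow_le_pow_left₀ (n := a + b) (by omega) (by unfold fac; positivity) ?_
  refine le_trans ?_ (amgm52 a b ha hb z₁ z₂ x y h1 h2 h3 h4)
  have k1 := pow_le_pow_left₀ hN e1 b
  have k2 := pow_le_pow_left₀ hN e2 a
  have k3 := mul_le_mul k1 k2 (by positivity) (by positivity)
  calc N ^ (a + b) = N ^ b * N ^ a := by rw [← pow_add, add_comm]
    _ ≤ _ := k3
    _ = z₁ ^ (a * b + (a - b) * a) * z₂ ^ (b * b) * x ^ (a * b) * y ^ (a * b) := by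
        rw [pow_add]
        ring
    _ = _ := by
        have : a * b + (a - b) * a = a * a := by
          obtain ⟨c, rfl⟩ := Nat.exists_eq_add_of_le hab
          rw [Nat.add_sub_cancel_left]
          ring
        rw [this]

theorem AM52 : StAM := by
  intro a b N z₁ z₂ x y ha hb hN h1 h2 h3 h4 e1 e2
  rcases le_total b a with hab | hab
  · rw [min_eq_right hab, Nat.sub_eq_zero_of_le hab, pow_zero, mul_one] at e2
    exact am_case52 a b hab hb N z₁ z₂ x y hN h1 h2 h3 h4 e1 e2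
  · rw [min_eq_left hab, Nat.sub_eq_zero_of_le hab, pow_zero, mul_one] at e2
    have := am_case52 b a hab ha N z₂ z₁ x y hN h2 h1 h3 h4 (by rw [mul_comm]; exact e1) e2
    have hf : fac b a = fac a b := by
      unfold fac
      rw [add_comm (b : ℝ) a]
      ring
    rw [hf, add_comm b a, add_comm z₂ z₁] at this
    exact this

end Pool.Agent.Lib.MP_efec9b_co.BS
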