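import Pool.Agent.Lib.MP_efec9b_co.BS.Defs85

/-!
MP_efec9b_co: the localised upper bound (row BASE).
-/

set_option autoImplicit false

namespace Pool.Agent.Lib.MP_efec9b_co.BS.B85

open Finset BU77

variable {h : ℕ} (H : Fin h → Fin h → ℕ)

open Classical in
/-- word bound with the number of letters that occur in `H` -/
theorem word_loc (hh : 0 < h) (hN : RowsApart H) (hL : ColumnLagrangian H) {n : ℕ}
    (w : Fin n → ℕ) :
    ∑ v ∈ cols H, ((univ.filter fun r : Fin h → Fin n => StrictMono r ∧
      ∀ i, w (r i) = v i).card : ℝ) ≤ wordMax (fun i => H i) / h.factorial *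
        ((univ.filter fun x : Fin n => ∃ i j, H i j = w x).card : ℝ) ^ h := by
  set S : Finset (Fin n) := univ.filter fun x : Fin n => ∃ i j, H i j = w x with hS
  set emb := S.orderEmbOfFin rfl with hemb
  refine le_trans ?_ (word_bound H hh hN hL (fun x => w (emb x)))
  refine sum_le_sum fun v hv => ?_
  obtain ⟨j, hj⟩ := (mem_cols H).1 hv
  have hsub : (univ.filter fun r : Fin h → Fin n => StrictMono r ∧ ∀ i, w (r i) = v i) ⊆
      (univ.filter fun r : Fin h → Fin S.card => StrictMono r ∧ ∀ i, w (emb (r i)) = v i).image
        (fun r => fun i => emb (r i)) := by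
    intro r hr
    obtain ⟨-, hr1, hr2⟩ := mem_filter.1 hr
    have hmem : ∀ i, r i ∈ S := by
      intro i
      rw [hS, mem_filter]
      exact ⟨mem_univ _, i, j, by rw [hr2 i]; exact congrFun hj i⟩
    have hex : ∀ i, ∃ k, emb k = r i := by
      intro i
      have : r i ∈ Set.range emb := by
        rw [hemb, Finset.range_orderEmbOfFin]
        exact hmem i
      exact this
    choose r' hr' using hex
    rw [mem_image]
    refine ⟨r', ?_, funext hr'⟩
    rw [mem_filter]
    refine ⟨mem_univ _, ?_, fun i => by rw [hr' i]; exact hr2 i⟩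
    intro i i' hii
    have := hr1 hii
    rw [← hr' i, ← hr' i'] at this
    exact emb.lt_iff_lt.1 this
  exact_mod_cast (card_le_card hsub).trans card_image_le

open Classical in
theorem base_upper (hh : 0 < h) (hN : RowsApart H) (hL : ColumnLagrangian H) {n : ℕ}
    (M : Fin n → Fin n → ℕ) : (copies H M : ℝ) ≤
      wordMax (fun j i => H i j) / h.factorial * (wordMax (fun i => H i) / h.factorial) *
        (cells H M : ℝ) ^ h := by
  set κ : Fin h → Fin h → ℕ := fun j i => H i j with hκ
  have hf : (0 : ℝ) < h.factorial := by exact_mod_cast h.factorial_pos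
  have wκ : 0 ≤ wordMax κ / h.factorial := div_nonneg (wordMax_nonneg κ) hf.le
  set L : ℝ := wordMax (fun i => H i) / h.factorial with hLdef
  have wρ : 0 ≤ L := div_nonneg (wordMax_nonneg _) hf.le
  set A : (Fin h → Fin n) → (Fin h → ℕ) → Finset (Fin n) := fun r v =>
    univ.filter fun y => ∀ i, M (r i) y = v i with hA
  set good : (Fin h → Fin n) → Fin n → Prop := fun r y => ∃ v ∈ cols H, ∀ i, M (r i) y = v i
    with hgood
  have hAsum : ∀ r, ∑ v ∈ cols H, ((A r v).card : ℝ) = ((univ.filter (good r)).card : ℝ) := by
    intro r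
    have : ∑ v ∈ cols H, (A r v).card = (univ.filter (good r)).card := by
      rw [← card_biUnion]
      · congr 1
        ext y
        rw [mem_biUnion, mem_filter]
        constructor
        · rintro ⟨v, hv, hy⟩
          exact ⟨mem_univ _, v, hv, (mem_filter.1 hy).2⟩
        · rintro ⟨-, v, hv, hy⟩
          exact ⟨v, hv, mem_filter.2 ⟨mem_univ _, hy⟩⟩
      · intro v _ v' _ hvv
        rw [Function.onFun, disjoint_left]
        intro y hy hy'
        apply hvv
        funext i
        rw [hA] at hy hy'
        rw [← (mem_filter.1 hy).2 i, ← (mem_filter.1 hy').2 i]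
    exact_mod_cast this
  have step : ∀ r : Fin h → Fin n, ((univ.filter fun c : Fin h → Fin n =>
      StrictMono c ∧ ∀ i j, M (r i) (c j) = H i j).card : ℝ) ≤
      wordMax κ / h.factorial * ((univ.filter (good r)).card : ℝ) ^ h := by
    intro r
    have e1 : (univ.filter fun c : Fin h → Fin n => StrictMono c ∧ ∀ i j, M (r i) (c j) = H i j) =
        (univ.filter fun c : Fin h → Fin n => StrictMono c ∧ ∀ j, c j ∈ A r (κ j)) := by
      ext c
      rw [mem_filter, mem_filter]
      refine and_congr_right fun _ => and_congr_right fun _ => ?_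
      constructor
      · intro hc j
        rw [hA]
        exact mem_filter.2 ⟨mem_univ _, fun i => hc i j⟩
      · intro hc i j
        exact (mem_filter.1 (hc j)).2 i
    have c1 := countG κ (A r)
    have c2 := choose_prod_le κ hh (fun v => (A r v).card)
    have c3 : ((univ.filter fun c : Fin h → Fin n => StrictMono c ∧ ∀ j, c j ∈ A r (κ j)).card : ℝ)
        ≤ ((∏ b ∈ univ.image κ, (A r b).card.choose (mu κ b) : ℕ) : ℝ) := by exact_mod_cast c1
    rw [e1]
    refine (c3.trans c2).trans ?_
    have e2 : ∑ b ∈ univ.image κ, ((A r b).card : ℝ) = ∑ v ∈ cols H, ((A r v).card : ℝ) := rfl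
    rw [e2, hAsum]
  -- the number of cells in a column
  set z : Fin n → ℝ := fun y => ((univ.filter fun x : Fin n => ∃ i j, H i j = M x y).card : ℝ)
    with hz
  have hZ : (cells H M : ℝ) = ∑ y, z y := by
    have : cells H M = ∑ y, (univ.filter fun x : Fin n => ∃ i j, H i j = M x y).card := by
      unfold cells
      rw [Nat.card_eq_fintype_card, Fintype.card_subtype, card_filter, Fintype.sum_prod_type,
        sum_comm]
      refine sum_congr rfl fun y _ => ?_
      rw [card_filter]
    rw [this, hz]
    push_cast
    rfl
  have hone : ∀ y, (((univ.filter fun r : Fin h → Fin n => StrictMono r).filter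
      fun r => good r y).card : ℝ) ≤ L * z y ^ h := by
    intro y
    refine le_trans ?_ (word_loc H hh hN hL (fun x => M x y))
    have : ((univ.filter fun r : Fin h → Fin n => StrictMono r).filter fun r => good r y) ⊆
        (cols H).biUnion fun v => univ.filter fun r : Fin h → Fin n => StrictMono r ∧
          ∀ i, M (r i) y = v i := by
      intro r hr
      rw [mem_filter, mem_filter] at hr
      obtain ⟨⟨-, h1⟩, v, hv, h2⟩ := hr
      rw [mem_biUnion]
      exact ⟨v, hv, mem_filter.2 ⟨mem_univ _, h1, h2⟩⟩
    exact_mod_cast (card_le_card this).trans card_biUnion_le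
  have htup : ∀ c : Fin h → Fin n, (((univ.filter fun r : Fin h → Fin n => StrictMono r).filter
      fun r => ∀ j, good r (c j)).card : ℝ) ≤ L * ∏ j, z (c j) := by
    intro c
    set X : ℝ := (((univ.filter fun r : Fin h → Fin n => StrictMono r).filter
      fun r => ∀ j, good r (c j)).card : ℝ) with hX
    have hX0 : 0 ≤ X := by positivity
    have hz0 : ∀ y, 0 ≤ z y := fun y => by rw [hz]; positivity
    have h1 : ∀ j, X ≤ L * z (c j) ^ h := by
      intro j
      refine le_trans ?_ (hone (c j))
      have : ((univ.filter fun r : Fin h → Fin n => StrictMono r).filter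
          fun r => ∀ j, good r (c j)) ⊆ ((univ.filter fun r : Fin h → Fin n => StrictMono r).filter
          fun r => good r (c j)) := by
        intro r hr
        rw [mem_filter] at hr ⊢
        exact ⟨hr.1, hr.2 j⟩
      rw [hX]
      exact_mod_cast card_le_card this
    have h2 : X ^ h ≤ (L * ∏ j, z (c j)) ^ h := by
      calc X ^ h = ∏ _j : Fin h, X := by rw [prod_const, card_univ, Fintype.card_fin]
        _ ≤ ∏ j : Fin h, (L * z (c j) ^ h) := prod_le_prod (fun _ _ => hX0) fun j _ => h1 j
        _ = (L * ∏ j, z (c j)) ^ h := by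
            rw [prod_mul_distrib, prod_const, card_univ, Fintype.card_fin, mul_pow, ← prod_pow]
    exact le_of_pow_le_pow_left₀ hh.ne' (mul_nonneg wρ (prod_nonneg fun j _ => hz0 _)) h2
  have hdbl : ∑ r ∈ univ.filter (fun r : Fin h → Fin n => StrictMono r),
      ((univ.filter (good r)).card : ℝ) ^ h = ∑ c : Fin h → Fin n,
        (((univ.filter fun r : Fin h → Fin n => StrictMono r).filter
          fun r => ∀ j, good r (c j)).card : ℝ) := by
    have e1 : ∀ r, ((univ.filter (good r)).card : ℝ) ^ h =
        ∑ c : Fin h → Fin n, if ∀ j, good r (c j) then (1 : ℝ) else 0 := by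
      intro r
      have : (univ.filter (good r)).card ^ h =
          (univ.filter fun c : Fin h → Fin n => ∀ j, good r (c j)).card := by
        rw [← Fintype.card_piFinset_const]
        congr 1
        ext c
        simp only [Fintype.mem_piFinset, mem_filter, mem_univ, true_and]
      rw [← Nat.cast_pow, this, card_filter]
      push_cast
      rfl
    rw [sum_congr rfl fun r _ => e1 r, sum_comm]
    refine sum_congr rfl fun c _ => ?_
    rw [card_filter]
    push_cast
    rfl
  rw [copies_eq]
  push_cast
  calc ∑ r ∈ univ.filter (fun r : Fin h → Fin n => StrictMono r),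
        ((univ.filter fun c : Fin h → Fin n =>
          StrictMono c ∧ ∀ i j, M (r i) (c j) = H i j).card : ℝ)
      ≤ ∑ r ∈ univ.filter (fun r : Fin h → Fin n => StrictMono r),
        wordMax κ / h.factorial * ((univ.filter (good r)).card : ℝ) ^ h :=
        sum_le_sum fun r _ => step r
    _ = wordMax κ / h.factorial * ∑ c : Fin h → Fin n,
        (((univ.filter fun r : Fin h → Fin n => StrictMono r).filter
          fun r => ∀ j, good r (c j)).card : ℝ) := by
        rw [← mul_sum, hdbl]
    _ ≤ wordMax κ / h.factorial * ∑ c : Fin h → Fin n, L * ∏ j, z (c j) := by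
        refine mul_le_mul_of_nonneg_left ?_ wκ
        exact sum_le_sum fun c _ => htup c
    _ = _ := by
        rw [← mul_sum, hZ, Fintype.sum_pow]
        ring

end B85

theorem base85 : StBase := by
  intro h H hh hN hL n M
  refine (B85.base_upper H hh hN hL M).trans (le_of_eq ?_)
  unfold value
  ring

end Pool.Agent.Lib.MP_efec9b_co.BS
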