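import Pool.Agent.Lib.MP_efec9b_co.BS.Defs85

/-!
Row FIN: the limits.
-/

set_option autoImplicit false

namespace Pool.Agent.Lib.MP_efec9b_co.BS

open Finset Filter Topology BU77

theorem cells_le {h n : ℕ} (H : Fin h → Fin h → ℕ) (M : Fin n → Fin n → ℕ) :
    (cells H M : ℝ) ≤ (n : ℝ) ^ 2 := by
  have h1 : cells H M ≤ Nat.card (Fin n × Fin n) := by
    unfold cells
    exact Nat.card_le_card_of_injective _ Subtype.val_injective
  rw [Nat.card_prod, Nat.card_fin] at h1
  have h2 : (cells H M : ℝ) ≤ ((n * n : ℕ) : ℝ) := by exact_mod_cast h1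
  rw [pow_two]
  exact_mod_cast h1

theorem value_nonneg {h : ℕ} (H : Fin h → Fin h → ℕ) : 0 ≤ value H :=
  mul_nonneg (wordMax_nonneg _) (wordMax_nonneg _)

theorem dens_upper' {h : ℕ} (H : Fin h → Fin h → ℕ) (hT : Tight H) {n : ℕ} (hn : h ≤ n)
    (M : Fin n → Fin n → ℕ) : dens H M ≤
      value H * ((n : ℝ) / ((n : ℝ) + 1 - h)) ^ (2 * h) := by
  have hf : (0 : ℝ) < h.factorial := by exact_mod_cast h.factorial_pos
  have hv := value_nonneg H
  have u : (copies H M : ℝ) ≤ value H / (h.factorial : ℝ) ^ 2 * (n : ℝ) ^ (2 * h) := by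
    refine (hT n M).trans ?_
    refine mul_le_mul_of_nonneg_left ?_ (by positivity)
    rw [pow_mul]
    exact pow_le_pow_left₀ (Nat.cast_nonneg _) (cells_le H M) h
  have hnh : (h : ℝ) ≤ n := by exact_mod_cast hn
  have hpos : (0 : ℝ) < (n : ℝ) + 1 - h := by linarith
  have hC : ((n : ℝ) + 1 - h) ^ h / h.factorial ≤ (n.choose h : ℝ) := by
    rw [div_le_iff₀ hf]
    have h1 := Nat.pow_sub_le_descFactorial n h
    rw [Nat.descFactorial_eq_factorial_mul_choose] at h1
    have h2 : (((n + 1 - h : ℕ) : ℝ)) ^ h ≤ (h.factorial : ℝ) * (n.choose h : ℝ) := by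
      exact_mod_cast h1
    rw [Nat.cast_sub (by omega)] at h2
    push_cast at h2
    rw [mul_comm]
    exact h2
  have hCpos : (0 : ℝ) < ((n : ℝ) + 1 - h) ^ h / h.factorial := by positivity
  unfold dens
  calc (copies H M : ℝ) / (n.choose h : ℝ) ^ 2
      ≤ (value H / (h.factorial : ℝ) ^ 2 * (n : ℝ) ^ (2 * h)) /
        (((n : ℝ) + 1 - h) ^ h / h.factorial) ^ 2 := by
        refine div_le_div₀ ?_ u (by positivity) (pow_le_pow_left₀ hCpos.le hC 2)
        positivity
    _ = _ := by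
        rw [div_pow, div_pow, ← pow_mul, mul_comm h 2]
        field_simp

theorem fin46 : StFin := by
  intro h H hh hM hT
  set c := value H with hc
  have hU : Tendsto (fun n : ℕ => c * ((n : ℝ) / ((n : ℝ) + 1 - h)) ^ (2 * h)) atTop (𝓝 c) := by
    have := (lim_upper h).const_mul c
    rwa [mul_one] at this
  have hLo : Tendsto (fun n : ℕ => c * (((n : ℝ) - 2 * h) / n) ^ (2 * h)) atTop (𝓝 c) := by
    have := (lim_lower h).const_mul c
    rwa [mul_one] at this
  have bdd : ∀ n, h ≤ n → BddAbove (Set.range fun M : Fin n → Fin n → ℕ => dens H M) := by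
    intro n hn
    refine ⟨c * ((n : ℝ) / ((n : ℝ) + 1 - h)) ^ (2 * h), ?_⟩
    rintro _ ⟨M, rfl⟩
    exact dens_upper' H hT hn M
  have bdd' : ∀ n, h ≤ n → BddAbove (Set.range fun M : {M : Fin n → Fin n → ℕ //
      Avoids (top H) M} => dens H M.1) := by
    intro n hn
    refine ⟨c * ((n : ℝ) / ((n : ℝ) + 1 - h)) ^ (2 * h), ?_⟩
    rintro _ ⟨M, rfl⟩
    exact dens_upper' H hT hn M.1
  have a1 : ∀ᶠ n : ℕ in atTop, fAll H n ≤ c * ((n : ℝ) / ((n : ℝ) + 1 - h)) ^ (2 * h) := by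
    filter_upwards [eventually_ge_atTop h] with n hn
    exact ciSup_le fun M => dens_upper' H hT hn M
  have a2 : ∀ᶠ n : ℕ in atTop, fMono H n ≤ c * ((n : ℝ) / ((n : ℝ) + 1 - h)) ^ (2 * h) := by
    filter_upwards [eventually_ge_atTop h] with n hn
    have : Nonempty {M : Fin n → Fin n → ℕ // Avoids (top H) M} :=
      ⟨⟨host H hh n, host_avoids H hh hM n _⟩⟩
    exact ciSup_le fun M => dens_upper' H hT hn M.1
  have a3 : ∀ᶠ n : ℕ in atTop, c * (((n : ℝ) - 2 * h) / n) ^ (2 * h) ≤ fAll H n := by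
    filter_upwards [eventually_ge_atTop (2 * h)] with n hn
    exact (dens_lower H hh hM hn).trans (le_ciSup (bdd n (by omega)) (host H hh n))
  have a4 : ∀ᶠ n : ℕ in atTop, c * (((n : ℝ) - 2 * h) / n) ^ (2 * h) ≤ fMono H n := by
    filter_upwards [eventually_ge_atTop (2 * h)] with n hn
    exact (dens_lower H hh hM hn).trans (le_ciSup (bdd' n (by omega))
      (⟨host H hh n, host_avoids H hh hM n _⟩ : {M : Fin n → Fin n → ℕ // Avoids (top H) M}))
  exact ⟨tendsto_of_tendsto_of_tendsto_of_le_of_le' hLo hU a3 a1,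
    tendsto_of_tendsto_of_tendsto_of_le_of_le' hLo hU a4 a2⟩

end Pool.Agent.Lib.MP_efec9b_co.BS
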