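import Pool.Agent.Lib.MP_efec9b_co.BS.Defs85

/-!
Row TR: transposes.
-/

set_option autoImplicit false

namespace Pool.Agent.Lib.MP_efec9b_co.BS

theorem cells_tr {h n : ℕ} (H : Fin h → Fin h → ℕ) (M : Fin n → Fin n → ℕ) :
    cells (fun i j => H j i) M = cells H (fun i j => M j i) := by
  unfold cells
  refine Nat.card_congr ((Equiv.prodComm (Fin n) (Fin n)).subtypeEquiv fun p => ?_)
  constructor
  · rintro ⟨i, j, h⟩; exact ⟨j, i, h⟩
  · rintro ⟨i, j, h⟩; exact ⟨j, i, h⟩

theorem value_tr {h : ℕ} (H : Fin h → Fin h → ℕ) : value (fun i j => H j i) = value H := by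
  unfold value
  exact mul_comm _ _

theorem tr46 : StTr := by
  intro h H hT n M
  rw [cells_tr, value_tr]
  have e : copies (fun i j => H j i) M = copies H (fun i j => M j i) := by
    unfold copies
    refine Nat.card_congr ((Equiv.prodComm (Fin h → Fin n) (Fin h → Fin n)).subtypeEquiv
      fun p => ?_)
    constructor
    · rintro ⟨h1, h2, h3⟩; exact ⟨h2, h1, fun i j => h3 j i⟩
    · rintro ⟨h1, h2, h3⟩; exact ⟨h2, h1, fun i j => h3 j i⟩
  rw [e]
  exact hT n _

end Pool.Agent.Lib.MP_efec9b_co.BS
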