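import Pool.Agent.Lib.MP_efec9b_co.BS.Defs85

/-!
MP_efec9b_co, gluing: row VAL (helper81): the value of a glued matrix.
-/

set_option autoImplicit false

namespace Pool.Agent.Lib.MP_efec9b_co.BS

open Finset

namespace V81

/-- the product in `wordMax`, with a free denominator -/
noncomputable def PW {h : ℕ} {ι : Type} [DecidableEq ι] (τ : Fin h → ι) (x : ℝ) : ℝ :=
  ∏ b ∈ Finset.univ.image τ,
    ((((Finset.univ.filter fun i => τ i = b).card : ℝ) / x) ^
      (Finset.univ.filter fun i => τ i = b).card /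
      ((Finset.univ.filter fun i => τ i = b).card.factorial : ℝ))

theorem wm_eq {h : ℕ} {ι : Type} [DecidableEq ι] (τ : Fin h → ι) :
    wordMax τ = (h.factorial : ℝ) * PW τ h := rfl

theorem PW_scale {a : ℕ} {ι : Type} [DecidableEq ι] (τ : Fin a → ι) (x y : ℝ) (hx : x ≠ 0)
    (hy : y ≠ 0) : PW τ y = PW τ x * (x / y) ^ a := by
  have h1 : (x / y) ^ a = ∏ b ∈ Finset.univ.image τ,
      (x / y) ^ (Finset.univ.filter fun i => τ i = b).card := by
    rw [Finset.prod_pow_eq_pow_sum, ← Finset.card_eq_sum_card_image]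
    simp
  unfold PW
  rw [h1, ← Finset.prod_mul_distrib]
  refine Finset.prod_congr rfl fun b _ => ?_
  have h2 : (((Finset.univ.filter fun i => τ i = b).card : ℝ) / y) =
      (((Finset.univ.filter fun i => τ i = b).card : ℝ) / x) * (x / y) := by
    field_simp
  rw [h2, mul_pow]
  ring

theorem prod_kernel {α ι ι' : Type} [Fintype α] [DecidableEq ι] [DecidableEq ι'] (σ : α → ι)
    (σ' : α → ι') (hk : ∀ i i', σ i = σ i' ↔ σ' i = σ' i') (G : ι → ℝ) (G' : ι' → ℝ)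
    (hG : ∀ i, G (σ i) = G' (σ' i)) :
    ∏ c ∈ Finset.univ.image σ, G c = ∏ c ∈ Finset.univ.image σ', G' c := by
  refine Finset.prod_bij (fun c hc => σ' (Classical.choose (Finset.mem_image.1 hc))) ?_ ?_ ?_ ?_
  · intro c hc
    exact Finset.mem_image_of_mem _ (Finset.mem_univ _)
  · intro c₁ h₁ c₂ h₂ h
    have e1 := (Classical.choose_spec (Finset.mem_image.1 h₁)).2
    have e2 := (Classical.choose_spec (Finset.mem_image.1 h₂)).2
    rw [← e1, ← e2]
    exact (hk _ _).2 h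
  · intro c hc
    obtain ⟨i, -, rfl⟩ := Finset.mem_image.1 hc
    refine ⟨σ i, Finset.mem_image_of_mem _ (Finset.mem_univ _), ?_⟩
    exact (hk _ _).1 (Classical.choose_spec (Finset.mem_image.1
      (Finset.mem_image_of_mem σ (Finset.mem_univ i)))).2
  · intro c hc
    have e1 := (Classical.choose_spec (Finset.mem_image.1 hc)).2
    rw [← hG, e1]

theorem splits_card {a b h : ℕ} {u : Fin a → Fin h} {v : Fin b → Fin h} (hs : Splits u v) :
    h = a + b := by
  obtain ⟨hu, hv, hd, hc⟩ := hs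
  have h1 : (Finset.univ : Finset (Fin h)) = Finset.univ.image u ∪ Finset.univ.image v := by
    ext k
    simp only [Finset.mem_univ, Finset.mem_union, Finset.mem_image, true_and, true_iff]
    exact hc k
  have h2 : Disjoint (Finset.univ.image u) (Finset.univ.image v) := by
    rw [Finset.disjoint_left]
    rintro k h3 h4
    obtain ⟨i, -, rfl⟩ := Finset.mem_image.1 h3
    obtain ⟨j, -, h5⟩ := Finset.mem_image.1 h4
    exact hd i j h5.symm
  have h3 := congrArg Finset.card h1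
  rw [Finset.card_union_of_disjoint h2, Finset.card_image_of_injective _ hu.injective,
    Finset.card_image_of_injective _ hv.injective] at h3
  simpa using h3

theorem mult_eq {a h : ℕ} {u : Fin a → Fin h} {ι ι₁ : Type} [DecidableEq ι] [DecidableEq ι₁]
    (τ : Fin h → ι) (τ₁ : Fin a → ι₁) (hu : Function.Injective u)
    (h1 : ∀ i i', τ (u i) = τ (u i') ↔ τ₁ i = τ₁ i')
    (h3 : ∀ i k, τ k = τ (u i) → ∃ i', u i' = k) (i : Fin a) :
    (Finset.univ.filter fun k => τ k = τ (u i)).card =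
      (Finset.univ.filter fun i' => τ₁ i' = τ₁ i).card := by
  rw [← Finset.card_image_of_injective (Finset.univ.filter fun i' => τ₁ i' = τ₁ i) hu]
  congr 1
  ext k
  simp only [Finset.mem_filter, Finset.mem_univ, true_and, Finset.mem_image]
  constructor
  · intro h
    obtain ⟨i', rfl⟩ := h3 i k h
    exact ⟨i', (h1 i' i).1 h, rfl⟩
  · rintro ⟨i', h, rfl⟩
    exact (h1 i' i).2 h

theorem PW_split {a b h : ℕ} {u : Fin a → Fin h} {v : Fin b → Fin h} (hs : Splits u v)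
    {ι ι₁ ι₂ : Type} [DecidableEq ι] [DecidableEq ι₁] [DecidableEq ι₂] (τ : Fin h → ι)
    (τ₁ : Fin a → ι₁) (τ₂ : Fin b → ι₂) (h1 : ∀ i i', τ (u i) = τ (u i') ↔ τ₁ i = τ₁ i')
    (h2 : ∀ i i', τ (v i) = τ (v i') ↔ τ₂ i = τ₂ i') (h3 : ∀ i j, τ (u i) ≠ τ (v j)) (x : ℝ) :
    PW τ x = PW τ₁ x * PW τ₂ x := by
  obtain ⟨hu, hv, hd, hc⟩ := hs
  have h4 : (Finset.univ.image τ) = (Finset.univ.image fun i => τ (u i)) ∪
      (Finset.univ.image fun i => τ (v i)) := by
    ext c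
    simp only [Finset.mem_union, Finset.mem_image, Finset.mem_univ, true_and]
    constructor
    · rintro ⟨k, rfl⟩
      rcases hc k with ⟨i, rfl⟩ | ⟨i, rfl⟩
      · exact Or.inl ⟨i, rfl⟩
      · exact Or.inr ⟨i, rfl⟩
    · rintro (⟨i, rfl⟩ | ⟨i, rfl⟩)
      · exact ⟨u i, rfl⟩
      · exact ⟨v i, rfl⟩
  have h5 : Disjoint (Finset.univ.image fun i => τ (u i)) (Finset.univ.image fun i => τ (v i)) := by
    rw [Finset.disjoint_left]
    rintro c h6 h7
    obtain ⟨i, -, rfl⟩ := Finset.mem_image.1 h6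
    obtain ⟨j, -, h8⟩ := Finset.mem_image.1 h7
    exact h3 i j h8.symm
  unfold PW
  rw [h4, Finset.prod_union h5]
  congr 1
  · refine prod_kernel (fun i => τ (u i)) τ₁ h1 _ _ fun i => ?_
    rw [mult_eq τ τ₁ hu.injective h1 (fun i k hk => ?_) i]
    rcases hc k with h6 | ⟨j, rfl⟩
    · exact h6
    · exact absurd hk.symm (h3 i j)
  · refine prod_kernel (fun i => τ (v i)) τ₂ h2 _ _ fun i => ?_
    rw [mult_eq τ τ₂ hv.injective h2 (fun i k hk => ?_) i]
    rcases hc k with ⟨j, rfl⟩ | h6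
    · exact absurd hk (h3 j i)
    · exact h6

theorem PW_all {a b h : ℕ} {u : Fin a → Fin h} {v : Fin b → Fin h} (hs : Splits u v)
    (ha : 0 < a) (hb : 0 < b)
    {ι ι₁ ι₂ : Type} [DecidableEq ι] [DecidableEq ι₁] [DecidableEq ι₂] (τ : Fin h → ι)
    (τ₁ : Fin a → ι₁) (τ₂ : Fin b → ι₂) (h1 : ∀ i i', τ (u i) = τ (u i') ↔ τ₁ i = τ₁ i')
    (h2 : ∀ i i', τ (v i) = τ (v i') ↔ τ₂ i = τ₂ i') (h3 : ∀ i j, τ (u i) ≠ τ (v j)) :
    PW τ h = PW τ₁ a * PW τ₂ b *
      (((a : ℝ) / ((a : ℝ) + b)) ^ a * ((b : ℝ) / ((a : ℝ) + b)) ^ b) := by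
  have hh : (h : ℝ) = (a : ℝ) + b := by
    rw [splits_card hs]
    push_cast
    ring
  have ha' : (a : ℝ) ≠ 0 := by exact_mod_cast ha.ne'
  have hb' : (b : ℝ) ≠ 0 := by exact_mod_cast hb.ne'
  have hab : ((a : ℝ) + b) ≠ 0 := by positivity
  rw [PW_split hs τ τ₁ τ₂ h1 h2 h3, hh, PW_scale τ₁ (a : ℝ) _ ha' hab,
    PW_scale τ₂ (b : ℝ) _ hb' hab]
  ring

theorem value_eq {h : ℕ} (H : Fin h → Fin h → ℕ) :
    value H / (h.factorial : ℝ) ^ 2 = PW (fun i => H i) h * PW (fun j i => H i j) h := by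
  have hf : (h.factorial : ℝ) ≠ 0 := by exact_mod_cast (Nat.factorial_pos h).ne'
  unfold value
  rw [wm_eq, wm_eq]
  field_simp

end V81

open V81

theorem val81 : StVal := by
  intro a b h H e₁ e₂ g₁ g₂ ha hb hG hC
  obtain ⟨hS, hS', hsym⟩ := hG
  obtain ⟨hC1, hC2, hC3, hC4⟩ := hC
  rw [value_eq, value_eq, value_eq]
  have hr := PW_all hS ha hb (fun i => H i) (fun i j => H (e₁ i) (g₁ j))
    (fun i j => H (e₂ i) (g₂ j))
    (fun i i' => ⟨fun h => funext fun j => congrFun h (g₁ j), fun h => hC1 i i' (congrFun h)⟩)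
    (fun i i' => ⟨fun h => funext fun j => congrFun h (g₂ j), fun h => hC2 i i' (congrFun h)⟩)
    (fun i j h => by
      have h1 := (hsym (e₁ i) (e₂ j) (g₁ ⟨0, ha⟩) (g₁ ⟨0, ha⟩) (congrFun h _)).1.1 ⟨i, rfl⟩
      obtain ⟨k, hk⟩ := h1
      exact hS.2.2.1 k j hk)
  have hc := PW_all hS' ha hb (fun j i => H i j) (fun j i => H (e₁ i) (g₁ j))
    (fun j i => H (e₂ i) (g₂ j))
    (fun j j' => ⟨fun h => funext fun i => congrFun h (e₁ i),
      fun h => funext fun i => hC3 j j' (congrFun h) i⟩)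
    (fun j j' => ⟨fun h => funext fun i => congrFun h (e₂ i),
      fun h => funext fun i => hC4 j j' (congrFun h) i⟩)
    (fun i j h => by
      have h1 := (hsym (e₁ ⟨0, ha⟩) (e₁ ⟨0, ha⟩) (g₁ i) (g₂ j) (congrFun h _)).2.1 ⟨i, rfl⟩
      obtain ⟨k, hk⟩ := h1
      exact hS'.2.2.1 k j hk)
  rw [hr, hc]
  unfold fac
  ring

end Pool.Agent.Lib.MP_efec9b_co.BS
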