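import Pool.Agent.Lib.MP_efec9b_co.BS.Glue85
import Pool.Agent.Lib.MP_efec9b_co.BS.Base85
import Pool.Agent.Lib.MP_efec9b_co.BS.AM46
import Pool.Agent.Lib.MP_efec9b_co.BS.TR46
import Pool.Agent.Lib.MP_efec9b_co.BS.FIN46
import Pool.Agent.Lib.MP_efec9b_co.BS.VAL81

/-!
MP_efec9b_co: every member of the class is tight.
-/

set_option autoImplicit false

namespace Pool.Agent.Lib.MP_efec9b_co.BS

theorem built_pos {h : ℕ} {H : Fin h → Fin h → ℕ} (hB : Built H) : 0 < h := by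
  induction hB with
  | base H hh _ _ => exact hh
  | tr H _ ih => exact ih
  | glue H e₁ e₂ g₁ g₂ hG hC _ _ ih1 ih2 =>
    exact lt_of_le_of_lt (Nat.zero_le _) (e₁ ⟨0, ih1⟩).2

theorem tight_of_built {h : ℕ} {H : Fin h → Fin h → ℕ} (hB : Built H) : Tight H := by
  induction hB with
  | base H hh h1 h2 => exact base85 _ H hh h1 h2
  | tr H _ ih => exact tr46 _ H ih
  | @glue a b h H e₁ e₂ g₁ g₂ hG hC hB1 hB2 ih1 ih2 =>
    have ha := built_pos hB1
    have hb := built_pos hB2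
    have h1 : 0 ≤ value (fun i j => H (e₁ i) (g₁ j)) / (a.factorial : ℝ) ^ 2 :=
      div_nonneg (value_nonneg _) (by positivity)
    have h2 : 0 ≤ value (fun i j => H (e₂ i) (g₂ j)) / (b.factorial : ℝ) ^ 2 :=
      div_nonneg (value_nonneg _) (by positivity)
    have h3 := glue85 am46 a b h H e₁ e₂ g₁ g₂ _ _ ha hb hG h1 h2 ih1 ih2
    unfold Tight
    rw [val81 a b h H e₁ e₂ g₁ g₂ ha hb hG hC]
    exact h3

theorem both_of_built {h : ℕ} {H : Fin h → Fin h → ℕ} (hB : Built H) (hM : Mono H) :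
    BothEqual H (value H) := fin46 h H (built_pos hB) hM (tight_of_built hB)

end Pool.Agent.Lib.MP_efec9b_co.BS
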