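import Pool.Agent.Lib.MP_efec9b_co.BS.Defs85R

/-!
MP_efec9b_co: square matrices (row R5) and transposes (row R4).
-/

set_option autoImplicit false

namespace Pool.Agent.Lib.MP_efec9b_co.BS

open Finset BU77

theorem grids_le {h n : ℕ} (H : Fin h → Fin h → ℕ) (M : Fin n → Fin n → ℕ) :
    grids H M ≤ cells H M ^ h := by
  have h1 : cells H M ^ h = Nat.card (Fin h → {p : Fin n × Fin n // ∃ i j, H i j = M p.1 p.2}) := by
    rw [Nat.card_fun, Nat.card_fin]
    rfl
  rw [h1]
  unfold grids
  refine Nat.card_le_card_of_injective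
    (fun p => fun i => ⟨(p.1.1 i, p.1.2 i), p.2 i i⟩) ?_
  intro p q hpq
  have h2 : ∀ i, (p.1.1 i, p.1.2 i) = (q.1.1 i, q.1.2 i) := fun i =>
    congrArg Subtype.val (congrFun hpq i)
  apply Subtype.ext
  apply Prod.ext
  · funext i
    exact congrArg Prod.fst (h2 i)
  · funext i
    exact congrArg Prod.snd (h2 i)

theorem rvalue_nonneg {a h : ℕ} (H : Fin a → Fin h → ℕ) : 0 ≤ rvalue H :=
  mul_nonneg (div_nonneg (wordMax_nonneg _) (by positivity))
    (div_nonneg (wordMax_nonneg _) (by positivity))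

theorem value_rvalue {h : ℕ} (H : Fin h → Fin h → ℕ) :
    value H / (h.factorial : ℝ) ^ 2 = rvalue H := by
  unfold value rvalue
  have hf : (h.factorial : ℝ) ≠ 0 := by exact_mod_cast (Nat.factorial_pos h).ne'
  field_simp

theorem sq85 : StSq := by
  intro h H hT n M
  rw [value_rvalue]
  have h1 := hT n M
  have h2 : (grids H M : ℝ) ≤ (cells H M : ℝ) ^ h := by exact_mod_cast grids_le H M
  exact h1.trans (mul_le_mul_of_nonneg_left h2 (rvalue_nonneg H))

theorem rtr85 : StRTr := by
  intro a h H hT n M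
  have h1 := hT n (fun x y => M y x)
  have e1 : rcopies (fun j i => H i j) M = rcopies H (fun x y => M y x) := by
    unfold rcopies
    refine Nat.card_congr ((Equiv.prodComm (Fin h → Fin n) (Fin a → Fin n)).subtypeEquiv
      fun p => ?_)
    constructor
    · rintro ⟨h1, h2, h3⟩; exact ⟨h2, h1, fun i j => h3 j i⟩
    · rintro ⟨h1, h2, h3⟩; exact ⟨h2, h1, fun i j => h3 j i⟩
  have e2 : grids (fun j i => H i j) M = grids H (fun x y => M y x) := by
    unfold grids
    refine Nat.card_congr ((Equiv.prodComm (Fin h → Fin n) (Fin a → Fin n)).subtypeEquiv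
      fun p => ?_)
    constructor
    · intro h3 i j
      obtain ⟨i', j', h4⟩ := h3 j i
      exact ⟨j', i', h4⟩
    · intro h3 i j
      obtain ⟨i', j', h4⟩ := h3 j i
      exact ⟨j', i', h4⟩
  have e3 : rvalue (fun j i => H i j) = rvalue H := by
    unfold rvalue
    exact mul_comm _ _
  rw [e1, e2, e3]
  exact h1

end Pool.Agent.Lib.MP_efec9b_co.BS
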