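import Pool.Agent.Lib.MP_efec9b_co.BS.Defs85R

/-!
MP_efec9b_co: stacking rows (row R2).
-/

set_option autoImplicit false

namespace Pool.Agent.Lib.MP_efec9b_co.BS

open Finset BU77

namespace S85

theorem fac1_nonneg (a b : ℕ) : 0 ≤ fac1 a b := by
  unfold fac1
  positivity

theorem am2 (a b : ℕ) (ha : 0 < a) (hb : 0 < b) (x y : ℝ) (hx : 0 ≤ x) (hy : 0 ≤ y) :
    x ^ a * y ^ b ≤ fac1 a b * (x + y) ^ (a + b) := by
  have hA : (0 : ℝ) < a := by exact_mod_cast ha
  have hB : (0 : ℝ) < b := by exact_mod_cast hb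
  set s : ℝ := (a : ℝ) / ((a : ℝ) + b) with hs
  set t : ℝ := (b : ℝ) / ((a : ℝ) + b) with ht
  have hs0 : 0 < s := by positivity
  have ht0 : 0 < t := by positivity
  have hst : s + t = 1 := by
    rw [hs, ht]
    field_simp
  have h1 := Real.geom_mean_le_arith_mean2_weighted hs0.le ht0.le (div_nonneg hx hs0.le)
    (div_nonneg hy ht0.le) hst
  have h2 : s * (x / s) + t * (y / t) = x + y := by
    field_simp
  rw [h2] at h1
  have hl : 0 ≤ (x / s) ^ s * (y / t) ^ t := by positivity
  have h3 := pow_le_pow_left₀ hl h1 (a + b)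
  have e1 : ((x / s) ^ s) ^ (a + b) = (x / s) ^ a := by
    rw [← Real.rpow_natCast ((x / s) ^ s), ← Real.rpow_mul (by positivity), ← Real.rpow_natCast]
    congr 1
    rw [hs]
    push_cast
    field_simp
  have e2 : ((y / t) ^ t) ^ (a + b) = (y / t) ^ b := by
    rw [← Real.rpow_natCast ((y / t) ^ t), ← Real.rpow_mul (by positivity), ← Real.rpow_natCast]
    congr 1
    rw [ht]
    push_cast
    field_simp
  rw [mul_pow, e1, e2] at h3
  have e3 : x ^ a * y ^ b = (s ^ a * t ^ b) * ((x / s) ^ a * (y / t) ^ b) := by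
    have key : ∀ S T X Y : ℝ, S ≠ 0 → T ≠ 0 → X * Y = (S * T) * ((X / S) * (Y / T)) := by
      intro S T X Y hS hT
      field_simp
    rw [div_pow x s a, div_pow y t b]
    exact key _ _ _ _ (pow_pos hs0 a).ne' (pow_pos ht0 b).ne'
  rw [e3]
  unfold fac1
  exact mul_le_mul_of_nonneg_left h3 (by positivity)

open Classical in
theorem rcopies_eq {a h n : ℕ} (H : Fin a → Fin h → ℕ) (M : Fin n → Fin n → ℕ) : rcopies H M =
    ∑ c ∈ univ.filter (fun c : Fin h → Fin n => StrictMono c),
      (univ.filter fun r : Fin a → Fin n => StrictMono r ∧ ∀ i j, M (r i) (c j) = H i j).card := by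
  unfold rcopies
  rw [Nat.card_eq_fintype_card, Fintype.card_subtype, card_filter, Fintype.sum_prod_type,
    sum_comm, sum_filter]
  refine sum_congr rfl fun c _ => ?_
  by_cases hc : StrictMono c
  · rw [if_pos hc, card_filter]
    refine sum_congr rfl fun r _ => ?_
    by_cases hr : StrictMono r ∧ ∀ i j, M (r i) (c j) = H i j
    · rw [if_pos hr, if_pos ⟨hr.1, hc, hr.2⟩]
    · rw [if_neg hr, if_neg fun hh => hr ⟨hh.1, hh.2.2⟩]
  · rw [if_neg hc]
    refine sum_eq_zero fun r _ => ?_
    rw [if_neg fun hh => hc hh.2.1]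

open Classical in
/-- the rows all of whose cells on the columns `c` have a symbol of `H` -/
noncomputable def G {a h n : ℕ} (H : Fin a → Fin h → ℕ) (M : Fin n → Fin n → ℕ)
    (c : Fin h → Fin n) : Finset (Fin n) :=
  univ.filter fun x => ∀ j, ∃ i' j', H i' j' = M x (c j)

open Classical in
theorem grids_eq {a h n : ℕ} (H : Fin a → Fin h → ℕ) (M : Fin n → Fin n → ℕ) : grids H M =
    ∑ c : Fin h → Fin n, (G H M c).card ^ a := by
  unfold grids
  rw [Nat.card_eq_fintype_card, Fintype.card_subtype, card_filter, Fintype.sum_prod_type,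
    sum_comm]
  refine sum_congr rfl fun c _ => ?_
  rw [← card_filter, ← Fintype.card_piFinset_const]
  congr 1
  ext r
  simp only [Fintype.mem_piFinset, mem_filter, mem_univ, true_and, G]

open Classical in
/-- step 2 -/
theorem step2 {b h n : ℕ} (H : Fin b → Fin h → ℕ) (M : Fin n → Fin n → ℕ) (c : Fin h → Fin n)
    (hb : 0 < b) : ((univ.filter fun r : Fin b → Fin n => StrictMono r ∧
      ∀ i j, M (r i) (c j) = H i j).card : ℝ) ≤
      wordMax (fun i => H i) / (b.factorial : ℝ) * ((G H M c).card : ℝ) ^ b := by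
  set A : (Fin h → ℕ) → Finset (Fin n) := fun w => univ.filter fun x => ∀ j, M x (c j) = w j
    with hA
  have e1 : (univ.filter fun r : Fin b → Fin n => StrictMono r ∧ ∀ i j, M (r i) (c j) = H i j) =
      (univ.filter fun r : Fin b → Fin n => StrictMono r ∧ ∀ i, r i ∈ A (H i)) := by
    ext r
    simp only [mem_filter, mem_univ, true_and, hA]
  have c1 := countG (fun i => H i) A
  have c2 := choose_prod_le (fun i => H i) hb (fun v => (A v).card)
  have c3 : ((univ.filter fun r : Fin b → Fin n => StrictMono r ∧ ∀ i, r i ∈ A (H i)).card : ℝ)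
      ≤ ((∏ v ∈ univ.image (fun i => H i), (A v).card.choose (mu (fun i => H i) v) : ℕ) : ℝ) := by
    exact_mod_cast c1
  rw [e1]
  refine (c3.trans c2).trans ?_
  have hw : 0 ≤ wordMax (fun i => H i) / (b.factorial : ℝ) :=
    div_nonneg (wordMax_nonneg _) (by positivity)
  refine mul_le_mul_of_nonneg_left ?_ hw
  refine pow_le_pow_left₀ (sum_nonneg fun v _ => by positivity) ?_ b
  have h1 : ∑ v ∈ univ.image (fun i => H i), (A v).card ≤ (G H M c).card := by
    rw [← card_biUnion]
    · refine card_le_card fun x hx => ?_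
      obtain ⟨v, hv, hx⟩ := mem_biUnion.1 hx
      obtain ⟨i, -, rfl⟩ := mem_image.1 hv
      rw [hA] at hx
      exact mem_filter.2 ⟨mem_univ _, fun j => ⟨i, j, ((mem_filter.1 hx).2 j).symm⟩⟩
    · intro v _ v' _ hvv
      rw [Function.onFun, disjoint_left]
      intro x hx hx'
      apply hvv
      funext j
      rw [hA] at hx hx'
      rw [← (mem_filter.1 hx).2 j, ← (mem_filter.1 hx').2 j]
  exact_mod_cast h1

theorem card_splits {a b m : ℕ} {u : Fin a → Fin m} {v : Fin b → Fin m} (hs : Splits u v) :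
    m = a + b := by
  obtain ⟨hu, hv, hd, hc⟩ := hs
  have h1 : (Finset.univ : Finset (Fin m)) = Finset.univ.image u ∪ Finset.univ.image v := by
    ext k
    simp only [Finset.mem_univ, Finset.mem_union, Finset.mem_image, true_and, true_iff]
    exact hc k
  have h2 : Disjoint (Finset.univ.image u) (Finset.univ.image v) := by
    rw [Finset.disjoint_left]
    rintro k h3 h4
    obtain ⟨i, -, rfl⟩ := Finset.mem_image.1 h3
    obtain ⟨j, -, h5⟩ := Finset.mem_image.1 h4
    exact hd i j h5.symm
  have h3 := congrArg Finset.card h1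
  rw [Finset.card_union_of_disjoint h2, Finset.card_image_of_injective _ hu.injective,
    Finset.card_image_of_injective _ hv.injective] at h3
  simpa using h3

open Classical in
/-- step 1 -/
theorem step1 {a b m h n : ℕ} (H : Fin m → Fin h → ℕ) (u : Fin a → Fin m) (v : Fin b → Fin m)
    (hS : Splits u v) (M : Fin n → Fin n → ℕ) (c : Fin h → Fin n) :
    (univ.filter fun r : Fin m → Fin n => StrictMono r ∧ ∀ i j, M (r i) (c j) = H i j).card ≤
      (univ.filter fun r : Fin a → Fin n => StrictMono r ∧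
        ∀ i j, M (r i) (c j) = H (u i) j).card *
      (univ.filter fun r : Fin b → Fin n => StrictMono r ∧
        ∀ i j, M (r i) (c j) = H (v i) j).card := by
  obtain ⟨hu, hv, huv, hcov⟩ := hS
  rw [← card_product]
  refine card_le_card_of_injOn (fun r => (fun i => r (u i), fun i => r (v i))) ?_ ?_
  · intro r hr
    obtain ⟨-, h1, h2⟩ := mem_filter.1 (mem_coe.1 hr)
    rw [mem_coe, mem_product, mem_filter, mem_filter]
    exact ⟨⟨mem_univ _, fun i i' hi => h1 (hu hi), fun i j => h2 _ _⟩,
      ⟨mem_univ _, fun i i' hi => h1 (hv hi), fun i j => h2 _ _⟩⟩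
  · intro r _ r' _ hrr
    have h1 := congrArg Prod.fst hrr
    have h2 := congrArg Prod.snd hrr
    funext k
    rcases hcov k with ⟨i, rfl⟩ | ⟨i, rfl⟩
    · exact congrFun h1 i
    · exact congrFun h2 i

open Classical in
/-- steps 3 and 4: swapping the sums -/
theorem step4 {a b h n : ℕ} (H₁ : Fin a → Fin h → ℕ) (H₂ : Fin b → Fin h → ℕ) (κ : ℝ)
    (ha : 0 < a) (hκ : 0 ≤ κ) (hL : RLoc H₁ κ) (M : Fin n → Fin n → ℕ) :
    ∑ c ∈ univ.filter (fun c : Fin h → Fin n => StrictMono c),
      ((univ.filter fun r : Fin a → Fin n => StrictMono r ∧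
        ∀ i j, M (r i) (c j) = H₁ i j).card : ℝ) * ((G H₂ M c).card : ℝ) ^ b ≤
      κ * ∑ c : Fin h → Fin n, ((G H₁ M c).card : ℝ) ^ a * ((G H₂ M c).card : ℝ) ^ b := by
  set f : ℕ := (∑ i, ∑ j, H₁ i j) + 1 with hf
  have hfr : ∀ i j, H₁ i j ≠ f := by
    intro i j hE
    have h1 : H₁ i j ≤ ∑ j, H₁ i j := single_le_sum (f := fun j => H₁ i j)
      (fun _ _ => Nat.zero_le _) (mem_univ j)
    have h2 : ∑ j, H₁ i j ≤ ∑ i, ∑ j, H₁ i j := single_le_sum (f := fun i => ∑ j, H₁ i j)
      (fun _ _ => Nat.zero_le _) (mem_univ i)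
    omega
  set ok : (Fin b → Fin n) → Fin n → Prop := fun s y => ∀ k, ∃ i' j', H₂ i' j' = M (s k) y
    with hok
  set Ms : (Fin b → Fin n) → Fin n → Fin n → ℕ := fun s x y => if ok s y then M x y else f
    with hMs
  have pw : ∀ c : Fin h → Fin n, ((G H₂ M c).card : ℝ) ^ b =
      ∑ s : Fin b → Fin n, if ∀ j, ok s (c j) then (1 : ℝ) else 0 := by
    intro c
    have h1 : (G H₂ M c).card ^ b =
        (univ.filter fun s : Fin b → Fin n => ∀ j, ok s (c j)).card := by
      rw [← Fintype.card_piFinset_const]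
      congr 1
      ext s
      simp only [Fintype.mem_piFinset, mem_filter, mem_univ, true_and, G, hok]
      exact ⟨fun hh j k => hh k j, fun hh k j => hh j k⟩
    rw [← Nat.cast_pow, h1, card_filter]
    push_cast
    rfl
  have main : ∀ s : Fin b → Fin n,
      ∑ c ∈ univ.filter (fun c : Fin h → Fin n => StrictMono c),
        ((univ.filter fun r : Fin a → Fin n => StrictMono r ∧
          ∀ i j, M (r i) (c j) = H₁ i j).card : ℝ) * (if ∀ j, ok s (c j) then (1 : ℝ) else 0) ≤
      κ * ∑ c : Fin h → Fin n, ((G H₁ M c).card : ℝ) ^ a *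
        (if ∀ j, ok s (c j) then (1 : ℝ) else 0) := by
    intro s
    have h1 := hL n (Ms s)
    rw [rcopies_eq, grids_eq] at h1
    push_cast at h1
    refine le_trans ?_ (h1.trans ?_)
    · refine sum_le_sum fun c _ => ?_
      by_cases hc : ∀ j, ok s (c j)
      · rw [if_pos hc, mul_one]
        refine le_of_eq ?_
        congr 2
        ext r
        simp only [mem_filter, mem_univ, true_and, hMs, if_pos (hc _)]
      · rw [if_neg hc, mul_zero]
        positivity
    · refine mul_le_mul_of_nonneg_left ?_ hκ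
      refine sum_le_sum fun c _ => ?_
      by_cases hc : ∀ j, ok s (c j)
      · rw [if_pos hc, mul_one]
        refine le_of_eq ?_
        congr 2
        unfold G
        congr 1
        ext x
        simp only [mem_filter, mem_univ, true_and, hMs, if_pos (hc _)]
      · rw [if_neg hc, mul_zero]
        have h2 : G H₁ (Ms s) c = ∅ := by
          rw [not_forall] at hc
          obtain ⟨j, hj⟩ := hc
          refine filter_eq_empty_iff.2 fun x _ hx => ?_
          obtain ⟨i', j', he⟩ := hx j
          simp only [hMs, if_neg hj] at he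
          exact hfr i' j' he
        rw [h2, card_empty, Nat.cast_zero, zero_pow ha.ne']
  calc _ = ∑ s : Fin b → Fin n, ∑ c ∈ univ.filter (fun c : Fin h → Fin n => StrictMono c),
        ((univ.filter fun r : Fin a → Fin n => StrictMono r ∧
          ∀ i j, M (r i) (c j) = H₁ i j).card : ℝ) *
          (if ∀ j, ok s (c j) then (1 : ℝ) else 0) := by
        rw [sum_comm]
        refine sum_congr rfl fun c _ => ?_
        rw [pw c, mul_sum]
    _ ≤ ∑ s : Fin b → Fin n, κ * ∑ c : Fin h → Fin n, ((G H₁ M c).card : ℝ) ^ a *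
        (if ∀ j, ok s (c j) then (1 : ℝ) else 0) := sum_le_sum fun s _ => main s
    _ = _ := by
        rw [← mul_sum, sum_comm]
        congr 1
        refine sum_congr rfl fun c _ => ?_
        rw [pw c, mul_sum]

end S85

open S85 in
open Classical in
theorem stack85 : StStack := by
  intro a b m h H u v κ ha hb hh hS hκ hL n M
  obtain ⟨hSp, hd, -⟩ := hS
  have hm := card_splits hSp
  have hw : 0 ≤ wordMax (fun i => H (v i)) / (b.factorial : ℝ) :=
    div_nonneg (wordMax_nonneg _) (by positivity)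
  set W := wordMax (fun i => H (v i)) / (b.factorial : ℝ) with hW
  have h1 : (rcopies H M : ℝ) ≤ ∑ c ∈ univ.filter (fun c : Fin h → Fin n => StrictMono c),
      ((univ.filter fun r : Fin a → Fin n => StrictMono r ∧
        ∀ i j, M (r i) (c j) = H (u i) j).card : ℝ) *
        (W * ((G (fun i => H (v i)) M c).card : ℝ) ^ b) := by
    rw [rcopies_eq]
    push_cast
    refine sum_le_sum fun c _ => ?_
    have s1 := step1 H u v hSp M c
    have s2 := step2 (fun i => H (v i)) M c hb
    have s3 : (((univ.filter fun r : Fin m → Fin n => StrictMono r ∧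
        ∀ i j, M (r i) (c j) = H i j).card : ℕ) : ℝ) ≤
      ((univ.filter fun r : Fin a → Fin n => StrictMono r ∧
        ∀ i j, M (r i) (c j) = H (u i) j).card : ℝ) *
      ((univ.filter fun r : Fin b → Fin n => StrictMono r ∧
        ∀ i j, M (r i) (c j) = H (v i) j).card : ℝ) := by exact_mod_cast s1
    exact s3.trans (mul_le_mul_of_nonneg_left s2 (Nat.cast_nonneg _))
  have h2 : ∑ c ∈ univ.filter (fun c : Fin h → Fin n => StrictMono c),
      ((univ.filter fun r : Fin a → Fin n => StrictMono r ∧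
        ∀ i j, M (r i) (c j) = H (u i) j).card : ℝ) *
        (W * ((G (fun i => H (v i)) M c).card : ℝ) ^ b) =
      W * ∑ c ∈ univ.filter (fun c : Fin h → Fin n => StrictMono c),
      ((univ.filter fun r : Fin a → Fin n => StrictMono r ∧
        ∀ i j, M (r i) (c j) = H (u i) j).card : ℝ) *
        ((G (fun i => H (v i)) M c).card : ℝ) ^ b := by
    rw [mul_sum]
    exact sum_congr rfl fun c _ => by ring
  have h3 := step4 (fun i => H (u i)) (fun i => H (v i)) κ ha hκ hL M
  have h4 : ∑ c : Fin h → Fin n, ((G (fun i => H (u i)) M c).card : ℝ) ^ a *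
      ((G (fun i => H (v i)) M c).card : ℝ) ^ b ≤ fac1 a b * (grids H M : ℝ) := by
    rw [grids_eq]
    push_cast
    rw [mul_sum]
    refine sum_le_sum fun c _ => ?_
    refine (am2 a b ha hb _ _ (Nat.cast_nonneg _) (Nat.cast_nonneg _)).trans ?_
    refine mul_le_mul_of_nonneg_left ?_ (fac1_nonneg a b)
    rw [← hm]
    refine pow_le_pow_left₀ (by positivity) ?_ m
    have hdis : Disjoint (G (fun i => H (u i)) M c) (G (fun i => H (v i)) M c) := by
      rw [disjoint_left]
      intro x hx hx'
      obtain ⟨i, j, h5⟩ := (mem_filter.1 hx).2 ⟨0, hh⟩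
      obtain ⟨i', j', h6⟩ := (mem_filter.1 hx').2 ⟨0, hh⟩
      exact hd i i' j j' (h5.trans h6.symm)
    have hle : (G (fun i => H (u i)) M c).card + (G (fun i => H (v i)) M c).card ≤
        (G H M c).card := by
      rw [← card_union_of_disjoint hdis]
      refine card_le_card fun x hx => ?_
      refine mem_filter.2 ⟨mem_univ _, fun j => ?_⟩
      rcases mem_union.1 hx with h7 | h7
      · obtain ⟨i, j', h8⟩ := (mem_filter.1 h7).2 j
        exact ⟨u i, j', h8⟩
      · obtain ⟨i, j', h8⟩ := (mem_filter.1 h7).2 j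
        exact ⟨v i, j', h8⟩
    exact_mod_cast hle
  calc (rcopies H M : ℝ) ≤ _ := h1
    _ = _ := h2
    _ ≤ W * (κ * ∑ c : Fin h → Fin n, ((G (fun i => H (u i)) M c).card : ℝ) ^ a *
        ((G (fun i => H (v i)) M c).card : ℝ) ^ b) := mul_le_mul_of_nonneg_left h3 hw
    _ ≤ W * (κ * (fac1 a b * (grids H M : ℝ))) :=
        mul_le_mul_of_nonneg_left (mul_le_mul_of_nonneg_left h4 hκ) hw
    _ = _ := by ring

end Pool.Agent.Lib.MP_efec9b_co.BS
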