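import Pool.Agent.Lib.MP_efec9b_co.BS.All85
import Pool.Agent.Lib.MP_efec9b_co.BS.Stack85
import Pool.Agent.Lib.MP_efec9b_co.BS.Sq85

/-!
MP_efec9b_co: every member of the class is tight (assembly).
-/

set_option autoImplicit false

namespace Pool.Agent.Lib.MP_efec9b_co.BS

theorem rect_pos {a h : ℕ} {H : Fin a → Fin h → ℕ} (hR : Rect H) : 0 < a ∧ 0 < h := by
  induction hR with
  | base H ha hh _ _ => exact ⟨ha, hh⟩
  | tr H _ ih => exact ⟨ih.2, ih.1⟩
  | stack H u v _ _ _ ih =>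
    exact ⟨lt_of_le_of_lt (Nat.zero_le _) (u ⟨0, ih.1⟩).2, ih.2⟩

theorem rtight_of_rect (hR1 : StRBase) (hR3 : StRVal) {a h : ℕ} {H : Fin a → Fin h → ℕ}
    (hR : Rect H) : RTight H := by
  induction hR with
  | base H ha hh h1 h2 => exact hR1 _ _ H ha hh h1 h2
  | tr H _ ih => exact rtr85 _ _ H ih
  | @stack a b m h H u v hb hS hB ih =>
    obtain ⟨ha, hh⟩ := rect_pos hB
    have h3 := stack85 a b m h H u v _ ha hb hh hS (rvalue_nonneg _) ih
    unfold RTight
    rw [hR3 a b m h H u v ha hb hh hS]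
    exact h3

theorem built2_pos {h : ℕ} {H : Fin h → Fin h → ℕ} (hB : Built2 H) : 0 < h := by
  induction hB with
  | sq H hR => exact (rect_pos hR).1
  | tr H _ ih => exact ih
  | glue H e₁ e₂ g₁ g₂ hG hC _ _ ih1 ih2 =>
    exact lt_of_le_of_lt (Nat.zero_le _) (e₁ ⟨0, ih1⟩).2

theorem tight_of_built2 (hR1 : StRBase) (hR3 : StRVal) {h : ℕ} {H : Fin h → Fin h → ℕ}
    (hB : Built2 H) : Tight H := by
  induction hB with
  | sq H hR => exact sq85 _ H (rtight_of_rect hR1 hR3 hR)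
  | tr H _ ih => exact tr46 _ H ih
  | @glue a b h H e₁ e₂ g₁ g₂ hG hC hB1 hB2 ih1 ih2 =>
    have ha := built2_pos hB1
    have hb := built2_pos hB2
    have h1 : 0 ≤ value (fun i j => H (e₁ i) (g₁ j)) / (a.factorial : ℝ) ^ 2 :=
      div_nonneg (value_nonneg _) (by positivity)
    have h2 : 0 ≤ value (fun i j => H (e₂ i) (g₂ j)) / (b.factorial : ℝ) ^ 2 :=
      div_nonneg (value_nonneg _) (by positivity)
    have h3 := glue85 am46 a b h H e₁ e₂ g₁ g₂ _ _ ha hb hG h1 h2 ih1 ih2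
    unfold Tight
    rw [val81 a b h H e₁ e₂ g₁ g₂ ha hb hG hC]
    exact h3

theorem both_of_built2 (hR1 : StRBase) (hR3 : StRVal) {h : ℕ} {H : Fin h → Fin h → ℕ}
    (hB : Built2 H) (hM : Mono H) : BothEqual H (value H) :=
  fin46 h H (built2_pos hB) hM (tight_of_built2 hR1 hR3 hB)

/-- the old class -/
theorem built2_of_built {h : ℕ} {H : Fin h → Fin h → ℕ} (hB : Built H) : Built2 H := by
  induction hB with
  | base H hh h1 h2 => exact Built2.sq H (Rect.base H hh hh h1 h2)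
  | tr H _ ih => exact Built2.tr H ih
  | glue H e₁ e₂ g₁ g₂ hG hC _ _ ih1 ih2 => exact Built2.glue H e₁ e₂ g₁ g₂ hG hC ih1 ih2

end Pool.Agent.Lib.MP_efec9b_co.BS
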