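import Pool.Agent.Lib.MP_efec9b_co.BS.Defs85S

/-!
MP_efec9b_co, stacking theorem: row R9 (helper84).
-/

set_option autoImplicit false

namespace Pool.Agent.Lib.MP_efec9b_co.BS

open Finset

/-- a matrix with one row is in the class -/
theorem good_row84 {h : ℕ} (hh : 0 < h) (H : Fin 1 → Fin h → ℕ) : Good H := by
  refine Good.base H Nat.one_pos hh ?_ ?_
  · intro i i'
    left
    rw [Subsingleton.elim i i']
  · intro K x hx hx0 hsum
    have e1 : ∏ i : Fin 1, (((univ.filter fun i' => H i' = H i).card : ℝ) / (1 : ℕ)) = 1 := by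
      refine prod_eq_one fun i _ => ?_
      have : (univ.filter fun i' => H i' = H i) = {i} := by
        ext i'
        rw [mem_filter, mem_singleton]
        constructor
        · intro _
          exact Subsingleton.elim i' i
        · rintro rfl
          exact ⟨mem_univ _, rfl⟩
      rw [this, card_singleton]
      norm_num
    rw [e1]
    have inj : Set.InjOn (fun v : Fin 1 → ℕ => v 0)
        (univ.image (fun j i => H i j) : Finset (Fin 1 → ℕ)) := by
      intro v _ v' _ hv
      funext i
      rw [Subsingleton.elim i 0]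
      exact hv
    have e2 : ∑ v ∈ univ.image (fun j i => H i j), ∏ i, x (v i) =
        ∑ s ∈ (univ.image (fun j i => H i j)).image (fun v : Fin 1 → ℕ => v 0), x s := by
      rw [sum_image inj]
      refine sum_congr rfl fun v _ => ?_
      rw [Fin.prod_univ_one]
    rw [e2]
    refine le_trans ?_ hsum
    rw [← sum_filter_add_sum_filter_not _ (fun s => s ∈ K)]
    have e3 : ∑ s ∈ ((univ.image (fun j i => H i j)).image (fun v : Fin 1 → ℕ => v 0)).filter
        (fun s => ¬ s ∈ K), x s = 0 := by
      refine sum_eq_zero fun s hs => ?_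
      exact hx0 s (mem_filter.1 hs).2
    rw [e3, add_zero]
    refine sum_le_sum_of_subset_of_nonneg ?_ fun s _ _ => hx s
    intro s hs
    exact (mem_filter.1 hs).2

theorem onerow84 : StOneRow := by
  intro m h H i₀ hh h1 h2
  obtain ⟨b, rfl⟩ : ∃ b, m = b + 1 := ⟨m - 1, by have := i₀.pos; omega⟩
  rcases Nat.eq_zero_or_pos b with hb | hb
  · subst hb
    exact good_row84 hh H
  · refine Good.stack H (fun _ : Fin 1 => i₀) i₀.succAbove hb ⟨⟨?_, ?_, ?_, ?_⟩, ?_, ?_⟩
      (good_row84 hh _)
    · exact Subsingleton.strictMono _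
    · exact Fin.strictMono_succAbove i₀
    · intro _ j
      exact (Fin.succAbove_ne i₀ j).symm
    · intro k
      by_cases hk : k = i₀
      · left
        exact ⟨0, hk.symm⟩
      · right
        exact Fin.exists_succAbove_eq hk
    · intro _ i' j j' he
      exact h1 (i₀.succAbove i') j' j (Fin.succAbove_ne i₀ i') he.symm
    · intro j j' he i
      exact h2 j j' (he 0) i

end Pool.Agent.Lib.MP_efec9b_co.BS
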