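import Pool.Agent.Lib.MP_efec9b_co.BS.Defs85R

/-!
MP_efec9b_co, stacking theorem: row R1 (helper84; word_bound adapted from Lag77).
-/

set_option autoImplicit false

namespace Pool.Agent.Lib.MP_efec9b_co.BS.RB84

open Finset BU77

section

variable {a h : ℕ} (H : Fin a → Fin h → ℕ)

/-- the distinct columns -/
def rcols : Finset (Fin a → ℕ) := univ.image fun j i => H i j

theorem mem_rcols {v : Fin a → ℕ} : v ∈ rcols H ↔ ∃ j, (fun i => H i j) = v := by
  unfold rcols
  rw [mem_image]
  constructor
  · rintro ⟨j, -, hj⟩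
    exact ⟨j, hj⟩
  · rintro ⟨j, hj⟩
    exact ⟨j, mem_univ _, hj⟩

open Classical in
/-- words: the number of occurrences of the distinct columns -/
theorem rword_bound (ha : 0 < a) (hN : RApart H) (hL : RLag H) {n : ℕ} (w : Fin n → ℕ) :
    ∑ v ∈ rcols H, ((univ.filter fun r : Fin a → Fin n => StrictMono r ∧
      ∀ i, w (r i) = v i).card : ℝ) ≤ wordMax (fun i => H i) / a.factorial * (n : ℝ) ^ a := by
  have hR : (0 : ℝ) < a := by exact_mod_cast ha
  set ρ : Fin a → Fin h → ℕ := fun i => H i with hρ
  set cnt : ℕ → ℕ := fun s => (univ.filter fun x : Fin n => w x = s).card with hcnt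
  set P : ℝ := ∏ b ∈ univ.image ρ, ((mu ρ b).factorial : ℝ) with hP
  have hPpos : 0 < P := prod_pos fun b _ => by exact_mod_cast (mu ρ b).factorial_pos
  have one : ∀ v ∈ rcols H, ((univ.filter fun r : Fin a → Fin n => StrictMono r ∧
      ∀ i, w (r i) = v i).card : ℝ) ≤ (∏ i, (cnt (v i) : ℝ)) / P := by
    intro v hv
    obtain ⟨j, hj⟩ := (mem_rcols H).1 hv
    have hvi : ∀ i, v i = ρ i j := fun i => (congrFun hj i).symm
    have c1 := countG v (fun s => univ.filter fun x : Fin n => w x = s)
    have e1 : (univ.filter fun r : Fin a → Fin n => StrictMono r ∧ ∀ i, w (r i) = v i) =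
        (univ.filter fun c : Fin a → Fin n => StrictMono c ∧
          ∀ i, c i ∈ univ.filter fun x : Fin n => w x = v i) := by
      ext r
      simp only [mem_filter, mem_univ, true_and]
    rw [e1]
    have inj : Set.InjOn (fun b : Fin h → ℕ => b j) (univ.image ρ : Finset (Fin h → ℕ)) := by
      intro b hb b' hb' hbb
      rw [mem_coe, mem_image] at hb hb'
      obtain ⟨i, -, rfl⟩ := hb
      obtain ⟨i', -, rfl⟩ := hb'
      rcases hN i i' with hE | hE
      · exact hE
      · exact absurd hbb (hE j)
    have himg : univ.image v = (univ.image ρ).image (fun b : Fin h → ℕ => b j) := by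
      rw [image_image]
      refine image_congr fun i _ => ?_
      exact hvi i
    have hmu : ∀ b ∈ univ.image ρ, mu v (b j) = mu ρ b := by
      intro b hb
      obtain ⟨i, -, rfl⟩ := mem_image.1 hb
      unfold mu
      congr 1
      ext i'
      rw [mem_filter, mem_filter, hvi i']
      constructor
      · rintro ⟨h1, h2⟩
        exact ⟨h1, inj (mem_coe.2 (mem_image_of_mem ρ (mem_univ i')))
          (mem_coe.2 (mem_image_of_mem ρ (mem_univ i))) h2⟩
      · rintro ⟨h1, h2⟩
        exact ⟨h1, by rw [h2]⟩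
    have e2 : ∏ s ∈ univ.image v, (cnt s).choose (mu v s) =
        ∏ b ∈ univ.image ρ, (cnt (b j)).choose (mu ρ b) := by
      rw [himg, prod_image inj]
      exact prod_congr rfl fun b hb => by rw [hmu b hb]
    have c2 : ((univ.filter fun c : Fin a → Fin n => StrictMono c ∧
          ∀ i, c i ∈ univ.filter fun x : Fin n => w x = v i).card : ℝ) ≤
        ((∏ b ∈ univ.image ρ, (cnt (b j)).choose (mu ρ b) : ℕ) : ℝ) := by
      rw [← e2]
      exact_mod_cast c1
    refine c2.trans ?_
    have e3 : (∏ i, (cnt (v i) : ℝ)) = ∏ b ∈ univ.image ρ, (cnt (b j) : ℝ) ^ mu ρ b := by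
      rw [← fib_prod ρ (fun b => (cnt (b j) : ℝ))]
      exact prod_congr rfl fun i _ => by rw [hvi i]
    rw [e3, hP, ← prod_div_distrib]
    push_cast
    refine prod_le_prod (fun b _ => by positivity) fun b _ => ?_
    exact Nat.choose_le_pow_div (mu ρ b) (cnt (b j))
  refine (sum_le_sum one).trans ?_
  rw [← sum_div]
  have e4 : wordMax ρ / a.factorial = (∏ i, ((mu ρ (ρ i) : ℝ) / a)) / P := by
    rw [wordMax_eq, fib_prod ρ (fun b => (mu ρ b : ℝ) / a), hP, ← prod_div_distrib]
    have : (0 : ℝ) < a.factorial := by exact_mod_cast a.factorial_pos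
    field_simp
  rw [e4, div_mul_eq_mul_div]
  refine div_le_div_of_nonneg_right ?_ hPpos.le
  rcases Nat.eq_zero_or_pos n with hn | hn
  · subst hn
    have : ∀ s, cnt s = 0 := by
      intro s
      rw [hcnt]
      dsimp only
      rw [card_eq_zero]
      exact filter_eq_empty_iff.2 fun x => x.elim0
    have z : ∑ v ∈ rcols H, ∏ i, (cnt (v i) : ℝ) = 0 := by
      refine sum_eq_zero fun v _ => ?_
      refine prod_eq_zero (mem_univ (⟨0, ha⟩ : Fin a)) ?_
      rw [this]
      norm_num
    rw [z]
    positivity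
  · have hnR : (0 : ℝ) < n := by exact_mod_cast hn
    set K : Finset ℕ := univ.image w with hKdef
    have l := hL K (fun s => (cnt s : ℝ) / n) (fun s => by positivity) (by
      intro s hs
      have : cnt s = 0 := by
        rw [hcnt]
        dsimp only
        rw [card_eq_zero, filter_eq_empty_iff]
        intro x _ hx
        exact hs (mem_image.2 ⟨x, mem_univ _, hx⟩)
      rw [this]
      simp) (by
      rw [← sum_div]
      have : ∑ s ∈ K, (cnt s : ℝ) = n := by
        have := card_eq_sum_card_image w (univ : Finset (Fin n))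
        rw [card_univ, Fintype.card_fin] at this
        rw [hKdef]
        exact_mod_cast this.symm
      rw [this, div_self hnR.ne'])
    have e5 : ∑ v ∈ rcols H, ∏ i, (cnt (v i) : ℝ) =
        (∑ v ∈ rcols H, ∏ i, ((cnt (v i) : ℝ) / n)) * (n : ℝ) ^ a := by
      rw [sum_mul]
      refine sum_congr rfl fun v _ => ?_
      rw [prod_div_distrib, prod_const, card_univ, Fintype.card_fin]
      field_simp
    rw [e5]
    exact mul_le_mul_of_nonneg_right l (by positivity)

open Classical in
/-- the same for the letters in the places `S` only -/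
theorem rword_loc (ha : 0 < a) (hN : RApart H) (hL : RLag H) {n : ℕ} (w : Fin n → ℕ)
    (S : Finset (Fin n)) :
    ∑ v ∈ rcols H, ((univ.filter fun r : Fin a → Fin n => StrictMono r ∧
      (∀ i, r i ∈ S) ∧ ∀ i, w (r i) = v i).card : ℝ) ≤
        wordMax (fun i => H i) / a.factorial * (S.card : ℝ) ^ a := by
  set e : Fin S.card ↪o Fin n := S.orderEmbOfFin rfl with he
  refine le_trans ?_ (rword_bound H ha hN hL (fun x => w (e x)))
  refine sum_le_sum fun v hv => ?_
  have : (univ.filter fun r : Fin a → Fin n => StrictMono r ∧ (∀ i, r i ∈ S) ∧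
      ∀ i, w (r i) = v i).card ≤
      (univ.filter fun r : Fin a → Fin S.card => StrictMono r ∧ ∀ i, w (e (r i)) = v i).card := by
    refine Finset.card_le_card_of_surjOn (fun r => fun i => e (r i)) ?_
    intro r hr
    rw [mem_coe, mem_filter] at hr
    obtain ⟨-, hr1, hmem, hr2⟩ := hr
    have hex : ∀ i, ∃ x, e x = r i := by
      intro i
      have h1 : r i ∈ Set.range e := by
        rw [he, Finset.range_orderEmbOfFin]
        exact mem_coe.2 (hmem i)
      exact h1
    choose r' hr' using hex
    refine ⟨r', ?_, funext hr'⟩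
    rw [mem_coe, mem_filter]
    refine ⟨mem_univ _, ?_, ?_⟩
    · intro x y hxy
      have := hr1 hxy
      rw [← hr' x, ← hr' y] at this
      exact e.lt_iff_lt.1 this
    · intro i
      rw [hr' i]
      exact hr2 i
  exact_mod_cast this

open Classical in
theorem sum_pow_eq {ι : Type} [Fintype ι] (m : ℕ) (f : ι → ℝ) :
    (∑ y, f y) ^ m = ∑ c : Fin m → ι, ∏ i, f (c i) := by
  have := Finset.prod_univ_sum (fun _ : Fin m => (univ : Finset ι)) (fun _ y => f y)
  rw [prod_const, card_univ, Fintype.card_fin, Fintype.piFinset_univ] at this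
  exact this

open Classical in
theorem grids_sum {n : ℕ} (M : Fin n → Fin n → ℕ) :
    (grids H M : ℝ) = ∑ c : Fin h → Fin n,
      ((univ.filter fun x : Fin n => ∀ j, ∃ i' j', H i' j' = M x (c j)).card : ℝ) ^ a := by
  unfold grids
  rw [Nat.card_eq_fintype_card, Fintype.card_subtype, card_filter, Fintype.sum_prod_type,
    sum_comm]
  push_cast
  refine sum_congr rfl fun c _ => ?_
  set S : Finset (Fin n) := univ.filter fun x : Fin n => ∀ j, ∃ i' j', H i' j' = M x (c j) with hS
  have e1 : (univ.filter fun r : Fin a → Fin n => ∀ i j, ∃ i' j', H i' j' = M (r i) (c j)) =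
      Fintype.piFinset fun _ : Fin a => S := by
    ext r
    rw [mem_filter, Fintype.mem_piFinset]
    constructor
    · rintro ⟨-, hr⟩ i
      rw [hS, mem_filter]
      exact ⟨mem_univ _, hr i⟩
    · intro hr
      refine ⟨mem_univ _, fun i => ?_⟩
      have := hr i
      rw [hS, mem_filter] at this
      exact this.2
  have e2 : (univ.filter fun r : Fin a → Fin n =>
      ∀ i j, ∃ i' j', H i' j' = M (r i) (c j)).card = S.card ^ a := by
    rw [e1, Fintype.card_piFinset, prod_const, card_univ, Fintype.card_fin]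
  rw [← Nat.cast_pow, ← e2, card_filter]
  push_cast
  rfl

open Classical in
theorem rcopies_eq {n : ℕ} (M : Fin n → Fin n → ℕ) : rcopies H M =
    ∑ r ∈ univ.filter (fun r : Fin a → Fin n => StrictMono r),
      (univ.filter fun c : Fin h → Fin n => StrictMono c ∧ ∀ i j, M (r i) (c j) = H i j).card := by
  unfold rcopies
  rw [Nat.card_eq_fintype_card, Fintype.card_subtype, card_filter, Fintype.sum_prod_type,
    sum_filter]
  refine sum_congr rfl fun r _ => ?_
  by_cases hr : StrictMono r
  · rw [if_pos hr, card_filter]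
    refine sum_congr rfl fun c _ => ?_
    by_cases hc : StrictMono c ∧ ∀ i j, M (r i) (c j) = H i j
    · rw [if_pos hc, if_pos ⟨hr, hc⟩]
    · rw [if_neg hc, if_neg fun hh => hc hh.2]
  · rw [if_neg hr]
    refine sum_eq_zero fun c _ => ?_
    rw [if_neg fun hh => hr hh.1]

open Classical in
theorem rupper (ha : 0 < a) (hh : 0 < h) (hN : RApart H) (hL : RLag H) {n : ℕ}
    (M : Fin n → Fin n → ℕ) : (rcopies H M : ℝ) ≤
      wordMax (fun j i => H i j) / h.factorial * (wordMax (fun i => H i) / a.factorial) *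
        (grids H M : ℝ) := by
  set κ : Fin h → Fin a → ℕ := fun j i => H i j with hκ
  have hf : (0 : ℝ) < h.factorial := by exact_mod_cast h.factorial_pos
  have hfa : (0 : ℝ) < a.factorial := by exact_mod_cast a.factorial_pos
  have wκ : 0 ≤ wordMax κ / h.factorial := div_nonneg (wordMax_nonneg κ) hf.le
  have wρ : 0 ≤ wordMax (fun i => H i) / a.factorial := div_nonneg (wordMax_nonneg _) hfa.le
  set L : ℝ := wordMax (fun i => H i) / a.factorial with hLdef
  set A : (Fin a → Fin n) → (Fin a → ℕ) → Finset (Fin n) := fun r v =>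
    univ.filter fun y => ∀ i, M (r i) y = v i with hA
  set gd : (Fin a → Fin n) → Fin n → ℝ := fun r y =>
    ∑ v ∈ rcols H, if ∀ i, M (r i) y = v i then (1 : ℝ) else 0 with hgd
  have gdeq : ∀ r y, gd r y = if (fun i => M (r i) y) ∈ rcols H then (1 : ℝ) else 0 := by
    intro r y
    have e1 : gd r y = ∑ v ∈ rcols H, if (fun i => M (r i) y) = v then (1 : ℝ) else 0 := by
      refine sum_congr rfl fun v _ => ?_
      have : (∀ i, M (r i) y = v i) ↔ (fun i => M (r i) y) = v := funext_iff.symm
      by_cases hc : ∀ i, M (r i) y = v i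
      · rw [if_pos hc, if_pos (this.1 hc)]
      · rw [if_neg hc, if_neg fun hc' => hc (this.2 hc')]
    rw [e1, sum_ite_eq]
  have gd0 : ∀ r y, 0 ≤ gd r y := fun r y => by rw [gdeq]; split_ifs <;> norm_num
  have gd1 : ∀ r y, gd r y ≤ 1 := fun r y => by rw [gdeq]; split_ifs <;> norm_num
  have Asum : ∀ r, ∑ v ∈ rcols H, ((A r v).card : ℝ) = ∑ y, gd r y := by
    intro r
    rw [hgd]
    dsimp only
    rw [sum_comm]
    refine sum_congr rfl fun v _ => ?_
    rw [hA]
    dsimp only
    rw [card_filter]
    push_cast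
    rfl
  have step : ∀ r : Fin a → Fin n, ((univ.filter fun c : Fin h → Fin n =>
      StrictMono c ∧ ∀ i j, M (r i) (c j) = H i j).card : ℝ) ≤
      wordMax κ / h.factorial * (∑ y, gd r y) ^ h := by
    intro r
    have e1 : (univ.filter fun c : Fin h → Fin n => StrictMono c ∧ ∀ i j, M (r i) (c j) = H i j) =
        (univ.filter fun c : Fin h → Fin n => StrictMono c ∧ ∀ j, c j ∈ A r (κ j)) := by
      ext c
      rw [mem_filter, mem_filter]
      refine and_congr_right fun _ => and_congr_right fun _ => ?_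
      constructor
      · intro hc j
        rw [hA]
        exact mem_filter.2 ⟨mem_univ _, fun i => hc i j⟩
      · intro hc i j
        exact (mem_filter.1 (hc j)).2 i
    have c1 := countG κ (A r)
    have c2 := choose_prod_le κ hh (fun v => (A r v).card)
    have c3 : ((univ.filter fun c : Fin h → Fin n => StrictMono c ∧ ∀ j, c j ∈ A r (κ j)).card : ℝ)
        ≤ ((∏ b ∈ univ.image κ, (A r b).card.choose (mu κ b) : ℕ) : ℝ) := by exact_mod_cast c1
    rw [e1]
    refine (c3.trans c2).trans ?_
    refine mul_le_mul_of_nonneg_left ?_ wκ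
    have e2 : ∑ b ∈ univ.image κ, ((A r b).card : ℝ) = ∑ v ∈ rcols H, ((A r v).card : ℝ) := rfl
    rw [e2, Asum r]
  set R : Finset (Fin a → Fin n) := univ.filter fun r => StrictMono r with hR
  set G : (Fin h → Fin n) → Finset (Fin n) := fun c =>
    univ.filter fun x : Fin n => ∀ j, ∃ i' j', H i' j' = M x (c j) with hG
  have tup : ∀ c : Fin h → Fin n, ∑ r ∈ R, ∏ j, gd r (c j) ≤ L * ((G c).card : ℝ) ^ a := by
    intro c
    set j0 : Fin h := ⟨0, hh⟩ with hj0
    have e1 := rword_loc H ha hN hL (fun x => M x (c j0)) (G c)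
    refine le_trans ?_ e1
    have e2 : ∑ v ∈ rcols H, ((univ.filter fun r : Fin a → Fin n => StrictMono r ∧
        (∀ i, r i ∈ G c) ∧ ∀ i, M (r i) (c j0) = v i).card : ℝ) =
        ∑ r ∈ R, if ∀ i, r i ∈ G c then gd r (c j0) else 0 := by
      have e3 : ∀ v : Fin a → ℕ, ((univ.filter fun r : Fin a → Fin n => StrictMono r ∧
          (∀ i, r i ∈ G c) ∧ ∀ i, M (r i) (c j0) = v i).card : ℝ) =
          ∑ r ∈ R, if (∀ i, r i ∈ G c) ∧ ∀ i, M (r i) (c j0) = v i then (1 : ℝ) else 0 := by
        intro v
        rw [hR, ← filter_filter, card_filter]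
        push_cast
        rfl
      simp_rw [e3]
      rw [sum_comm]
      refine sum_congr rfl fun r _ => ?_
      by_cases hr : ∀ i, r i ∈ G c
      · rw [if_pos hr, hgd]
        dsimp only
        refine sum_congr rfl fun v _ => ?_
        by_cases hv : ∀ i, M (r i) (c j0) = v i
        · rw [if_pos hv, if_pos ⟨hr, hv⟩]
        · rw [if_neg hv, if_neg fun hh' => hv hh'.2]
      · rw [if_neg hr]
        refine sum_eq_zero fun v _ => ?_
        rw [if_neg fun hh' => hr hh'.1]
    have e4 : ∑ r ∈ R, ∏ j, gd r (c j) ≤ ∑ r ∈ R, if ∀ i, r i ∈ G c then gd r (c j0) else 0 := by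
      refine sum_le_sum fun r _ => ?_
      by_cases hr : ∀ i, r i ∈ G c
      · rw [if_pos hr, ← mul_prod_erase univ _ (mem_univ j0)]
        have : ∏ x ∈ univ.erase j0, gd r (c x) ≤ 1 :=
          prod_le_one (fun x _ => gd0 r (c x)) fun x _ => gd1 r (c x)
        nlinarith [gd0 r (c j0)]
      · rw [if_neg hr]
        push Not at hr
        obtain ⟨i, hi⟩ := hr
        have : ∃ j, ∀ i' j', H i' j' ≠ M (r i) (c j) := by
          by_contra hcon
          push Not at hcon
          refine hi ?_
          rw [hG]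
          exact mem_filter.2 ⟨mem_univ _, hcon⟩
        obtain ⟨j, hj⟩ := this
        refine le_of_eq (prod_eq_zero (mem_univ j) ?_)
        rw [gdeq, if_neg]
        intro hmem
        obtain ⟨j', hj'⟩ := (mem_rcols H).1 hmem
        exact hj i j' (congrFun hj' i)
    rw [e2]
    exact e4
  rw [rcopies_eq]
  push_cast
  calc ∑ r ∈ univ.filter (fun r : Fin a → Fin n => StrictMono r),
        ((univ.filter fun c : Fin h → Fin n =>
          StrictMono c ∧ ∀ i j, M (r i) (c j) = H i j).card : ℝ)
      ≤ ∑ r ∈ R, wordMax κ / h.factorial * (∑ y, gd r y) ^ h := sum_le_sum fun r _ => step r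
    _ = wordMax κ / h.factorial * ∑ c : Fin h → Fin n, ∑ r ∈ R, ∏ j, gd r (c j) := by
        rw [← mul_sum, sum_comm]
        congr 1
        exact sum_congr rfl fun r _ => sum_pow_eq h (gd r)
    _ ≤ wordMax κ / h.factorial * ∑ c : Fin h → Fin n, L * ((G c).card : ℝ) ^ a :=
        mul_le_mul_of_nonneg_left (sum_le_sum fun c _ => tup c) wκ
    _ = wordMax κ / h.factorial * L * (grids H M : ℝ) := by
        rw [← mul_sum, grids_sum H M]
        ring

end

end Pool.Agent.Lib.MP_efec9b_co.BS.RB84

namespace Pool.Agent.Lib.MP_efec9b_co.BS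

theorem rbase84 : StRBase := by
  intro a h H ha hh hN hL n M
  have := RB84.rupper H ha hh hN hL M
  refine this.trans (le_of_eq ?_)
  unfold rvalue
  ring

end Pool.Agent.Lib.MP_efec9b_co.BS
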