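import Pool.Agent.Lib.MP_efec9b_co.BS.Defs85R

/-!
MP_efec9b_co: stacking of rows (row R2).
-/

set_option autoImplicit false

namespace Pool.Agent.Lib.MP_efec9b_co.BS.S44

open Finset BU77

/-- the inequality of the means -/
theorem am2 (a b : ℕ) (ha : 0 < a) (hb : 0 < b) (x y : ℝ) (hx : 0 ≤ x) (hy : 0 ≤ y) :
    x ^ a * y ^ b ≤ fac1 a b * (x + y) ^ (a + b) := by
  have ha' : (0 : ℝ) < a := by exact_mod_cast ha
  have hb' : (0 : ℝ) < b := by exact_mod_cast hb
  have hS : (0 : ℝ) < (a : ℝ) + b := by positivity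
  set s : ℝ := (a : ℝ) / ((a : ℝ) + b) with hs
  set u : ℝ := (b : ℝ) / ((a : ℝ) + b) with hu
  have hs0 : 0 < s := by positivity
  have hu0 : 0 < u := by positivity
  have hsu : s + u = 1 := by rw [hs, hu, ← add_div, div_self hS.ne']
  have key := Real.geom_mean_le_arith_mean2_weighted hs0.le hu0.le
    (div_nonneg hx hs0.le) (div_nonneg hy hu0.le) hsu
  have e1 : s * (x / s) + u * (y / u) = x + y := by
    field_simp
  rw [e1] at key
  have hpow := pow_le_pow_left₀ (by positivity) key (a + b)
  rw [mul_pow] at hpow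
  have p1 : ((x / s) ^ s) ^ (a + b) = (x / s) ^ a := by
    rw [← Real.rpow_natCast ((x / s) ^ s), ← Real.rpow_mul (div_nonneg hx hs0.le),
      ← Real.rpow_natCast (x / s) a]
    congr 1
    rw [hs]
    push_cast
    field_simp
  have p2 : ((y / u) ^ u) ^ (a + b) = (y / u) ^ b := by
    rw [← Real.rpow_natCast ((y / u) ^ u), ← Real.rpow_mul (div_nonneg hy hu0.le),
      ← Real.rpow_natCast (y / u) b]
    congr 1
    rw [hu]
    push_cast
    field_simp
  have q1 : (x / s) ^ a = x ^ a / s ^ a := div_pow _ _ _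
  have q2 : (y / u) ^ b = y ^ b / u ^ b := div_pow _ _ _
  rw [p1, p2, q1, q2] at hpow
  have hf : fac1 a b = s ^ a * u ^ b := rfl
  rw [hf]
  have h3 : x ^ a * y ^ b = s ^ a * u ^ b * (x ^ a / s ^ a * (y ^ b / u ^ b)) := by
    field_simp
  rw [h3]
  exact mul_le_mul_of_nonneg_left hpow (by positivity)

open Classical in
/-- indicator -/
noncomputable def ind (P : Prop) : ℝ := if P then 1 else 0

theorem ind_true {P : Prop} (h : P) : ind P = 1 := by unfold ind; rw [if_pos h]

theorem ind_false {P : Prop} (h : ¬ P) : ind P = 0 := by unfold ind; rw [if_neg h]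

theorem ind_nonneg (P : Prop) : 0 ≤ ind P := by
  by_cases h : P
  · rw [ind_true h]; exact zero_le_one
  · rw [ind_false h]

theorem ind_congr {P Q : Prop} (h : P ↔ Q) : ind P = ind Q := by
  rw [propext h]

theorem ind_and (P Q : Prop) : ind (P ∧ Q) = ind P * ind Q := by
  by_cases h : P
  · by_cases h' : Q
    · rw [ind_true h, ind_true h', ind_true ⟨h, h'⟩, one_mul]
    · rw [ind_false h', ind_false (fun t => h' t.2), mul_zero]
  · rw [ind_false h, ind_false (fun t => h t.1), zero_mul]

theorem ind_le {P Q : Prop} (h : P → Q) : ind P ≤ ind Q := by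
  by_cases h' : P
  · rw [ind_true h', ind_true (h h')]
  · rw [ind_false h']; exact ind_nonneg _

theorem ind_prod {m : ℕ} (P : Fin m → Prop) : ∏ i, ind (P i) = ind (∀ i, P i) := by
  by_cases h : ∀ i, P i
  · rw [ind_true h]
    exact prod_eq_one fun i _ => ind_true (h i)
  · rw [ind_false h]
    push Not at h
    obtain ⟨i, hi⟩ := h
    exact prod_eq_zero (mem_univ i) (ind_false hi)

theorem sum_ind {α : Type} [Fintype α] (P : α → Prop) [DecidablePred P] :
    ∑ x, ind (P x) = ((univ.filter P).card : ℝ) := by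
  rw [card_filter]
  push_cast
  refine sum_congr rfl fun x _ => ?_
  by_cases hx : P x
  · rw [ind_true hx, if_pos hx]
  · rw [ind_false hx, if_neg hx]

theorem pow_ind {α : Type} [Fintype α] (P : α → Prop) (m : ℕ) :
    (∑ x, ind (P x)) ^ m = ∑ s : Fin m → α, ind (∀ i, P (s i)) := by
  rw [Fintype.sum_pow]
  exact sum_congr rfl fun s _ => ind_prod _

/-- number of copies with columns `C` -/
noncomputable def xr {a h n : ℕ} (H : Fin a → Fin h → ℕ) (M : Fin n → Fin n → ℕ)
    (C : Fin h → Fin n) : ℝ :=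
  ∑ R : Fin a → Fin n, ind (StrictMono R ∧ ∀ i j, M (R i) (C j) = H i j)

/-- the row `x` is good for the columns `C` -/
def Gd {a h n : ℕ} (H : Fin a → Fin h → ℕ) (M : Fin n → Fin n → ℕ)
    (C : Fin h → Fin n) (x : Fin n) : Prop := ∀ j, ∃ i' j', H i' j' = M x (C j)

/-- number of good rows -/
noncomputable def g {a h n : ℕ} (H : Fin a → Fin h → ℕ) (M : Fin n → Fin n → ℕ)
    (C : Fin h → Fin n) : ℝ := ∑ x : Fin n, ind (Gd H M C x)

theorem xr_nonneg {a h n : ℕ} (H : Fin a → Fin h → ℕ) (M : Fin n → Fin n → ℕ)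
    (C : Fin h → Fin n) : 0 ≤ xr H M C := sum_nonneg fun _ _ => ind_nonneg _

theorem g_nonneg {a h n : ℕ} (H : Fin a → Fin h → ℕ) (M : Fin n → Fin n → ℕ)
    (C : Fin h → Fin n) : 0 ≤ g H M C := sum_nonneg fun _ _ => ind_nonneg _

theorem rcopies_eq {a h n : ℕ} (H : Fin a → Fin h → ℕ) (M : Fin n → Fin n → ℕ) :
    (rcopies H M : ℝ) = ∑ C : Fin h → Fin n, ind (StrictMono C) * xr H M C := by
  classical
  unfold rcopies
  rw [Nat.card_eq_fintype_card, Fintype.card_subtype]
  have h2 : (((univ.filter fun p : (Fin a → Fin n) × (Fin h → Fin n) =>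
    StrictMono p.1 ∧ StrictMono p.2 ∧ ∀ i j, M (p.1 i) (p.2 j) = H i j).card : ℕ) : ℝ) =
    ∑ p : (Fin a → Fin n) × (Fin h → Fin n),
      ind (StrictMono p.1 ∧ StrictMono p.2 ∧ ∀ i j, M (p.1 i) (p.2 j) = H i j) :=
    (sum_ind _).symm
  rw [h2, Fintype.sum_prod_type_right]
  refine sum_congr rfl fun C _ => ?_
  unfold xr
  rw [mul_sum]
  refine sum_congr rfl fun R _ => ?_
  rw [← ind_and]
  refine ind_congr ?_
  constructor
  · rintro ⟨h1, h2, h3⟩
    exact ⟨h2, h1, h3⟩
  · rintro ⟨h1, h2, h3⟩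
    exact ⟨h2, h1, h3⟩

theorem grids_eq {a h n : ℕ} (H : Fin a → Fin h → ℕ) (M : Fin n → Fin n → ℕ) :
    (grids H M : ℝ) = ∑ C : Fin h → Fin n, g H M C ^ a := by
  classical
  unfold grids
  rw [Nat.card_eq_fintype_card, Fintype.card_subtype]
  have h2 : (((univ.filter fun p : (Fin a → Fin n) × (Fin h → Fin n) =>
    ∀ i j, ∃ i' j', H i' j' = M (p.1 i) (p.2 j)).card : ℕ) : ℝ) =
    ∑ p : (Fin a → Fin n) × (Fin h → Fin n),
      ind (∀ i j, ∃ i' j', H i' j' = M (p.1 i) (p.2 j)) :=
    (sum_ind _).symm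
  rw [h2, Fintype.sum_prod_type_right]
  refine sum_congr rfl fun C _ => ?_
  unfold g
  rw [pow_ind]
  exact sum_congr rfl fun R _ => ind_congr Iff.rfl

theorem masked {a h n : ℕ} {H : Fin a → Fin h → ℕ} {κ : ℝ} (ha : 0 < a) (hL : RLoc H κ)
    (M : Fin n → Fin n → ℕ) (B : Fin n → Prop) :
    ∑ C : Fin h → Fin n, ind (StrictMono C) * xr H M C * ind (∀ j, B (C j)) ≤
      κ * ∑ C : Fin h → Fin n, g H M C ^ a * ind (∀ j, B (C j)) := by
  classical
  set t : ℕ := (univ.sup fun i => univ.sup fun j => H i j) + 1 with ht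
  have hlt : ∀ i j, H i j < t := by
    intro i j
    have : H i j ≤ univ.sup fun i => univ.sup fun j => H i j :=
      (Finset.le_sup (f := fun j => H i j) (mem_univ j)).trans
        (Finset.le_sup (f := fun i => univ.sup fun j => H i j) (mem_univ i))
    omega
  set M' : Fin n → Fin n → ℕ := fun r c => if B c then M r c else t with hM'
  have h1 := hL n M'
  rw [rcopies_eq, grids_eq] at h1
  have pos : ∀ (r c : Fin n), B c → M' r c = M r c := by
    intro r c hc
    rw [hM']
    exact if_pos hc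
  have neg : ∀ (r c : Fin n), ¬ B c → M' r c = t := by
    intro r c hc
    rw [hM']
    exact if_neg hc
  have h2 : ∑ C : Fin h → Fin n, ind (StrictMono C) * xr H M C * ind (∀ j, B (C j)) ≤
      ∑ C : Fin h → Fin n, ind (StrictMono C) * xr H M' C := by
    refine sum_le_sum fun C _ => ?_
    by_cases hB : ∀ j, B (C j)
    · rw [ind_true hB, mul_one]
      refine le_of_eq ?_
      congr 1
      unfold xr
      refine sum_congr rfl fun R _ => ind_congr ?_
      refine and_congr_right fun _ => forall_congr' fun i => forall_congr' fun j => ?_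
      rw [pos _ _ (hB j)]
    · rw [ind_false hB, mul_zero]
      exact mul_nonneg (ind_nonneg _) (xr_nonneg _ _ _)
  have h3 : ∑ C : Fin h → Fin n, g H M C ^ a * ind (∀ j, B (C j)) =
      ∑ C : Fin h → Fin n, g H M' C ^ a := by
    refine sum_congr rfl fun C _ => ?_
    by_cases hB : ∀ j, B (C j)
    · rw [ind_true hB, mul_one]
      congr 1
      unfold g
      refine sum_congr rfl fun x _ => ind_congr ?_
      unfold Gd
      refine forall_congr' fun j => ?_
      rw [pos _ _ (hB j)]
    · rw [ind_false hB, mul_zero]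
      have : g H M' C = 0 := by
        unfold g
        refine sum_eq_zero fun x _ => ind_false ?_
        intro hx
        push Not at hB
        obtain ⟨j, hj⟩ := hB
        obtain ⟨i', j', hij⟩ := hx j
        rw [neg _ _ hj] at hij
        exact absurd hij (hlt i' j').ne
      rw [this, zero_pow ha.ne']
  rw [h3]
  exact h2.trans h1

theorem sum_inj {α β : Type} [Fintype α] [Fintype β] (φ : α → β) (hφ : Function.Injective φ)
    (f : β → ℝ) (hf : ∀ b, 0 ≤ f b) : ∑ x, f (φ x) ≤ ∑ y, f y := by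
  classical
  rw [← sum_image (f := f) (g := φ) (fun x _ y _ hxy => hφ hxy)]
  exact sum_le_sum_of_subset_of_nonneg (subset_univ _) fun i _ _ => hf i

variable {a b m h n : ℕ} (H : Fin m → Fin h → ℕ) (u : Fin a → Fin m) (v : Fin b → Fin m)
  (M : Fin n → Fin n → ℕ)

theorem split (hS : Splits u v) (C : Fin h → Fin n) :
    xr H M C ≤ xr (fun i => H (u i)) M C * xr (fun i => H (v i)) M C := by
  obtain ⟨s1, s2, s3, s4⟩ := hS
  unfold xr
  rw [sum_mul_sum, ← Fintype.sum_prod_type']
  refine le_trans (sum_le_sum fun R _ => ?_) (sum_inj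
    (fun R : Fin m → Fin n => ((R ∘ u, R ∘ v) : (Fin a → Fin n) × (Fin b → Fin n))) ?_
    (fun q : (Fin a → Fin n) × (Fin b → Fin n) =>
      ind (StrictMono q.1 ∧ ∀ i j, M (q.1 i) (C j) = H (u i) j) *
        ind (StrictMono q.2 ∧ ∀ i j, M (q.2 i) (C j) = H (v i) j))
    fun q => mul_nonneg (ind_nonneg _) (ind_nonneg _))
  · dsimp only
    rw [← ind_and]
    refine ind_le ?_
    rintro ⟨h1, h2⟩
    exact ⟨⟨h1.comp s1, fun i j => h2 _ _⟩, ⟨h1.comp s2, fun i j => h2 _ _⟩⟩
  · intro R R' hRR
    simp only [Prod.mk.injEq] at hRR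
    funext k
    rcases s4 k with ⟨i, rfl⟩ | ⟨i, rfl⟩
    · exact congrFun hRR.1 i
    · exact congrFun hRR.2 i

theorem word (hb : 0 < b) (T : Fin b → Fin h → ℕ) (C : Fin h → Fin n) :
    xr T M C ≤ wordMax T / b.factorial * g T M C ^ b := by
  classical
  set A : (Fin h → ℕ) → Finset (Fin n) := fun w => univ.filter fun x => ∀ j, M x (C j) = w j with hA
  have c1 := countG T A
  have c2 := choose_prod_le T hb (fun w => (A w).card)
  have e1 : xr T M C = ((univ.filter fun R : Fin b → Fin n => StrictMono R ∧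
      ∀ i, R i ∈ A (T i)).card : ℝ) := by
    unfold xr
    rw [← sum_ind]
    refine sum_congr rfl fun R _ => ind_congr (and_congr_right fun _ => forall_congr' fun i => ?_)
    rw [hA]
    dsimp only
    rw [mem_filter]
    exact ⟨fun h => ⟨mem_univ _, h⟩, fun h => h.2⟩
  have c3 : xr T M C ≤ ((∏ w ∈ univ.image T, (A w).card.choose (mu T w) : ℕ) : ℝ) := by
    rw [e1]
    refine le_trans (le_of_eq ?_) (Nat.cast_le.2 c1)
    congr!
  refine (c3.trans c2).trans ?_
  have e2 : ∑ w ∈ univ.image T, ((A w).card : ℝ) ≤ g T M C := by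
    have h1 : ∑ w ∈ univ.image T, (A w).card = ((univ.image T).biUnion A).card := by
      rw [card_biUnion]
      intro w _ w' _ hww
      rw [Function.onFun, disjoint_left]
      intro y hy hy'
      apply hww
      funext j
      rw [hA] at hy hy'
      rw [← (mem_filter.1 hy).2 j, ← (mem_filter.1 hy').2 j]
    have h2 : (univ.image T).biUnion A ⊆ univ.filter (Gd T M C) := by
      intro y hy
      obtain ⟨w, hw, hyw⟩ := mem_biUnion.1 hy
      obtain ⟨i, -, rfl⟩ := mem_image.1 hw
      rw [mem_filter]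
      refine ⟨mem_univ _, fun j => ⟨i, j, ?_⟩⟩
      rw [hA] at hyw
      exact ((mem_filter.1 hyw).2 j).symm
    have h3 : g T M C = ((univ.filter (Gd T M C)).card : ℝ) := by
      unfold g
      rw [sum_ind]
    rw [h3]
    have h4 : ∑ w ∈ univ.image T, (A w).card ≤ (univ.filter (Gd T M C)).card := by
      rw [h1]
      exact card_le_card h2
    exact_mod_cast h4
  refine mul_le_mul_of_nonneg_left ?_ (div_nonneg (wordMax_nonneg T) (by positivity))
  exact pow_le_pow_left₀ (sum_nonneg fun w _ => by positivity) e2 _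

theorem add_good (hh : 0 < h) (hS : ∀ i i' j j', H (u i) j ≠ H (v i') j') (C : Fin h → Fin n) :
    g (fun i => H (u i)) M C + g (fun i => H (v i)) M C ≤ g H M C := by
  unfold g
  rw [← sum_add_distrib]
  refine sum_le_sum fun x _ => ?_
  by_cases h1 : Gd (fun i => H (u i)) M C x
  · have h2 : ¬ Gd (fun i => H (v i)) M C x := by
      intro h2
      obtain ⟨i, j, hij⟩ := h1 ⟨0, hh⟩
      obtain ⟨i', j', hij'⟩ := h2 ⟨0, hh⟩
      exact hS i i' j j' (hij.trans hij'.symm)
    rw [ind_false h2, add_zero]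
    exact ind_le fun h3 j => by
      obtain ⟨i, j', hij⟩ := h3 j
      exact ⟨u i, j', hij⟩
  · rw [ind_false h1, zero_add]
    exact ind_le fun h3 j => by
      obtain ⟨i, j', hij⟩ := h3 j
      exact ⟨v i, j', hij⟩

end S44

open S44 Finset BU77 in
theorem stack44 : StStack := by
  intro a b m h H u v κ ha hb hh hS hκ hL n M
  obtain ⟨hsp, hsy, -⟩ := hS
  have hm : a + b = m := by
    obtain ⟨u1, u2, u3, u4⟩ := hsp
    have e : Function.Bijective (Sum.elim u v) := by
      constructor
      · rintro (i | i) (j | j) hij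
        · exact congrArg Sum.inl (u1.injective hij)
        · exact absurd hij (u3 i j)
        · exact absurd hij.symm (u3 j i)
        · exact congrArg Sum.inr (u2.injective hij)
      · intro k
        rcases u4 k with ⟨i, hi⟩ | ⟨i, hi⟩
        · exact ⟨Sum.inl i, hi⟩
        · exact ⟨Sum.inr i, hi⟩
    have := Fintype.card_of_bijective e
    simpa using this
  set U : Fin a → Fin h → ℕ := fun i => H (u i) with hU
  set V : Fin b → Fin h → ℕ := fun i => H (v i) with hV
  set L : ℝ := wordMax V / b.factorial with hLdef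
  have hL0 : 0 ≤ L := div_nonneg (wordMax_nonneg V) (by positivity)
  have hf : 0 ≤ fac1 a b := by unfold fac1; positivity
  rw [rcopies_eq, grids_eq]
  calc ∑ C : Fin h → Fin n, ind (StrictMono C) * xr H M C
      ≤ ∑ C : Fin h → Fin n, L * (ind (StrictMono C) * xr U M C * g V M C ^ b) := by
        refine sum_le_sum fun C _ => ?_
        have h1 := split H u v M hsp C
        have h2 := word M hb V C
        have h3 : xr H M C ≤ xr U M C * (L * g V M C ^ b) :=
          h1.trans (mul_le_mul_of_nonneg_left h2 (xr_nonneg _ _ _))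
        calc ind (StrictMono C) * xr H M C ≤ ind (StrictMono C) * (xr U M C * (L * g V M C ^ b)) :=
              mul_le_mul_of_nonneg_left h3 (ind_nonneg _)
          _ = _ := by ring
    _ = L * ∑ s : Fin b → Fin n, ∑ C : Fin h → Fin n, ind (StrictMono C) * xr U M C *
          ind (∀ j, ∀ i, ∃ i' j', V i' j' = M (s i) (C j)) := by
        rw [← mul_sum]
        congr 1
        rw [sum_comm]
        refine sum_congr rfl fun C _ => ?_
        rw [← mul_sum]
        congr 1
        unfold g
        rw [pow_ind]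
        refine sum_congr rfl fun s _ => ind_congr ?_
        exact ⟨fun h j i => h i j, fun h i j => h j i⟩
    _ ≤ L * ∑ s : Fin b → Fin n, κ * ∑ C : Fin h → Fin n, g U M C ^ a *
          ind (∀ j, ∀ i, ∃ i' j', V i' j' = M (s i) (C j)) := by
        refine mul_le_mul_of_nonneg_left (sum_le_sum fun s _ => ?_) hL0
        exact masked ha hL M (fun c => ∀ i, ∃ i' j', V i' j' = M (s i) c)
    _ = κ * L * ∑ C : Fin h → Fin n, g U M C ^ a * g V M C ^ b := by
        rw [← mul_sum, sum_comm, ← mul_assoc, mul_comm L κ]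
        congr 1
        refine sum_congr rfl fun C _ => ?_
        rw [← mul_sum]
        congr 1
        unfold g
        rw [pow_ind]
        refine sum_congr rfl fun s _ => ind_congr ?_
        exact ⟨fun h i j => h j i, fun h j i => h i j⟩
    _ ≤ κ * L * ∑ C : Fin h → Fin n, fac1 a b * g H M C ^ m := by
        refine mul_le_mul_of_nonneg_left (sum_le_sum fun C _ => ?_) (mul_nonneg hκ hL0)
        refine (am2 a b ha hb _ _ (g_nonneg _ _ _) (g_nonneg _ _ _)).trans ?_
        rw [hm]
        refine mul_le_mul_of_nonneg_left ?_ hf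
        exact pow_le_pow_left₀ (add_nonneg (g_nonneg _ _ _) (g_nonneg _ _ _))
          (add_good H u v M hh hsy C) _
    _ = κ * L * fac1 a b * ∑ C : Fin h → Fin n, g H M C ^ m := by
        rw [← mul_sum]
        ring

end Pool.Agent.Lib.MP_efec9b_co.BS
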