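import Pool.Agent.Lib.MP_efec9b_co.BS.Defs85R
import Pool.Agent.Lib.MP_efec9b_co.BS.VAL81

/-!
MP_efec9b_co, stacking: row R3 (helper81): the value of a stacked matrix.
-/

set_option autoImplicit false

namespace Pool.Agent.Lib.MP_efec9b_co.BS

open Finset

namespace V81

theorem PW_kernel {h : ℕ} {ι ι' : Type} [DecidableEq ι] [DecidableEq ι'] (σ : Fin h → ι)
    (σ' : Fin h → ι') (hk : ∀ i i', σ i = σ i' ↔ σ' i = σ' i') (x : ℝ) : PW σ x = PW σ' x := by
  unfold PW
  refine prod_kernel σ σ' hk _ _ fun i => ?_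
  have h1 : (Finset.univ.filter fun i' => σ i' = σ i) =
      (Finset.univ.filter fun i' => σ' i' = σ' i) :=
    Finset.filter_congr fun i' _ => hk i' i
  rw [h1]

theorem rvalue_eq {a h : ℕ} (H : Fin a → Fin h → ℕ) :
    rvalue H = PW (fun i => H i) a * PW (fun j i => H i j) h := by
  have hf : (h.factorial : ℝ) ≠ 0 := by exact_mod_cast (Nat.factorial_pos h).ne'
  have ha : (a.factorial : ℝ) ≠ 0 := by exact_mod_cast (Nat.factorial_pos a).ne'
  unfold rvalue
  rw [wm_eq, wm_eq]
  field_simp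

end V81

open V81

theorem rval81 : StRVal := by
  intro a b m h H u v ha hb hh hG
  obtain ⟨hS, hsym, hcol⟩ := hG
  rw [rvalue_eq, rvalue_eq]
  have hr := PW_all hS ha hb (fun i => H i) (fun i => H (u i)) (fun i => H (v i))
    (fun i i' => Iff.rfl) (fun i i' => Iff.rfl)
    (fun i j h' => hsym i j ⟨0, hh⟩ ⟨0, hh⟩ (congrFun h' _))
  have hc := PW_kernel (fun j i => H i j) (fun j i => H (u i) j)
    (fun j j' => ⟨fun h' => funext fun i => congrFun h' (u i),
      fun h' => funext fun i => hcol j j' (congrFun h') i⟩) (h : ℝ)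
  have hb' : (b.factorial : ℝ) ≠ 0 := by exact_mod_cast (Nat.factorial_pos b).ne'
  have h2 : wordMax (fun i => H (v i)) / (b.factorial : ℝ) = PW (fun i => H (v i)) b := by
    rw [wm_eq]
    field_simp
  rw [hr, hc, h2]
  unfold fac1
  ring

end Pool.Agent.Lib.MP_efec9b_co.BS
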