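import Pool.Agent.Lib.MP_efec9b_co.BS.Defs85S
import Pool.Agent.Lib.MP_efec9b_co.BS.RVAL81

/-!
MP_efec9b_co, gluing rectangular matrices: row R8 (helper81): the value of a glued matrix.
-/

set_option autoImplicit false

namespace Pool.Agent.Lib.MP_efec9b_co.BS

open Finset

open V81

theorem rgval81 : StRGVal := by
  intro a b m c d l H e₁ e₂ g₁ g₂ ha hb hc hd hG hC
  obtain ⟨hS, hS', hsym⟩ := hG
  obtain ⟨hC1, hC2, hC3, hC4⟩ := hC
  rw [rvalue_eq, rvalue_eq, rvalue_eq]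
  have hr := PW_all hS ha hb (fun i => H i) (fun i j => H (e₁ i) (g₁ j))
    (fun i j => H (e₂ i) (g₂ j))
    (fun i i' => ⟨fun h => funext fun j => congrFun h (g₁ j), fun h => hC1 i i' (congrFun h)⟩)
    (fun i i' => ⟨fun h => funext fun j => congrFun h (g₂ j), fun h => hC2 i i' (congrFun h)⟩)
    (fun i j h => by
      have h1 := (hsym (e₁ i) (e₂ j) (g₁ ⟨0, hc⟩) (g₁ ⟨0, hc⟩) (congrFun h _)).1.1 ⟨i, rfl⟩
      obtain ⟨k, hk⟩ := h1
      exact hS.2.2.1 k j hk)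
  have hcc := PW_all hS' hc hd (fun j i => H i j) (fun j i => H (e₁ i) (g₁ j))
    (fun j i => H (e₂ i) (g₂ j))
    (fun j j' => ⟨fun h => funext fun i => congrFun h (e₁ i),
      fun h => funext fun i => hC3 j j' (congrFun h) i⟩)
    (fun j j' => ⟨fun h => funext fun i => congrFun h (e₂ i),
      fun h => funext fun i => hC4 j j' (congrFun h) i⟩)
    (fun i j h => by
      have h1 := (hsym (e₁ ⟨0, ha⟩) (e₁ ⟨0, ha⟩) (g₁ i) (g₂ j) (congrFun h _)).2.1 ⟨i, rfl⟩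
      obtain ⟨k, hk⟩ := h1
      exact hS'.2.2.1 k j hk)
  rw [hr, hcc]
  unfold fac1
  ring

end Pool.Agent.Lib.MP_efec9b_co.BS
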