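import Pool.Agent.Lib.MP_efec9b_co.BS.All85
import Pool.Agent.Lib.MP_efec9b_co.BS.Stack85
import Pool.Agent.Lib.MP_efec9b_co.BS.Sq85
import Pool.Agent.Lib.MP_efec9b_co.BS.RBASE84
import Pool.Agent.Lib.MP_efec9b_co.BS.RVAL81
import Pool.Agent.Lib.MP_efec9b_co.BS.RGLUE44
import Pool.Agent.Lib.MP_efec9b_co.BS.RGVAL81
import Pool.Agent.Lib.MP_efec9b_co.BS.ONEROW84

/-!
MP_efec9b_co: every member of the class is tight (assembly).
-/

set_option autoImplicit false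

namespace Pool.Agent.Lib.MP_efec9b_co.BS

theorem good_pos {a h : ℕ} {H : Fin a → Fin h → ℕ} (hR : Good H) : 0 < a ∧ 0 < h := by
  induction hR with
  | base H ha hh _ _ => exact ⟨ha, hh⟩
  | tr H _ ih => exact ⟨ih.2, ih.1⟩
  | stack H u v _ _ _ ih =>
    exact ⟨lt_of_le_of_lt (Nat.zero_le _) (u ⟨0, ih.1⟩).2, ih.2⟩
  | glue H e₁ e₂ g₁ g₂ _ _ _ _ ih1 ih2 =>
    exact ⟨lt_of_le_of_lt (Nat.zero_le _) (e₁ ⟨0, ih1.1⟩).2,
      lt_of_le_of_lt (Nat.zero_le _) (g₁ ⟨0, ih1.2⟩).2⟩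

theorem rtight_of_good {a h : ℕ} {H : Fin a → Fin h → ℕ} (hR : Good H) : RTight H := by
  induction hR with
  | base H ha hh h1 h2 => exact rbase84 _ _ H ha hh h1 h2
  | tr H _ ih => exact rtr85 _ _ H ih
  | @stack a b m h H u v hb hS hB ih =>
    obtain ⟨ha, hh⟩ := good_pos hB
    have h3 := stack85 a b m h H u v _ ha hb hh hS (rvalue_nonneg _) ih
    unfold RTight
    rw [rval81 a b m h H u v ha hb hh hS]
    exact h3
  | @glue a b m c d l H e₁ e₂ g₁ g₂ hG hC hB1 hB2 ih1 ih2 =>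
    obtain ⟨ha, hc⟩ := good_pos hB1
    obtain ⟨hb, hd⟩ := good_pos hB2
    have h3 := rglue44 a b m c d l H e₁ e₂ g₁ g₂ _ _ ha hb hc hd hG (rvalue_nonneg _)
      (rvalue_nonneg _) ih1 ih2
    unfold RTight
    rw [rgval81 a b m c d l H e₁ e₂ g₁ g₂ ha hb hc hd hG hC]
    exact h3

theorem both_of_good {h : ℕ} {H : Fin h → Fin h → ℕ} (hB : Good H) (hM : Mono H) :
    BothEqual H (value H) :=
  fin46 h H (good_pos hB).1 hM (sq85 _ H (rtight_of_good hB))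

/-- the old class -/
theorem good_of_built {h : ℕ} {H : Fin h → Fin h → ℕ} (hB : Built H) : Good H := by
  induction hB with
  | base H hh h1 h2 => exact Good.base H hh hh h1 h2
  | tr H _ ih => exact Good.tr H ih
  | glue H e₁ e₂ g₁ g₂ hG hC _ _ ih1 ih2 => exact Good.glue H e₁ e₂ g₁ g₂ hG hC ih1 ih2

/-- a row with symbols of its own -/
theorem both_of_row {h : ℕ} (H : Fin h → Fin h → ℕ) (hM : Mono H) (i₀ : Fin h)
    (h1 : ∀ i j j', i ≠ i₀ → H i j ≠ H i₀ j')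
    (h2 : ∀ j j', H i₀ j = H i₀ j' → ∀ i, H i j = H i j') : BothEqual H (value H) :=
  both_of_good (onerow84 h h H i₀ i₀.pos h1 h2) hM

/-- a column with symbols of its own -/
theorem both_of_col {h : ℕ} (H : Fin h → Fin h → ℕ) (hM : Mono H) (j₀ : Fin h)
    (h1 : ∀ i i' j, j ≠ j₀ → H i j ≠ H i' j₀)
    (h2 : ∀ i i', H i j₀ = H i' j₀ → ∀ j, H i j = H i' j) : BothEqual H (value H) := by
  have h3 : Good (fun j i => H i j) := onerow84 h h (fun j i => H i j) j₀ j₀.pos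
    (fun j i i' hj => h1 i i' j hj) h2
  exact both_of_good (Good.tr (fun j i => H i j) h3) hM

end Pool.Agent.Lib.MP_efec9b_co.BS
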