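import Pool.Agent.Lib.MP_efec9b_co.BS.Defs85U
import Pool.Agent.Lib.MP_efec9b_co.BS.Stack85

/-!
MP_efec9b_co: stacking rows with classes of columns (row U1).
-/

set_option autoImplicit false

namespace Pool.Agent.Lib.MP_efec9b_co.BS

open Finset BU77

namespace U85

open S85

open Classical in
/-- rows whose pattern on the columns `c` is a row of `H` -/
noncomputable def E {b h n : ℕ} (H : Fin b → Fin h → ℕ) (M : Fin n → Fin n → ℕ)
    (c : Fin h → Fin n) : Finset (Fin n) :=
  univ.filter fun x => ∃ i, ∀ j, M x (c j) = H i j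

open Classical in
/-- step 2 with exact patterns -/
theorem step2e {b h n : ℕ} (H : Fin b → Fin h → ℕ) (M : Fin n → Fin n → ℕ) (c : Fin h → Fin n)
    (hb : 0 < b) : ((univ.filter fun r : Fin b → Fin n => StrictMono r ∧
      ∀ i j, M (r i) (c j) = H i j).card : ℝ) ≤
      wordMax (fun i => H i) / (b.factorial : ℝ) * ((E H M c).card : ℝ) ^ b := by
  set A : (Fin h → ℕ) → Finset (Fin n) := fun w => univ.filter fun x => ∀ j, M x (c j) = w j
    with hA
  have e1 : (univ.filter fun r : Fin b → Fin n => StrictMono r ∧ ∀ i j, M (r i) (c j) = H i j) =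
      (univ.filter fun r : Fin b → Fin n => StrictMono r ∧ ∀ i, r i ∈ A (H i)) := by
    ext r
    simp only [mem_filter, mem_univ, true_and, hA]
  have c1 := countG (fun i => H i) A
  have c2 := choose_prod_le (fun i => H i) hb (fun v => (A v).card)
  have c3 : ((univ.filter fun r : Fin b → Fin n => StrictMono r ∧ ∀ i, r i ∈ A (H i)).card : ℝ)
      ≤ ((∏ v ∈ univ.image (fun i => H i), (A v).card.choose (mu (fun i => H i) v) : ℕ) : ℝ) := by
    exact_mod_cast c1
  rw [e1]
  refine (c3.trans c2).trans ?_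
  have hw : 0 ≤ wordMax (fun i => H i) / (b.factorial : ℝ) :=
    div_nonneg (wordMax_nonneg _) (by positivity)
  refine mul_le_mul_of_nonneg_left ?_ hw
  refine pow_le_pow_left₀ (sum_nonneg fun v _ => by positivity) ?_ b
  have h1 : ∑ v ∈ univ.image (fun i => H i), (A v).card ≤ (E H M c).card := by
    rw [← card_biUnion]
    · refine card_le_card fun x hx => ?_
      obtain ⟨v, hv, hx⟩ := mem_biUnion.1 hx
      obtain ⟨i, -, rfl⟩ := mem_image.1 hv
      rw [hA] at hx
      exact mem_filter.2 ⟨mem_univ _, i, fun j => (mem_filter.1 hx).2 j⟩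
    · intro v _ v' _ hvv
      rw [Function.onFun, disjoint_left]
      intro x hx hx'
      apply hvv
      funext j
      rw [hA] at hx hx'
      rw [← (mem_filter.1 hx).2 j, ← (mem_filter.1 hx').2 j]
  exact_mod_cast h1

theorem exists_fresh {a h : ℕ} (H : Fin a → Fin h → ℕ) : ∃ f, ∀ i j, H i j ≠ f := by
  refine ⟨(∑ i, ∑ j, H i j) + 1, ?_⟩
  intro i j hE
  have h1 : H i j ≤ ∑ j, H i j := single_le_sum (f := fun j => H i j)
    (fun _ _ => Nat.zero_le _) (mem_univ j)
  have h2 : ∑ j, H i j ≤ ∑ i, ∑ j, H i j := single_le_sum (f := fun i => ∑ j, H i j)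
    (fun _ _ => Nat.zero_le _) (mem_univ i)
  omega

open Classical in
theorem step4 {a b h n : ℕ} (H₁ H' : Fin a → Fin h → ℕ) (H₂ : Fin b → Fin h → ℕ)
    (p : Fin h → ℕ) (κ : ℝ) (ha : 0 < a) (hb : 0 < b) (hκ : 0 ≤ κ) (hL : RLoc H' κ)
    (hp : ∀ i i' j j', H₂ i j = H₂ i' j' → p j = p j')
    (hk : ∀ i i' j j', H' i j = H' i' j' ↔ H₁ i j = H₁ i' j' ∧ p j = p j')
    (M : Fin n → Fin n → ℕ) :
    ∑ c ∈ univ.filter (fun c : Fin h → Fin n => StrictMono c),
      ((univ.filter fun r : Fin a → Fin n => StrictMono r ∧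
        ∀ i j, M (r i) (c j) = H₁ i j).card : ℝ) * ((E H₂ M c).card : ℝ) ^ b ≤
      κ * ∑ c : Fin h → Fin n, ((G H₁ M c).card : ℝ) ^ a * ((G H₂ M c).card : ℝ) ^ b := by
  obtain ⟨f, hf⟩ := exists_fresh H'
  -- the column `y` has the class of `j` with respect to the rows `s`
  set ok : (Fin b → Fin n) → Fin n → Fin h → Prop := fun s y j =>
    ∀ k, ∃ i' j', H₂ i' j' = M (s k) y ∧ p j' = p j with hok
  set Ms : (Fin b → Fin n) → Fin n → Fin n → ℕ := fun s x y =>
    if hx : ∃ q : Fin a × Fin h, M x y = H₁ q.1 q.2 ∧ ok s y q.2 then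
      H' (Classical.choose hx).1 (Classical.choose hx).2 else f with hMs
  have hMs1 : ∀ s x y i j, M x y = H₁ i j → ok s y j → Ms s x y = H' i j := by
    intro s x y i j h1 h2
    have hx : ∃ q : Fin a × Fin h, M x y = H₁ q.1 q.2 ∧ ok s y q.2 := ⟨(i, j), h1, h2⟩
    have e : Ms s x y = H' (Classical.choose hx).1 (Classical.choose hx).2 := by
      rw [hMs]
      exact dif_pos hx
    rw [e]
    obtain ⟨h3, h4⟩ := Classical.choose_spec hx
    refine (hk _ _ _ _).2 ⟨h3.symm.trans h1, ?_⟩
    obtain ⟨i1, j1, h5, h6⟩ := h4 ⟨0, hb⟩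
    obtain ⟨i2, j2, h7, h8⟩ := h2 ⟨0, hb⟩
    exact h6.symm.trans ((hp _ _ _ _ (h5.trans h7.symm)).trans h8)
  have hMs2 : ∀ s x y i j, H' i j = Ms s x y → ∃ q : Fin a × Fin h, M x y = H₁ q.1 q.2 ∧
      ok s y q.2 := by
    intro s x y i j h1
    by_contra hx
    have e : Ms s x y = f := by
      rw [hMs]
      exact dif_neg hx
    exact hf i j (h1.trans e)
  have pw : ∀ c : Fin h → Fin n, ((E H₂ M c).card : ℝ) ^ b =
      ∑ s : Fin b → Fin n, if ∀ k, ∃ i, ∀ j, M (s k) (c j) = H₂ i j then (1 : ℝ) else 0 := by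
    intro c
    have h1 : (E H₂ M c).card ^ b =
        (univ.filter fun s : Fin b → Fin n => ∀ k, ∃ i, ∀ j, M (s k) (c j) = H₂ i j).card := by
      rw [← Fintype.card_piFinset_const]
      congr 1
      ext s
      simp only [Fintype.mem_piFinset, mem_filter, mem_univ, true_and, E]
    rw [← Nat.cast_pow, h1, card_filter]
    push_cast
    rfl
  have pw2 : ∀ c : Fin h → Fin n, ((G H₂ M c).card : ℝ) ^ b =
      ∑ s : Fin b → Fin n, if ∀ k, ∀ j, ∃ i' j', H₂ i' j' = M (s k) (c j) then (1 : ℝ) else 0 := by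
    intro c
    have h1 : (G H₂ M c).card ^ b =
        (univ.filter fun s : Fin b → Fin n => ∀ k, ∀ j, ∃ i' j', H₂ i' j' = M (s k) (c j)).card := by
      rw [← Fintype.card_piFinset_const]
      congr 1
      ext s
      simp only [Fintype.mem_piFinset, mem_filter, mem_univ, true_and, G]
    rw [← Nat.cast_pow, h1, card_filter]
    push_cast
    rfl
  have main : ∀ s : Fin b → Fin n,
      ∑ c ∈ univ.filter (fun c : Fin h → Fin n => StrictMono c),
        ((univ.filter fun r : Fin a → Fin n => StrictMono r ∧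
          ∀ i j, M (r i) (c j) = H₁ i j).card : ℝ) *
          (if ∀ k, ∃ i, ∀ j, M (s k) (c j) = H₂ i j then (1 : ℝ) else 0) ≤
      κ * ∑ c : Fin h → Fin n, ((G H₁ M c).card : ℝ) ^ a *
        (if ∀ k, ∀ j, ∃ i' j', H₂ i' j' = M (s k) (c j) then (1 : ℝ) else 0) := by
    intro s
    have h1 := hL n (Ms s)
    rw [rcopies_eq, grids_eq] at h1
    push_cast at h1
    refine le_trans ?_ (h1.trans ?_)
    · refine sum_le_sum fun c _ => ?_
      by_cases hc : ∀ k, ∃ i, ∀ j, M (s k) (c j) = H₂ i j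
      · rw [if_pos hc, mul_one]
        have hsub : (univ.filter fun r : Fin a → Fin n => StrictMono r ∧
            ∀ i j, M (r i) (c j) = H₁ i j) ⊆ (univ.filter fun r : Fin a → Fin n =>
              StrictMono r ∧ ∀ i j, Ms s (r i) (c j) = H' i j) := by
          intro r hr
          obtain ⟨-, h2, h3⟩ := mem_filter.1 hr
          refine mem_filter.2 ⟨mem_univ _, h2, fun i j => hMs1 s _ _ i j (h3 i j) ?_⟩
          intro k
          obtain ⟨i', h4⟩ := hc k
          exact ⟨i', j, (h4 j).symm, rfl⟩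
        exact_mod_cast card_le_card hsub
      · rw [if_neg hc, mul_zero]
        positivity
    · refine mul_le_mul_of_nonneg_left ?_ hκ
      refine sum_le_sum fun c _ => ?_
      by_cases hc : ∀ k, ∀ j, ∃ i' j', H₂ i' j' = M (s k) (c j)
      · rw [if_pos hc, mul_one]
        refine pow_le_pow_left₀ (by positivity) ?_ a
        have hsub : G H' (Ms s) c ⊆ G H₁ M c := by
          intro x hx
          refine mem_filter.2 ⟨mem_univ _, fun j => ?_⟩
          obtain ⟨i', j', h2⟩ := (mem_filter.1 hx).2 j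
          obtain ⟨q, h3, -⟩ := hMs2 s x (c j) i' j' h2
          exact ⟨q.1, q.2, h3.symm⟩
        exact_mod_cast card_le_card hsub
      · rw [if_neg hc, mul_zero]
        have h2 : G H' (Ms s) c = ∅ := by
          rw [not_forall] at hc
          obtain ⟨k, hk'⟩ := hc
          rw [not_forall] at hk'
          obtain ⟨j, hj⟩ := hk'
          refine filter_eq_empty_iff.2 fun x _ hx => ?_
          obtain ⟨i', j', he⟩ := hx j
          obtain ⟨q, -, h4⟩ := hMs2 s x (c j) i' j' he
          obtain ⟨i1, j1, h5, -⟩ := h4 k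
          exact hj ⟨i1, j1, h5⟩
        rw [h2, card_empty, Nat.cast_zero, zero_pow ha.ne']
  calc _ = ∑ s : Fin b → Fin n, ∑ c ∈ univ.filter (fun c : Fin h → Fin n => StrictMono c),
        ((univ.filter fun r : Fin a → Fin n => StrictMono r ∧
          ∀ i j, M (r i) (c j) = H₁ i j).card : ℝ) *
          (if ∀ k, ∃ i, ∀ j, M (s k) (c j) = H₂ i j then (1 : ℝ) else 0) := by
        rw [sum_comm]
        refine sum_congr rfl fun c _ => ?_
        rw [pw c, mul_sum]
    _ ≤ ∑ s : Fin b → Fin n, κ * ∑ c : Fin h → Fin n, ((G H₁ M c).card : ℝ) ^ a *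
        (if ∀ k, ∀ j, ∃ i' j', H₂ i' j' = M (s k) (c j) then (1 : ℝ) else 0) :=
        sum_le_sum fun s _ => main s
    _ = _ := by
        rw [← mul_sum, sum_comm]
        congr 1
        refine sum_congr rfl fun c _ => ?_
        rw [pw2 c, mul_sum]

end U85

open S85 U85 in
open Classical in
theorem stack3_85 : StStack3 := by
  intro a b m h H H' p u v κ ha hb hh hS hκ hL n M
  obtain ⟨hSp, hd, hp, hk, -⟩ := hS
  have hm := card_splits hSp
  have hw : 0 ≤ wordMax (fun i => H (v i)) / (b.factorial : ℝ) :=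
    div_nonneg (wordMax_nonneg _) (by positivity)
  set W := wordMax (fun i => H (v i)) / (b.factorial : ℝ) with hW
  have h1 : (rcopies H M : ℝ) ≤ ∑ c ∈ univ.filter (fun c : Fin h → Fin n => StrictMono c),
      ((univ.filter fun r : Fin a → Fin n => StrictMono r ∧
        ∀ i j, M (r i) (c j) = H (u i) j).card : ℝ) *
        (W * ((E (fun i => H (v i)) M c).card : ℝ) ^ b) := by
    rw [rcopies_eq]
    push_cast
    refine sum_le_sum fun c _ => ?_
    have s1 := step1 H u v hSp M c
    have s2 := step2e (fun i => H (v i)) M c hb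
    have s3 : (((univ.filter fun r : Fin m → Fin n => StrictMono r ∧
        ∀ i j, M (r i) (c j) = H i j).card : ℕ) : ℝ) ≤
      ((univ.filter fun r : Fin a → Fin n => StrictMono r ∧
        ∀ i j, M (r i) (c j) = H (u i) j).card : ℝ) *
      ((univ.filter fun r : Fin b → Fin n => StrictMono r ∧
        ∀ i j, M (r i) (c j) = H (v i) j).card : ℝ) := by exact_mod_cast s1
    exact s3.trans (mul_le_mul_of_nonneg_left s2 (Nat.cast_nonneg _))
  have h2 : ∑ c ∈ univ.filter (fun c : Fin h → Fin n => StrictMono c),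
      ((univ.filter fun r : Fin a → Fin n => StrictMono r ∧
        ∀ i j, M (r i) (c j) = H (u i) j).card : ℝ) *
        (W * ((E (fun i => H (v i)) M c).card : ℝ) ^ b) =
      W * ∑ c ∈ univ.filter (fun c : Fin h → Fin n => StrictMono c),
      ((univ.filter fun r : Fin a → Fin n => StrictMono r ∧
        ∀ i j, M (r i) (c j) = H (u i) j).card : ℝ) *
        ((E (fun i => H (v i)) M c).card : ℝ) ^ b := by
    rw [mul_sum]
    exact sum_congr rfl fun c _ => by ring
  have h3 := U85.step4 (fun i => H (u i)) H' (fun i => H (v i)) p κ ha hb hκ hL hp hk M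
  have h4 : ∑ c : Fin h → Fin n, ((G (fun i => H (u i)) M c).card : ℝ) ^ a *
      ((G (fun i => H (v i)) M c).card : ℝ) ^ b ≤ fac1 a b * (grids H M : ℝ) := by
    rw [grids_eq]
    push_cast
    rw [mul_sum]
    refine sum_le_sum fun c _ => ?_
    refine (am2 a b ha hb _ _ (Nat.cast_nonneg _) (Nat.cast_nonneg _)).trans ?_
    refine mul_le_mul_of_nonneg_left ?_ (fac1_nonneg a b)
    rw [← hm]
    refine pow_le_pow_left₀ (by positivity) ?_ m
    have hdis : Disjoint (G (fun i => H (u i)) M c) (G (fun i => H (v i)) M c) := by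
      rw [disjoint_left]
      intro x hx hx'
      obtain ⟨i, j, h5⟩ := (mem_filter.1 hx).2 ⟨0, hh⟩
      obtain ⟨i', j', h6⟩ := (mem_filter.1 hx').2 ⟨0, hh⟩
      exact hd i i' j j' (h5.trans h6.symm)
    have hle : (G (fun i => H (u i)) M c).card + (G (fun i => H (v i)) M c).card ≤
        (G H M c).card := by
      rw [← card_union_of_disjoint hdis]
      refine card_le_card fun x hx => ?_
      refine mem_filter.2 ⟨mem_univ _, fun j => ?_⟩
      rcases mem_union.1 hx with h7 | h7
      · obtain ⟨i, j', h8⟩ := (mem_filter.1 h7).2 j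
        exact ⟨u i, j', h8⟩
      · obtain ⟨i, j', h8⟩ := (mem_filter.1 h7).2 j
        exact ⟨v i, j', h8⟩
    exact_mod_cast hle
  calc (rcopies H M : ℝ) ≤ _ := h1
    _ = _ := h2
    _ ≤ W * (κ * ∑ c : Fin h → Fin n, ((G (fun i => H (u i)) M c).card : ℝ) ^ a *
        ((G (fun i => H (v i)) M c).card : ℝ) ^ b) := mul_le_mul_of_nonneg_left h3 hw
    _ ≤ W * (κ * (fac1 a b * (grids H M : ℝ))) :=
        mul_le_mul_of_nonneg_left (mul_le_mul_of_nonneg_left h4 hκ) hw
    _ = _ := by ring

end Pool.Agent.Lib.MP_efec9b_co.BS
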