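import Pool.Agent.Lib.MP_efec9b_co.BS.All85
import Pool.Agent.Lib.MP_efec9b_co.BS.Sq85
import Pool.Agent.Lib.MP_efec9b_co.BS.RBASE84
import Pool.Agent.Lib.MP_efec9b_co.BS.ONEROW84
import Pool.Agent.Lib.MP_efec9b_co.BS.Stack3_85

/-!
MP_efec9b_co: every member of the class `Good3` is tight (assembly).
-/

set_option autoImplicit false

namespace Pool.Agent.Lib.MP_efec9b_co.BS

theorem good3_pos {a h : ℕ} {H : Fin a → Fin h → ℕ} (hR : Good3 H) : 0 < a ∧ 0 < h := by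
  induction hR with
  | base H ha hh _ _ => exact ⟨ha, hh⟩
  | tr H _ ih => exact ⟨ih.2, ih.1⟩
  | stack H H' p u v _ _ _ ih =>
    exact ⟨lt_of_le_of_lt (Nat.zero_le _) (u ⟨0, ih.1⟩).2, ih.2⟩
  | glue H e₁ e₂ g₁ g₂ ρ₁ ρ₂ σ₁ σ₂ B₁ B₂ _ _ _ ih1 ih2 =>
    exact ⟨lt_of_le_of_lt (Nat.zero_le _) (e₁ ⟨0, ih1.1⟩).2,
      lt_of_le_of_lt (Nat.zero_le _) (g₁ ⟨0, ih1.2⟩).2⟩

theorem rtight_of_good3 (hU2 : StVStack3) (hU3 : StGlue3) (hU4 : StVGlue3) {a h : ℕ}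
    {H : Fin a → Fin h → ℕ} (hR : Good3 H) : RTight H := by
  induction hR with
  | base H ha hh h1 h2 => exact rbase84 _ _ H ha hh h1 h2
  | tr H _ ih => exact rtr85 _ _ H ih
  | @stack a b m h H H' p u v hb hS hB ih =>
    obtain ⟨ha, hh⟩ := good3_pos hB
    have h3 := stack3_85 a b m h H H' p u v _ ha hb hh hS (rvalue_nonneg _) ih
    unfold RTight
    rw [hU2 a b m h H H' p u v ha hb hh hS]
    exact h3
  | @glue a b m c d l H e₁ e₂ g₁ g₂ ρ₁ ρ₂ σ₁ σ₂ B₁ B₂ hG hB1 hB2 ih1 ih2 =>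
    obtain ⟨ha, hc⟩ := good3_pos hB1
    obtain ⟨hb, hd⟩ := good3_pos hB2
    have h3 := hU3 a b m c d l H e₁ e₂ g₁ g₂ ρ₁ ρ₂ σ₁ σ₂ B₁ B₂ _ _ ha hb hc hd hG
      (rvalue_nonneg _) (rvalue_nonneg _) ih1 ih2
    unfold RTight
    rw [hU4 a b m c d l H e₁ e₂ g₁ g₂ ρ₁ ρ₂ σ₁ σ₂ B₁ B₂ ha hb hc hd hG]
    exact h3

theorem both_of_good3 (hU2 : StVStack3) (hU3 : StGlue3) (hU4 : StVGlue3) {h : ℕ}
    {H : Fin h → Fin h → ℕ} (hB : Good3 H) (hM : Mono H) : BothEqual H (value H) :=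
  fin46 h H (good3_pos hB).1 hM (sq85 _ H (rtight_of_good3 hU2 hU3 hU4 hB))

/-- the old class -/
theorem good3_of_good2 {a h : ℕ} {H : Fin a → Fin h → ℕ} (hB : Good2 H) : Good3 H := by
  induction hB with
  | base H ha hh h1 h2 => exact Good3.base H ha hh h1 h2
  | tr H _ ih => exact Good3.tr H ih
  | @stack a b m h H u v hb hS _ ih =>
    refine Good3.stack H (fun i => H (u i)) (fun _ => 0) u v hb ?_ ih
    obtain ⟨h1, h2, h3⟩ := hS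
    exact ⟨h1, h2, fun _ _ _ _ _ => rfl, fun i i' j j' => ⟨fun h => ⟨h, rfl⟩, fun h => h.1⟩,
      fun j j' _ h4 => h3 j j' h4⟩
  | @glue a b m c d l H e₁ e₂ g₁ g₂ hG hC _ _ ih1 ih2 =>
    refine Good3.glue H e₁ e₂ g₁ g₂ (fun _ => 0) (fun _ => 0) (fun _ => 0) (fun _ => 0)
      (fun i j => H (e₁ i) (g₁ j)) (fun i j => H (e₂ i) (g₂ j)) ?_ ih1 ih2
    obtain ⟨h1, h2, h3, h4⟩ := hC
    exact ⟨hG, fun _ _ _ _ _ => ⟨rfl, rfl⟩, fun _ _ _ _ _ => ⟨rfl, rfl⟩,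
      fun i i' j j' => ⟨fun h => ⟨h, rfl, rfl⟩, fun h => h.1⟩,
      fun i i' j j' => ⟨fun h => ⟨h, rfl, rfl⟩, fun h => h.1⟩,
      fun i i' h => h1 i i' (congrFun h), fun i i' h => h2 i i' (congrFun h), h3, h4⟩

end Pool.Agent.Lib.MP_efec9b_co.BS
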