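import Pool.Agent.Lib.MP_efec9b_co.BS.Defs85

/-!
Row BASE: the local form of the upper bound (adapted from `Bnd77.upper`, `Lag77.word_bound`).
-/

set_option autoImplicit false

namespace Pool.Agent.Lib.MP_efec9b_co.BS

open Finset BU77

open Classical in
/-- the local form of `word_bound` -/
theorem word_bound_loc {h : ℕ} (H : Fin h → Fin h → ℕ) (hh : 0 < h) (hN : RowsApart H)
    (hL : ColumnLagrangian H) {n : ℕ} (w : Fin n → ℕ) :
    ∑ v ∈ cols H, ((univ.filter fun r : Fin h → Fin n => StrictMono r ∧
      ∀ i, w (r i) = v i).card : ℝ) ≤ wordMax (fun i => H i) / h.factorial *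
        ((univ.filter fun x : Fin n => ∃ i j, H i j = w x).card : ℝ) ^ h := by
  have hR : (0 : ℝ) < h := by exact_mod_cast hh
  set ρ : Fin h → Fin h → ℕ := fun i => H i with hρ
  set cnt : ℕ → ℕ := fun s => (univ.filter fun x : Fin n => w x = s).card with hcnt
  set P : ℝ := ∏ b ∈ univ.image ρ, ((mu ρ b).factorial : ℝ) with hP
  have hPpos : 0 < P := prod_pos fun b _ => by exact_mod_cast (mu ρ b).factorial_pos
  have one : ∀ v ∈ cols H, ((univ.filter fun r : Fin h → Fin n => StrictMono r ∧
      ∀ i, w (r i) = v i).card : ℝ) ≤ (∏ i, (cnt (v i) : ℝ)) / P := by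
    intro v hv
    obtain ⟨j, hj⟩ := (mem_cols H).1 hv
    have hvi : ∀ i, v i = ρ i j := fun i => (congrFun hj i).symm
    have c1 := countG v (fun s => univ.filter fun x : Fin n => w x = s)
    have e1 : (univ.filter fun r : Fin h → Fin n => StrictMono r ∧ ∀ i, w (r i) = v i) =
        (univ.filter fun c : Fin h → Fin n => StrictMono c ∧
          ∀ i, c i ∈ univ.filter fun x : Fin n => w x = v i) := by
      ext r
      simp only [mem_filter, mem_univ, true_and]
    rw [e1]
    have inj : Set.InjOn (fun b : Fin h → ℕ => b j) (univ.image ρ : Finset (Fin h → ℕ)) := by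
      intro b hb b' hb' hbb
      rw [mem_coe, mem_image] at hb hb'
      obtain ⟨i, -, rfl⟩ := hb
      obtain ⟨i', -, rfl⟩ := hb'
      rcases hN i i' with hE | hE
      · exact hE
      · exact absurd hbb (hE j)
    have himg : univ.image v = (univ.image ρ).image (fun b : Fin h → ℕ => b j) := by
      rw [image_image]
      refine image_congr fun i _ => ?_
      exact hvi i
    have hmu : ∀ b ∈ univ.image ρ, mu v (b j) = mu ρ b := by
      intro b hb
      obtain ⟨i, -, rfl⟩ := mem_image.1 hb
      unfold mu
      congr 1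
      ext i'
      rw [mem_filter, mem_filter, hvi i']
      constructor
      · rintro ⟨h1, h2⟩
        exact ⟨h1, inj (mem_coe.2 (mem_image_of_mem ρ (mem_univ i')))
          (mem_coe.2 (mem_image_of_mem ρ (mem_univ i))) h2⟩
      · rintro ⟨h1, h2⟩
        exact ⟨h1, by rw [h2]⟩
    have e2 : ∏ s ∈ univ.image v, (cnt s).choose (mu v s) =
        ∏ b ∈ univ.image ρ, (cnt (b j)).choose (mu ρ b) := by
      rw [himg, prod_image inj]
      exact prod_congr rfl fun b hb => by rw [hmu b hb]
    have c2 : ((univ.filter fun c : Fin h → Fin n => StrictMono c ∧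
          ∀ i, c i ∈ univ.filter fun x : Fin n => w x = v i).card : ℝ) ≤
        ((∏ b ∈ univ.image ρ, (cnt (b j)).choose (mu ρ b) : ℕ) : ℝ) := by
      rw [← e2]
      exact_mod_cast c1
    refine c2.trans ?_
    have e3 : (∏ i, (cnt (v i) : ℝ)) = ∏ b ∈ univ.image ρ, (cnt (b j) : ℝ) ^ mu ρ b := by
      rw [← fib_prod ρ (fun b => (cnt (b j) : ℝ))]
      exact prod_congr rfl fun i _ => by rw [hvi i]
    rw [e3, hP, ← prod_div_distrib]
    push_cast
    refine prod_le_prod (fun b _ => by positivity) fun b _ => ?_
    exact Nat.choose_le_pow_div (mu ρ b) (cnt (b j))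
  refine (sum_le_sum one).trans ?_
  rw [← sum_div]
  have e4 : wordMax ρ / h.factorial = (∏ i, ((mu ρ (ρ i) : ℝ) / h)) / P := by
    rw [wordMax_eq, fib_prod ρ (fun b => (mu ρ b : ℝ) / h), hP, ← prod_div_distrib]
    have : (0 : ℝ) < h.factorial := by exact_mod_cast h.factorial_pos
    field_simp
  rw [e4, div_mul_eq_mul_div]
  refine div_le_div_of_nonneg_right ?_ hPpos.le
  set S : Finset (Fin n) := univ.filter fun x : Fin n => ∃ i j, H i j = w x with hS
  -- letters of `H`
  have hsub : ∀ v ∈ cols H, ∀ i, cnt (v i) = (S.filter fun x : Fin n => w x = v i).card := by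
    intro v hv i
    obtain ⟨j, hj⟩ := (mem_cols H).1 hv
    rw [hcnt, hS]
    dsimp only
    congr 1
    ext x
    simp only [mem_filter, mem_univ, true_and]
    constructor
    · intro hx
      exact ⟨⟨i, j, by rw [hx]; exact congrFun hj i⟩, hx⟩
    · intro hx
      exact hx.2
  set c' : ℕ → ℕ := fun s => (S.filter fun x : Fin n => w x = s).card with hc'
  have hre : ∑ v ∈ cols H, ∏ i, (cnt (v i) : ℝ) = ∑ v ∈ cols H, ∏ i, (c' (v i) : ℝ) :=
    sum_congr rfl fun v hv => prod_congr rfl fun i _ => by rw [hsub v hv i]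
  rw [hre]
  rcases Nat.eq_zero_or_pos S.card with hn | hn
  · have hSe : S = ∅ := card_eq_zero.1 hn
    have : ∀ s, c' s = 0 := by
      intro s
      rw [hc']
      dsimp only
      rw [hSe, filter_empty, card_empty]
    have z : ∑ v ∈ cols H, ∏ i, (c' (v i) : ℝ) = 0 := by
      refine sum_eq_zero fun v _ => ?_
      refine prod_eq_zero (mem_univ (⟨0, hh⟩ : Fin h)) ?_
      rw [this]
      norm_num
    rw [z]
    positivity
  · have hnR : (0 : ℝ) < S.card := by exact_mod_cast hn
    set K : Finset ℕ := S.image w with hKdef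
    have l := hL K (fun s => (c' s : ℝ) / S.card) (fun s => by positivity) (by
      intro s hs
      have : c' s = 0 := by
        rw [hc']
        dsimp only
        rw [card_eq_zero, filter_eq_empty_iff]
        intro x hxS hx
        exact hs (mem_image.2 ⟨x, hxS, hx⟩)
      rw [this]
      simp) (by
      rw [← sum_div]
      have : ∑ s ∈ K, (c' s : ℝ) = S.card := by
        have := card_eq_sum_card_image w S
        rw [hKdef]
        exact_mod_cast this.symm
      rw [this, div_self hnR.ne'])
    have e5 : ∑ v ∈ cols H, ∏ i, (c' (v i) : ℝ) =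
        (∑ v ∈ cols H, ∏ i, ((c' (v i) : ℝ) / S.card)) * (S.card : ℝ) ^ h := by
      rw [sum_mul]
      refine sum_congr rfl fun v _ => ?_
      rw [prod_div_distrib, prod_const, card_univ, Fintype.card_fin]
      field_simp
    rw [e5]
    exact mul_le_mul_of_nonneg_right l (by positivity)

open Classical in
theorem cells_eq {h n : ℕ} (H : Fin h → Fin h → ℕ) (M : Fin n → Fin n → ℕ) :
    cells H M = ∑ y : Fin n, (univ.filter fun x : Fin n => ∃ i j, H i j = M x y).card := by
  unfold cells
  rw [Nat.card_eq_fintype_card, Fintype.card_subtype, card_filter, Fintype.sum_prod_type,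
    sum_comm]
  refine sum_congr rfl fun y _ => ?_
  rw [card_filter]

open Classical in
theorem base46 : StBase := by
  intro h H hh hN hL n M
  set κ : Fin h → Fin h → ℕ := fun j i => H i j with hκ
  have hf : (0 : ℝ) < h.factorial := by exact_mod_cast h.factorial_pos
  have wκ : 0 ≤ wordMax κ / h.factorial := div_nonneg (wordMax_nonneg κ) hf.le
  have wρ : 0 ≤ wordMax (fun i => H i) / h.factorial := div_nonneg (wordMax_nonneg _) hf.le
  set L : ℝ := wordMax (fun i => H i) / h.factorial with hLdef
  set SM : Finset (Fin h → Fin n) := univ.filter fun r : Fin h → Fin n => StrictMono r with hSM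
  set G : (Fin h → Fin n) → Finset (Fin n) := fun r =>
    univ.filter fun y => (fun i => M (r i) y) ∈ cols H with hG
  set z : Fin n → ℕ := fun y => (univ.filter fun x : Fin n => ∃ i j, H i j = M x y).card with hz
  have step : ∀ r : Fin h → Fin n, ((univ.filter fun c : Fin h → Fin n =>
      StrictMono c ∧ ∀ i j, M (r i) (c j) = H i j).card : ℝ) ≤
      wordMax κ / h.factorial * ((G r).card : ℝ) ^ h := by
    intro r
    set A : (Fin h → ℕ) → Finset (Fin n) := fun v => univ.filter fun y => ∀ i, M (r i) y = v i
      with hA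
    have e1 : (univ.filter fun c : Fin h → Fin n => StrictMono c ∧ ∀ i j, M (r i) (c j) = H i j) =
        (univ.filter fun c : Fin h → Fin n => StrictMono c ∧ ∀ j, c j ∈ A (κ j)) := by
      ext c
      rw [mem_filter, mem_filter]
      refine and_congr_right fun _ => and_congr_right fun _ => ?_
      constructor
      · intro hc j
        rw [hA]
        exact mem_filter.2 ⟨mem_univ _, fun i => hc i j⟩
      · intro hc i j
        exact (mem_filter.1 (hc j)).2 i
    have c1 := countG κ A
    have c2 := choose_prod_le κ hh (fun v => (A v).card)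
    have c3 : ((univ.filter fun c : Fin h → Fin n => StrictMono c ∧ ∀ j, c j ∈ A (κ j)).card : ℝ)
        ≤ ((∏ b ∈ univ.image κ, (A b).card.choose (mu κ b) : ℕ) : ℝ) := by exact_mod_cast c1
    have e2 : ∑ b ∈ univ.image κ, ((A b).card : ℝ) = ((G r).card : ℝ) := by
      have h1 : (G r).card = ∑ b ∈ cols H, ((G r).filter fun y =>
          (fun i => M (r i) y) = b).card :=
        card_eq_sum_card_fiberwise (fun y hy => (mem_filter.1 hy).2)
      have h2 : ∀ b ∈ cols H, ((G r).filter fun y => (fun i => M (r i) y) = b) = A b := by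
        intro b hb
        ext y
        rw [hG, hA]
        simp only [mem_filter, mem_univ, true_and]
        constructor
        · rintro ⟨-, h3⟩ i
          exact congrFun h3 i
        · intro h3
          have h4 : (fun i => M (r i) y) = b := funext h3
          exact ⟨by rw [h4]; exact hb, h4⟩
      rw [h1]
      push_cast
      exact sum_congr rfl fun b hb => by rw [h2 b hb]
    rw [e1, ← e2]
    exact c3.trans c2
  have hNy : ∀ y : Fin n, ((SM.filter fun r => (fun i => M (r i) y) ∈ cols H).card : ℝ) ≤
      L * (z y : ℝ) ^ h := by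
    intro y
    have h1 : (SM.filter fun r => (fun i => M (r i) y) ∈ cols H).card = ∑ b ∈ cols H,
        ((SM.filter fun r => (fun i => M (r i) y) ∈ cols H).filter fun r =>
          (fun i => M (r i) y) = b).card :=
      card_eq_sum_card_fiberwise (fun r hr => (mem_filter.1 hr).2)
    have h2 : ∀ b ∈ cols H, ((SM.filter fun r => (fun i => M (r i) y) ∈ cols H).filter fun r =>
          (fun i => M (r i) y) = b) =
        (univ.filter fun r : Fin h → Fin n => StrictMono r ∧ ∀ i, M (r i) y = b i) := by
      intro b hb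
      ext r
      rw [hSM]
      simp only [mem_filter, mem_univ, true_and]
      constructor
      · rintro ⟨⟨h3, -⟩, h4⟩
        exact ⟨h3, fun i => congrFun h4 i⟩
      · rintro ⟨h3, h4⟩
        have h5 : (fun i => M (r i) y) = b := funext h4
        exact ⟨⟨h3, by rw [h5]; exact hb⟩, h5⟩
    have h3 := word_bound_loc H hh hN hL (fun x => M x y)
    rw [h1]
    push_cast
    rw [sum_congr rfl fun b hb => by rw [h2 b hb]]
    exact h3
  have hX : ∀ c : Fin h → Fin n, ((SM.filter fun r => ∀ j, c j ∈ G r).card : ℝ) ≤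
      L * ∏ j, (z (c j) : ℝ) := by
    intro c
    set X : ℝ := ((SM.filter fun r => ∀ j, c j ∈ G r).card : ℝ) with hXd
    have hX0 : 0 ≤ X := Nat.cast_nonneg _
    have h1 : ∀ j, X ≤ L * (z (c j) : ℝ) ^ h := by
      intro j
      refine le_trans ?_ (hNy (c j))
      rw [hXd]
      have : (SM.filter fun r => ∀ j, c j ∈ G r).card ≤
          (SM.filter fun r => (fun i => M (r i) (c j)) ∈ cols H).card := by
        refine card_le_card fun r hr => ?_
        rw [mem_filter] at hr ⊢
        exact ⟨hr.1, (mem_filter.1 (hr.2 j)).2⟩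
      exact_mod_cast this
    have h2 : X ^ h ≤ (L * ∏ j, (z (c j) : ℝ)) ^ h := by
      calc X ^ h = ∏ _j : Fin h, X := by rw [prod_const, card_univ, Fintype.card_fin]
        _ ≤ ∏ j, (L * (z (c j) : ℝ) ^ h) := prod_le_prod (fun _ _ => hX0) fun j _ => h1 j
        _ = _ := by
            rw [prod_mul_distrib, prod_const, card_univ, Fintype.card_fin, mul_pow, prod_pow]
    exact (pow_le_pow_iff_left₀ hX0 (mul_nonneg wρ (prod_nonneg fun _ _ => Nat.cast_nonneg _))
      hh.ne').1 h2
  have dbl : ∑ r ∈ SM, ((G r).card : ℝ) ^ h =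
      ∑ c : Fin h → Fin n, ((SM.filter fun r => ∀ j, c j ∈ G r).card : ℝ) := by
    have e1 : ∀ r, ((G r).card : ℝ) ^ h =
        ∑ c : Fin h → Fin n, if ∀ j, c j ∈ G r then (1 : ℝ) else 0 := by
      intro r
      have : (Fintype.piFinset fun _ : Fin h => G r).card = (G r).card ^ h := by
        rw [Fintype.card_piFinset, prod_const, card_univ, Fintype.card_fin]
      have h2 : (Fintype.piFinset fun _ : Fin h => G r) =
          univ.filter fun c : Fin h → Fin n => ∀ j, c j ∈ G r := by
        ext c
        rw [Fintype.mem_piFinset, mem_filter]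
        simp
      rw [h2, card_filter] at this
      have h3 : (((G r).card ^ h : ℕ) : ℝ) =
          ((∑ c : Fin h → Fin n, if ∀ j, c j ∈ G r then 1 else 0 : ℕ) : ℝ) := by
        rw [this]
      push_cast at h3
      exact h3
    have e2 : ∀ c : Fin h → Fin n, ((SM.filter fun r => ∀ j, c j ∈ G r).card : ℝ) =
        ∑ r ∈ SM, if ∀ j, c j ∈ G r then (1 : ℝ) else 0 := by
      intro c
      rw [card_filter]
      push_cast
      rfl
    simp_rw [e1, e2]
    rw [sum_comm]
  have hcells : (cells H M : ℝ) = ∑ y, (z y : ℝ) := by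
    rw [cells_eq]
    push_cast
    rfl
  rw [copies_eq, hcells]
  push_cast
  calc ∑ r ∈ univ.filter (fun r : Fin h → Fin n => StrictMono r),
        ((univ.filter fun c : Fin h → Fin n =>
          StrictMono c ∧ ∀ i j, M (r i) (c j) = H i j).card : ℝ)
      ≤ ∑ r ∈ SM, wordMax κ / h.factorial * ((G r).card : ℝ) ^ h := by
        refine sum_le_sum fun r _ => ?_
        have := step r
        convert this
    _ = wordMax κ / h.factorial *
        ∑ c : Fin h → Fin n, ((SM.filter fun r => ∀ j, c j ∈ G r).card : ℝ) := by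
        rw [← dbl, mul_sum]
    _ ≤ wordMax κ / h.factorial * ∑ c : Fin h → Fin n, L * ∏ j, (z (c j) : ℝ) :=
        mul_le_mul_of_nonneg_left (sum_le_sum fun c _ => hX c) wκ
    _ = value H / (h.factorial : ℝ) ^ 2 * (∑ y, (z y : ℝ)) ^ h := by
        rw [← mul_sum, Fintype.sum_pow, hLdef]
        unfold value
        field_simp
        rw [hκ]
        ring

end Pool.Agent.Lib.MP_efec9b_co.BS
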