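import Pool.Agent.Lib.MP_efec9b_co.BS.Defs85

/-!
MP_efec9b_co, gluing theorem: row BASE (helper84).
-/

set_option autoImplicit false

namespace Pool.Agent.Lib.MP_efec9b_co.BS

open Finset BU77

section

variable {h : ℕ} (H : Fin h → Fin h → ℕ)

open Classical in
/-- letters in the symbols of `H` only -/
theorem word_loc (hh : 0 < h) (hN : RowsApart H) (hL : ColumnLagrangian H) {n : ℕ}
    (w : Fin n → ℕ) :
    ∑ v ∈ cols H, ((univ.filter fun r : Fin h → Fin n => StrictMono r ∧
      ∀ i, w (r i) = v i).card : ℝ) ≤ wordMax (fun i => H i) / h.factorial *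
        ((univ.filter fun x : Fin n => ∃ i j, H i j = w x).card : ℝ) ^ h := by
  set S : Finset (Fin n) := univ.filter fun x : Fin n => ∃ i j, H i j = w x with hS
  set e : Fin S.card ↪o Fin n := S.orderEmbOfFin rfl with he
  refine le_trans ?_ (word_bound H hh hN hL (fun x => w (e x)))
  refine sum_le_sum fun v hv => ?_
  obtain ⟨j, hj⟩ := (mem_cols H).1 hv
  have : (univ.filter fun r : Fin h → Fin n => StrictMono r ∧ ∀ i, w (r i) = v i).card ≤
      (univ.filter fun r : Fin h → Fin S.card => StrictMono r ∧ ∀ i, w (e (r i)) = v i).card := by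
    refine Finset.card_le_card_of_surjOn (fun r => fun i => e (r i)) ?_
    intro r hr
    rw [mem_coe, mem_filter] at hr
    obtain ⟨-, hr1, hr2⟩ := hr
    have hmem : ∀ i, r i ∈ S := by
      intro i
      rw [hS, mem_filter]
      refine ⟨mem_univ _, i, j, ?_⟩
      rw [hr2 i, ← hj]
    have hex : ∀ i, ∃ a, e a = r i := by
      intro i
      have h1 : r i ∈ Set.range e := by
        rw [he, Finset.range_orderEmbOfFin]
        exact mem_coe.2 (hmem i)
      exact h1
    choose r' hr' using hex
    refine ⟨r', ?_, funext hr'⟩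
    rw [mem_coe, mem_filter]
    refine ⟨mem_univ _, ?_, ?_⟩
    · intro a b hab
      have := hr1 hab
      rw [← hr' a, ← hr' b] at this
      exact e.lt_iff_lt.1 this
    · intro i
      rw [hr' i]
      exact hr2 i
  exact_mod_cast this

open Classical in
theorem sum_pow_eq {ι : Type} [Fintype ι] (h : ℕ) (f : ι → ℝ) :
    (∑ y, f y) ^ h = ∑ c : Fin h → ι, ∏ i, f (c i) := by
  have := Finset.prod_univ_sum (fun _ : Fin h => (univ : Finset ι)) (fun _ y => f y)
  rw [prod_const, card_univ, Fintype.card_fin, Fintype.piFinset_univ] at this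
  exact this

open Classical in
theorem cells_sum {n : ℕ} (M : Fin n → Fin n → ℕ) :
    (cells H M : ℝ) = ∑ y : Fin n, ((univ.filter fun x : Fin n => ∃ i j, H i j = M x y).card : ℝ) := by
  unfold cells
  rw [Nat.card_eq_fintype_card, Fintype.card_subtype, card_filter]
  push_cast
  rw [← univ_product_univ, sum_product_right]
  refine sum_congr rfl fun y _ => ?_
  rw [card_filter]
  push_cast
  rfl

open Classical in
theorem local_upper (hh : 0 < h) (hN : RowsApart H) (hL : ColumnLagrangian H) {n : ℕ}
    (M : Fin n → Fin n → ℕ) : (copies H M : ℝ) ≤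
      wordMax (fun j i => H i j) / h.factorial * (wordMax (fun i => H i) / h.factorial) *
        (cells H M : ℝ) ^ h := by
  set κ : Fin h → Fin h → ℕ := fun j i => H i j with hκ
  have hf : (0 : ℝ) < h.factorial := by exact_mod_cast h.factorial_pos
  have wκ : 0 ≤ wordMax κ / h.factorial := div_nonneg (wordMax_nonneg κ) hf.le
  have wρ : 0 ≤ wordMax (fun i => H i) / h.factorial := div_nonneg (wordMax_nonneg _) hf.le
  set L : ℝ := wordMax (fun i => H i) / h.factorial with hLdef
  set A : (Fin h → Fin n) → (Fin h → ℕ) → Finset (Fin n) := fun r v =>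
    univ.filter fun y => ∀ i, M (r i) y = v i with hA
  set gd : (Fin h → Fin n) → Fin n → ℝ := fun r y =>
    ∑ v ∈ cols H, if ∀ i, M (r i) y = v i then (1 : ℝ) else 0 with hgd
  have gd0 : ∀ r y, 0 ≤ gd r y := fun r y => sum_nonneg fun v _ => by split_ifs <;> norm_num
  have gd1 : ∀ r y, gd r y ≤ 1 := by
    intro r y
    have e1 : gd r y = ∑ v ∈ cols H, if (fun i => M (r i) y) = v then (1 : ℝ) else 0 := by
      refine sum_congr rfl fun v _ => ?_
      have : (∀ i, M (r i) y = v i) ↔ (fun i => M (r i) y) = v := funext_iff.symm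
      by_cases hc : ∀ i, M (r i) y = v i
      · rw [if_pos hc, if_pos (this.1 hc)]
      · rw [if_neg hc, if_neg fun hc' => hc (this.2 hc')]
    rw [e1, sum_ite_eq]
    split_ifs <;> norm_num
  have Asum : ∀ r, ∑ v ∈ cols H, ((A r v).card : ℝ) = ∑ y, gd r y := by
    intro r
    rw [hgd]
    dsimp only
    rw [sum_comm]
    refine sum_congr rfl fun v _ => ?_
    rw [hA]
    dsimp only
    rw [card_filter]
    push_cast
    rfl
  have step : ∀ r : Fin h → Fin n, ((univ.filter fun c : Fin h → Fin n =>
      StrictMono c ∧ ∀ i j, M (r i) (c j) = H i j).card : ℝ) ≤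
      wordMax κ / h.factorial * (∑ y, gd r y) ^ h := by
    intro r
    have e1 : (univ.filter fun c : Fin h → Fin n => StrictMono c ∧ ∀ i j, M (r i) (c j) = H i j) =
        (univ.filter fun c : Fin h → Fin n => StrictMono c ∧ ∀ j, c j ∈ A r (κ j)) := by
      ext c
      rw [mem_filter, mem_filter]
      refine and_congr_right fun _ => and_congr_right fun _ => ?_
      constructor
      · intro hc j
        rw [hA]
        exact mem_filter.2 ⟨mem_univ _, fun i => hc i j⟩
      · intro hc i j
        exact (mem_filter.1 (hc j)).2 i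
    have c1 := countG κ (A r)
    have c2 := choose_prod_le κ hh (fun v => (A r v).card)
    have c3 : ((univ.filter fun c : Fin h → Fin n => StrictMono c ∧ ∀ j, c j ∈ A r (κ j)).card : ℝ)
        ≤ ((∏ b ∈ univ.image κ, (A r b).card.choose (mu κ b) : ℕ) : ℝ) := by exact_mod_cast c1
    rw [e1]
    refine (c3.trans c2).trans ?_
    refine mul_le_mul_of_nonneg_left ?_ wκ
    have e2 : ∑ b ∈ univ.image κ, ((A r b).card : ℝ) = ∑ v ∈ cols H, ((A r v).card : ℝ) := rfl
    rw [e2, Asum r]
  set z : Fin n → ℝ := fun y => ((univ.filter fun x : Fin n => ∃ i j, H i j = M x y).card : ℝ)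
    with hz
  have z0 : ∀ y, 0 ≤ z y := fun y => by positivity
  set R : Finset (Fin h → Fin n) := univ.filter fun r => StrictMono r with hR
  have colB : ∀ y, ∑ r ∈ R, gd r y ≤ L * z y ^ h := by
    intro y
    have e1 : ∑ r ∈ R, gd r y = ∑ v ∈ cols H, ((univ.filter fun r : Fin h → Fin n =>
        StrictMono r ∧ ∀ i, M (r i) y = v i).card : ℝ) := by
      rw [hgd]
      dsimp only
      rw [sum_comm]
      refine sum_congr rfl fun v _ => ?_
      rw [← filter_filter, card_filter]
      push_cast
      rfl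
    rw [e1]
    exact word_loc H hh hN hL (fun x => M x y)
  have tup : ∀ c : Fin h → Fin n, ∑ r ∈ R, ∏ i, gd r (c i) ≤ L * ∏ i, z (c i) := by
    intro c
    have n0 : 0 ≤ ∑ r ∈ R, ∏ i, gd r (c i) :=
      sum_nonneg fun r _ => prod_nonneg fun i _ => gd0 r (c i)
    have each : ∀ i, ∑ r ∈ R, ∏ i, gd r (c i) ≤ L * z (c i) ^ h := by
      intro i
      refine le_trans (sum_le_sum fun r _ => ?_) (colB (c i))
      rw [← mul_prod_erase univ _ (mem_univ i)]
      have : ∏ x ∈ univ.erase i, gd r (c x) ≤ 1 :=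
        prod_le_one (fun x _ => gd0 r (c x)) fun x _ => gd1 r (c x)
      nlinarith [gd0 r (c i)]
    have p1 : (∑ r ∈ R, ∏ i, gd r (c i)) ^ h ≤ (L * ∏ i, z (c i)) ^ h := by
      have q1 : (∑ r ∈ R, ∏ i, gd r (c i)) ^ h = ∏ _i : Fin h, ∑ r ∈ R, ∏ i, gd r (c i) := by
        rw [prod_const, card_univ, Fintype.card_fin]
      have q2 : (L * ∏ i, z (c i)) ^ h = ∏ i : Fin h, (L * z (c i) ^ h) := by
        rw [prod_mul_distrib, prod_const, card_univ, Fintype.card_fin, prod_pow, mul_pow]
      rw [q1, q2]
      exact prod_le_prod (fun i _ => n0) fun i _ => each i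
    exact le_of_pow_le_pow_left₀ (by omega)
      (mul_nonneg wρ (prod_nonneg fun i _ => z0 (c i))) p1
  rw [copies_eq]
  push_cast
  calc ∑ r ∈ univ.filter (fun r : Fin h → Fin n => StrictMono r),
        ((univ.filter fun c : Fin h → Fin n =>
          StrictMono c ∧ ∀ i j, M (r i) (c j) = H i j).card : ℝ)
      ≤ ∑ r ∈ R, wordMax κ / h.factorial * (∑ y, gd r y) ^ h := sum_le_sum fun r _ => step r
    _ = wordMax κ / h.factorial * ∑ c : Fin h → Fin n, ∑ r ∈ R, ∏ i, gd r (c i) := by
        rw [← mul_sum, sum_comm]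
        congr 1
        exact sum_congr rfl fun r _ => sum_pow_eq h (gd r)
    _ ≤ wordMax κ / h.factorial * ∑ c : Fin h → Fin n, L * ∏ i, z (c i) :=
        mul_le_mul_of_nonneg_left (sum_le_sum fun c _ => tup c) wκ
    _ = wordMax κ / h.factorial * L * (cells H M : ℝ) ^ h := by
        rw [← mul_sum, ← sum_pow_eq h z, cells_sum H M]
        ring

end

theorem base84 : StBase := by
  intro h H hh hN hL n M
  have := local_upper H hh hN hL M
  refine this.trans (le_of_eq ?_)
  unfold value
  ring

end Pool.Agent.Lib.MP_efec9b_co.BS
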