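import Pool.Agent.Lib.MP_efec9b_co.BS.Rows85

/-!
MP_efec9b_co: a set of rows without symbols in common with the other rows, second form.
-/

set_option autoImplicit false

namespace Pool.Agent.Lib.MP_efec9b_co.BS

open Finset BU77

/-- the rows in `R` have no symbol in common with the other rows, and
(i) two different rows in `R` have no common symbol, and columns which are equal in all the rows of
`R` are equal, or
(ii) two different rows in `R` differ in every column, and two columns which are equal in the first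
row of `R`, or in the last row of `R`, are equal -/
def Band {h : ℕ} (H : Fin h → Fin h → ℕ) (R : Finset (Fin h)) : Prop :=
  (∀ i ∈ R, ∀ i' ∉ R, ∀ j j', H i j ≠ H i' j') ∧
    (((∀ i ∈ R, ∀ i' ∈ R, ∀ j j', H i j = H i' j' → H i = H i') ∧
        ∀ j j', (∀ i ∈ R, H i j = H i j') → ∀ k, H k j = H k j') ∨
      ((∀ i ∈ R, ∀ i' ∈ R, H i = H i' ∨ ∀ j, H i j ≠ H i' j) ∧
        ∀ i ∈ R, ((∀ k ∈ R, i ≤ k) ∨ ∀ k ∈ R, k ≤ i) → ∀ j j', H i j = H i j' →
          ∀ k, H k j = H k j'))

theorem good_free {h : ℕ} (H : Fin h → Fin h → ℕ) (R : Finset (Fin h)) (hR : R.Nonempty)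
    (h0 : ∀ i ∈ R, ∀ i' ∉ R, ∀ j j', H i j ≠ H i' j')
    (h1 : ∀ i ∈ R, ∀ i' ∈ R, ∀ j j', H i j = H i' j' → H i = H i')
    (h2 : ∀ j j', (∀ i ∈ R, H i j = H i j') → ∀ k, H k j = H k j') : Good H := by
  classical
  have hh : 0 < h := hR.choose.pos
  have hcard : 0 < R.card := card_pos.2 hR
  by_cases hall : R = univ
  · have h3 : ∀ i i' j j', H i j = H i' j' → H i = H i' := fun i i' =>
      h1 i (by rw [hall]; exact mem_univ _) i' (by rw [hall]; exact mem_univ _)
    refine Good.base _ hh hh ?_ (rlag_of_rclique77 _ hh fun K _ j j' i i' _ _ he => h3 i i' j j' he)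
    intro i i'
    by_cases he : H i = H i'
    · exact Or.inl he
    · exact Or.inr fun j hj => he (h3 i i' j j hj)
  · set u : Fin R.card → Fin h := fun k => R.orderEmbOfFin rfl k with hu
    have hum : ∀ k, u k ∈ R := fun k => R.orderEmbOfFin_mem rfl k
    have hur : ∀ i ∈ R, ∃ k, u k = i := by
      intro i hi
      have : i ∈ Set.range (R.orderEmbOfFin rfl) := by
        rw [R.range_orderEmbOfFin rfl]
        exact hi
      exact this
    have hbase : Good (fun k j => H (u k) j) := by
      refine Good.base _ hcard hh ?_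
        (rlag_of_rclique77 _ hcard fun K _ j j' i i' _ _ he =>
          h1 _ (hum i) _ (hum i') j j' he)
      intro k k'
      by_cases he : H (u k) = H (u k')
      · exact Or.inl he
      · exact Or.inr fun j hj => he (h1 _ (hum k) _ (hum k') j j hj)
    have hC : 0 < Rᶜ.card := by
      refine card_pos.2 ?_
      by_contra hn
      rw [not_nonempty_iff_eq_empty, compl_eq_empty_iff] at hn
      exact hall hn
    refine Good.stack H u (fun k => Rᶜ.orderEmbOfFin rfl k) hC ⟨?_, ?_, ?_⟩ hbase
    · refine splits_of R Rᶜ (fun c => ?_) (fun c hc => ?_)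
      · by_cases hc : c ∈ R
        · exact Or.inl hc
        · exact Or.inr (mem_compl.2 hc)
      · intro hc'
        exact mem_compl.1 hc' hc
    · intro k k' j j'
      exact h0 _ (hum k) _ (mem_compl.1 (Rᶜ.orderEmbOfFin_mem rfl k')) j j'
    · intro j j' he
      refine h2 j j' fun i hi => ?_
      obtain ⟨k, rfl⟩ := hur i hi
      exact he k

theorem good_band {h : ℕ} (H : Fin h → Fin h → ℕ) (R : Finset (Fin h)) (hM : Mono H)
    (hR : R.Nonempty) (hc : Band H R) : Good H := by
  obtain ⟨h0, ⟨h1, h2⟩ | ⟨h1, h2⟩⟩ := hc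
  · exact good_free H R hR h0 h1 h2
  · exact good_rows H R hM hR ⟨h0, h1, h2⟩

end Pool.Agent.Lib.MP_efec9b_co.BS
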