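import Pool.Agent.Lib.MP_efec9b_co.Cor77

/-!
MP_efec9b_co: matrices glued from four blocks without common symbols. Definitions and rows.
-/

set_option autoImplicit false

namespace Pool.Agent.Lib.MP_efec9b_co.BS

open Finset Filter Topology

/-- number of cells of `M` whose symbol occurs in `H` -/
noncomputable def cells {h n : ℕ} (H : Fin h → Fin h → ℕ) (M : Fin n → Fin n → ℕ) : ℕ :=
  Nat.card {p : Fin n × Fin n // ∃ i j, H i j = M p.1 p.2}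

/-- at most `κ * (number of cells with symbols of H) ^ h` copies -/
def Loc {h : ℕ} (H : Fin h → Fin h → ℕ) (κ : ℝ) : Prop :=
  ∀ (n : ℕ) (M : Fin n → Fin n → ℕ), (copies H M : ℝ) ≤ κ * (cells H M : ℝ) ^ h

/-- the value for the blow up of `H` -/
noncomputable def value {h : ℕ} (H : Fin h → Fin h → ℕ) : ℝ :=
  wordMax (fun i => H i) * wordMax (fun j i => H i j)

/-- the blow up is optimal, in the local form -/
def Tight {h : ℕ} (H : Fin h → Fin h → ℕ) : Prop := Loc H (value H / (h.factorial : ℝ) ^ 2)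

/-- `f(H)` and `f(X_{‖H‖}, H)` exist and are both equal to `c` -/
def BothEqual {h : ℕ} (H : Fin h → Fin h → ℕ) (c : ℝ) : Prop :=
  Tendsto (fAll H) atTop (𝓝 c) ∧ Tendsto (fMono H) atTop (𝓝 c)

/-- `u`, `v` are increasing and their ranges divide `Fin h` into two parts -/
def Splits {a b h : ℕ} (u : Fin a → Fin h) (v : Fin b → Fin h) : Prop :=
  StrictMono u ∧ StrictMono v ∧ (∀ i j, u i ≠ v j) ∧ ∀ k, (∃ i, u i = k) ∨ ∃ j, v j = k

/-- the rows of `H` are divided into the rows `e₁ i` and the rows `e₂ i`, the columns into the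
columns `g₁ j` and `g₂ j` (as many as the rows `e₁ i` and `e₂ i`), and the four submatrices have
pairwise no common symbol -/
def Glued {a b h : ℕ} (H : Fin h → Fin h → ℕ) (e₁ : Fin a → Fin h) (e₂ : Fin b → Fin h)
    (g₁ : Fin a → Fin h) (g₂ : Fin b → Fin h) : Prop :=
  Splits e₁ e₂ ∧ Splits g₁ g₂ ∧ ∀ i i' j j', H i j = H i' j' →
    ((∃ k, e₁ k = i) ↔ ∃ k, e₁ k = i') ∧ ((∃ k, g₁ k = j) ↔ ∃ k, g₁ k = j')

/-- rows (columns) of `H` in the same part are equal if their parts in the diagonal blocks are -/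
def Compat {a b h : ℕ} (H : Fin h → Fin h → ℕ) (e₁ : Fin a → Fin h) (e₂ : Fin b → Fin h)
    (g₁ : Fin a → Fin h) (g₂ : Fin b → Fin h) : Prop :=
  (∀ i i', (∀ j, H (e₁ i) (g₁ j) = H (e₁ i') (g₁ j)) → H (e₁ i) = H (e₁ i')) ∧
  (∀ i i', (∀ j, H (e₂ i) (g₂ j) = H (e₂ i') (g₂ j)) → H (e₂ i) = H (e₂ i')) ∧
  (∀ j j', (∀ i, H (e₁ i) (g₁ j) = H (e₁ i) (g₁ j')) → ∀ i, H i (g₁ j) = H i (g₁ j')) ∧
  ∀ j j', (∀ i, H (e₂ i) (g₂ j) = H (e₂ i) (g₂ j')) → ∀ i, H i (g₂ j) = H i (g₂ j')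

/-- the class -/
inductive Built : ∀ {h : ℕ}, (Fin h → Fin h → ℕ) → Prop
  | base {h : ℕ} (H : Fin h → Fin h → ℕ) : 0 < h → RowsApart H → ColumnLagrangian H → Built H
  | tr {h : ℕ} (H : Fin h → Fin h → ℕ) : Built H → Built (fun i j => H j i)
  | glue {a b h : ℕ} (H : Fin h → Fin h → ℕ) (e₁ : Fin a → Fin h) (e₂ : Fin b → Fin h)
      (g₁ : Fin a → Fin h) (g₂ : Fin b → Fin h) : Glued H e₁ e₂ g₁ g₂ → Compat H e₁ e₂ g₁ g₂ →
      Built (fun i j => H (e₁ i) (g₁ j)) → Built (fun i j => H (e₂ i) (g₂ j)) → Built H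

/-! ### rows -/

/-- row BASE (localised form of BU77.upper / word_bound) -/
def StBase : Prop := ∀ (h : ℕ) (H : Fin h → Fin h → ℕ), 0 < h → RowsApart H →
  ColumnLagrangian H → Tight H

/-- row TR -/
def StTr : Prop := ∀ (h : ℕ) (H : Fin h → Fin h → ℕ), Tight H → Tight (fun i j => H j i)

/-- the factor `(s ^ a * (1 - s) ^ b) ^ 2`, `s = a / (a + b)` -/
noncomputable def fac (a b : ℕ) : ℝ :=
  (((a : ℝ) / ((a : ℝ) + b)) ^ a * ((b : ℝ) / ((a : ℝ) + b)) ^ b) ^ 2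

/-- row GLUE -/
def StGlue : Prop := ∀ (a b h : ℕ) (H : Fin h → Fin h → ℕ) (e₁ : Fin a → Fin h)
  (e₂ : Fin b → Fin h) (g₁ : Fin a → Fin h) (g₂ : Fin b → Fin h) (κ₁ κ₂ : ℝ), 0 < a → 0 < b →
  Glued H e₁ e₂ g₁ g₂ → 0 ≤ κ₁ → 0 ≤ κ₂ → Loc (fun i j => H (e₁ i) (g₁ j)) κ₁ →
  Loc (fun i j => H (e₂ i) (g₂ j)) κ₂ → Loc H (κ₁ * κ₂ * fac a b)

/-- row AM: the inequality -/
def StAM : Prop := ∀ (a b : ℕ) (N z₁ z₂ x y : ℝ), 0 < a → 0 < b → 0 ≤ N → 0 ≤ z₁ → 0 ≤ z₂ →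
  0 ≤ x → 0 ≤ y → N ≤ z₁ ^ a * z₂ ^ b → N ≤ (x * y) ^ (min a b) * z₁ ^ (a - b) * z₂ ^ (b - a) →
  N ≤ fac a b * (z₁ + z₂ + x + y) ^ (a + b)

/-- row VAL -/
def StVal : Prop := ∀ (a b h : ℕ) (H : Fin h → Fin h → ℕ) (e₁ : Fin a → Fin h)
  (e₂ : Fin b → Fin h) (g₁ : Fin a → Fin h) (g₂ : Fin b → Fin h), 0 < a → 0 < b →
  Glued H e₁ e₂ g₁ g₂ → Compat H e₁ e₂ g₁ g₂ →
  value H / (h.factorial : ℝ) ^ 2 =
    value (fun i j => H (e₁ i) (g₁ j)) / (a.factorial : ℝ) ^ 2 *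
      (value (fun i j => H (e₂ i) (g₂ j)) / (b.factorial : ℝ) ^ 2) * fac a b

/-- row FIN -/
def StFin : Prop := ∀ (h : ℕ) (H : Fin h → Fin h → ℕ), 0 < h → Mono H → Tight H →
  BothEqual H (value H)

end Pool.Agent.Lib.MP_efec9b_co.BS
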