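import Pool.Agent.Lib.MP_efec9b_co.BS.Defs85

/-!
MP_efec9b_co: rectangular matrices, stacking of rows. Definitions and rows.
-/

set_option autoImplicit false

namespace Pool.Agent.Lib.MP_efec9b_co.BS

open Finset

/-- number of copies of the `a × h` matrix `H` in `M` -/
noncomputable def rcopies {a h n : ℕ} (H : Fin a → Fin h → ℕ) (M : Fin n → Fin n → ℕ) : ℕ :=
  Nat.card {p : (Fin a → Fin n) × (Fin h → Fin n) //
    StrictMono p.1 ∧ StrictMono p.2 ∧ ∀ i j, M (p.1 i) (p.2 j) = H i j}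

/-- number of pairs of an `a`-tuple of rows and an `h`-tuple of columns (in any order, repetitions
allowed) of `M` such that the symbols of all the cells occur in `H` -/
noncomputable def grids {a h n : ℕ} (H : Fin a → Fin h → ℕ) (M : Fin n → Fin n → ℕ) : ℕ :=
  Nat.card {p : (Fin a → Fin n) × (Fin h → Fin n) //
    ∀ i j, ∃ i' j', H i' j' = M (p.1 i) (p.2 j)}

/-- at most `κ * grids` copies -/
def RLoc {a h : ℕ} (H : Fin a → Fin h → ℕ) (κ : ℝ) : Prop :=
  ∀ (n : ℕ) (M : Fin n → Fin n → ℕ), (rcopies H M : ℝ) ≤ κ * (grids H M : ℝ)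

/-- the constant of the blow up of `H` -/
noncomputable def rvalue {a h : ℕ} (H : Fin a → Fin h → ℕ) : ℝ :=
  wordMax (fun i => H i) / (a.factorial : ℝ) * (wordMax (fun j i => H i j) / (h.factorial : ℝ))

/-- the blow up is optimal -/
def RTight {a h : ℕ} (H : Fin a → Fin h → ℕ) : Prop := RLoc H (rvalue H)

/-- any two rows are equal or differ in every column -/
def RApart {a h : ℕ} (H : Fin a → Fin h → ℕ) : Prop :=
  ∀ i i', H i = H i' ∨ ∀ j, H i j ≠ H i' j

/-- for nonnegative weights `x` of the symbols with sum at most `1`, the sum over the distinct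
columns of the products of the weights of their entries is at most
`∏ (multiplicity of the row) / a` -/
def RLag {a h : ℕ} (H : Fin a → Fin h → ℕ) : Prop :=
  ∀ (K : Finset ℕ) (x : ℕ → ℝ), (∀ s, 0 ≤ x s) → (∀ s, s ∉ K → x s = 0) → ∑ s ∈ K, x s ≤ 1 →
    ∑ v ∈ Finset.univ.image (fun j i => H i j), ∏ i, x (v i) ≤
      ∏ i : Fin a, (((Finset.univ.filter fun i' => H i' = H i).card : ℝ) / a)

/-- `H` has the rows `H (u i)` and the rows `H (v i)`, without common symbols; columns which are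
equal in the rows `u i` are equal -/
def Stacked {a b m h : ℕ} (H : Fin m → Fin h → ℕ) (u : Fin a → Fin m) (v : Fin b → Fin m) : Prop :=
  Splits u v ∧ (∀ i i' j j', H (u i) j ≠ H (v i') j') ∧
    ∀ j j', (∀ i, H (u i) j = H (u i) j') → ∀ i, H i j = H i j'

/-- the class of rectangular matrices -/
inductive Rect : ∀ {a h : ℕ}, (Fin a → Fin h → ℕ) → Prop
  | base {a h : ℕ} (H : Fin a → Fin h → ℕ) : 0 < a → 0 < h → RApart H → RLag H → Rect H
  | tr {a h : ℕ} (H : Fin a → Fin h → ℕ) : Rect H → Rect (fun j i => H i j)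
  | stack {a b m h : ℕ} (H : Fin m → Fin h → ℕ) (u : Fin a → Fin m) (v : Fin b → Fin m) :
      0 < b → Stacked H u v → Rect (fun i => H (u i)) → Rect H

/-- the class of square matrices -/
inductive Built2 : ∀ {h : ℕ}, (Fin h → Fin h → ℕ) → Prop
  | sq {h : ℕ} (H : Fin h → Fin h → ℕ) : Rect H → Built2 H
  | tr {h : ℕ} (H : Fin h → Fin h → ℕ) : Built2 H → Built2 (fun i j => H j i)
  | glue {a b h : ℕ} (H : Fin h → Fin h → ℕ) (e₁ : Fin a → Fin h) (e₂ : Fin b → Fin h)
      (g₁ : Fin a → Fin h) (g₂ : Fin b → Fin h) : Glued H e₁ e₂ g₁ g₂ → Compat H e₁ e₂ g₁ g₂ →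
      Built2 (fun i j => H (e₁ i) (g₁ j)) → Built2 (fun i j => H (e₂ i) (g₂ j)) → Built2 H

/-! ### rows -/

/-- row R1 (rectangular word_bound + Base85) -/
def StRBase : Prop := ∀ (a h : ℕ) (H : Fin a → Fin h → ℕ), 0 < a → 0 < h → RApart H → RLag H →
  RTight H

/-- the factor `s ^ a * (1 - s) ^ b`, `s = a / (a + b)` -/
noncomputable def fac1 (a b : ℕ) : ℝ :=
  ((a : ℝ) / ((a : ℝ) + b)) ^ a * ((b : ℝ) / ((a : ℝ) + b)) ^ b

/-- row R2 -/
def StStack : Prop := ∀ (a b m h : ℕ) (H : Fin m → Fin h → ℕ) (u : Fin a → Fin m)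
  (v : Fin b → Fin m) (κ : ℝ), 0 < a → 0 < b → 0 < h → Stacked H u v → 0 ≤ κ →
  RLoc (fun i => H (u i)) κ →
  RLoc H (κ * (wordMax (fun i => H (v i)) / (b.factorial : ℝ)) * fac1 a b)

/-- row R3 (from VAL81: PW_all, wm_eq, prod_kernel, mult_eq) -/
def StRVal : Prop := ∀ (a b m h : ℕ) (H : Fin m → Fin h → ℕ) (u : Fin a → Fin m)
  (v : Fin b → Fin m), 0 < a → 0 < b → 0 < h → Stacked H u v →
  rvalue H = rvalue (fun i => H (u i)) * (wordMax (fun i => H (v i)) / (b.factorial : ℝ)) *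
    fac1 a b

/-- row R4 -/
def StRTr : Prop := ∀ (a h : ℕ) (H : Fin a → Fin h → ℕ), RTight H → RTight (fun j i => H i j)

/-- row R5: `grids H M ≤ cells H M ^ h` for square `H` -/
def StSq : Prop := ∀ (h : ℕ) (H : Fin h → Fin h → ℕ), RTight H → Tight H

end Pool.Agent.Lib.MP_efec9b_co.BS
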