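import Pool.Agent.Lib.MP_efec9b_co.BS.Defs85R

/-!
MP_efec9b_co: gluing rectangular matrices. Definitions and rows.
-/

set_option autoImplicit false

namespace Pool.Agent.Lib.MP_efec9b_co.BS

open Finset

/-- the rows of `H` are divided into the rows `e₁ i` and the rows `e₂ i`, the columns into the
columns `g₁ j` and `g₂ j`, and the four submatrices have pairwise no common symbol -/
def RGlued {a b m c d l : ℕ} (H : Fin m → Fin l → ℕ) (e₁ : Fin a → Fin m) (e₂ : Fin b → Fin m)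
    (g₁ : Fin c → Fin l) (g₂ : Fin d → Fin l) : Prop :=
  Splits e₁ e₂ ∧ Splits g₁ g₂ ∧ ∀ i i' j j', H i j = H i' j' →
    ((∃ k, e₁ k = i) ↔ ∃ k, e₁ k = i') ∧ ((∃ k, g₁ k = j) ↔ ∃ k, g₁ k = j')

/-- rows (columns) of `H` in the same part are equal if their parts in the diagonal blocks are -/
def RCompat {a b m c d l : ℕ} (H : Fin m → Fin l → ℕ) (e₁ : Fin a → Fin m) (e₂ : Fin b → Fin m)
    (g₁ : Fin c → Fin l) (g₂ : Fin d → Fin l) : Prop :=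
  (∀ i i', (∀ j, H (e₁ i) (g₁ j) = H (e₁ i') (g₁ j)) → H (e₁ i) = H (e₁ i')) ∧
  (∀ i i', (∀ j, H (e₂ i) (g₂ j) = H (e₂ i') (g₂ j)) → H (e₂ i) = H (e₂ i')) ∧
  (∀ j j', (∀ i, H (e₁ i) (g₁ j) = H (e₁ i) (g₁ j')) → ∀ i, H i (g₁ j) = H i (g₁ j')) ∧
  ∀ j j', (∀ i, H (e₂ i) (g₂ j) = H (e₂ i) (g₂ j')) → ∀ i, H i (g₂ j) = H i (g₂ j')

/-- the class of (rectangular) matrices -/
inductive Good : ∀ {a h : ℕ}, (Fin a → Fin h → ℕ) → Prop
  | base {a h : ℕ} (H : Fin a → Fin h → ℕ) : 0 < a → 0 < h → RApart H → RLag H → Good H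
  | tr {a h : ℕ} (H : Fin a → Fin h → ℕ) : Good H → Good (fun j i => H i j)
  | stack {a b m h : ℕ} (H : Fin m → Fin h → ℕ) (u : Fin a → Fin m) (v : Fin b → Fin m) :
      0 < b → Stacked H u v → Good (fun i => H (u i)) → Good H
  | glue {a b m c d l : ℕ} (H : Fin m → Fin l → ℕ) (e₁ : Fin a → Fin m) (e₂ : Fin b → Fin m)
      (g₁ : Fin c → Fin l) (g₂ : Fin d → Fin l) : RGlued H e₁ e₂ g₁ g₂ →
      RCompat H e₁ e₂ g₁ g₂ → Good (fun i j => H (e₁ i) (g₁ j)) →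
      Good (fun i j => H (e₂ i) (g₂ j)) → Good H

/-- row R7 -/
def StRGlue : Prop := ∀ (a b m c d l : ℕ) (H : Fin m → Fin l → ℕ) (e₁ : Fin a → Fin m)
  (e₂ : Fin b → Fin m) (g₁ : Fin c → Fin l) (g₂ : Fin d → Fin l) (κ₁ κ₂ : ℝ), 0 < a → 0 < b →
  0 < c → 0 < d → RGlued H e₁ e₂ g₁ g₂ → 0 ≤ κ₁ → 0 ≤ κ₂ → RLoc (fun i j => H (e₁ i) (g₁ j)) κ₁ →
  RLoc (fun i j => H (e₂ i) (g₂ j)) κ₂ → RLoc H (κ₁ * κ₂ * (fac1 a b * fac1 c d))

/-- row R8 -/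
def StRGVal : Prop := ∀ (a b m c d l : ℕ) (H : Fin m → Fin l → ℕ) (e₁ : Fin a → Fin m)
  (e₂ : Fin b → Fin m) (g₁ : Fin c → Fin l) (g₂ : Fin d → Fin l), 0 < a → 0 < b →
  0 < c → 0 < d → RGlued H e₁ e₂ g₁ g₂ → RCompat H e₁ e₂ g₁ g₂ →
  rvalue H = rvalue (fun i j => H (e₁ i) (g₁ j)) * rvalue (fun i j => H (e₂ i) (g₂ j)) *
    (fac1 a b * fac1 c d)

/-- row R9: a row whose symbols occur in no other row and whose equal entries lie in equal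
columns -/
def StOneRow : Prop := ∀ (m h : ℕ) (H : Fin m → Fin h → ℕ) (i₀ : Fin m), 0 < h →
  (∀ i j j', i ≠ i₀ → H i j ≠ H i₀ j') → (∀ j j', H i₀ j = H i₀ j' → ∀ i, H i j = H i j') →
  Good H

/-- row R10: the 2 × 2 matrices, and rows without common symbols (for the old parts) -/
def StOldBuilt : Prop := ∀ (h : ℕ) (H : Fin h → Fin h → ℕ), Built H → Good H

end Pool.Agent.Lib.MP_efec9b_co.BS
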