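import Pool.Agent.Lib.MP_efec9b_co.BS.Defs85S

/-!
MP_efec9b_co: gluing when the two off-diagonal blocks (or the two diagonal blocks) may have common
symbols. Definitions and rows.
-/

set_option autoImplicit false

namespace Pool.Agent.Lib.MP_efec9b_co.BS

open Finset

/-- the rows of `H` are divided into the rows `e₁ i` and the rows `e₂ i`, the columns into the
columns `g₁ j` and `g₂ j`; the blocks with common symbols are: at most the two blocks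
(`e₁`, `g₂`), (`e₂`, `g₁`), or at most the two blocks (`e₁`, `g₁`), (`e₂`, `g₂`) -/
def RGlued2 {a b m c d l : ℕ} (H : Fin m → Fin l → ℕ) (e₁ : Fin a → Fin m) (e₂ : Fin b → Fin m)
    (g₁ : Fin c → Fin l) (g₂ : Fin d → Fin l) : Prop :=
  Splits e₁ e₂ ∧ Splits g₁ g₂ ∧
    (∀ i i' j j', H (e₁ i) (g₁ j) ≠ H (e₁ i') (g₂ j')) ∧
    (∀ i i' j j', H (e₂ i) (g₁ j) ≠ H (e₂ i') (g₂ j')) ∧
    (∀ i i' j j', H (e₁ i) (g₁ j) ≠ H (e₂ i') (g₁ j')) ∧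
    (∀ i i' j j', H (e₁ i) (g₂ j) ≠ H (e₂ i') (g₂ j')) ∧
    ((∀ i i' j j', H (e₁ i) (g₁ j) ≠ H (e₂ i') (g₂ j')) ∨
      ∀ i i' j j', H (e₁ i) (g₂ j) ≠ H (e₂ i') (g₁ j'))

/-- the class of (rectangular) matrices -/
inductive Good2 : ∀ {a h : ℕ}, (Fin a → Fin h → ℕ) → Prop
  | base {a h : ℕ} (H : Fin a → Fin h → ℕ) : 0 < a → 0 < h → RApart H → RLag H → Good2 H
  | tr {a h : ℕ} (H : Fin a → Fin h → ℕ) : Good2 H → Good2 (fun j i => H i j)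
  | stack {a b m h : ℕ} (H : Fin m → Fin h → ℕ) (u : Fin a → Fin m) (v : Fin b → Fin m) :
      0 < b → Stacked H u v → Good2 (fun i => H (u i)) → Good2 H
  | glue {a b m c d l : ℕ} (H : Fin m → Fin l → ℕ) (e₁ : Fin a → Fin m) (e₂ : Fin b → Fin m)
      (g₁ : Fin c → Fin l) (g₂ : Fin d → Fin l) : RGlued2 H e₁ e₂ g₁ g₂ →
      RCompat H e₁ e₂ g₁ g₂ → Good2 (fun i j => H (e₁ i) (g₁ j)) →
      Good2 (fun i j => H (e₂ i) (g₂ j)) → Good2 H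

/-- row R7' -/
def StRGlue2 : Prop := ∀ (a b m c d l : ℕ) (H : Fin m → Fin l → ℕ) (e₁ : Fin a → Fin m)
  (e₂ : Fin b → Fin m) (g₁ : Fin c → Fin l) (g₂ : Fin d → Fin l) (κ₁ κ₂ : ℝ), 0 < a → 0 < b →
  0 < c → 0 < d → RGlued2 H e₁ e₂ g₁ g₂ → 0 ≤ κ₁ → 0 ≤ κ₂ →
  RLoc (fun i j => H (e₁ i) (g₁ j)) κ₁ →
  RLoc (fun i j => H (e₂ i) (g₂ j)) κ₂ → RLoc H (κ₁ * κ₂ * (fac1 a b * fac1 c d))

/-- row R8' -/
def StRGVal2 : Prop := ∀ (a b m c d l : ℕ) (H : Fin m → Fin l → ℕ) (e₁ : Fin a → Fin m)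
  (e₂ : Fin b → Fin m) (g₁ : Fin c → Fin l) (g₂ : Fin d → Fin l), 0 < a → 0 < b →
  0 < c → 0 < d → RGlued2 H e₁ e₂ g₁ g₂ → RCompat H e₁ e₂ g₁ g₂ →
  rvalue H = rvalue (fun i j => H (e₁ i) (g₁ j)) * rvalue (fun i j => H (e₂ i) (g₂ j)) *
    (fac1 a b * fac1 c d)

end Pool.Agent.Lib.MP_efec9b_co.BS
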