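import Pool.Agent.Lib.MP_efec9b_co.BS.Defs85T

/-!
MP_efec9b_co: stacking and gluing with classes. Definitions and rows.
-/

set_option autoImplicit false

namespace Pool.Agent.Lib.MP_efec9b_co.BS

open Finset

/-- `H` has the rows `H (u i)` and the rows `H (v i)`, without common symbols; `p` divides the
columns into classes such that columns with a common symbol in the rows `v i` are in one class;
`H'` is the matrix of the rows `u i` in which every entry is paired with the class of its column;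
columns of one class which are equal in the rows `u i` are equal -/
def Stacked3 {a b m h : ℕ} (H : Fin m → Fin h → ℕ) (H' : Fin a → Fin h → ℕ) (p : Fin h → ℕ)
    (u : Fin a → Fin m) (v : Fin b → Fin m) : Prop :=
  Splits u v ∧ (∀ i i' j j', H (u i) j ≠ H (v i') j') ∧
    (∀ i i' j j', H (v i) j = H (v i') j' → p j = p j') ∧
    (∀ i i' j j', H' i j = H' i' j' ↔ H (u i) j = H (u i') j' ∧ p j = p j') ∧
    ∀ j j', p j = p j' → (∀ i, H (u i) j = H (u i) j') → ∀ i, H i j = H i j'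

/-- class maps `ρ`, `σ` of the rows and columns of a block `B`: equal symbols are in rows of one
class and in columns of one class -/
def Classes {a c : ℕ} (B : Fin a → Fin c → ℕ) (ρ : Fin a → ℕ) (σ : Fin c → ℕ) : Prop :=
  ∀ i i' j j', B i j = B i' j' → ρ i = ρ i' ∧ σ j = σ j'

/-- `B'` is the block `B` in which every entry is paired with the class of its row and the class
of its column -/
def Refined {a c : ℕ} (B B' : Fin a → Fin c → ℕ) (ρ : Fin a → ℕ) (σ : Fin c → ℕ) : Prop :=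
  ∀ i i' j j', B' i j = B' i' j' ↔ B i j = B i' j' ∧ ρ i = ρ i' ∧ σ j = σ j'

/-- the blocks of `H`: `ρ₁` (rows `e₁`), `σ₂` (columns `g₂`) are class maps of the block
(`e₁`, `g₂`); `ρ₂` (rows `e₂`), `σ₁` (columns `g₁`) are class maps of the block (`e₂`, `g₁`);
`B₁`, `B₂` are the refined diagonal blocks; rows (columns) in one part which are equal in the
refined diagonal block are equal -/
def Glued3 {a b m c d l : ℕ} (H : Fin m → Fin l → ℕ) (e₁ : Fin a → Fin m) (e₂ : Fin b → Fin m)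
    (g₁ : Fin c → Fin l) (g₂ : Fin d → Fin l) (ρ₁ : Fin a → ℕ) (ρ₂ : Fin b → ℕ) (σ₁ : Fin c → ℕ)
    (σ₂ : Fin d → ℕ) (B₁ : Fin a → Fin c → ℕ) (B₂ : Fin b → Fin d → ℕ) : Prop :=
  RGlued2 H e₁ e₂ g₁ g₂ ∧
    Classes (fun i j => H (e₁ i) (g₂ j)) ρ₁ σ₂ ∧ Classes (fun i j => H (e₂ i) (g₁ j)) ρ₂ σ₁ ∧
    Refined (fun i j => H (e₁ i) (g₁ j)) B₁ ρ₁ σ₁ ∧
    Refined (fun i j => H (e₂ i) (g₂ j)) B₂ ρ₂ σ₂ ∧
    (∀ i i', B₁ i = B₁ i' → H (e₁ i) = H (e₁ i')) ∧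
    (∀ i i', B₂ i = B₂ i' → H (e₂ i) = H (e₂ i')) ∧
    (∀ j j', (∀ i, B₁ i j = B₁ i j') → ∀ i, H i (g₁ j) = H i (g₁ j')) ∧
    ∀ j j', (∀ i, B₂ i j = B₂ i j') → ∀ i, H i (g₂ j) = H i (g₂ j')

/-- the class of (rectangular) matrices -/
inductive Good3 : ∀ {a h : ℕ}, (Fin a → Fin h → ℕ) → Prop
  | base {a h : ℕ} (H : Fin a → Fin h → ℕ) : 0 < a → 0 < h → RApart H → RLag H → Good3 H
  | tr {a h : ℕ} (H : Fin a → Fin h → ℕ) : Good3 H → Good3 (fun j i => H i j)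
  | stack {a b m h : ℕ} (H : Fin m → Fin h → ℕ) (H' : Fin a → Fin h → ℕ) (p : Fin h → ℕ)
      (u : Fin a → Fin m) (v : Fin b → Fin m) :
      0 < b → Stacked3 H H' p u v → Good3 H' → Good3 H
  | glue {a b m c d l : ℕ} (H : Fin m → Fin l → ℕ) (e₁ : Fin a → Fin m) (e₂ : Fin b → Fin m)
      (g₁ : Fin c → Fin l) (g₂ : Fin d → Fin l) (ρ₁ : Fin a → ℕ) (ρ₂ : Fin b → ℕ)
      (σ₁ : Fin c → ℕ) (σ₂ : Fin d → ℕ) (B₁ : Fin a → Fin c → ℕ) (B₂ : Fin b → Fin d → ℕ) :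
      Glued3 H e₁ e₂ g₁ g₂ ρ₁ ρ₂ σ₁ σ₂ B₁ B₂ → Good3 B₁ → Good3 B₂ → Good3 H

/-- row U1 -/
def StStack3 : Prop := ∀ (a b m h : ℕ) (H : Fin m → Fin h → ℕ) (H' : Fin a → Fin h → ℕ)
  (p : Fin h → ℕ) (u : Fin a → Fin m) (v : Fin b → Fin m) (κ : ℝ), 0 < a → 0 < b → 0 < h →
  Stacked3 H H' p u v → 0 ≤ κ → RLoc H' κ →
  RLoc H (κ * (wordMax (fun i => H (v i)) / (b.factorial : ℝ)) * fac1 a b)

/-- row U2 -/
def StVStack3 : Prop := ∀ (a b m h : ℕ) (H : Fin m → Fin h → ℕ) (H' : Fin a → Fin h → ℕ)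
  (p : Fin h → ℕ) (u : Fin a → Fin m) (v : Fin b → Fin m), 0 < a → 0 < b → 0 < h →
  Stacked3 H H' p u v →
  rvalue H = rvalue H' * (wordMax (fun i => H (v i)) / (b.factorial : ℝ)) * fac1 a b

/-- row U3 -/
def StGlue3 : Prop := ∀ (a b m c d l : ℕ) (H : Fin m → Fin l → ℕ) (e₁ : Fin a → Fin m)
  (e₂ : Fin b → Fin m) (g₁ : Fin c → Fin l) (g₂ : Fin d → Fin l) (ρ₁ : Fin a → ℕ)
  (ρ₂ : Fin b → ℕ) (σ₁ : Fin c → ℕ) (σ₂ : Fin d → ℕ) (B₁ : Fin a → Fin c → ℕ)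
  (B₂ : Fin b → Fin d → ℕ) (κ₁ κ₂ : ℝ), 0 < a → 0 < b → 0 < c → 0 < d →
  Glued3 H e₁ e₂ g₁ g₂ ρ₁ ρ₂ σ₁ σ₂ B₁ B₂ → 0 ≤ κ₁ → 0 ≤ κ₂ → RLoc B₁ κ₁ → RLoc B₂ κ₂ →
  RLoc H (κ₁ * κ₂ * (fac1 a b * fac1 c d))

/-- row U4 -/
def StVGlue3 : Prop := ∀ (a b m c d l : ℕ) (H : Fin m → Fin l → ℕ) (e₁ : Fin a → Fin m)
  (e₂ : Fin b → Fin m) (g₁ : Fin c → Fin l) (g₂ : Fin d → Fin l) (ρ₁ : Fin a → ℕ)
  (ρ₂ : Fin b → ℕ) (σ₁ : Fin c → ℕ) (σ₂ : Fin d → ℕ) (B₁ : Fin a → Fin c → ℕ)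
  (B₂ : Fin b → Fin d → ℕ), 0 < a → 0 < b → 0 < c → 0 < d →
  Glued3 H e₁ e₂ g₁ g₂ ρ₁ ρ₂ σ₁ σ₂ B₁ B₂ →
  rvalue H = rvalue B₁ * rvalue B₂ * (fac1 a b * fac1 c d)

end Pool.Agent.Lib.MP_efec9b_co.BS
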