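import Pool.Agent.Lib.MP_efec9b_co.BS.Defs85T
import Pool.Agent.Lib.MP_efec9b_co.BS.STACK44

/-!
MP_efec9b_co: the inner inequality for gluing with common off-diagonal symbols.
-/

set_option autoImplicit false

namespace Pool.Agent.Lib.MP_efec9b_co.BS.I85

open Finset S44

theorem fac1_nonneg (a b : ℕ) : 0 ≤ fac1 a b := by
  unfold fac1
  positivity

theorem pow_super (m : ℕ) (hm : 0 < m) (s t : ℝ) (hs : 0 ≤ s) (ht : 0 ≤ t) :
    s ^ m + t ^ m ≤ (s + t) ^ m := by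
  obtain ⟨k, rfl⟩ : ∃ k, m = k + 1 := ⟨m - 1, by omega⟩
  have h1 : s ^ k ≤ (s + t) ^ k := pow_le_pow_left₀ hs (by linarith) k
  have h2 : t ^ k ≤ (s + t) ^ k := pow_le_pow_left₀ ht (by linarith) k
  have h3 := mul_le_mul_of_nonneg_right h1 hs
  have h4 := mul_le_mul_of_nonneg_right h2 ht
  calc s ^ (k + 1) + t ^ (k + 1) = s ^ k * s + t ^ k * t := by ring
    _ ≤ (s + t) ^ k * s + (s + t) ^ k * t := add_le_add h3 h4
    _ = (s + t) ^ (k + 1) := by ring

theorem one_pow_le (b : ℕ) (hb : 0 < b) (q u : ℝ) (hq : 0 ≤ q) (hqu : q ≤ u) :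
    u * q ^ b ≤ q * u ^ b := by
  obtain ⟨k, rfl⟩ : ∃ k, b = k + 1 := ⟨b - 1, by omega⟩
  have h1 : q ^ k ≤ u ^ k := pow_le_pow_left₀ hq hqu k
  have hu : 0 ≤ u := hq.trans hqu
  have h2 := mul_le_mul_of_nonneg_left h1 (mul_nonneg hu hq)
  calc u * q ^ (k + 1) = u * q * q ^ k := by ring
    _ ≤ u * q * u ^ k := h2
    _ = q * u ^ (k + 1) := by ring

theorem three (a b : ℕ) (ha : 0 < a) (hb : 0 < b) (x p q A B : ℝ) (hx : 0 ≤ x) (hp : 0 ≤ p)
    (hq : 0 ≤ q) (hA : 0 ≤ A) (hB : 0 ≤ B) :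
    x ^ a * q ^ b + p ^ a * x ^ b + A ^ a * B ^ b ≤
      fac1 a b * (x + p + q + A + B) ^ (a + b) := by
  have hf := fac1_nonneg a b
  have h1 : x ^ a * q ^ b + p ^ a * x ^ b ≤ fac1 a b * (x + (p + q)) ^ (a + b) := by
    rcases (add_nonneg hp hq).eq_or_lt with hu | hu
    · have hp0 : p = 0 := by linarith
      have hq0 : q = 0 := by linarith
      rw [hp0, hq0, zero_pow ha.ne', zero_pow hb.ne']
      simp only [mul_zero, zero_mul, add_zero]
      positivity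
    · set u := p + q with hu'
      have k1 := one_pow_le b hb q u hq (by linarith)
      have k2 := one_pow_le a ha p u hp (by linarith)
      have k3 := am2 a b ha hb x u hx hu.le
      have k4 := am2 a b ha hb u x hu.le hx
      rw [add_comm u x] at k4
      have k5 : u * (x ^ a * q ^ b + p ^ a * x ^ b) ≤ u * (fac1 a b * (x + u) ^ (a + b)) := by
        calc u * (x ^ a * q ^ b + p ^ a * x ^ b) = x ^ a * (u * q ^ b) + (u * p ^ a) * x ^ b := by
              ring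
          _ ≤ x ^ a * (q * u ^ b) + (p * u ^ a) * x ^ b :=
              add_le_add (mul_le_mul_of_nonneg_left k1 (by positivity))
                (mul_le_mul_of_nonneg_right k2 (by positivity))
          _ = q * (x ^ a * u ^ b) + p * (u ^ a * x ^ b) := by ring
          _ ≤ q * (fac1 a b * (x + u) ^ (a + b)) + p * (fac1 a b * (x + u) ^ (a + b)) :=
              add_le_add (mul_le_mul_of_nonneg_left k3 hq) (mul_le_mul_of_nonneg_left k4 hp)
          _ = u * (fac1 a b * (x + u) ^ (a + b)) := by rw [hu']; ring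
      exact le_of_mul_le_mul_left k5 hu
  have h2 := am2 a b ha hb A B hA hB
  have h3 := pow_super (a + b) (by omega) (x + (p + q)) (A + B) (by positivity) (by positivity)
  calc _ ≤ fac1 a b * (x + (p + q)) ^ (a + b) + fac1 a b * (A + B) ^ (a + b) := add_le_add h1 h2
    _ = fac1 a b * ((x + (p + q)) ^ (a + b) + (A + B) ^ (a + b)) := by ring
    _ ≤ fac1 a b * (x + (p + q) + (A + B)) ^ (a + b) := mul_le_mul_of_nonneg_left h3 hf
    _ = _ := by
        congr 2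
        ring

theorem ind5 {X P Q A B G : Prop} (g1 : X → G) (g2 : P → G) (g3 : Q → G) (g4 : A → G)
    (g5 : B → G) (n1 : X → ¬ P) (n2 : X → ¬ Q) (n3 : X → ¬ A) (n4 : X → ¬ B) (n5 : P → ¬ Q)
    (n6 : P → ¬ A) (n7 : P → ¬ B) (n8 : Q → ¬ A) (n9 : Q → ¬ B) (n10 : A → ¬ B) :
    ind X + ind P + ind Q + ind A + ind B ≤ ind G := by
  by_cases hX : X
  · rw [ind_true hX, ind_false (n1 hX), ind_false (n2 hX), ind_false (n3 hX), ind_false (n4 hX),
      ind_true (g1 hX)]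
    norm_num
  · rw [ind_false hX]
    by_cases hP : P
    · rw [ind_true hP, ind_false (n5 hP), ind_false (n6 hP), ind_false (n7 hP), ind_true (g2 hP)]
      norm_num
    · rw [ind_false hP]
      by_cases hQ : Q
      · rw [ind_true hQ, ind_false (n8 hQ), ind_false (n9 hQ), ind_true (g3 hQ)]
        norm_num
      · rw [ind_false hQ]
        by_cases hA : A
        · rw [ind_true hA, ind_false (n10 hA), ind_true (g4 hA)]
          norm_num
        · rw [ind_false hA]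
          have := ind_le g5
          linarith

theorem core5 {a b n : ℕ} (ha : 0 < a) (hb : 0 < b) (X P Q A B G : Fin n → Prop)
    (L : (Fin a → Fin n) → (Fin b → Fin n) → Prop)
    (hL : ∀ r s, L r s → ((∀ i, X (r i)) ∧ ∀ k, Q (s k)) ∨ ((∀ i, P (r i)) ∧ ∀ k, X (s k)) ∨
      ((∀ i, A (r i)) ∧ ∀ k, B (s k)))
    (hS : ∀ x, ind (X x) + ind (P x) + ind (Q x) + ind (A x) + ind (B x) ≤ ind (G x)) :
    ∑ r, ∑ s, ind (L r s) ≤ fac1 a b * (∑ x, ind (G x)) ^ (a + b) := by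
  have h1 : ∑ r, ∑ s, ind (L r s) ≤ (∑ x, ind (X x)) ^ a * (∑ x, ind (Q x)) ^ b +
      (∑ x, ind (P x)) ^ a * (∑ x, ind (X x)) ^ b +
      (∑ x, ind (A x)) ^ a * (∑ x, ind (B x)) ^ b := by
    simp only [pow_ind, sum_mul_sum]
    rw [← sum_add_distrib, ← sum_add_distrib]
    refine sum_le_sum fun r _ => ?_
    rw [← sum_add_distrib, ← sum_add_distrib]
    refine sum_le_sum fun s _ => ?_
    rw [← ind_and, ← ind_and, ← ind_and]
    by_cases h : L r s
    · rw [ind_true h]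
      have p1 := ind_nonneg ((∀ i, X (r i)) ∧ ∀ k, Q (s k))
      have p2 := ind_nonneg ((∀ i, P (r i)) ∧ ∀ k, X (s k))
      have p3 := ind_nonneg ((∀ i, A (r i)) ∧ ∀ k, B (s k))
      rcases hL r s h with h2 | h2 | h2
      · rw [ind_true h2] at p1 ⊢
        linarith
      · rw [ind_true h2] at p2 ⊢
        linarith
      · rw [ind_true h2] at p3 ⊢
        linarith
    · rw [ind_false h]
      exact add_nonneg (add_nonneg (ind_nonneg _) (ind_nonneg _)) (ind_nonneg _)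
  have n0 : ∀ R : Fin n → Prop, 0 ≤ ∑ x, ind (R x) := fun R => sum_nonneg fun _ _ => ind_nonneg _
  refine h1.trans ((three a b ha hb _ _ _ _ _ (n0 X) (n0 P) (n0 Q) (n0 A) (n0 B)).trans ?_)
  refine mul_le_mul_of_nonneg_left ?_ (fac1_nonneg a b)
  refine pow_le_pow_left₀ ?_ ?_ _
  · exact add_nonneg (add_nonneg (add_nonneg (add_nonneg (n0 X) (n0 P)) (n0 Q)) (n0 A)) (n0 B)
  · rw [← sum_add_distrib, ← sum_add_distrib, ← sum_add_distrib, ← sum_add_distrib]
    exact sum_le_sum fun x _ => hS x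

theorem inner {a b l n : ℕ} (ha : 0 < a) (hb : 0 < b) (hl : 0 < l)
    (S₁₁ S₁₂ S₂₁ S₂₂ : Fin n → Fin l → Prop)
    (d1 : ∀ x j, S₁₁ x j → ¬ S₁₂ x j) (d2 : ∀ x j, S₂₁ x j → ¬ S₂₂ x j)
    (d3 : ∀ x j, S₁₁ x j → ¬ S₂₁ x j) (d4 : ∀ x j, S₁₂ x j → ¬ S₂₂ x j)
    (d5 : (∀ x j, S₁₁ x j → ¬ S₂₂ x j) ∨ ∀ x j, S₁₂ x j → ¬ S₂₁ x j) :
    ∑ r : Fin a → Fin n, ∑ s : Fin b → Fin n,
      ind (∀ j, ((∀ i, S₁₁ (r i) j) ∧ ∀ k, S₂₁ (s k) j) ∨
        ((∀ i, S₁₂ (r i) j) ∧ ∀ k, S₂₂ (s k) j)) ≤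
      fac1 a b * (∑ x, ind (∀ j, S₁₁ x j ∨ S₁₂ x j ∨ S₂₁ x j ∨ S₂₂ x j)) ^ (a + b) := by
  set A : Fin n → Prop := fun x => (∀ j, S₁₁ x j ∨ S₁₂ x j) ∧ (∃ j, S₁₁ x j) ∧ ∃ j, S₁₂ x j
    with hA
  set B : Fin n → Prop := fun x => (∀ j, S₂₁ x j ∨ S₂₂ x j) ∧ (∃ j, S₂₁ x j) ∧ ∃ j, S₂₂ x j
    with hB
  have mixed : ∀ (r : Fin a → Fin n) (s : Fin b → Fin n),
      (∀ j, ((∀ i, S₁₁ (r i) j) ∧ ∀ k, S₂₁ (s k) j) ∨
        ((∀ i, S₁₂ (r i) j) ∧ ∀ k, S₂₂ (s k) j)) →
      (∀ j, (∀ i, S₁₁ (r i) j) ∧ ∀ k, S₂₁ (s k) j) ∨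
      (∀ j, (∀ i, S₁₂ (r i) j) ∧ ∀ k, S₂₂ (s k) j) ∨
      ((∀ i, A (r i)) ∧ ∀ k, B (s k)) := by
    intro r s h
    by_cases h1 : ∀ j, (∀ i, S₁₁ (r i) j) ∧ ∀ k, S₂₁ (s k) j
    · exact Or.inl h1
    · by_cases h2 : ∀ j, (∀ i, S₁₂ (r i) j) ∧ ∀ k, S₂₂ (s k) j
      · exact Or.inr (Or.inl h2)
      · right
        right
        rw [not_forall] at h1 h2
        obtain ⟨j1, h1⟩ := h1
        obtain ⟨j2, h2⟩ := h2
        have k1 := (h j1).resolve_left h1
        have k2 := (h j2).resolve_right h2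
        refine ⟨fun i => ⟨fun j => ?_, ⟨j2, k2.1 i⟩, ⟨j1, k1.1 i⟩⟩,
          fun k => ⟨fun j => ?_, ⟨j2, k2.2 k⟩, ⟨j1, k1.2 k⟩⟩⟩
        · rcases h j with h3 | h3
          · exact Or.inl (h3.1 i)
          · exact Or.inr (h3.1 i)
        · rcases h j with h3 | h3
          · exact Or.inl (h3.2 k)
          · exact Or.inr (h3.2 k)
  rcases d5 with d5 | d5
  · -- common symbols off the diagonal
    refine core5 ha hb (fun x => ∀ j, S₁₂ x j ∨ S₂₁ x j) (fun x => ∀ j, S₁₁ x j)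
      (fun x => ∀ j, S₂₂ x j) A B _ _ ?_ ?_
    · intro r s h
      rcases mixed r s h with h1 | h1 | h1
      · exact Or.inr (Or.inl ⟨fun i j => (h1 j).1 i, fun k j => Or.inr ((h1 j).2 k)⟩)
      · exact Or.inl ⟨fun i j => Or.inl ((h1 j).1 i), fun k j => (h1 j).2 k⟩
      · exact Or.inr (Or.inr h1)
    · intro x
      refine ind5 ?_ ?_ ?_ ?_ ?_ ?_ ?_ ?_ ?_ ?_ ?_ ?_ ?_ ?_ ?_
      · intro h j
        rcases h j with h1 | h1
        · exact Or.inr (Or.inl h1)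
        · exact Or.inr (Or.inr (Or.inl h1))
      · intro h j
        exact Or.inl (h j)
      · intro h j
        exact Or.inr (Or.inr (Or.inr (h j)))
      · intro h j
        rcases h.1 j with h1 | h1
        · exact Or.inl h1
        · exact Or.inr (Or.inl h1)
      · intro h j
        rcases h.1 j with h1 | h1
        · exact Or.inr (Or.inr (Or.inl h1))
        · exact Or.inr (Or.inr (Or.inr h1))
      · -- X P
        intro h h'
        rcases h ⟨0, hl⟩ with h1 | h1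
        · exact d1 _ _ (h' _) h1
        · exact d3 _ _ (h' _) h1
      · -- X Q
        intro h h'
        rcases h ⟨0, hl⟩ with h1 | h1
        · exact d4 _ _ h1 (h' _)
        · exact d2 _ _ h1 (h' _)
      · -- X A
        rintro h ⟨-, ⟨j, h2⟩, -⟩
        rcases h j with h1 | h1
        · exact d1 _ _ h2 h1
        · exact d3 _ _ h2 h1
      · -- X B
        rintro h ⟨-, -, ⟨j, h2⟩⟩
        rcases h j with h1 | h1
        · exact d4 _ _ h1 h2
        · exact d2 _ _ h1 h2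
      · -- P Q
        intro h h'
        exact d5 _ _ (h ⟨0, hl⟩) (h' ⟨0, hl⟩)
      · -- P A
        rintro h ⟨-, -, ⟨j, h2⟩⟩
        exact d1 _ _ (h j) h2
      · -- P B
        rintro h ⟨-, ⟨j, h2⟩, -⟩
        exact d3 _ _ (h j) h2
      · -- Q A
        rintro h ⟨-, -, ⟨j, h2⟩⟩
        exact d4 _ _ h2 (h j)
      · -- Q B
        rintro h ⟨-, ⟨j, h2⟩, -⟩
        exact d2 _ _ h2 (h j)
      · -- A B
        rintro ⟨-, ⟨j, h2⟩, -⟩ ⟨h3, -, -⟩
        rcases h3 j with h4 | h4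
        · exact d3 _ _ h2 h4
        · exact d5 _ _ h2 h4
  · -- common symbols on the diagonal
    refine core5 ha hb (fun x => ∀ j, S₁₁ x j ∨ S₂₂ x j) (fun x => ∀ j, S₁₂ x j)
      (fun x => ∀ j, S₂₁ x j) A B _ _ ?_ ?_
    · intro r s h
      rcases mixed r s h with h1 | h1 | h1
      · exact Or.inl ⟨fun i j => Or.inl ((h1 j).1 i), fun k j => (h1 j).2 k⟩
      · exact Or.inr (Or.inl ⟨fun i j => (h1 j).1 i, fun k j => Or.inr ((h1 j).2 k)⟩)
      · exact Or.inr (Or.inr h1)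
    · intro x
      refine ind5 ?_ ?_ ?_ ?_ ?_ ?_ ?_ ?_ ?_ ?_ ?_ ?_ ?_ ?_ ?_
      · intro h j
        rcases h j with h1 | h1
        · exact Or.inl h1
        · exact Or.inr (Or.inr (Or.inr h1))
      · intro h j
        exact Or.inr (Or.inl (h j))
      · intro h j
        exact Or.inr (Or.inr (Or.inl (h j)))
      · intro h j
        rcases h.1 j with h1 | h1
        · exact Or.inl h1
        · exact Or.inr (Or.inl h1)
      · intro h j
        rcases h.1 j with h1 | h1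
        · exact Or.inr (Or.inr (Or.inl h1))
        · exact Or.inr (Or.inr (Or.inr h1))
      · -- X P
        intro h h'
        rcases h ⟨0, hl⟩ with h1 | h1
        · exact d1 _ _ h1 (h' _)
        · exact d4 _ _ (h' _) h1
      · -- X Q
        intro h h'
        rcases h ⟨0, hl⟩ with h1 | h1
        · exact d3 _ _ h1 (h' _)
        · exact d2 _ _ (h' _) h1
      · -- X A
        rintro h ⟨-, -, ⟨j, h2⟩⟩
        rcases h j with h1 | h1
        · exact d1 _ _ h1 h2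
        · exact d4 _ _ h2 h1
      · -- X B
        rintro h ⟨-, ⟨j, h2⟩, -⟩
        rcases h j with h1 | h1
        · exact d3 _ _ h1 h2
        · exact d2 _ _ h2 h1
      · -- P Q
        intro h h'
        exact d5 _ _ (h ⟨0, hl⟩) (h' ⟨0, hl⟩)
      · -- P A
        rintro h ⟨-, ⟨j, h2⟩, -⟩
        exact d1 _ _ h2 (h j)
      · -- P B
        rintro h ⟨-, -, ⟨j, h2⟩⟩
        exact d4 _ _ (h j) h2
      · -- Q A
        rintro h ⟨-, ⟨j, h2⟩, -⟩
        exact d3 _ _ h2 (h j)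
      · -- Q B
        rintro h ⟨-, -, ⟨j, h2⟩⟩
        exact d2 _ _ (h j) h2
      · -- A B
        rintro ⟨-, -, ⟨j, h2⟩⟩ ⟨h3, -, -⟩
        rcases h3 j with h4 | h4
        · exact d5 _ _ h2 h4
        · exact d4 _ _ h2 h4

end Pool.Agent.Lib.MP_efec9b_co.BS.I85
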