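import Pool.Agent.Lib.MP_efec9b_co.BS.Inner85
import Pool.Agent.Lib.MP_efec9b_co.BS.RGLUE44
import Pool.Agent.Lib.MP_efec9b_co.BS.Defs85U

/-!
MP_efec9b_co: gluing with classes (row U3, helper84; the frame is that of RGlue2_85).
-/

set_option autoImplicit false

namespace Pool.Agent.Lib.MP_efec9b_co.BS.G84

open Finset S44

/-- copies of `B` at rows and columns with prescribed labels against grids of `B` -/
theorem masked3 {a h n : ℕ} {B B' : Fin a → Fin h → ℕ} {ρ : Fin a → ℕ} {σ : Fin h → ℕ} {κ : ℝ}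
    (ha : 0 < a) (hh : 0 < h) (hκ : 0 ≤ κ) (hR : Refined B B' ρ σ) (hL : RLoc B' κ)
    (M : Fin n → Fin n → ℕ) (X Y : Fin n → Prop) (lr lc : Fin n → ℕ) :
    ∑ p : (Fin a → Fin n) × (Fin h → Fin n),
      ind (Cp B M p) * ind ((∀ i, X (p.1 i) ∧ lr (p.1 i) = ρ i) ∧
        ∀ j, Y (p.2 j) ∧ lc (p.2 j) = σ j) ≤
      κ * ∑ p : (Fin a → Fin n) × (Fin h → Fin n),
        ind (Gr B M p) * ind ((∀ i, X (p.1 i)) ∧ ∀ j, Y (p.2 j)) := by
  classical
  set t : ℕ := (univ.sup fun i => univ.sup fun j => B' i j) + 1 with ht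
  have hlt : ∀ i j, B' i j < t := by
    intro i j
    have : B' i j ≤ univ.sup fun i => univ.sup fun j => B' i j :=
      (Finset.le_sup (f := fun j => B' i j) (mem_univ j)).trans
        (Finset.le_sup (f := fun i => univ.sup fun j => B' i j) (mem_univ i))
    omega
  let Q : Fin n → Fin n → (Fin a × Fin h) → Prop := fun x y z =>
    B z.1 z.2 = M x y ∧ ρ z.1 = lr x ∧ σ z.2 = lc y
  set M' : Fin n → Fin n → ℕ := fun x y =>
    if h : (X x ∧ Y y) ∧ ∃ z, Q x y z then B' h.2.choose.1 h.2.choose.2 else t with hM'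
  have h1 := hL n M'
  rw [rcopies_ind, grids_ind] at h1
  have pos : ∀ (x y : Fin n) (i : Fin a) (j : Fin h), X x → Y y → B i j = M x y → ρ i = lr x →
      σ j = lc y → M' x y = B' i j := by
    intro x y i j hx hy e1 e2 e3
    have hex : ∃ z, Q x y z := ⟨(i, j), e1, e2, e3⟩
    have h2 : M' x y = B' hex.choose.1 hex.choose.2 := by
      rw [hM']
      exact dif_pos (⟨⟨hx, hy⟩, hex⟩ : (X x ∧ Y y) ∧ ∃ z, Q x y z)
    obtain ⟨f1, f2, f3⟩ := hex.choose_spec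
    rw [h2]
    exact (hR _ _ _ _).mpr ⟨f1.trans e1.symm, f2.trans e2.symm, f3.trans e3.symm⟩
  have neg : ∀ (x y : Fin n), M' x y ≠ t → (X x ∧ Y y) ∧ ∃ z, Q x y z := by
    intro x y h
    by_contra hc
    apply h
    rw [hM']
    exact dif_neg hc
  refine le_trans (sum_le_sum fun p _ => ?_) (h1.trans
    (mul_le_mul_of_nonneg_left (sum_le_sum fun p _ => ?_) hκ))
  · rw [← ind_and]
    refine ind_le ?_
    rintro ⟨⟨h2, h3, h4⟩, h5, h6⟩
    exact ⟨h2, h3, fun i j => pos _ _ i j (h5 i).1 (h6 j).1 (h4 i j).symm (h5 i).2.symm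
      (h6 j).2.symm⟩
  · rw [← ind_and]
    refine ind_le ?_
    intro hp
    have h2 : ∀ i j, (X (p.1 i) ∧ Y (p.2 j)) ∧ ∃ z, Q (p.1 i) (p.2 j) z := by
      intro i j
      apply neg
      obtain ⟨i', j', hij⟩ := hp i j
      rw [← hij]
      exact (hlt i' j').ne
    refine ⟨fun i j => ?_, fun i => (h2 i ⟨0, hh⟩).1.1, fun j => (h2 ⟨0, ha⟩ j).1.2⟩
    obtain ⟨z, hz, -⟩ := (h2 i j).2
    exact ⟨z.1, z.2, hz⟩

/-- class maps give functions of the symbols -/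
theorem classes_fun {a c : ℕ} {B : Fin a → Fin c → ℕ} {ρ : Fin a → ℕ} {σ : Fin c → ℕ}
    (h : Classes B ρ σ) : ∃ fr fc : ℕ → ℕ, ∀ i j, fr (B i j) = ρ i ∧ fc (B i j) = σ j := by
  classical
  refine ⟨fun s => if h : ∃ z : Fin a × Fin c, B z.1 z.2 = s then ρ h.choose.1 else 0,
    fun s => if h : ∃ z : Fin a × Fin c, B z.1 z.2 = s then σ h.choose.2 else 0, fun i j => ?_⟩
  have hex : ∃ z : Fin a × Fin c, B z.1 z.2 = B i j := ⟨(i, j), rfl⟩
  have h2 := h _ _ _ _ hex.choose_spec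
  exact ⟨(dif_pos hex).trans h2.1, (dif_pos hex).trans h2.2⟩

end G84

open S44 I85 G84 Finset in
theorem glue3_84 : StGlue3 := by
  classical
  intro a b m c d l H e₁ e₂ g₁ g₂ ρ₁ ρ₂ σ₁ σ₂ B₁ B₂ κ₁ κ₂ ha hb hc hd hG hκ₁ hκ₂ hL₁ hL₂ n M
  obtain ⟨⟨hs, ht, q1, q2, q3, q4, q5⟩, hc12, hc21, hR₁, hR₂, -⟩ := hG
  obtain ⟨fr1, fc2, hf12⟩ := classes_fun hc12
  obtain ⟨fr2, fc1, hf21⟩ := classes_fun hc21
  have card : ∀ {a b m : ℕ} {u : Fin a → Fin m} {v : Fin b → Fin m}, Splits u v → a + b = m := by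
    intro a b m u v h
    obtain ⟨u1, u2, u3, u4⟩ := h
    have e : Function.Bijective (Sum.elim u v) := by
      constructor
      · rintro (i | i) (j | j) hij
        · exact congrArg Sum.inl (u1.injective hij)
        · exact absurd hij (u3 i j)
        · exact absurd hij.symm (u3 j i)
        · exact congrArg Sum.inr (u2.injective hij)
      · intro k
        rcases u4 k with ⟨i, hi⟩ | ⟨i, hi⟩
        · exact ⟨Sum.inl i, hi⟩
        · exact ⟨Sum.inr i, hi⟩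
    have := Fintype.card_of_bijective e
    simpa using this
  have hm : a + b = m := card hs
  have hl : c + d = l := card ht
  obtain ⟨s1, s2, s3, s4⟩ := hs
  obtain ⟨t1, t2, t3, t4⟩ := ht
  set H₁ : Fin a → Fin c → ℕ := fun i j => H (e₁ i) (g₁ j) with hH₁
  set H₂ : Fin b → Fin d → ℕ := fun i j => H (e₂ i) (g₂ j) with hH₂
  set S₁ : ℕ → Prop := fun s => ∃ i j, H (e₁ i) (g₂ j) = s with hS₁
  set S₂ : ℕ → Prop := fun s => ∃ i j, H (e₂ i) (g₁ j) = s with hS₂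
  have hf1 : 0 ≤ fac1 a b := by unfold fac1; positivity
  have hf2 : 0 ≤ fac1 c d := by unfold fac1; positivity
  -- the off diagonal cells
  set W : (Fin a → Fin n) × (Fin c → Fin n) → (Fin b → Fin n) × (Fin d → Fin n) → Prop :=
    fun p q => (∀ i j, S₁ (M (p.1 i) (q.2 j))) ∧ ∀ i j, S₂ (M (q.1 i) (p.2 j)) with hW
  set V : (Fin a → Fin n) × (Fin c → Fin n) → (Fin b → Fin n) × (Fin d → Fin n) → Prop :=
    fun p q => (∀ i j, S₁ (M (p.1 i) (q.2 j)) ∧ fc2 (M (p.1 i) (q.2 j)) = σ₂ j) ∧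
      ∀ i j, S₂ (M (q.1 i) (p.2 j)) ∧ fr2 (M (q.1 i) (p.2 j)) = ρ₂ i with hV
  set U : (Fin a → Fin n) × (Fin c → Fin n) → (Fin b → Fin n) × (Fin d → Fin n) → Prop :=
    fun p q => V p q ∧ (∀ i j, fr1 (M (p.1 i) (q.2 j)) = ρ₁ i) ∧
      ∀ i j, fc1 (M (q.1 i) (p.2 j)) = σ₁ j with hU
  have step1 : (rcopies H M : ℝ) ≤ ∑ q, ∑ p, ind (Cp H₂ M q) * (ind (Cp H₁ M p) * ind (U p q)) := by
    rw [rcopies_ind, ← Fintype.sum_prod_type']
    refine le_trans (sum_le_sum fun R _ => ?_) (sum_inj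
      (fun R : (Fin m → Fin n) × (Fin l → Fin n) =>
        (((R.1 ∘ e₂, R.2 ∘ g₂), (R.1 ∘ e₁, R.2 ∘ g₁)) :
          ((Fin b → Fin n) × (Fin d → Fin n)) × ((Fin a → Fin n) × (Fin c → Fin n)))) ?_
      (fun x => ind (Cp H₂ M x.1) * (ind (Cp H₁ M x.2) * ind (U x.2 x.1)))
      fun x => mul_nonneg (ind_nonneg _) (mul_nonneg (ind_nonneg _) (ind_nonneg _)))
    · dsimp only
      rw [← ind_and, ← ind_and]
      refine ind_le ?_
      rintro ⟨h1, h2, h3⟩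
      refine ⟨⟨h1.comp s2, h2.comp t2, fun i j => h3 _ _⟩,
        ⟨h1.comp s1, h2.comp t1, fun i j => h3 _ _⟩,
        ⟨fun i j => ⟨⟨i, j, (h3 _ _).symm⟩, ?_⟩, fun i j => ⟨⟨i, j, (h3 _ _).symm⟩, ?_⟩⟩,
        fun i j => ?_, fun i j => ?_⟩
      · show fc2 (M (R.1 (e₁ i)) (R.2 (g₂ j))) = σ₂ j
        rw [h3]
        exact (hf12 i j).2
      · show fr2 (M (R.1 (e₂ i)) (R.2 (g₁ j))) = ρ₂ i
        rw [h3]
        exact (hf21 i j).1
      · show fr1 (M (R.1 (e₁ i)) (R.2 (g₂ j))) = ρ₁ i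
        rw [h3]
        exact (hf12 i j).1
      · show fc1 (M (R.1 (e₂ i)) (R.2 (g₁ j))) = σ₁ j
        rw [h3]
        exact (hf21 i j).2
    · intro R R' hRR
      simp only [Prod.mk.injEq] at hRR
      obtain ⟨⟨r1, r2⟩, r3, r4⟩ := hRR
      refine Prod.ext ?_ ?_
      · funext k
        rcases s4 k with ⟨i, rfl⟩ | ⟨i, rfl⟩
        · exact congrFun r3 i
        · exact congrFun r1 i
      · funext k
        rcases t4 k with ⟨i, rfl⟩ | ⟨i, rfl⟩
        · exact congrFun r4 i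
        · exact congrFun r2 i
  have step2 : ∑ q, ∑ p, ind (Cp H₂ M q) * (ind (Cp H₁ M p) * ind (U p q)) ≤
      κ₁ * ∑ p, ∑ q, ind (Gr H₁ M p) * (ind (Cp H₂ M q) * ind (V p q)) := by
    calc ∑ q, ∑ p, ind (Cp H₂ M q) * (ind (Cp H₁ M p) * ind (U p q))
        ≤ ∑ q, ind (Cp H₂ M q) * (κ₁ * ∑ p, ind (Gr H₁ M p) * ind (V p q)) := by
          refine sum_le_sum fun q _ => ?_
          rw [← mul_sum]
          refine mul_le_mul_of_nonneg_left ?_ (ind_nonneg _)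
          have := masked3 ha hc hκ₁ hR₁ hL₁ M
            (fun x => ∀ j, S₁ (M x (q.2 j)) ∧ fc2 (M x (q.2 j)) = σ₂ j)
            (fun y => ∀ i, S₂ (M (q.1 i) y) ∧ fr2 (M (q.1 i) y) = ρ₂ i)
            (fun x => fr1 (M x (q.2 ⟨0, hd⟩))) (fun y => fc1 (M (q.1 ⟨0, hb⟩) y))
          refine le_trans (sum_le_sum fun p _ => ?_) (this.trans (mul_le_mul_of_nonneg_left
            (sum_le_sum fun p _ => ?_) hκ₁))
          · refine mul_le_mul_of_nonneg_left (ind_le ?_) (ind_nonneg _)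
            rintro ⟨⟨h1, h2⟩, h3, h4⟩
            exact ⟨fun i => ⟨fun j => h1 i j, h3 i _⟩, fun j => ⟨fun i => h2 i j, h4 _ j⟩⟩
          · refine mul_le_mul_of_nonneg_left (ind_le ?_) (ind_nonneg _)
            rintro ⟨h1, h2⟩
            exact ⟨fun i j => h1 i j, fun i j => h2 j i⟩
      _ = κ₁ * ∑ p, ∑ q, ind (Gr H₁ M p) * (ind (Cp H₂ M q) * ind (V p q)) := by
          simp only [mul_sum]
          rw [sum_comm]
          refine sum_congr rfl fun p _ => sum_congr rfl fun q _ => ?_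
          ring
  have step3 : ∑ p, ∑ q, ind (Gr H₁ M p) * (ind (Cp H₂ M q) * ind (V p q)) ≤
      κ₂ * ∑ p, ∑ q, ind (Gr H₁ M p) * (ind (Gr H₂ M q) * ind (W p q)) := by
    rw [mul_sum]
    refine sum_le_sum fun p _ => ?_
    rw [← mul_sum, ← mul_sum, mul_left_comm]
    refine mul_le_mul_of_nonneg_left ?_ (ind_nonneg _)
    have := masked3 hb hd hκ₂ hR₂ hL₂ M (fun x => ∀ j, S₂ (M x (p.2 j)))
      (fun y => ∀ i, S₁ (M (p.1 i) y))
      (fun x => fr2 (M x (p.2 ⟨0, hc⟩))) (fun y => fc2 (M (p.1 ⟨0, ha⟩) y))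
    refine le_trans (sum_le_sum fun q _ => ?_) (this.trans (mul_le_mul_of_nonneg_left
      (sum_le_sum fun q _ => ?_) hκ₂))
    · refine mul_le_mul_of_nonneg_left (ind_le ?_) (ind_nonneg _)
      rintro ⟨h1, h2⟩
      exact ⟨fun i => ⟨fun j => (h2 i j).1, (h2 i _).2⟩, fun j => ⟨fun i => (h1 i j).1, (h1 _ j).2⟩⟩
    · refine mul_le_mul_of_nonneg_left (ind_le ?_) (ind_nonneg _)
      rintro ⟨h1, h2⟩
      exact ⟨fun i j => h2 j i, fun i j => h1 i j⟩
  -- the columns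
  set P : (Fin a → Fin n) → (Fin b → Fin n) → Fin n → Prop := fun r s y =>
    (∀ i, ∃ i' j', H (e₁ i') (g₁ j') = M (r i) y) ∧ ∀ i, ∃ i' j', H (e₂ i') (g₁ j') = M (s i) y
    with hP
  set Q : (Fin a → Fin n) → (Fin b → Fin n) → Fin n → Prop := fun r s y =>
    (∀ i, ∃ i' j', H (e₁ i') (g₂ j') = M (r i) y) ∧ ∀ i, ∃ i' j', H (e₂ i') (g₂ j') = M (s i) y
    with hQ
  set Z : (Fin a → Fin n) → (Fin b → Fin n) → Fin n → Prop := fun r s y => P r s y ∨ Q r s y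
    with hZ
  have step4 : ∑ p, ∑ q, ind (Gr H₁ M p) * (ind (Gr H₂ M q) * ind (W p q)) =
      ∑ r, ∑ s, (∑ y, ind (P r s y)) ^ c * (∑ y, ind (Q r s y)) ^ d := by
    simp only [Fintype.sum_prod_type, pow_ind]
    refine sum_congr rfl fun r _ => ?_
    rw [sum_comm]
    refine sum_congr rfl fun s _ => ?_
    rw [sum_mul_sum]
    refine sum_congr rfl fun C _ => sum_congr rfl fun D _ => ?_
    rw [← ind_and, ← ind_and, ← ind_and]
    refine ind_congr ?_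
    constructor
    · rintro ⟨h1, h2, h3, h4⟩
      exact ⟨fun j => ⟨fun i => h1 i j, fun i => h4 i j⟩, fun j => ⟨fun i => h3 i j, fun i => h2 i j⟩⟩
    · rintro ⟨h1, h2⟩
      exact ⟨fun i j => (h1 j).1 i, fun i j => (h2 j).2 i, fun i j => (h2 j).1 i,
        fun i j => (h1 j).2 i⟩
  have step5 : ∑ r, ∑ s, (∑ y, ind (P r s y)) ^ c * (∑ y, ind (Q r s y)) ^ d ≤
      fac1 c d * ∑ r, ∑ s, (∑ y, ind (Z r s y)) ^ l := by
    rw [mul_sum]
    refine sum_le_sum fun r _ => ?_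
    rw [mul_sum]
    refine sum_le_sum fun s _ => ?_
    have hP0 : 0 ≤ ∑ y, ind (P r s y) := sum_nonneg fun _ _ => ind_nonneg _
    have hQ0 : 0 ≤ ∑ y, ind (Q r s y) := sum_nonneg fun _ _ => ind_nonneg _
    refine (am2 c d hc hd _ _ hP0 hQ0).trans (mul_le_mul_of_nonneg_left ?_ hf2)
    rw [hl]
    refine pow_le_pow_left₀ (add_nonneg hP0 hQ0) ?_ _
    rw [← sum_add_distrib]
    refine sum_le_sum fun y _ => ?_
    by_cases h1 : P r s y
    · have h2 : ¬ Q r s y := by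
        intro h2
        obtain ⟨i, j, hij⟩ := h1.1 ⟨0, ha⟩
        obtain ⟨i', j', hij'⟩ := h2.1 ⟨0, ha⟩
        exact q1 _ _ _ _ (hij.trans hij'.symm)
      rw [ind_false h2, add_zero]
      exact ind_le fun h3 => Or.inl h3
    · rw [ind_false h1, zero_add]
      exact ind_le fun h3 => Or.inr h3
  have step6 : ∑ r, ∑ s, (∑ y, ind (Z r s y)) ^ l =
      ∑ C : Fin l → Fin n, ∑ r, ∑ s, ind (∀ j, Z r s (C j)) := by
    simp only [pow_ind]
    rw [sum_congr rfl fun r _ => sum_comm, sum_comm]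
  have step7 : ∑ C : Fin l → Fin n, ∑ r, ∑ s, ind (∀ j, Z r s (C j)) ≤
      fac1 a b * (grids H M : ℝ) := by
    rw [grids_eq, mul_sum]
    refine sum_le_sum fun C _ => ?_
    have h1 := inner ha hb (show 0 < l by omega)
      (fun x j => ∃ i' j', H (e₁ i') (g₁ j') = M x (C j))
      (fun x j => ∃ i' j', H (e₁ i') (g₂ j') = M x (C j))
      (fun x j => ∃ i' j', H (e₂ i') (g₁ j') = M x (C j))
      (fun x j => ∃ i' j', H (e₂ i') (g₂ j') = M x (C j))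
      (by rintro x j ⟨i, k, h⟩ ⟨i', k', h'⟩; exact q1 _ _ _ _ (h.trans h'.symm))
      (by rintro x j ⟨i, k, h⟩ ⟨i', k', h'⟩; exact q2 _ _ _ _ (h.trans h'.symm))
      (by rintro x j ⟨i, k, h⟩ ⟨i', k', h'⟩; exact q3 _ _ _ _ (h.trans h'.symm))
      (by rintro x j ⟨i, k, h⟩ ⟨i', k', h'⟩; exact q4 _ _ _ _ (h.trans h'.symm))
      (by
        rcases q5 with q5 | q5
        · left
          rintro x j ⟨i, k, h⟩ ⟨i', k', h'⟩
          exact q5 _ _ _ _ (h.trans h'.symm)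
        · right
          rintro x j ⟨i, k, h⟩ ⟨i', k', h'⟩
          exact q5 _ _ _ _ (h.trans h'.symm))
    refine h1.trans ?_
    refine mul_le_mul_of_nonneg_left ?_ hf1
    rw [hm]
    refine pow_le_pow_left₀ (sum_nonneg fun _ _ => ind_nonneg _) ?_ _
    unfold g
    refine sum_le_sum fun x _ => ind_le fun h j => ?_
    rcases h j with ⟨i', j', h2⟩ | ⟨i', j', h2⟩ | ⟨i', j', h2⟩ | ⟨i', j', h2⟩
    · exact ⟨_, _, h2⟩
    · exact ⟨_, _, h2⟩
    · exact ⟨_, _, h2⟩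
    · exact ⟨_, _, h2⟩
  have hT : ∑ p, ∑ q, ind (Gr H₁ M p) * (ind (Gr H₂ M q) * ind (W p q)) ≤
      fac1 c d * (fac1 a b * (grids H M : ℝ)) := by
    rw [step4]
    refine step5.trans (mul_le_mul_of_nonneg_left ?_ hf2)
    rw [step6]
    exact step7
  calc (rcopies H M : ℝ) ≤ _ := step1
    _ ≤ _ := step2
    _ ≤ κ₁ * (κ₂ * (fac1 c d * (fac1 a b * (grids H M : ℝ)))) :=
        mul_le_mul_of_nonneg_left (step3.trans (mul_le_mul_of_nonneg_left hT hκ₂)) hκ₁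
    _ = κ₁ * κ₂ * (fac1 a b * fac1 c d) * (grids H M : ℝ) := by ring

end Pool.Agent.Lib.MP_efec9b_co.BS
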