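import Pool.Agent.Lib.MP_efec9b_co.BS.Defs85

/-!
MP_efec9b_co: gluing (row GLUE).
-/

set_option autoImplicit false

namespace Pool.Agent.Lib.MP_efec9b_co.BS.G85

open Finset

open Classical in
/-- the copies of `H` -/
noncomputable def cp {h n : ℕ} (H : Fin h → Fin h → ℕ) (M : Fin n → Fin n → ℕ) :
    Finset ((Fin h → Fin n) × (Fin h → Fin n)) :=
  univ.filter fun p => StrictMono p.1 ∧ StrictMono p.2 ∧ ∀ i j, M (p.1 i) (p.2 j) = H i j

theorem mem_cp {h n : ℕ} {H : Fin h → Fin h → ℕ} {M : Fin n → Fin n → ℕ}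
    {p : (Fin h → Fin n) × (Fin h → Fin n)} : p ∈ cp H M ↔
      StrictMono p.1 ∧ StrictMono p.2 ∧ ∀ i j, M (p.1 i) (p.2 j) = H i j := by
  unfold cp
  rw [mem_filter]
  exact ⟨fun h => h.2, fun h => ⟨mem_univ _, h⟩⟩

theorem cp_card {h n : ℕ} (H : Fin h → Fin h → ℕ) (M : Fin n → Fin n → ℕ) :
    copies H M = (cp H M).card := by
  classical
  unfold copies cp
  rw [Nat.card_eq_fintype_card, Fintype.card_subtype]

open Classical in
/-- the cells of `M` with a symbol of the submatrix with rows `u` and columns `v` -/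
noncomputable def K {a b h n : ℕ} (H : Fin h → Fin h → ℕ) (u : Fin a → Fin h) (v : Fin b → Fin h)
    (M : Fin n → Fin n → ℕ) : Finset (Fin n × Fin n) :=
  univ.filter fun p => ∃ i j, H (u i) (v j) = M p.1 p.2

theorem mem_K {a b h n : ℕ} {H : Fin h → Fin h → ℕ} {u : Fin a → Fin h} {v : Fin b → Fin h}
    {M : Fin n → Fin n → ℕ} {p : Fin n × Fin n} : p ∈ K H u v M ↔
      ∃ i j, H (u i) (v j) = M p.1 p.2 := by
  unfold K
  rw [mem_filter]
  exact ⟨fun h => h.2, fun h => ⟨mem_univ _, h⟩⟩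

theorem cells_card {h n : ℕ} (H : Fin h → Fin h → ℕ) (M : Fin n → Fin n → ℕ) :
    cells H M = (K H id id M).card := by
  classical
  unfold cells K
  rw [Nat.card_eq_fintype_card, Fintype.card_subtype]
  rfl

theorem le_top {h : ℕ} (H : Fin h → Fin h → ℕ) (i j : Fin h) : H i j ≤ top H := by
  unfold top
  exact (Finset.le_sup (f := fun j => H i j) (mem_univ j)).trans
    (Finset.le_sup (f := fun i => univ.sup fun j => H i j) (mem_univ i))

open Classical in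
/-- copies in rows with `A` and columns with `B` -/
theorem masked {h n : ℕ} {H : Fin h → Fin h → ℕ} {κ : ℝ} (hL : Loc H κ)
    (M : Fin n → Fin n → ℕ) (A B : Fin n → Prop) :
    (((cp H M).filter fun p => (∀ i, A (p.1 i)) ∧ ∀ j, B (p.2 j)).card : ℝ) ≤
      κ * (((K H id id M).filter fun q => A q.1 ∧ B q.2).card : ℝ) ^ h := by
  set M' : Fin n → Fin n → ℕ := fun r c => if A r ∧ B c then M r c else top H + 1 with hM'
  have h1 := hL n M'
  rw [cp_card, cells_card] at h1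
  have h2 : ((cp H M).filter fun p => (∀ i, A (p.1 i)) ∧ ∀ j, B (p.2 j)) ⊆ cp H M' := by
    intro p hp
    rw [mem_filter, mem_cp] at hp
    rw [mem_cp]
    refine ⟨hp.1.1, hp.1.2.1, fun i j => ?_⟩
    rw [hM']
    dsimp only
    rw [if_pos ⟨hp.2.1 i, hp.2.2 j⟩]
    exact hp.1.2.2 i j
  have h3 : K H id id M' = (K H id id M).filter fun q => A q.1 ∧ B q.2 := by
    ext q
    rw [mem_filter, mem_K, mem_K, hM']
    dsimp only
    by_cases hq : A q.1 ∧ B q.2
    · rw [if_pos hq]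
      exact ⟨fun h => ⟨h, hq⟩, fun h => h.1⟩
    · rw [if_neg hq]
      constructor
      · rintro ⟨i, j, hij⟩
        have := le_top H (id i) (id j)
        omega
      · intro h
        exact absurd h.2 hq
  rw [h3] at h1
  refine le_trans ?_ h1
  exact_mod_cast card_le_card h2

variable {a b h n : ℕ} (H : Fin h → Fin h → ℕ) (e₁ : Fin a → Fin h) (e₂ : Fin b → Fin h)
  (g₁ : Fin a → Fin h) (g₂ : Fin b → Fin h) (M : Fin n → Fin n → ℕ)

/-- all cross cells have the right symbols -/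
def Cross (r : Fin n) (c : Fin n) (r' c' : Fin n) : Prop :=
  (r, c') ∈ K H e₁ g₂ M ∧ (r', c) ∈ K H e₂ g₁ M

open Classical in
/-- homomorphisms -/
noncomputable def Hom : Finset ((Fin a → Fin n × Fin n) × (Fin b → Fin n × Fin n)) :=
  ((Fintype.piFinset fun _ : Fin a => K H e₁ g₁ M) ×ˢ
    (Fintype.piFinset fun _ : Fin b => K H e₂ g₂ M)).filter fun p =>
      ∀ i j, Cross H e₁ e₂ g₁ g₂ M (p.1 i).1 (p.1 i).2 (p.2 j).1 (p.2 j).2

open Classical in
theorem copies_step (hG : Glued H e₁ e₂ g₁ g₂) :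
    copies H M ≤ ∑ q ∈ cp (fun i j => H (e₂ i) (g₂ j)) M,
      ((cp (fun i j => H (e₁ i) (g₁ j)) M).filter fun p =>
        (∀ i, ∀ j, (p.1 i, q.2 j) ∈ K H e₁ g₂ M) ∧ ∀ i, ∀ j, (q.1 j, p.2 i) ∈ K H e₂ g₁ M).card := by
  rw [cp_card, ← card_sigma]
  obtain ⟨⟨u1, u2, u3, u4⟩, ⟨v1, v2, v3, v4⟩, -⟩ := hG
  refine Finset.card_le_card_of_injOn (fun p => ⟨(p.1 ∘ e₂, p.2 ∘ g₂), (p.1 ∘ e₁, p.2 ∘ g₁)⟩) ?_ ?_
  · intro p hp
    rw [mem_coe, mem_cp] at hp
    obtain ⟨h1, h2, h3⟩ := hp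
    rw [mem_coe, mem_sigma, mem_filter, mem_cp, mem_cp]
    refine ⟨⟨h1.comp u2, h2.comp v2, fun i j => h3 _ _⟩, ⟨h1.comp u1, h2.comp v1,
      fun i j => h3 _ _⟩, fun i j => ?_, fun i j => ?_⟩
    · exact mem_K.2 ⟨i, j, (h3 _ _).symm⟩
    · exact mem_K.2 ⟨j, i, (h3 _ _).symm⟩
  · intro p _ q _ hpq
    simp only [Sigma.mk.injEq, Prod.mk.injEq, heq_eq_eq] at hpq
    obtain ⟨⟨h1, h2⟩, h3, h4⟩ := hpq
    refine Prod.ext ?_ ?_
    · funext k
      rcases u4 k with ⟨i, rfl⟩ | ⟨i, rfl⟩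
      · exact congrFun h3 i
      · exact congrFun h1 i
    · funext k
      rcases v4 k with ⟨i, rfl⟩ | ⟨i, rfl⟩
      · exact congrFun h4 i
      · exact congrFun h2 i

theorem pow_card {α : Type} (s : Finset α) (m : ℕ) (P : α → Prop) (inst : DecidablePred P)
    (inst2 : ∀ d : Fin m → α, Decidable (∀ i, P (d i))) :
    ((s.filter P).card : ℝ) ^ m =
      ∑ d ∈ (Fintype.piFinset fun _ : Fin m => s), if ∀ i, P (d i) then (1 : ℝ) else 0 := by
  have h1 : (s.filter P).card ^ m = (Fintype.piFinset fun _ : Fin m => s.filter P).card := by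
    rw [Fintype.card_piFinset_const]
    
  have h2 : (Fintype.piFinset fun _ : Fin m => s.filter P) =
      (Fintype.piFinset fun _ : Fin m => s).filter fun d => ∀ i, P (d i) := by
    ext d
    simp only [Fintype.mem_piFinset, mem_filter]
    exact ⟨fun h => ⟨fun i => (h i).1, fun i => (h i).2⟩, fun h i => ⟨h.1 i, h.2 i⟩⟩
  rw [← Nat.cast_pow, h1, h2, card_filter]
  push_cast
  rfl

open Classical in
theorem hom_step (hG : Glued H e₁ e₂ g₁ g₂) {κ₁ κ₂ : ℝ} (hk1 : 0 ≤ κ₁) (hk2 : 0 ≤ κ₂)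
    (hL1 : Loc (fun i j => H (e₁ i) (g₁ j)) κ₁) (hL2 : Loc (fun i j => H (e₂ i) (g₂ j)) κ₂) :
    (copies H M : ℝ) ≤ κ₁ * κ₂ * ((Hom H e₁ e₂ g₁ g₂ M).card : ℝ) := by
  have h0 := copies_step H e₁ e₂ g₁ g₂ M hG
  have h0' : (copies H M : ℝ) ≤ ∑ q ∈ cp (fun i j => H (e₂ i) (g₂ j)) M,
      (((cp (fun i j => H (e₁ i) (g₁ j)) M).filter fun p =>
        (∀ i, ∀ j, (p.1 i, q.2 j) ∈ K H e₁ g₂ M) ∧
          ∀ i, ∀ j, (q.1 j, p.2 i) ∈ K H e₂ g₁ M).card : ℝ) := by exact_mod_cast h0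
  refine h0'.trans ?_
  have h1 : ∀ q ∈ cp (fun i j => H (e₂ i) (g₂ j)) M,
      (((cp (fun i j => H (e₁ i) (g₁ j)) M).filter fun p =>
        (∀ i, ∀ j, (p.1 i, q.2 j) ∈ K H e₁ g₂ M) ∧
          ∀ i, ∀ j, (q.1 j, p.2 i) ∈ K H e₂ g₁ M).card : ℝ) ≤
      κ₁ * ∑ d ∈ (Fintype.piFinset fun _ : Fin a => K H e₁ g₁ M),
        if ∀ i, (∀ j, ((d i).1, q.2 j) ∈ K H e₁ g₂ M) ∧ ∀ j, (q.1 j, (d i).2) ∈ K H e₂ g₁ M
          then (1 : ℝ) else 0 := by
    intro q _
    refine le_trans (le_of_eq ?_) (le_trans (masked hL1 M (fun r => ∀ j, (r, q.2 j) ∈ K H e₁ g₂ M)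
      (fun c => ∀ j, (q.1 j, c) ∈ K H e₂ g₁ M)) (le_of_eq ?_))
    · congr!
    · rw [show K (fun i j => H (e₁ i) (g₁ j)) id id M = K H e₁ g₁ M from rfl,
        pow_card _ _ _ _ (fun _ => Classical.propDecidable _)]
      exact congrArg (fun t => κ₁ * t) (sum_congr rfl fun d _ => by congr!)
  refine (sum_le_sum h1).trans ?_
  rw [← mul_sum, mul_assoc]
  refine mul_le_mul_of_nonneg_left ?_ hk1
  rw [sum_comm]
  have h2 : ∀ d ∈ (Fintype.piFinset fun _ : Fin a => K H e₁ g₁ M),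
      (∑ q ∈ cp (fun i j => H (e₂ i) (g₂ j)) M,
        if ∀ i, (∀ j, ((d i).1, q.2 j) ∈ K H e₁ g₂ M) ∧ ∀ j, (q.1 j, (d i).2) ∈ K H e₂ g₁ M
          then (1 : ℝ) else 0) ≤
      κ₂ * ∑ e ∈ (Fintype.piFinset fun _ : Fin b => K H e₂ g₂ M),
        if ∀ j, (∀ i, (e j).1 = (e j).1 ∧ ((e j).1, (d i).2) ∈ K H e₂ g₁ M) ∧
          ∀ i, ((d i).1, (e j).2) ∈ K H e₁ g₂ M then (1 : ℝ) else 0 := by
    intro d _
    refine le_trans (le_of_eq ?_) (le_trans (masked hL2 M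
      (fun r => ∀ i, r = r ∧ (r, (d i).2) ∈ K H e₂ g₁ M)
      (fun c => ∀ i, ((d i).1, c) ∈ K H e₁ g₂ M)) (le_of_eq ?_))
    swap
    · rw [show K (fun i j => H (e₂ i) (g₂ j)) id id M = K H e₂ g₂ M from rfl,
        pow_card _ _ _ _ (fun _ => Classical.propDecidable _)]
      exact congrArg (fun t => κ₂ * t) (sum_congr rfl fun d _ => by congr!)
    rw [card_filter]
    push_cast
    refine sum_congr rfl fun q _ => ?_
    refine if_congr ?_ rfl rfl
    constructor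
    · intro h
      exact ⟨fun j i => ⟨rfl, (h i).2 j⟩, fun j i => (h i).1 j⟩
    · intro h i
      exact ⟨fun j => h.2 j i, fun j => (h.1 j i).2⟩
  refine (sum_le_sum h2).trans ?_
  rw [← mul_sum]
  refine mul_le_mul_of_nonneg_left (le_of_eq ?_) hk2
  unfold Hom
  rw [card_filter, sum_product]
  push_cast
  refine sum_congr rfl fun d _ => sum_congr rfl fun e _ => ?_
  refine if_congr ?_ rfl rfl
  constructor
  · intro h i j
    exact ⟨(h j).2 i, ((h j).1 i).2⟩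
  · intro h j
    exact ⟨fun i => ⟨rfl, (h i j).2⟩, fun i => (h i j).1⟩

theorem hom_le1 : ((Hom H e₁ e₂ g₁ g₂ M).card : ℝ) ≤
    ((K H e₁ g₁ M).card : ℝ) ^ a * ((K H e₂ g₂ M).card : ℝ) ^ b := by
  classical
  have h1 : (Hom H e₁ e₂ g₁ g₂ M).card ≤ (K H e₁ g₁ M).card ^ a * (K H e₂ g₂ M).card ^ b := by
    unfold Hom
    refine (card_filter_le _ _).trans (le_of_eq ?_)
    rw [card_product, Fintype.card_piFinset_const, Fintype.card_piFinset_const]
  exact_mod_cast h1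

theorem hom_le2 : ((Hom H e₁ e₂ g₁ g₂ M).card : ℝ) ≤
    (((K H e₁ g₂ M).card : ℝ) * ((K H e₂ g₁ M).card : ℝ)) ^ (min a b) *
      ((K H e₁ g₁ M).card : ℝ) ^ (a - b) * ((K H e₂ g₂ M).card : ℝ) ^ (b - a) := by
  classical
  have h1 : (Hom H e₁ e₂ g₁ g₂ M).card ≤
      ((Fintype.piFinset fun _ : Fin (min a b) => (K H e₁ g₂ M) ×ˢ (K H e₂ g₁ M)) ×ˢ
        ((Fintype.piFinset fun _ : Fin (a - b) => K H e₁ g₁ M) ×ˢ
          (Fintype.piFinset fun _ : Fin (b - a) => K H e₂ g₂ M))).card := by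
    refine Finset.card_le_card_of_injOn (fun p =>
      (fun i : Fin (min a b) => (((p.1 ⟨i, by omega⟩).1, (p.2 ⟨i, by omega⟩).2),
        ((p.2 ⟨i, by omega⟩).1, (p.1 ⟨i, by omega⟩).2)),
        (fun i : Fin (a - b) => p.1 ⟨b + i, by omega⟩, fun i : Fin (b - a) =>
          p.2 ⟨a + i, by omega⟩))) ?_ ?_
    · intro p hp
      unfold Hom at hp
      rw [mem_coe, mem_filter, mem_product, Fintype.mem_piFinset, Fintype.mem_piFinset] at hp
      obtain ⟨⟨h1, h2⟩, h3⟩ := hp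
      rw [mem_coe, mem_product, mem_product, Fintype.mem_piFinset, Fintype.mem_piFinset,
        Fintype.mem_piFinset]
      refine ⟨fun i => ?_, fun i => h1 _, fun i => h2 _⟩
      rw [mem_product]
      exact ⟨(h3 _ _).1, (h3 _ _).2⟩
    · intro p _ q _ hpq
      simp only [Prod.mk.injEq] at hpq
      obtain ⟨h1, h2, h3⟩ := hpq
      refine Prod.ext ?_ ?_
      · funext k
        by_cases hk : (k : ℕ) < b
        · have := congrFun h1 ⟨k, by omega⟩
          simp only [Prod.mk.injEq] at this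
          exact Prod.ext this.1.1 this.2.2
        · have := congrFun h2 ⟨(k : ℕ) - b, by omega⟩
          have e : (⟨b + ((k : ℕ) - b), by omega⟩ : Fin a) = k := by
            apply Fin.ext
            show b + ((k : ℕ) - b) = k
            omega
          simp only [e] at this
          exact this
      · funext k
        by_cases hk : (k : ℕ) < a
        · have := congrFun h1 ⟨k, by omega⟩
          simp only [Prod.mk.injEq] at this
          exact Prod.ext this.2.1 this.1.2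
        · have := congrFun h3 ⟨(k : ℕ) - a, by omega⟩
          have e : (⟨a + ((k : ℕ) - a), by omega⟩ : Fin b) = k := by
            apply Fin.ext
            show a + ((k : ℕ) - a) = k
            omega
          simp only [e] at this
          exact this
  rw [card_product, card_product, Fintype.card_piFinset_const, Fintype.card_piFinset_const,
    Fintype.card_piFinset_const, card_product, ← mul_assoc] at h1
  exact_mod_cast h1

/-- the four classes are disjoint -/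
theorem four_le (hG : Glued H e₁ e₂ g₁ g₂) :
    (K H e₁ g₁ M).card + (K H e₂ g₂ M).card + (K H e₁ g₂ M).card + (K H e₂ g₁ M).card ≤
      (K H id id M).card := by
  classical
  obtain ⟨⟨u1, u2, u3, u4⟩, ⟨v1, v2, v3, v4⟩, hS⟩ := hG
  have key : ∀ {x y x' y' : Fin h}, H x y = H x' y' →
      ((∃ k, e₁ k = x) ↔ ∃ k, e₁ k = x') ∧ ((∃ k, g₁ k = y) ↔ ∃ k, g₁ k = y') :=
    fun h => hS _ _ _ _ h
  have d1 : Disjoint (K H e₁ g₁ M) (K H e₂ g₂ M) := by
    rw [disjoint_left]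
    intro p hp hp'
    obtain ⟨i, j, hij⟩ := mem_K.1 hp
    obtain ⟨i', j', hij'⟩ := mem_K.1 hp'
    obtain ⟨k, hk⟩ := (key (hij.trans hij'.symm)).1.1 ⟨i, rfl⟩
    exact u3 _ _ hk
  have d2 : Disjoint ((K H e₁ g₁ M) ∪ (K H e₂ g₂ M)) (K H e₁ g₂ M) := by
    rw [disjoint_left]
    intro p hp hp'
    obtain ⟨i', j', hij'⟩ := mem_K.1 hp'
    rcases mem_union.1 hp with hp | hp
    · obtain ⟨i, j, hij⟩ := mem_K.1 hp
      obtain ⟨k, hk⟩ := (key (hij.trans hij'.symm)).2.1 ⟨j, rfl⟩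
      exact v3 _ _ hk
    · obtain ⟨i, j, hij⟩ := mem_K.1 hp
      obtain ⟨k, hk⟩ := (key (hij.trans hij'.symm)).1.2 ⟨i', rfl⟩
      exact u3 _ _ hk
  have d3 : Disjoint (((K H e₁ g₁ M) ∪ (K H e₂ g₂ M)) ∪ (K H e₁ g₂ M)) (K H e₂ g₁ M) := by
    rw [disjoint_left]
    intro p hp hp'
    obtain ⟨i', j', hij'⟩ := mem_K.1 hp'
    rcases mem_union.1 hp with hp | hp
    · rcases mem_union.1 hp with hp | hp
      · obtain ⟨i, j, hij⟩ := mem_K.1 hp
        obtain ⟨k, hk⟩ := (key (hij.trans hij'.symm)).1.1 ⟨i, rfl⟩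
        exact u3 _ _ hk
      · obtain ⟨i, j, hij⟩ := mem_K.1 hp
        obtain ⟨k, hk⟩ := (key (hij.trans hij'.symm)).2.2 ⟨j', rfl⟩
        exact v3 _ _ hk
    · obtain ⟨i, j, hij⟩ := mem_K.1 hp
      obtain ⟨k, hk⟩ := (key (hij.trans hij'.symm)).1.1 ⟨i, rfl⟩
      exact u3 _ _ hk
  rw [← card_union_of_disjoint d1, ← card_union_of_disjoint d2, ← card_union_of_disjoint d3]
  refine card_le_card ?_
  intro p hp
  rw [mem_union, mem_union, mem_union] at hp
  rw [mem_K]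
  rcases hp with ((hp | hp) | hp) | hp <;>
  · obtain ⟨i, j, hij⟩ := mem_K.1 hp
    exact ⟨_, _, hij⟩

end G85

open G85 in
theorem glue85 (hAM : StAM) : StGlue := by
  intro a b h H e₁ e₂ g₁ g₂ κ₁ κ₂ ha hb hG hk1 hk2 hL1 hL2 n M
  have h1 := hom_step H e₁ e₂ g₁ g₂ M hG hk1 hk2 hL1 hL2
  have h2 := hAM a b ((Hom H e₁ e₂ g₁ g₂ M).card : ℝ) ((K H e₁ g₁ M).card : ℝ)
    ((K H e₂ g₂ M).card : ℝ) ((K H e₁ g₂ M).card : ℝ) ((K H e₂ g₁ M).card : ℝ) ha hb
    (by positivity) (by positivity) (by positivity) (by positivity) (by positivity)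
    (hom_le1 H e₁ e₂ g₁ g₂ M) (hom_le2 H e₁ e₂ g₁ g₂ M)
  have h3 := four_le H e₁ e₂ g₁ g₂ M hG
  have h3' : ((K H e₁ g₁ M).card : ℝ) + ((K H e₂ g₂ M).card : ℝ) + ((K H e₁ g₂ M).card : ℝ) +
      ((K H e₂ g₁ M).card : ℝ) ≤ ((K H id id M).card : ℝ) := by exact_mod_cast h3
  have hab : a + b = h := by
    obtain ⟨⟨u1, u2, u3, u4⟩, -, -⟩ := hG
    have e : Function.Bijective (Sum.elim e₁ e₂) := by
      constructor
      · rintro (i | i) (j | j) hij
        · exact congrArg Sum.inl (u1.injective hij)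
        · exact absurd hij (u3 i j)
        · exact absurd hij.symm (u3 j i)
        · exact congrArg Sum.inr (u2.injective hij)
      · intro k
        rcases u4 k with ⟨i, hi⟩ | ⟨i, hi⟩
        · exact ⟨Sum.inl i, hi⟩
        · exact ⟨Sum.inr i, hi⟩
    have := Fintype.card_of_bijective e
    simpa using this
  have hf : 0 ≤ fac a b := by unfold fac; positivity
  rw [cells_card]
  calc (copies H M : ℝ) ≤ κ₁ * κ₂ * ((Hom H e₁ e₂ g₁ g₂ M).card : ℝ) := h1
    _ ≤ κ₁ * κ₂ * (fac a b * ((K H id id M).card : ℝ) ^ (a + b)) := by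
        refine mul_le_mul_of_nonneg_left (h2.trans ?_) (mul_nonneg hk1 hk2)
        refine mul_le_mul_of_nonneg_left ?_ hf
        exact pow_le_pow_left₀ (by positivity) h3' _
    _ = κ₁ * κ₂ * fac a b * ((K H id id M).card : ℝ) ^ h := by rw [hab]; ring

end Pool.Agent.Lib.MP_efec9b_co.BS
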