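import Pool.Agent.Lib.MP_efec9b_co.BS.GoodAll77
import Pool.Agent.Lib.MP_efec9b_co.BS.Defs85T

/-!
MP_efec9b_co: every square member of the class `Good2` is tight (assembly from the rows R7', R8');
the class `Good` is contained in `Good2`.
-/

set_option autoImplicit false

namespace Pool.Agent.Lib.MP_efec9b_co.BS.G77

open Pool.Agent.Lib.MP_efec9b_co.BS

theorem good2_pos {a h : ℕ} {H : Fin a → Fin h → ℕ} (hR : Good2 H) : 0 < a ∧ 0 < h := by
  induction hR with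
  | base H ha hh _ _ => exact ⟨ha, hh⟩
  | tr H _ ih => exact ⟨ih.2, ih.1⟩
  | stack H u v _ _ _ ih =>
    exact ⟨lt_of_le_of_lt (Nat.zero_le _) (u ⟨0, ih.1⟩).2, ih.2⟩
  | glue H e₁ e₂ g₁ g₂ _ _ _ _ ih1 _ =>
    exact ⟨lt_of_le_of_lt (Nat.zero_le _) (e₁ ⟨0, ih1.1⟩).2,
      lt_of_le_of_lt (Nat.zero_le _) (g₁ ⟨0, ih1.2⟩).2⟩

theorem rtight_of_good2 (hR : StRGlue2) (hV : StRGVal2) {a h : ℕ} {H : Fin a → Fin h → ℕ}
    (hG : Good2 H) : RTight H := by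
  induction hG with
  | base H ha hh h1 h2 => exact rbase84 _ _ H ha hh h1 h2
  | tr H _ ih => exact rtr85 _ _ H ih
  | @stack a b m h H u v hb hS hB ih =>
    obtain ⟨ha, hh⟩ := good2_pos hB
    have h3 := stack44 a b m h H u v _ ha hb hh hS (rvalue_nonneg _) ih
    unfold RTight
    rw [rval81 a b m h H u v ha hb hh hS]
    exact h3
  | @glue a b m c d l H e₁ e₂ g₁ g₂ hG hC hB1 hB2 ih1 ih2 =>
    obtain ⟨ha, hc⟩ := good2_pos hB1
    obtain ⟨hb, hd⟩ := good2_pos hB2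
    have h3 := hR a b m c d l H e₁ e₂ g₁ g₂ _ _ ha hb hc hd hG (rvalue_nonneg _)
      (rvalue_nonneg _) ih1 ih2
    unfold RTight
    rw [hV a b m c d l H e₁ e₂ g₁ g₂ ha hb hc hd hG hC]
    exact h3

theorem both_of_good2 (hR : StRGlue2) (hV : StRGVal2) {h : ℕ} {H : Fin h → Fin h → ℕ}
    (hB : Good2 H) (hM : Mono H) : BothEqual H (value H) :=
  fin46 h H (good2_pos hB).1 hM (sq85 _ H (rtight_of_good2 hR hV hB))

/-- four blocks without common symbols are a special case -/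
theorem rglued2_of_rglued {a b m c d l : ℕ} {H : Fin m → Fin l → ℕ} {e₁ : Fin a → Fin m}
    {e₂ : Fin b → Fin m} {g₁ : Fin c → Fin l} {g₂ : Fin d → Fin l}
    (hG : RGlued H e₁ e₂ g₁ g₂) : RGlued2 H e₁ e₂ g₁ g₂ := by
  obtain ⟨hs, ht, hd⟩ := hG
  have k1 : ∀ i i' j j', H i (g₁ j) ≠ H i' (g₂ j') := by
    intro i i' j j' hE
    obtain ⟨k, hk⟩ := (hd _ _ _ _ hE).2.1 ⟨j, rfl⟩
    exact ht.2.2.1 k j' hk
  have k2 : ∀ i i' j j', H (e₁ i) j ≠ H (e₂ i') j' := by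
    intro i i' j j' hE
    obtain ⟨k, hk⟩ := (hd _ _ _ _ hE).1.1 ⟨i, rfl⟩
    exact hs.2.2.1 k i' hk
  exact ⟨hs, ht, fun i i' j j' => k1 _ _ _ _, fun i i' j j' => k1 _ _ _ _,
    fun i i' j j' => k2 _ _ _ _, fun i i' j j' => k2 _ _ _ _, Or.inl fun i i' j j' => k2 _ _ _ _⟩

/-- the old class -/
theorem good2_of_good {a h : ℕ} {H : Fin a → Fin h → ℕ} (hB : Good H) : Good2 H := by
  induction hB with
  | base H ha hh h1 h2 => exact Good2.base H ha hh h1 h2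
  | tr H _ ih => exact Good2.tr H ih
  | stack H u v hb hS _ ih => exact Good2.stack H u v hb hS ih
  | glue H e₁ e₂ g₁ g₂ hG hC _ _ ih1 ih2 =>
    exact Good2.glue H e₁ e₂ g₁ g₂ (rglued2_of_rglued hG) hC ih1 ih2

end Pool.Agent.Lib.MP_efec9b_co.BS.G77
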