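import Pool.Agent.Lib.MP_efec9b_co.BS.Good2All77
import Pool.Agent.Lib.MP_efec9b_co.BS.Defs85U

/-!
MP_efec9b_co: every square member of the class `Good3` is tight (assembly from the rows U1 to U4);
the class `Good2` is contained in `Good3`.
-/

set_option autoImplicit false

namespace Pool.Agent.Lib.MP_efec9b_co.BS.G77

open Pool.Agent.Lib.MP_efec9b_co.BS

theorem good3_pos {a h : ℕ} {H : Fin a → Fin h → ℕ} (hR : Good3 H) : 0 < a ∧ 0 < h := by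
  induction hR with
  | base H ha hh _ _ => exact ⟨ha, hh⟩
  | tr H _ ih => exact ⟨ih.2, ih.1⟩
  | stack H H' p u v _ _ _ ih =>
    exact ⟨lt_of_le_of_lt (Nat.zero_le _) (u ⟨0, ih.1⟩).2, ih.2⟩
  | glue H e₁ e₂ g₁ g₂ ρ₁ ρ₂ σ₁ σ₂ B₁ B₂ _ _ _ ih1 _ =>
    exact ⟨lt_of_le_of_lt (Nat.zero_le _) (e₁ ⟨0, ih1.1⟩).2,
      lt_of_le_of_lt (Nat.zero_le _) (g₁ ⟨0, ih1.2⟩).2⟩

theorem rtight_of_good3 (hS : StStack3) (hW : StVStack3) (hR : StGlue3) (hV : StVGlue3)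
    {a h : ℕ} {H : Fin a → Fin h → ℕ} (hG : Good3 H) : RTight H := by
  induction hG with
  | base H ha hh h1 h2 => exact rbase84 _ _ H ha hh h1 h2
  | tr H _ ih => exact rtr85 _ _ H ih
  | @stack a b m h H H' p u v hb hT hB ih =>
    obtain ⟨ha, hh⟩ := good3_pos hB
    have h3 := hS a b m h H H' p u v _ ha hb hh hT (rvalue_nonneg _) ih
    unfold RTight
    rw [hW a b m h H H' p u v ha hb hh hT]
    exact h3
  | @glue a b m c d l H e₁ e₂ g₁ g₂ ρ₁ ρ₂ σ₁ σ₂ B₁ B₂ hG hB1 hB2 ih1 ih2 =>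
    obtain ⟨ha, hc⟩ := good3_pos hB1
    obtain ⟨hb, hd⟩ := good3_pos hB2
    have h3 := hR a b m c d l H e₁ e₂ g₁ g₂ ρ₁ ρ₂ σ₁ σ₂ B₁ B₂ _ _ ha hb hc hd hG
      (rvalue_nonneg _) (rvalue_nonneg _) ih1 ih2
    unfold RTight
    rw [hV a b m c d l H e₁ e₂ g₁ g₂ ρ₁ ρ₂ σ₁ σ₂ B₁ B₂ ha hb hc hd hG]
    exact h3

theorem both_of_good3 (hS : StStack3) (hW : StVStack3) (hR : StGlue3) (hV : StVGlue3)
    {h : ℕ} {H : Fin h → Fin h → ℕ} (hB : Good3 H) (hM : Mono H) : BothEqual H (value H) :=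
  fin46 h H (good3_pos hB).1 hM (sq85 _ H (rtight_of_good3 hS hW hR hV hB))

/-- one class: the old stacking rule -/
theorem stacked3_of_stacked {a b m h : ℕ} {H : Fin m → Fin h → ℕ} {u : Fin a → Fin m}
    {v : Fin b → Fin m} (hS : Stacked H u v) :
    Stacked3 H (fun i => H (u i)) (fun _ => 0) u v := by
  obtain ⟨h1, h2, h3⟩ := hS
  exact ⟨h1, h2, fun _ _ _ _ _ => rfl, fun _ _ _ _ => ⟨fun h => ⟨h, rfl⟩, fun h => h.1⟩,
    fun j j' _ h => h3 j j' h⟩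

/-- one class: the old gluing rule -/
theorem glued3_of_rglued2 {a b m c d l : ℕ} {H : Fin m → Fin l → ℕ} {e₁ : Fin a → Fin m}
    {e₂ : Fin b → Fin m} {g₁ : Fin c → Fin l} {g₂ : Fin d → Fin l}
    (hG : RGlued2 H e₁ e₂ g₁ g₂) (hC : RCompat H e₁ e₂ g₁ g₂) :
    Glued3 H e₁ e₂ g₁ g₂ (fun _ => 0) (fun _ => 0) (fun _ => 0) (fun _ => 0)
      (fun i j => H (e₁ i) (g₁ j)) (fun i j => H (e₂ i) (g₂ j)) := by
  obtain ⟨c1, c2, c3, c4⟩ := hC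
  exact ⟨hG, fun _ _ _ _ _ => ⟨rfl, rfl⟩, fun _ _ _ _ _ => ⟨rfl, rfl⟩,
    fun _ _ _ _ => ⟨fun h => ⟨h, rfl, rfl⟩, fun h => h.1⟩,
    fun _ _ _ _ => ⟨fun h => ⟨h, rfl, rfl⟩, fun h => h.1⟩,
    fun i i' h => c1 i i' fun j => congrFun h j, fun i i' h => c2 i i' fun j => congrFun h j,
    c3, c4⟩

/-- the old class -/
theorem good3_of_good2 {a h : ℕ} {H : Fin a → Fin h → ℕ} (hB : Good2 H) : Good3 H := by
  induction hB with
  | base H ha hh h1 h2 => exact Good3.base H ha hh h1 h2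
  | tr H _ ih => exact Good3.tr H ih
  | stack H u v hb hS _ ih =>
    exact Good3.stack H (fun i => H (u i)) (fun _ => 0) u v hb (stacked3_of_stacked hS) ih
  | glue H e₁ e₂ g₁ g₂ hG hC _ _ ih1 ih2 =>
    exact Good3.glue H e₁ e₂ g₁ g₂ (fun _ => 0) (fun _ => 0) (fun _ => 0) (fun _ => 0) _ _
      (glued3_of_rglued2 hG hC) ih1 ih2

end Pool.Agent.Lib.MP_efec9b_co.BS.G77
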