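import Pool.Agent.Lib.MP_efec9b_co.BS.All85
import Pool.Agent.Lib.MP_efec9b_co.BS.RBASE84
import Pool.Agent.Lib.MP_efec9b_co.BS.RVAL81
import Pool.Agent.Lib.MP_efec9b_co.BS.Sq85
import Pool.Agent.Lib.MP_efec9b_co.BS.STACK44
import Pool.Agent.Lib.MP_efec9b_co.BS.RGLUE44
import Pool.Agent.Lib.MP_efec9b_co.BS.RGVAL81
import Pool.Agent.Lib.MP_efec9b_co.BS.ONEROW84

/-!
MP_efec9b_co: every square member of the class `Good` is tight (assembly); the old class is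
contained in `Good`.
-/

set_option autoImplicit false

namespace Pool.Agent.Lib.MP_efec9b_co.BS.G77

open Pool.Agent.Lib.MP_efec9b_co.BS

theorem good_pos {a h : ℕ} {H : Fin a → Fin h → ℕ} (hR : Good H) : 0 < a ∧ 0 < h := by
  induction hR with
  | base H ha hh _ _ => exact ⟨ha, hh⟩
  | tr H _ ih => exact ⟨ih.2, ih.1⟩
  | stack H u v _ _ _ ih =>
    exact ⟨lt_of_le_of_lt (Nat.zero_le _) (u ⟨0, ih.1⟩).2, ih.2⟩
  | glue H e₁ e₂ g₁ g₂ _ _ _ _ ih1 _ =>
    exact ⟨lt_of_le_of_lt (Nat.zero_le _) (e₁ ⟨0, ih1.1⟩).2,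
      lt_of_le_of_lt (Nat.zero_le _) (g₁ ⟨0, ih1.2⟩).2⟩

theorem rtight_of_good {a h : ℕ} {H : Fin a → Fin h → ℕ} (hR : Good H) : RTight H := by
  induction hR with
  | base H ha hh h1 h2 => exact rbase84 _ _ H ha hh h1 h2
  | tr H _ ih => exact rtr85 _ _ H ih
  | @stack a b m h H u v hb hS hB ih =>
    obtain ⟨ha, hh⟩ := good_pos hB
    have h3 := stack44 a b m h H u v _ ha hb hh hS (rvalue_nonneg _) ih
    unfold RTight
    rw [rval81 a b m h H u v ha hb hh hS]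
    exact h3
  | @glue a b m c d l H e₁ e₂ g₁ g₂ hG hC hB1 hB2 ih1 ih2 =>
    obtain ⟨ha, hc⟩ := good_pos hB1
    obtain ⟨hb, hd⟩ := good_pos hB2
    have h3 := rglue44 a b m c d l H e₁ e₂ g₁ g₂ _ _ ha hb hc hd hG (rvalue_nonneg _)
      (rvalue_nonneg _) ih1 ih2
    unfold RTight
    rw [rgval81 a b m c d l H e₁ e₂ g₁ g₂ ha hb hc hd hG hC]
    exact h3

theorem both_of_good {h : ℕ} {H : Fin h → Fin h → ℕ} (hB : Good H) (hM : Mono H) :
    BothEqual H (value H) :=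
  fin46 h H (good_pos hB).1 hM (sq85 _ H (rtight_of_good hB))

/-- the old class -/
theorem good_of_built {h : ℕ} {H : Fin h → Fin h → ℕ} (hB : Built H) : Good H := by
  induction hB with
  | base H hh h1 h2 => exact Good.base H hh hh h1 h2
  | tr H _ ih => exact Good.tr H ih
  | glue H e₁ e₂ g₁ g₂ hG hC _ _ ih1 ih2 => exact Good.glue H e₁ e₂ g₁ g₂ hG hC ih1 ih2

end Pool.Agent.Lib.MP_efec9b_co.BS.G77
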