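import Pool.Agent.Lib.MP_efec9b_co.BS.ONEROW84

/-!
MP_efec9b_co: matrices with many distinct symbols.
-/

set_option autoImplicit false

namespace Pool.Agent.Lib.MP_efec9b_co.BS

open Finset BU77

/-- number of distinct symbols of `H` -/
def nsym {h : ℕ} (H : Fin h → Fin h → ℕ) : ℕ :=
  (Finset.univ.image fun p : Fin h × Fin h => H p.1 p.2).card

/-- some row has symbols which occur in no other cell -/
theorem lonely_row {h : ℕ} (H : Fin h → Fin h → ℕ) (hk : 2 * h ^ 2 < 2 * nsym H + h) :
    ∃ i₀, ∀ j i j', H i j' = H i₀ j → i = i₀ ∧ j' = j := by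
  classical
  by_contra hc
  push Not at hc
  -- every row has a bad cell
  choose j hj using hc
  set f : Fin h × Fin h → ℕ := fun p => H p.1 p.2 with hf
  set bad : Finset (Fin h × Fin h) := univ.filter fun p => ∃ q, q ≠ p ∧ f q = f p with hbad
  have h1 : h ≤ bad.card := by
    have : (univ.image fun i : Fin h => (i, j i)) ⊆ bad := by
      intro p hp
      obtain ⟨i, -, rfl⟩ := mem_image.1 hp
      obtain ⟨i', j', h2, h3⟩ := hj i
      refine mem_filter.2 ⟨mem_univ _, (i', j'), ?_, h2⟩
      intro he
      exact h3 (congrArg Prod.fst he) (congrArg Prod.snd he)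
    have h2 := card_le_card this
    rwa [card_image_of_injective _ (fun a b hab => congrArg Prod.fst hab), card_univ,
      Fintype.card_fin] at h2
  -- symbols of bad cells: at most half as many as bad cells
  have h2 : 2 * (bad.image f).card ≤ bad.card := by
    have e : bad.card = ∑ s ∈ bad.image f, (bad.filter fun p => f p = s).card :=
      card_eq_sum_card_image f bad
    rw [e, mul_comm, ← smul_eq_mul]
    refine card_nsmul_le_sum _ _ _ fun s hs => ?_
    obtain ⟨p, hp, rfl⟩ := mem_image.1 hs
    obtain ⟨-, q, hq, hqp⟩ := mem_filter.1 hp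
    have hqb : q ∈ bad := mem_filter.2 ⟨mem_univ _, p, hq.symm, hqp.symm⟩
    have : ({p, q} : Finset (Fin h × Fin h)) ⊆ bad.filter fun x => f x = f p := by
      intro x hx
      rw [mem_insert, mem_singleton] at hx
      rcases hx with rfl | rfl
      · exact mem_filter.2 ⟨hp, rfl⟩
      · exact mem_filter.2 ⟨hqb, hqp⟩
    have h3 := card_le_card this
    rwa [card_pair hq.symm] at h3
  have h3 : nsym H ≤ (bad.image f).card + (univ \ bad : Finset (Fin h × Fin h)).card := by
    have : (univ.image f) ⊆ bad.image f ∪ (univ \ bad).image f := by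
      intro s hs
      obtain ⟨p, -, rfl⟩ := mem_image.1 hs
      by_cases hp : p ∈ bad
      · exact mem_union_left _ (mem_image_of_mem f hp)
      · exact mem_union_right _ (mem_image_of_mem f (mem_sdiff.2 ⟨mem_univ _, hp⟩))
    exact (card_le_card this).trans ((card_union_le _ _).trans
      (Nat.add_le_add_left card_image_le _))
  have h4 : (univ \ bad : Finset (Fin h × Fin h)).card + bad.card = h ^ 2 := by
    rw [card_sdiff_add_card_eq_card (subset_univ _), card_univ, Fintype.card_prod,
      Fintype.card_fin, sq]
  omega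

theorem many_row {h : ℕ} (H : Fin h → Fin h → ℕ) (hh : 0 < h)
    (hk : 2 * h ^ 2 < 2 * nsym H + h) : Good H ∧ Function.Injective (fun i => H i) ∧
      Function.Injective fun j i => H i j := by
  obtain ⟨i₀, h0⟩ := lonely_row H hk
  have hcol : Function.Injective fun j i => H i j := by
    intro j j' hjj
    exact ((h0 j' i₀ j (congrFun hjj i₀)).2)
  refine ⟨?_, ?_, hcol⟩
  · refine onerow84 h h H i₀ hh ?_ ?_
    · intro i j j' hi he
      exact hi (h0 j' i j he).1
    · intro j j' hjj i
      rw [(h0 j' i₀ j hjj).2]
  · -- a lonely column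
    have hk' : 2 * h ^ 2 < 2 * nsym (fun i j => H j i) + h := by
      have : nsym (fun i j => H j i) = nsym H := by
        unfold nsym
        congr 1
        ext s
        simp only [mem_image, mem_univ, true_and, Prod.exists]
        exact exists_comm
      rw [this]
      exact hk
    obtain ⟨j₀, h1⟩ := lonely_row (fun i j => H j i) hk'
    intro i i' hii
    exact (h1 i' j₀ i (congrFun hii j₀)).2

theorem value_inj {h : ℕ} (H : Fin h → Fin h → ℕ) (h1 : Function.Injective fun i => H i)
    (h2 : Function.Injective fun j i => H i j) :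
    value H = ((h.factorial : ℝ) / (h : ℝ) ^ h) ^ 2 := by
  unfold value
  rw [wordMax_inj _ h1, wordMax_inj _ h2]
  ring

end Pool.Agent.Lib.MP_efec9b_co.BS
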