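import Pool.Agent.Lib.MP_efec9b_co.BS.Defs85R
import Pool.Agent.Lib.MP_efec9b_co.Lag77

/-!
MP_efec9b_co: the Lagrangian of the columns of a rectangular matrix (helper77).
-/

set_option autoImplicit false

namespace Pool.Agent.Lib.MP_efec9b_co.BS

/-- if `K` is a set of symbols any two of which occur together in some column of `H`, then among
the columns with all entries in `K` no symbol occurs in two different rows (as vectors) of `H` -/
def RClique {a h : ℕ} (H : Fin a → Fin h → ℕ) : Prop :=
  ∀ K : Set ℕ, (∀ s ∈ K, ∀ t ∈ K, s ≠ t → ∃ j i i', H i j = s ∧ H i' j = t) →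
    ∀ j j' i i', (∀ k, H k j ∈ K) → (∀ k, H k j' ∈ K) → H i j = H i' j' → H i = H i'

namespace R77

open Finset
open Pool.Agent.Lib.MP_efec9b_co.BU77

/-- the distinct columns of `H` -/
def rcols {a h : ℕ} (H : Fin a → Fin h → ℕ) : Finset (Fin a → ℕ) :=
  Finset.univ.image fun j i => H i j

variable {a h : ℕ} (H : Fin a → Fin h → ℕ)

theorem mem_rcols {v : Fin a → ℕ} : v ∈ rcols H ↔ ∃ j, (fun i => H i j) = v := by
  unfold rcols
  rw [mem_image]
  constructor
  · rintro ⟨j, -, hj⟩
    exact ⟨j, hj⟩
  · rintro ⟨j, hj⟩
    exact ⟨j, mem_univ _, hj⟩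

theorem rlag_clique (hh : 0 < a) (hK : RClique H) (K : Finset ℕ)
    (hcl : ∀ s ∈ K, ∀ t ∈ K, s ≠ t → ∃ j i i', H i j = s ∧ H i' j = t) (x : ℕ → ℝ)
    (hx : ∀ s, 0 ≤ x s) (hx0 : ∀ s, s ∉ K → x s = 0) (hsum : ∑ s ∈ K, x s ≤ 1) :
    ∑ v ∈ rcols H, ∏ i, x (v i) ≤ ∏ i, ((mu (fun i => H i) (H i) : ℝ) / a) := by
  classical
  have hR : (0 : ℝ) < a := by exact_mod_cast hh
  set Kb : (Fin h → ℕ) → Finset ℕ := fun b =>
    K.filter fun s => ∃ j, (∀ i, H i j ∈ K) ∧ b j = s with hKb
  set Y : (Fin h → ℕ) → ℝ := fun b => ∑ s ∈ Kb b, x s with hY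
  have hY0 : ∀ b, 0 ≤ Y b := fun b => sum_nonneg fun s _ => hx s
  have h1 : ∑ v ∈ rcols H, ∏ i, x (v i) ≤ ∏ i, Y (H i) := by
    have e : ∏ i, Y (H i) = ∑ p ∈ Fintype.piFinset (fun i => Kb (H i)), ∏ i, x (p i) := by
      rw [hY]
      exact prod_univ_sum (fun i => Kb (H i)) (fun _ s => x s)
    rw [e]
    have e2 : ∑ v ∈ rcols H, ∏ i, x (v i) =
        ∑ v ∈ (rcols H).filter (fun v => ∀ i, v i ∈ K), ∏ i, x (v i) := by
      rw [sum_filter]
      refine sum_congr rfl fun v _ => ?_
      by_cases hv : ∀ i, v i ∈ K
      · rw [if_pos hv]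
      · rw [if_neg hv]
        push Not at hv
        obtain ⟨i, hi⟩ := hv
        exact prod_eq_zero (mem_univ i) (hx0 _ hi)
    rw [e2]
    refine sum_le_sum_of_subset_of_nonneg ?_ fun p _ _ => prod_nonneg fun i _ => hx _
    intro v hv
    rw [mem_filter, mem_rcols] at hv
    obtain ⟨⟨j, rfl⟩, hvK⟩ := hv
    rw [Fintype.mem_piFinset]
    intro i
    rw [hKb]
    rw [mem_filter]
    exact ⟨hvK i, j, hvK, rfl⟩
  have h2 : ∑ b ∈ univ.image (fun i => H i), Y b ≤ 1 := by
    refine le_trans ?_ hsum
    rw [hY]
    rw [← sum_biUnion]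
    · refine sum_le_sum_of_subset_of_nonneg ?_ fun s _ _ => hx s
      intro s hs
      rw [mem_biUnion] at hs
      obtain ⟨b, -, hb⟩ := hs
      exact (mem_filter.1 hb).1
    · intro b hb b' hb' hbb
      rw [Function.onFun, disjoint_left]
      intro s hs hs'
      apply hbb
      rw [mem_coe, mem_image] at hb hb'
      obtain ⟨i, -, rfl⟩ := hb
      obtain ⟨i', -, rfl⟩ := hb'
      obtain ⟨-, j, hj, hs1⟩ := mem_filter.1 hs
      obtain ⟨-, j', hj', hs2⟩ := mem_filter.1 hs'
      exact hK (K : Set ℕ) hcl j j' i i' hj hj' (hs1.trans hs2.symm)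
  have h3 := amgm hh (fun i => Y (H i) * a / mu (fun i => H i) (H i)) (fun i => by
    have := hY0 (H i)
    positivity)
  have e3 : (∑ i, Y (H i) * a / mu (fun i => H i) (H i)) / (a : ℝ) =
      ∑ b ∈ univ.image (fun i => H i), Y b := by
    rw [← fib_sum (fun i => H i) Y, sum_div]
    refine sum_congr rfl fun i _ => ?_
    field_simp
  rw [e3] at h3
  have h4 : (∑ b ∈ univ.image (fun i => H i), Y b) ^ a ≤ 1 :=
    pow_le_one₀ (sum_nonneg fun b _ => hY0 b) h2
  have h5 : ∏ i, Y (H i) = (∏ i, (Y (H i) * a / mu (fun i => H i) (H i))) *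
      ∏ i, ((mu (fun i => H i) (H i) : ℝ) / a) := by
    rw [← prod_mul_distrib]
    refine prod_congr rfl fun i _ => ?_
    have hm : (0 : ℝ) < mu (fun i => H i) (H i) := by
      exact_mod_cast mu_pos (fun i => H i) i
    field_simp
  rw [h5] at h1
  refine le_trans h1 ?_
  have h6 : 0 ≤ ∏ i, ((mu (fun i => H i) (H i) : ℝ) / a) := by positivity
  calc _ ≤ 1 * ∏ i, ((mu (fun i => H i) (H i) : ℝ) / a) :=
        mul_le_mul_of_nonneg_right (h3.trans h4) h6
    _ = _ := one_mul _

theorem rlag (hh : 0 < a) (hK : RClique H) : ∀ (N : ℕ) (K : Finset ℕ), K.card = N →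
    ∀ x : ℕ → ℝ, (∀ s, 0 ≤ x s) → (∀ s, s ∉ K → x s = 0) → ∑ s ∈ K, x s ≤ 1 →
    ∑ v ∈ rcols H, ∏ i, x (v i) ≤ ∏ i, ((mu (fun i => H i) (H i) : ℝ) / a) := by
  classical
  intro N
  induction N with
  | zero =>
    intro K hK0 x hx hx0 hsum
    refine rlag_clique H hh hK K ?_ x hx hx0 hsum
    intro s hs
    rw [card_eq_zero] at hK0
    rw [hK0] at hs
    exact absurd hs (notMem_empty s)
  | succ N ih =>
    intro K hKN x hx hx0 hsum
    by_cases hcl : ∀ s ∈ K, ∀ t ∈ K, s ≠ t → ∃ j i i', H i j = s ∧ H i' j = t
    · exact rlag_clique H hh hK K hcl x hx hx0 hsum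
    · push Not at hcl
      obtain ⟨s, hs, t, ht, hst, hno⟩ := hcl
      have hcs : (K.erase s).card = N := by rw [card_erase_of_mem hs]; omega
      have hct : (K.erase t).card = N := by rw [card_erase_of_mem ht]; omega
      set T := x s + x t with hT
      rcases (add_nonneg (hx s) (hx t)).eq_or_lt' with hT0 | hT0
      · have hs0 : x s = 0 := by
          have := hx t
          have := hx s
          linarith
        refine ih (K.erase s) hcs x hx ?_ ?_
        · intro r hr
          by_cases hrs : r = s
          · rw [hrs]; exact hs0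
          · exact hx0 r fun hrK => hr (mem_erase.2 ⟨hrs, hrK⟩)
        · have := sum_erase_add K x hs
          linarith [hx s]
      · have hTne : x s + x t ≠ 0 := hT0.ne'
        set x1 : ℕ → ℝ := fun r => if r = t then 0 else if r = s then T else x r with hx1
        set x2 : ℕ → ℝ := fun r => if r = s then 0 else if r = t then T else x r with hx2
        have hT' : 0 ≤ T := hT0.le
        have n1 : ∀ r, 0 ≤ x1 r := by
          intro r
          rw [hx1]
          dsimp only
          split_ifs
          · exact le_rfl
          · exact hT'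
          · exact hx r
        have n2 : ∀ r, 0 ≤ x2 r := by
          intro r
          rw [hx2]
          dsimp only
          split_ifs
          · exact le_rfl
          · exact hT'
          · exact hx r
        have hts : t ≠ s := hst.symm
        have sum1 : ∑ r ∈ K.erase t, x1 r ≤ 1 := by
          have hs' : s ∈ K.erase t := mem_erase.2 ⟨hst, hs⟩
          rw [← sum_erase_add _ _ hs']
          have e1 : ∑ r ∈ (K.erase t).erase s, x1 r = ∑ r ∈ (K.erase t).erase s, x r := by
            refine sum_congr rfl fun r hr => ?_
            rw [mem_erase, mem_erase] at hr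
            rw [hx1]
            dsimp only
            rw [if_neg hr.2.1, if_neg hr.1]
          have e2 : x1 s = T := by
            rw [hx1]
            dsimp only
            rw [if_neg hst, if_pos rfl]
          rw [e1, e2]
          have e3 := sum_erase_add (K.erase t) x hs'
          have e4 := sum_erase_add K x ht
          linarith
        have sum2 : ∑ r ∈ K.erase s, x2 r ≤ 1 := by
          have ht' : t ∈ K.erase s := mem_erase.2 ⟨hts, ht⟩
          rw [← sum_erase_add _ _ ht']
          have e1 : ∑ r ∈ (K.erase s).erase t, x2 r = ∑ r ∈ (K.erase s).erase t, x r := by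
            refine sum_congr rfl fun r hr => ?_
            rw [mem_erase, mem_erase] at hr
            rw [hx2]
            dsimp only
            rw [if_neg hr.2.1, if_neg hr.1]
          have e2 : x2 t = T := by
            rw [hx2]
            dsimp only
            rw [if_neg hts, if_pos rfl]
          rw [e1, e2]
          have e3 := sum_erase_add (K.erase s) x ht'
          have e4 := sum_erase_add K x hs
          linarith
        have v1 := ih (K.erase t) hct x1 n1 (by
          intro r hr
          rw [hx1]
          dsimp only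
          by_cases hrt : r = t
          · rw [if_pos hrt]
          · rw [if_neg hrt]
            have hrK : r ∉ K := fun hrK => hr (mem_erase.2 ⟨hrt, hrK⟩)
            have hrs : r ≠ s := fun hrs => hrK (hrs ▸ hs)
            rw [if_neg hrs]
            exact hx0 r hrK) sum1
        have v2 := ih (K.erase s) hcs x2 n2 (by
          intro r hr
          rw [hx2]
          dsimp only
          by_cases hrs : r = s
          · rw [if_pos hrs]
          · rw [if_neg hrs]
            have hrK : r ∉ K := fun hrK => hr (mem_erase.2 ⟨hrs, hrK⟩)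
            have hrt : r ≠ t := fun hrt => hrK (hrt ▸ ht)
            rw [if_neg hrt]
            exact hx0 r hrK) sum2
        have key : ∀ v ∈ rcols H, ∏ i, x (v i) ≤
            x s / T * ∏ i, x1 (v i) + x t / T * ∏ i, x2 (v i) := by
          intro v hv
          obtain ⟨j, hj⟩ := (mem_rcols H).1 hv
          have hns : ∀ i i', v i = s → v i' = t → False := by
            intro i i' h1 h2
            rw [← hj] at h1 h2
            exact hno j i i' h1 h2
          have p1 : 0 ≤ ∏ i, x1 (v i) := prod_nonneg fun i _ => n1 _
          have p2 : 0 ≤ ∏ i, x2 (v i) := prod_nonneg fun i _ => n2 _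
          have q1 : 0 ≤ x s / T := div_nonneg (hx s) hT'
          have q2 : 0 ≤ x t / T := div_nonneg (hx t) hT'
          by_cases hvs : ∃ i, v i = s
          · obtain ⟨i0, hi0⟩ := hvs
            have hnt : ∀ i, v i ≠ t := fun i hi => hns i0 i hi0 hi
            have m1 : ∏ i ∈ univ.erase i0, x (v i) ≤ ∏ i ∈ univ.erase i0, x1 (v i) := by
              refine prod_le_prod (fun i _ => hx _) fun i _ => ?_
              rw [hx1]
              dsimp only
              rw [if_neg (hnt i)]
              split_ifs with hs1
              · rw [hs1, hT]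
                linarith [hx t]
              · exact le_rfl
            have m2 : ∏ i, x (v i) = x s * ∏ i ∈ univ.erase i0, x (v i) := by
              rw [← mul_prod_erase univ (fun i => x (v i)) (mem_univ i0), hi0]
            have m3 : ∏ i, x1 (v i) = T * ∏ i ∈ univ.erase i0, x1 (v i) := by
              rw [← mul_prod_erase univ (fun i => x1 (v i)) (mem_univ i0), hi0]
              congr 1
              rw [hx1]
              dsimp only
              rw [if_neg hst, if_pos rfl]
            have m4 : x s / T * ∏ i, x1 (v i) = x s * ∏ i ∈ univ.erase i0, x1 (v i) := by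
              rw [m3, ← mul_assoc, div_mul_cancel₀ _ hTne]
            rw [m4, m2]
            have := mul_le_mul_of_nonneg_left m1 (hx s)
            have := mul_nonneg q2 p2
            linarith
          · by_cases hvt : ∃ i, v i = t
            · obtain ⟨i0, hi0⟩ := hvt
              have hnt : ∀ i, v i ≠ s := fun i hi => hns i i0 hi hi0
              have m1 : ∏ i ∈ univ.erase i0, x (v i) ≤ ∏ i ∈ univ.erase i0, x2 (v i) := by
                refine prod_le_prod (fun i _ => hx _) fun i _ => ?_
                rw [hx2]
                dsimp only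
                rw [if_neg (hnt i)]
                split_ifs with hs1
                · rw [hs1, hT]
                  linarith [hx s]
                · exact le_rfl
              have m2 : ∏ i, x (v i) = x t * ∏ i ∈ univ.erase i0, x (v i) := by
                rw [← mul_prod_erase univ (fun i => x (v i)) (mem_univ i0), hi0]
              have m3 : ∏ i, x2 (v i) = T * ∏ i ∈ univ.erase i0, x2 (v i) := by
                rw [← mul_prod_erase univ (fun i => x2 (v i)) (mem_univ i0), hi0]
                congr 1
                rw [hx2]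
                dsimp only
                rw [if_neg hts, if_pos rfl]
              have m4 : x t / T * ∏ i, x2 (v i) = x t * ∏ i ∈ univ.erase i0, x2 (v i) := by
                rw [m3, ← mul_assoc, div_mul_cancel₀ _ hTne]
              rw [m4, m2]
              have := mul_le_mul_of_nonneg_left m1 (hx t)
              have := mul_nonneg q1 p1
              linarith
            · push Not at hvs hvt
              have m1 : ∏ i, x1 (v i) = ∏ i, x (v i) := by
                refine prod_congr rfl fun i _ => ?_
                rw [hx1]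
                dsimp only
                rw [if_neg (hvt i), if_neg (hvs i)]
              have m2 : ∏ i, x2 (v i) = ∏ i, x (v i) := by
                refine prod_congr rfl fun i _ => ?_
                rw [hx2]
                dsimp only
                rw [if_neg (hvs i), if_neg (hvt i)]
              rw [m1, m2, ← add_mul, ← add_div, div_self hTne, one_mul]
        have tot := sum_le_sum key
        rw [sum_add_distrib, ← mul_sum, ← mul_sum] at tot
        refine tot.trans ?_
        have q1 : 0 ≤ x s / T := div_nonneg (hx s) hT'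
        have q2 : 0 ≤ x t / T := div_nonneg (hx t) hT'
        have w1 := mul_le_mul_of_nonneg_left v1 q1
        have w2 := mul_le_mul_of_nonneg_left v2 q2
        have e : x s / T + x t / T = 1 := by rw [← add_div]; exact div_self hTne
        calc _ ≤ x s / T * ∏ i, ((mu (fun i => H i) (H i) : ℝ) / a) +
              x t / T * ∏ i, ((mu (fun i => H i) (H i) : ℝ) / a) := add_le_add w1 w2
          _ = _ := by rw [← add_mul, e, one_mul]

end R77

theorem rlag_of_rclique77 {a h : ℕ} (H : Fin a → Fin h → ℕ) (ha : 0 < a) (hK : RClique H) :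
    RLag H :=
  fun K x hx hx0 hsum => R77.rlag H ha hK K.card K rfl x hx hx0 hsum

end Pool.Agent.Lib.MP_efec9b_co.BS
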