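import Pool.Agent.Lib.MP_efec9b_co.BS.Defs85S
import Pool.Agent.Lib.MP_efec9b_co.BS.RLag77
import Pool.Agent.Lib.MP_efec9b_co.BS.Many85

/-!
MP_efec9b_co: `a × b` matrices with fewer than `min a b` coincidences of symbols.
-/

set_option autoImplicit false

namespace Pool.Agent.Lib.MP_efec9b_co.BS

open Finset BU77

/-- the symbols in the columns of `C` -/
def symC {a b : ℕ} (H : Fin a → Fin b → ℕ) (C : Finset (Fin b)) : Finset ℕ :=
  ((univ : Finset (Fin a)) ×ˢ C).image fun p => H p.1 p.2

theorem mem_symC {a b : ℕ} {H : Fin a → Fin b → ℕ} {C : Finset (Fin b)} {s : ℕ} :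
    s ∈ symC H C ↔ ∃ i, ∃ c ∈ C, H i c = s := by
  unfold symC
  rw [mem_image]
  constructor
  · rintro ⟨p, hp, rfl⟩
    exact ⟨p.1, p.2, (mem_product.1 hp).2, rfl⟩
  · rintro ⟨i, c, hc, rfl⟩
    exact ⟨(i, c), mem_product.2 ⟨mem_univ _, hc⟩, rfl⟩

theorem card_symC_le {a b : ℕ} (H : Fin a → Fin b → ℕ) (C : Finset (Fin b)) :
    (symC H C).card ≤ a * C.card := by
  refine card_image_le.trans ?_
  rw [card_product, card_univ, Fintype.card_fin]

/-- row `i₁` is superfluous -/
theorem card_symC_row {a b : ℕ} (H : Fin a → Fin b → ℕ) (C : Finset (Fin b)) (i₁ : Fin a)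
    (h : ∀ c ∈ C, ∃ i, i ≠ i₁ ∧ H i c = H i₁ c) : (symC H C).card + C.card ≤ a * C.card := by
  have h1 : symC H C ⊆ ((univ.erase i₁ : Finset (Fin a)) ×ˢ C).image fun p => H p.1 p.2 := by
    intro s hs
    obtain ⟨i, c, hc, rfl⟩ := mem_symC.1 hs
    by_cases hi : i = i₁
    · subst hi
      obtain ⟨i', hi', he⟩ := h c hc
      exact mem_image.2 ⟨(i', c), mem_product.2 ⟨mem_erase.2 ⟨hi', mem_univ _⟩, hc⟩, he⟩
    · exact mem_image.2 ⟨(i, c), mem_product.2 ⟨mem_erase.2 ⟨hi, mem_univ _⟩, hc⟩, rfl⟩
  have h2 := (card_le_card h1).trans card_image_le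
  rw [card_product, card_erase_of_mem (mem_univ _), card_univ, Fintype.card_fin] at h2
  have ha : 1 ≤ a := i₁.pos
  calc (symC H C).card + C.card ≤ (a - 1) * C.card + C.card := Nat.add_le_add_right h2 _
    _ = a * C.card := by
      rw [Nat.sub_mul, one_mul]
      exact Nat.sub_add_cancel (Nat.le_mul_of_pos_left _ ha)

/-- column `j₁` is superfluous -/
theorem card_symC_col {a b : ℕ} (H : Fin a → Fin b → ℕ) (j₁ : Fin b)
    (h : ∀ k, ∃ k' j, j ≠ j₁ ∧ H k' j = H k j₁) : (symC H univ).card + a ≤ a * b := by
  have h1 : symC H univ ⊆ symC H (univ.erase j₁) := by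
    intro s hs
    obtain ⟨i, c, -, rfl⟩ := mem_symC.1 hs
    by_cases hi : c = j₁
    · subst hi
      obtain ⟨k', j, hj, he⟩ := h i
      exact mem_symC.2 ⟨k', j, mem_erase.2 ⟨hj, mem_univ _⟩, he⟩
    · exact mem_symC.2 ⟨i, c, mem_erase.2 ⟨hi, mem_univ _⟩, rfl⟩
  have h2 := (card_le_card h1).trans (card_symC_le H _)
  rw [card_erase_of_mem (mem_univ _), card_univ, Fintype.card_fin] at h2
  have hb : 1 ≤ b := j₁.pos
  calc (symC H univ).card + a ≤ a * (b - 1) + a := Nat.add_le_add_right h2 _
    _ = a * b := by
      rw [Nat.mul_sub, mul_one]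
      exact Nat.sub_add_cancel (Nat.le_mul_of_pos_right _ hb)

/-- no symbol twice in a column, fewer than `a` coincidences: the clique condition -/
theorem rclique_few {a b : ℕ} (H : Fin a → Fin b → ℕ)
    (hcol : ∀ j i i', H i j = H i' j → i = i') (hs : a * b < (symC H univ).card + a) :
    RClique H := by
  classical
  intro K hK j j' i i' hj hj' he
  by_cases hjj : j = j'
  · subst hjj
    rw [hcol j i i' he]
  · exfalso
    have h0 := card_symC_col H j' ?_
    · omega
    · intro k
      by_cases h1 : ∃ k', H k' j = H k j'
      · obtain ⟨k', hk'⟩ := h1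
        exact ⟨k', j, hjj, hk'⟩
      · -- some symbol of column `j` is not in column `j'`
        have h2 : ∃ l, ∀ l', H l' j' ≠ H l j := by
          by_contra hc
          push Not at hc
          have h3 : (univ.image fun l => H l j) ⊆ univ.image fun l => H l j' := by
            intro s hs'
            obtain ⟨l, -, rfl⟩ := mem_image.1 hs'
            obtain ⟨l', hl'⟩ := hc l
            exact mem_image.2 ⟨l', mem_univ _, hl'⟩
          have h4 : (univ.image fun l => H l j) = univ.image fun l => H l j' := by
            refine eq_of_subset_of_card_le h3 ?_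
            rw [card_image_of_injective _ (fun x y hxy => hcol j x y hxy),
              card_image_of_injective _ (fun x y hxy => hcol j' x y hxy)]
          have h5 : H k j' ∈ univ.image fun l => H l j := by
            rw [h4]
            exact mem_image.2 ⟨k, mem_univ _, rfl⟩
          obtain ⟨l, -, hl⟩ := mem_image.1 h5
          exact h1 ⟨l, hl⟩
        obtain ⟨l, hl⟩ := h2
        obtain ⟨c, r, r', h6, h7⟩ := hK _ (hj l) _ (hj' k) (fun e => hl k e.symm)
        refine ⟨r', c, ?_, h7⟩
        rintro rfl
        exact hl r h6

/-- the columns divide into the columns of `C` and the other ones -/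
theorem splits_of {b : ℕ} (C D : Finset (Fin b)) (hCD : ∀ c, c ∈ C ∨ c ∈ D)
    (hd : ∀ c, c ∈ C → c ∉ D) :
    Splits (fun k => C.orderEmbOfFin rfl k) (fun k => D.orderEmbOfFin rfl k) := by
  refine ⟨fun x y h => (C.orderEmbOfFin rfl).strictMono h,
    fun x y h => (D.orderEmbOfFin rfl).strictMono h, ?_, ?_⟩
  · intro i j he
    have h1 : C.orderEmbOfFin rfl i = D.orderEmbOfFin rfl j := he
    refine hd _ (C.orderEmbOfFin_mem rfl i) ?_
    rw [h1]
    exact D.orderEmbOfFin_mem rfl j
  · intro k
    rcases hCD k with hk | hk
    · left
      have : k ∈ Set.range (C.orderEmbOfFin rfl) := by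
        rw [C.range_orderEmbOfFin rfl]
        exact hk
      exact this
    · right
      have : k ∈ Set.range (D.orderEmbOfFin rfl) := by
        rw [D.range_orderEmbOfFin rfl]
        exact hk
      exact this

theorem good_few : ∀ (b a : ℕ) (H : Fin a → Fin b → ℕ), 0 < a → 0 < b →
    a * b < (symC H univ).card + a → a * b < (symC H univ).card + b → Good H := by
  classical
  intro b
  induction b using Nat.strong_induction_on with
  | _ b ih =>
    intro a H ha hb hsa hsb
    by_cases hcol : ∀ j i i', H i j = H i' j → i = i'
    · refine Good.base H ha hb ?_ (rlag_of_rclique77 H ha (rclique_few H hcol hsa))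
      intro i i'
      by_cases hi : i = i'
      · left
        rw [hi]
      · right
        intro j he
        exact hi (hcol j i i' he)
    · push Not at hcol
      obtain ⟨c0, i0, i1, he, hne⟩ := hcol
      set P : Finset (Fin b) → Prop := fun C => c0 ∈ C ∧ (symC H C).card + C.card ≤ a * C.card
        with hP
      have hP0 : P {c0} := by
        refine ⟨mem_singleton_self _, card_symC_row H _ i1 ?_⟩
        intro c hc
        rw [mem_singleton] at hc
        subst hc
        exact ⟨i0, hne, he⟩
      obtain ⟨C, hC, hmax⟩ := exists_max_image (univ.filter P) card ⟨{c0}, mem_filter.2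
        ⟨mem_univ _, hP0⟩⟩
      obtain ⟨-, hc0, hPC⟩ := mem_filter.1 hC
      -- no common symbols
      have hdis : ∀ c, c ∉ C → ∀ i, H i c ∉ symC H C := by
        intro c hc i hi
        have h1 : P (insert c C) := by
          refine ⟨mem_insert_of_mem hc0, ?_⟩
          have h2 : symC H (insert c C) ⊆
              symC H C ∪ (univ.erase i).image fun k => H k c := by
            intro s hs
            obtain ⟨k, c', hc', rfl⟩ := mem_symC.1 hs
            rcases mem_insert.1 hc' with rfl | hc'
            · by_cases hk : k = i
              · subst hk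
                exact mem_union_left _ hi
              · exact mem_union_right _ (mem_image.2 ⟨k, mem_erase.2 ⟨hk, mem_univ _⟩, rfl⟩)
            · exact mem_union_left _ (mem_symC.2 ⟨k, c', hc', rfl⟩)
          have h3 := (card_le_card h2).trans (card_union_le _ _)
          have h4 : ((univ.erase i).image fun k => H k c).card ≤ a - 1 := by
            refine card_image_le.trans ?_
            rw [card_erase_of_mem (mem_univ _), card_univ, Fintype.card_fin]
          rw [card_insert_of_notMem hc]
          have h5 : a * (C.card + 1) = a * C.card + a := by ring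
          rw [h5]
          omega
        have h6 := hmax (insert c C) (mem_filter.2 ⟨mem_univ _, h1⟩)
        rw [card_insert_of_notMem hc] at h6
        omega
      set D : Finset (Fin b) := Cᶜ with hD
      have hcard : C.card + D.card = b := by
        have := card_add_card_compl C
        rwa [Fintype.card_fin] at this
      have hun : symC H univ ⊆ symC H C ∪ symC H D := by
        intro s hs
        obtain ⟨i, c, -, rfl⟩ := mem_symC.1 hs
        by_cases hc : c ∈ C
        · exact mem_union_left _ (mem_symC.2 ⟨i, c, hc, rfl⟩)
        · exact mem_union_right _ (mem_symC.2 ⟨i, c, mem_compl.2 hc, rfl⟩)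
      have hun2 := (card_le_card hun).trans (card_union_le _ _)
      have hC2 := card_symC_le H C
      have hab : a * b = a * C.card + a * D.card := by
        calc a * b = a * (C.card + D.card) := congrArg (fun t => a * t) hcard.symm
          _ = a * C.card + a * D.card := mul_add _ _ _
      have hDb : a * D.card < (symC H D).card + D.card := by omega
      have hDa : a * D.card < (symC H D).card + a := by omega
      have hD0 : 0 < D.card := by
        rcases Nat.eq_zero_or_pos D.card with h0 | h0
        · exfalso
          have h1 : (symC H D).card ≤ a * D.card := card_symC_le H D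
          rw [h0] at hDb h1
          omega
        · exact h0
      have hC0 : 0 < C.card := card_pos.2 ⟨c0, hc0⟩
      have hDlt : D.card < b := by omega
      -- the matrix of the columns of `D`
      set u : Fin D.card → Fin b := fun k => D.orderEmbOfFin rfl k with hu
      set v : Fin C.card → Fin b := fun k => C.orderEmbOfFin rfl k with hv
      have hsym : symC (fun i k => H i (u k)) univ = symC H D := by
        ext s
        rw [mem_symC, mem_symC]
        constructor
        · rintro ⟨i, k, -, rfl⟩
          exact ⟨i, u k, D.orderEmbOfFin_mem rfl k, rfl⟩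
        · rintro ⟨i, c, hc, rfl⟩
          have : c ∈ Set.range (D.orderEmbOfFin rfl) := by
            rw [D.range_orderEmbOfFin rfl]
            exact hc
          obtain ⟨k, hk⟩ := this
          exact ⟨i, k, mem_univ _, by rw [hu]; simp only [hk]⟩
      have hgood : Good (fun i k => H i (u k)) := by
        refine ih D.card hDlt a _ ha hD0 ?_ ?_
        · rw [hsym]
          exact hDa
        · rw [hsym]
          exact hDb
      have hst : Stacked (fun j i => H i j) u v := by
        refine ⟨splits_of D C (fun c => ?_) (fun c hc => mem_compl.1 hc), ?_, ?_⟩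
        · by_cases hc : c ∈ C
          · exact Or.inr hc
          · exact Or.inl (mem_compl.2 hc)
        · intro k k' i i' hh
          refine hdis (u k) (mem_compl.1 (D.orderEmbOfFin_mem rfl k)) i ?_
          exact mem_symC.2 ⟨i', v k', C.orderEmbOfFin_mem rfl k', hh.symm⟩
        · intro i i' hii k
          by_cases hi : i = i'
          · rw [hi]
          · exfalso
            have h1 := card_symC_row H D i' ?_
            · omega
            · intro c hc
              have : c ∈ Set.range (D.orderEmbOfFin rfl) := by
                rw [D.range_orderEmbOfFin rfl]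
                exact hc
              obtain ⟨k, rfl⟩ := this
              exact ⟨i, hi, hii k⟩
      have h7 : Good (fun j i => H i j) := Good.stack _ u v hC0 hst (Good.tr _ hgood)
      exact Good.tr _ h7

theorem many2 {h : ℕ} (H : Fin h → Fin h → ℕ)
    (hk : h ^ 2 < (Finset.univ.image fun p : Fin h × Fin h => H p.1 p.2).card + h) :
    Good H ∧ Function.Injective (fun i => H i) ∧ Function.Injective fun j i => H i j := by
  have e : symC H univ = Finset.univ.image fun p : Fin h × Fin h => H p.1 p.2 := by
    unfold symC
    rw [univ_product_univ]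
  rw [← e, sq] at hk
  have hh : 0 < h := by
    rcases Nat.eq_zero_or_pos h with h0 | h0
    · subst h0
      simp [symC] at hk
    · exact h0
  refine ⟨good_few h h H hh hh hk hk, ?_, ?_⟩
  · intro i i' hii
    by_contra hi
    have h1 := card_symC_row H univ i' (fun c _ => ⟨i, hi, congrFun hii c⟩)
    rw [card_univ, Fintype.card_fin] at h1
    omega
  · intro j j' hjj
    by_contra hj
    have h1 := card_symC_col H j' (fun k => ⟨k, j, hj, congrFun hjj k⟩)
    omega

end Pool.Agent.Lib.MP_efec9b_co.BS
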