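import Pool.Agent.Lib.MP_efec9b_co.BS.Inner85
import Pool.Agent.Lib.MP_efec9b_co.BS.RGLUE44

/-!
MP_efec9b_co: gluing of rectangular matrices when the off-diagonal (or the diagonal) blocks may
have common symbols (row R7'; the first steps are those of RGLUE44).
-/

set_option autoImplicit false

namespace Pool.Agent.Lib.MP_efec9b_co.BS

open S44 I85 Finset in
theorem rglue85b : StRGlue2 := by
  classical
  intro a b m c d l H e₁ e₂ g₁ g₂ κ₁ κ₂ ha hb hc hd hG hκ₁ hκ₂ hL₁ hL₂ n M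
  obtain ⟨hs, ht, q1, q2, q3, q4, q5⟩ := hG
  have card : ∀ {a b m : ℕ} {u : Fin a → Fin m} {v : Fin b → Fin m}, Splits u v → a + b = m := by
    intro a b m u v h
    obtain ⟨u1, u2, u3, u4⟩ := h
    have e : Function.Bijective (Sum.elim u v) := by
      constructor
      · rintro (i | i) (j | j) hij
        · exact congrArg Sum.inl (u1.injective hij)
        · exact absurd hij (u3 i j)
        · exact absurd hij.symm (u3 j i)
        · exact congrArg Sum.inr (u2.injective hij)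
      · intro k
        rcases u4 k with ⟨i, hi⟩ | ⟨i, hi⟩
        · exact ⟨Sum.inl i, hi⟩
        · exact ⟨Sum.inr i, hi⟩
    have := Fintype.card_of_bijective e
    simpa using this
  have hm : a + b = m := card hs
  have hl : c + d = l := card ht
  obtain ⟨s1, s2, s3, s4⟩ := hs
  obtain ⟨t1, t2, t3, t4⟩ := ht
  set H₁ : Fin a → Fin c → ℕ := fun i j => H (e₁ i) (g₁ j) with hH₁
  set H₂ : Fin b → Fin d → ℕ := fun i j => H (e₂ i) (g₂ j) with hH₂
  set S₁ : ℕ → Prop := fun s => ∃ i j, H (e₁ i) (g₂ j) = s with hS₁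
  set S₂ : ℕ → Prop := fun s => ∃ i j, H (e₂ i) (g₁ j) = s with hS₂
  have hf1 : 0 ≤ fac1 a b := by unfold fac1; positivity
  have hf2 : 0 ≤ fac1 c d := by unfold fac1; positivity
  -- the off diagonal cells
  set W : (Fin a → Fin n) × (Fin c → Fin n) → (Fin b → Fin n) × (Fin d → Fin n) → Prop :=
    fun p q => (∀ i j, S₁ (M (p.1 i) (q.2 j))) ∧ ∀ i j, S₂ (M (q.1 i) (p.2 j)) with hW
  have step1 : (rcopies H M : ℝ) ≤ ∑ q, ∑ p, ind (Cp H₂ M q) * (ind (Cp H₁ M p) * ind (W p q)) := by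
    rw [rcopies_ind, ← Fintype.sum_prod_type']
    refine le_trans (sum_le_sum fun R _ => ?_) (sum_inj
      (fun R : (Fin m → Fin n) × (Fin l → Fin n) =>
        (((R.1 ∘ e₂, R.2 ∘ g₂), (R.1 ∘ e₁, R.2 ∘ g₁)) :
          ((Fin b → Fin n) × (Fin d → Fin n)) × ((Fin a → Fin n) × (Fin c → Fin n)))) ?_
      (fun x => ind (Cp H₂ M x.1) * (ind (Cp H₁ M x.2) * ind (W x.2 x.1)))
      fun x => mul_nonneg (ind_nonneg _) (mul_nonneg (ind_nonneg _) (ind_nonneg _)))
    · dsimp only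
      rw [← ind_and, ← ind_and]
      refine ind_le ?_
      rintro ⟨h1, h2, h3⟩
      exact ⟨⟨h1.comp s2, h2.comp t2, fun i j => h3 _ _⟩,
        ⟨h1.comp s1, h2.comp t1, fun i j => h3 _ _⟩,
        fun i j => ⟨i, j, (h3 _ _).symm⟩, fun i j => ⟨i, j, (h3 _ _).symm⟩⟩
    · intro R R' hRR
      simp only [Prod.mk.injEq] at hRR
      obtain ⟨⟨r1, r2⟩, r3, r4⟩ := hRR
      refine Prod.ext ?_ ?_
      · funext k
        rcases s4 k with ⟨i, rfl⟩ | ⟨i, rfl⟩
        · exact congrFun r3 i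
        · exact congrFun r1 i
      · funext k
        rcases t4 k with ⟨i, rfl⟩ | ⟨i, rfl⟩
        · exact congrFun r4 i
        · exact congrFun r2 i
  have step2 : ∑ q, ∑ p, ind (Cp H₂ M q) * (ind (Cp H₁ M p) * ind (W p q)) ≤
      κ₁ * ∑ p, ∑ q, ind (Gr H₁ M p) * (ind (Cp H₂ M q) * ind (W p q)) := by
    calc ∑ q, ∑ p, ind (Cp H₂ M q) * (ind (Cp H₁ M p) * ind (W p q))
        ≤ ∑ q, ind (Cp H₂ M q) * (κ₁ * ∑ p, ind (Gr H₁ M p) * ind (W p q)) := by
          refine sum_le_sum fun q _ => ?_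
          rw [← mul_sum]
          refine mul_le_mul_of_nonneg_left ?_ (ind_nonneg _)
          have := masked2 ha hc hκ₁ hL₁ M (fun x => ∀ j, S₁ (M x (q.2 j)))
            (fun y => ∀ i, S₂ (M (q.1 i) y))
          have e : ∀ p : (Fin a → Fin n) × (Fin c → Fin n), ind (W p q) =
              ind ((∀ i, ∀ j, S₁ (M (p.1 i) (q.2 j))) ∧ ∀ j, ∀ i, S₂ (M (q.1 i) (p.2 j))) :=
            fun p => ind_congr ⟨fun h => ⟨h.1, fun j i => h.2 i j⟩, fun h => ⟨h.1, fun i j => h.2 j i⟩⟩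
          simp only [e]
          exact this
      _ = κ₁ * ∑ p, ∑ q, ind (Gr H₁ M p) * (ind (Cp H₂ M q) * ind (W p q)) := by
          simp only [mul_sum]
          rw [sum_comm]
          refine sum_congr rfl fun p _ => sum_congr rfl fun q _ => ?_
          ring
  have step3 : ∑ p, ∑ q, ind (Gr H₁ M p) * (ind (Cp H₂ M q) * ind (W p q)) ≤
      κ₂ * ∑ p, ∑ q, ind (Gr H₁ M p) * (ind (Gr H₂ M q) * ind (W p q)) := by
    rw [mul_sum]
    refine sum_le_sum fun p _ => ?_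
    rw [← mul_sum, ← mul_sum, mul_left_comm]
    refine mul_le_mul_of_nonneg_left ?_ (ind_nonneg _)
    have := masked2 hb hd hκ₂ hL₂ M (fun x => ∀ j, S₂ (M x (p.2 j)))
      (fun y => ∀ i, S₁ (M (p.1 i) y))
    have e : ∀ q : (Fin b → Fin n) × (Fin d → Fin n), ind (W p q) =
        ind ((∀ i, ∀ j, S₂ (M (q.1 i) (p.2 j))) ∧ ∀ j, ∀ i, S₁ (M (p.1 i) (q.2 j))) :=
      fun q => ind_congr ⟨fun h => ⟨h.2, fun j i => h.1 i j⟩, fun h => ⟨fun i j => h.2 j i, h.1⟩⟩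
    simp only [e]
    exact this
  -- the columns
  set P : (Fin a → Fin n) → (Fin b → Fin n) → Fin n → Prop := fun r s y =>
    (∀ i, ∃ i' j', H (e₁ i') (g₁ j') = M (r i) y) ∧ ∀ i, ∃ i' j', H (e₂ i') (g₁ j') = M (s i) y
    with hP
  set Q : (Fin a → Fin n) → (Fin b → Fin n) → Fin n → Prop := fun r s y =>
    (∀ i, ∃ i' j', H (e₁ i') (g₂ j') = M (r i) y) ∧ ∀ i, ∃ i' j', H (e₂ i') (g₂ j') = M (s i) y
    with hQ
  set Z : (Fin a → Fin n) → (Fin b → Fin n) → Fin n → Prop := fun r s y => P r s y ∨ Q r s y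
    with hZ
  have step4 : ∑ p, ∑ q, ind (Gr H₁ M p) * (ind (Gr H₂ M q) * ind (W p q)) =
      ∑ r, ∑ s, (∑ y, ind (P r s y)) ^ c * (∑ y, ind (Q r s y)) ^ d := by
    simp only [Fintype.sum_prod_type, pow_ind]
    refine sum_congr rfl fun r _ => ?_
    rw [sum_comm]
    refine sum_congr rfl fun s _ => ?_
    rw [sum_mul_sum]
    refine sum_congr rfl fun C _ => sum_congr rfl fun D _ => ?_
    rw [← ind_and, ← ind_and, ← ind_and]
    refine ind_congr ?_
    constructor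
    · rintro ⟨h1, h2, h3, h4⟩
      exact ⟨fun j => ⟨fun i => h1 i j, fun i => h4 i j⟩, fun j => ⟨fun i => h3 i j, fun i => h2 i j⟩⟩
    · rintro ⟨h1, h2⟩
      exact ⟨fun i j => (h1 j).1 i, fun i j => (h2 j).2 i, fun i j => (h2 j).1 i,
        fun i j => (h1 j).2 i⟩
  have step5 : ∑ r, ∑ s, (∑ y, ind (P r s y)) ^ c * (∑ y, ind (Q r s y)) ^ d ≤
      fac1 c d * ∑ r, ∑ s, (∑ y, ind (Z r s y)) ^ l := by
    rw [mul_sum]
    refine sum_le_sum fun r _ => ?_
    rw [mul_sum]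
    refine sum_le_sum fun s _ => ?_
    have hP0 : 0 ≤ ∑ y, ind (P r s y) := sum_nonneg fun _ _ => ind_nonneg _
    have hQ0 : 0 ≤ ∑ y, ind (Q r s y) := sum_nonneg fun _ _ => ind_nonneg _
    refine (am2 c d hc hd _ _ hP0 hQ0).trans (mul_le_mul_of_nonneg_left ?_ hf2)
    rw [hl]
    refine pow_le_pow_left₀ (add_nonneg hP0 hQ0) ?_ _
    rw [← sum_add_distrib]
    refine sum_le_sum fun y _ => ?_
    by_cases h1 : P r s y
    · have h2 : ¬ Q r s y := by
        intro h2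
        obtain ⟨i, j, hij⟩ := h1.1 ⟨0, ha⟩
        obtain ⟨i', j', hij'⟩ := h2.1 ⟨0, ha⟩
        exact q1 _ _ _ _ (hij.trans hij'.symm)
      rw [ind_false h2, add_zero]
      exact ind_le fun h3 => Or.inl h3
    · rw [ind_false h1, zero_add]
      exact ind_le fun h3 => Or.inr h3
  have step6 : ∑ r, ∑ s, (∑ y, ind (Z r s y)) ^ l =
      ∑ C : Fin l → Fin n, ∑ r, ∑ s, ind (∀ j, Z r s (C j)) := by
    simp only [pow_ind]
    rw [sum_congr rfl fun r _ => sum_comm, sum_comm]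
  have step7 : ∑ C : Fin l → Fin n, ∑ r, ∑ s, ind (∀ j, Z r s (C j)) ≤
      fac1 a b * (grids H M : ℝ) := by
    rw [grids_eq, mul_sum]
    refine sum_le_sum fun C _ => ?_
    have h1 := inner ha hb (show 0 < l by omega)
      (fun x j => ∃ i' j', H (e₁ i') (g₁ j') = M x (C j))
      (fun x j => ∃ i' j', H (e₁ i') (g₂ j') = M x (C j))
      (fun x j => ∃ i' j', H (e₂ i') (g₁ j') = M x (C j))
      (fun x j => ∃ i' j', H (e₂ i') (g₂ j') = M x (C j))
      (by rintro x j ⟨i, k, h⟩ ⟨i', k', h'⟩; exact q1 _ _ _ _ (h.trans h'.symm))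
      (by rintro x j ⟨i, k, h⟩ ⟨i', k', h'⟩; exact q2 _ _ _ _ (h.trans h'.symm))
      (by rintro x j ⟨i, k, h⟩ ⟨i', k', h'⟩; exact q3 _ _ _ _ (h.trans h'.symm))
      (by rintro x j ⟨i, k, h⟩ ⟨i', k', h'⟩; exact q4 _ _ _ _ (h.trans h'.symm))
      (by
        rcases q5 with q5 | q5
        · left
          rintro x j ⟨i, k, h⟩ ⟨i', k', h'⟩
          exact q5 _ _ _ _ (h.trans h'.symm)
        · right
          rintro x j ⟨i, k, h⟩ ⟨i', k', h'⟩
          exact q5 _ _ _ _ (h.trans h'.symm))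
    refine h1.trans ?_
    refine mul_le_mul_of_nonneg_left ?_ hf1
    rw [hm]
    refine pow_le_pow_left₀ (sum_nonneg fun _ _ => ind_nonneg _) ?_ _
    unfold g
    refine sum_le_sum fun x _ => ind_le fun h j => ?_
    rcases h j with ⟨i', j', h2⟩ | ⟨i', j', h2⟩ | ⟨i', j', h2⟩ | ⟨i', j', h2⟩
    · exact ⟨_, _, h2⟩
    · exact ⟨_, _, h2⟩
    · exact ⟨_, _, h2⟩
    · exact ⟨_, _, h2⟩
  have hT : ∑ p, ∑ q, ind (Gr H₁ M p) * (ind (Gr H₂ M q) * ind (W p q)) ≤
      fac1 c d * (fac1 a b * (grids H M : ℝ)) := by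
    rw [step4]
    refine step5.trans (mul_le_mul_of_nonneg_left ?_ hf2)
    rw [step6]
    exact step7
  calc (rcopies H M : ℝ) ≤ _ := step1
    _ ≤ _ := step2
    _ ≤ κ₁ * (κ₂ * (fac1 c d * (fac1 a b * (grids H M : ℝ)))) :=
        mul_le_mul_of_nonneg_left (step3.trans (mul_le_mul_of_nonneg_left hT hκ₂)) hκ₁
    _ = κ₁ * κ₂ * (fac1 a b * fac1 c d) * (grids H M : ℝ) := by ring

end Pool.Agent.Lib.MP_efec9b_co.BS
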