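import Pool.Agent.Lib.MP_efec9b_co.BS.Many2_85

/-!
MP_efec9b_co: a set of rows without symbols in common with the other rows.
-/

set_option autoImplicit false

namespace Pool.Agent.Lib.MP_efec9b_co.BS

open Finset BU77

/-- the rows in `R` have no symbol in common with the other rows, two different rows in `R` differ
in every column, and two columns which are equal in the first row of `R`, or in the last row of
`R`, are equal -/
def RowsApart {h : ℕ} (H : Fin h → Fin h → ℕ) (R : Finset (Fin h)) : Prop :=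
  (∀ i ∈ R, ∀ i' ∉ R, ∀ j j', H i j ≠ H i' j') ∧
    (∀ i ∈ R, ∀ i' ∈ R, H i = H i' ∨ ∀ j, H i j ≠ H i' j) ∧
    ∀ i ∈ R, ((∀ k ∈ R, i ≤ k) ∨ ∀ k ∈ R, k ≤ i) → ∀ j j', H i j = H i j' → ∀ k, H k j = H k j'

theorem rclique_strictR {a b : ℕ} (H : Fin a → Fin b → ℕ) (hh : 0 < a)
    (hM : ∀ i i' j j', i ≤ i' → j ≤ j' → H i j ≤ H i' j') (h1 : RApart H)
    (h2 : ∀ (j j' : Fin b) (i : Fin a), ((i : ℕ) = 0 ∨ (i : ℕ) + 1 = a) → H i j = H i j' →
      ∀ k, H k j = H k j') : RClique H := by
  intro K hK
  have key : ∀ j j' : Fin b, j < j' → (∀ k, H k j ∈ K) → (∀ k, H k j' ∈ K) →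
      ¬ (∀ k, H k j = H k j') → False := by
    intro j j' hlt hj hj' hne
    set z : Fin a := ⟨0, hh⟩ with hz
    set l : Fin a := ⟨a - 1, by omega⟩ with hl
    have hz0 : ∀ k : Fin a, z ≤ k := fun k => Nat.zero_le _
    have hl0 : ∀ k : Fin a, k ≤ l := fun k => by
      have := k.2
      change (k : ℕ) ≤ a - 1
      omega
    have a1 : H z j < H z j' := by
      refine lt_of_le_of_ne (hM _ _ _ _ le_rfl hlt.le) fun he => hne ?_
      exact h2 j j' z (Or.inl rfl) he
    have a2 : H z j' ≤ H l j' := hM _ _ _ _ (hz0 l) le_rfl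
    obtain ⟨c, r, r', hr, hr'⟩ := hK _ (hj z) _ (hj' l) (by omega)
    by_cases hc : c < j'
    · have a3 : H r' c ≤ H l c := hM _ _ _ _ (hl0 r') le_rfl
      have a4 : H l c ≤ H l j' := hM _ _ _ _ le_rfl hc.le
      have a5 : H l c = H l j' := by omega
      have a6 := h2 c j' l (Or.inr (by change a - 1 + 1 = a; omega)) a5
      have a7 : H z j' ≤ H r j' := hM _ _ _ _ (hz0 r) le_rfl
      rw [a6 r] at hr
      omega
    · have a3 : H z j' ≤ H z c := hM _ _ _ _ le_rfl (not_lt.1 hc)
      have a4 : H z c ≤ H r c := hM _ _ _ _ (hz0 r) le_rfl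
      omega
  intro j j' i i' hj hj' he
  by_cases hc : ∀ k, H k j = H k j'
  · rcases h1 i i' with h3 | h3
    · exact h3
    · exact absurd (he.trans (hc i').symm) (h3 j)
  · exfalso
    rcases lt_trichotomy j j' with h3 | h3 | h3
    · exact key j j' h3 hj hj' hc
    · subst h3
      exact hc fun _ => rfl
    · exact key j' j h3 hj' hj fun h4 => hc fun k => (h4 k).symm

theorem good_rows {h : ℕ} (H : Fin h → Fin h → ℕ) (R : Finset (Fin h)) (hM : Mono H)
    (hR : R.Nonempty) (hc : RowsApart H R) : Good H := by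
  classical
  obtain ⟨h0, h1, h2⟩ := hc
  have hh : 0 < h := hR.choose.pos
  have hcard : 0 < R.card := card_pos.2 hR
  set u : Fin R.card → Fin h := fun k => R.orderEmbOfFin rfl k with hu
  have hum : ∀ k, u k ∈ R := fun k => R.orderEmbOfFin_mem rfl k
  have hur : ∀ i ∈ R, ∃ k, u k = i := by
    intro i hi
    have : i ∈ Set.range (R.orderEmbOfFin rfl) := by
      rw [R.range_orderEmbOfFin rfl]
      exact hi
    exact this
  have hus : ∀ k k', k ≤ k' → u k ≤ u k' := fun k k' hk => (R.orderEmbOfFin rfl).monotone hk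
  have hcol : ∀ (k : Fin R.card), ((k : ℕ) = 0 ∨ (k : ℕ) + 1 = R.card) → ∀ j j',
      H (u k) j = H (u k) j' → ∀ i, H i j = H i j' := by
    intro k hk
    refine h2 (u k) (hum k) ?_
    rcases hk with hk | hk
    · left
      intro i hi
      obtain ⟨k', rfl⟩ := hur i hi
      refine hus _ _ ?_
      change (k : ℕ) ≤ k'
      omega
    · right
      intro i hi
      obtain ⟨k', rfl⟩ := hur i hi
      refine hus _ _ ?_
      have := k'.2
      change (k' : ℕ) ≤ k
      omega
  have hbase : Good (fun k j => H (u k) j) := by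
    refine Good.base _ hcard hh ?_ (rlag_of_rclique77 _ hcard (rclique_strictR _ hcard ?_ ?_ ?_))
    · intro k k'
      exact h1 _ (hum k) _ (hum k')
    · intro k k' j j' hk hj
      exact hM _ _ _ _ (hus _ _ hk) hj
    · intro k k'
      exact h1 _ (hum k) _ (hum k')
    · intro j j' k hk he i
      exact hcol k hk j j' he (u i)
  by_cases hall : R = univ
  · -- all rows
    refine Good.base _ hh hh ?_ (rlag_of_rclique77 _ hh (rclique_strictR _ hh hM ?_ ?_))
    · intro i i'
      exact h1 i (by rw [hall]; exact mem_univ _) i' (by rw [hall]; exact mem_univ _)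
    · intro i i'
      exact h1 i (by rw [hall]; exact mem_univ _) i' (by rw [hall]; exact mem_univ _)
    · intro j j' i hi he
      refine h2 i (by rw [hall]; exact mem_univ _) ?_ j j' he
      rcases hi with hi | hi
      · left
        intro k _
        change (i : ℕ) ≤ k
        omega
      · right
        intro k _
        have := k.2
        change (k : ℕ) ≤ i
        omega
  · have hC : 0 < Rᶜ.card := by
      refine card_pos.2 ?_
      by_contra hn
      rw [not_nonempty_iff_eq_empty, compl_eq_empty_iff] at hn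
      exact hall hn
    refine Good.stack H u (fun k => Rᶜ.orderEmbOfFin rfl k) hC ⟨?_, ?_, ?_⟩ hbase
    · refine splits_of R Rᶜ (fun c => ?_) (fun c hc => ?_)
      · by_cases hc : c ∈ R
        · exact Or.inl hc
        · exact Or.inr (mem_compl.2 hc)
      · intro hc'
        exact mem_compl.1 hc' hc
    · intro k k' j j'
      exact h0 _ (hum k) _ (mem_compl.1 (Rᶜ.orderEmbOfFin_mem rfl k')) j j'
    · intro j j' he
      exact hcol ⟨0, hcard⟩ (Or.inl rfl) j j' (he _)

end Pool.Agent.Lib.MP_efec9b_co.BS
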