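import Pool.Agent.Lib.MP_efec9b_co.BS.Defs85R
import Pool.Agent.Lib.MP_efec9b_co.Count77

/-!
MP_efec9b_co: row R5, `grids H M ≤ cells H M ^ h` for square `H`.
-/

set_option autoImplicit false

namespace Pool.Agent.Lib.MP_efec9b_co.BS

open Finset

theorem grids_le_cells70 {h n : ℕ} (H : Fin h → Fin h → ℕ) (M : Fin n → Fin n → ℕ) :
    grids H M ≤ cells H M ^ h := by
  classical
  have e : Nat.card (Fin h → {p : Fin n × Fin n // ∃ i j, H i j = M p.1 p.2}) =
      cells H M ^ h := by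
    rw [Nat.card_fun]
    simp [cells]
  rw [← e]
  unfold grids
  refine Nat.card_le_card_of_injective
    (fun p => fun i => ⟨(p.1.1 i, p.1.2 i), p.2 i i⟩) ?_
  intro p q hpq
  have k : ∀ i, p.1.1 i = q.1.1 i ∧ p.1.2 i = q.1.2 i := by
    intro i
    have := congrFun hpq i
    simpa using this
  exact Subtype.ext (Prod.ext (funext fun i => (k i).1) (funext fun i => (k i).2))

theorem rvalue_eq70 {h : ℕ} (H : Fin h → Fin h → ℕ) :
    rvalue H = value H / (h.factorial : ℝ) ^ 2 := by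
  unfold rvalue value
  have : (h.factorial : ℝ) ≠ 0 := by exact_mod_cast h.factorial_ne_zero
  field_simp

theorem value_nonneg70 {h : ℕ} (H : Fin h → Fin h → ℕ) : 0 ≤ value H :=
  mul_nonneg (Pool.Agent.Lib.MP_efec9b_co.BU77.wordMax_nonneg _) (Pool.Agent.Lib.MP_efec9b_co.BU77.wordMax_nonneg _)

/-- row R5 -/
theorem stSq70 : StSq := by
  intro h H hT n M
  have h1 : (copies H M : ℝ) ≤ rvalue H * (grids H M : ℝ) := hT n M
  have h2 : (grids H M : ℝ) ≤ (cells H M : ℝ) ^ h := by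
    exact_mod_cast grids_le_cells70 H M
  have h3 : 0 ≤ rvalue H := by
    rw [rvalue_eq70]
    exact div_nonneg (value_nonneg70 H) (by positivity)
  calc (copies H M : ℝ) ≤ rvalue H * (grids H M : ℝ) := h1
    _ ≤ rvalue H * (cells H M : ℝ) ^ h := mul_le_mul_of_nonneg_left h2 h3
    _ = value H / (h.factorial : ℝ) ^ 2 * (cells H M : ℝ) ^ h := by rw [rvalue_eq70]

end Pool.Agent.Lib.MP_efec9b_co.BS
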