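import Pool.Agent.Lib.MP_efec9b_co.BS.Defs85S
import Pool.Agent.Lib.MP_efec9b_co.BS.RLag77
import Pool.Agent.Lib.MP_efec9b_co.BS.Many85

/-!
MP_efec9b_co: strictly increasing matrices (and their blow-ups) are in the class.
-/

set_option autoImplicit false

namespace Pool.Agent.Lib.MP_efec9b_co.BS

open Finset BU77

theorem rclique_strict {h : ℕ} (H : Fin h → Fin h → ℕ) (hh : 0 < h) (hM : Mono H)
    (h1 : RApart H)
    (h2 : ∀ (j j' i : Fin h), ((i : ℕ) = 0 ∨ (i : ℕ) + 1 = h) → H i j = H i j' → ∀ k, H k j = H k j') :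
    RClique H := by
  intro K hK
  have key : ∀ j j' : Fin h, j < j' → (∀ k, H k j ∈ K) → (∀ k, H k j' ∈ K) →
      ¬ (∀ k, H k j = H k j') → False := by
    intro j j' hlt hj hj' hne
    set z : Fin h := ⟨0, hh⟩ with hz
    set l : Fin h := ⟨h - 1, by omega⟩ with hl
    have hz0 : ∀ k : Fin h, z ≤ k := fun k => Nat.zero_le _
    have hl0 : ∀ k : Fin h, k ≤ l := fun k => by
      have := k.2
      change (k : ℕ) ≤ h - 1
      omega
    have a1 : H z j < H z j' := by
      refine lt_of_le_of_ne (hM _ _ _ _ le_rfl hlt.le) fun he => hne ?_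
      exact h2 j j' z (Or.inl rfl) he
    have a2 : H z j' ≤ H l j' := hM _ _ _ _ (hz0 l) le_rfl
    obtain ⟨c, r, r', hr, hr'⟩ := hK _ (hj z) _ (hj' l) (by omega)
    by_cases hc : c < j'
    · have a3 : H r' c ≤ H l c := hM _ _ _ _ (hl0 r') le_rfl
      have a4 : H l c ≤ H l j' := hM _ _ _ _ le_rfl hc.le
      have a5 : H l c = H l j' := by omega
      have a6 := h2 c j' l (Or.inr (by change h - 1 + 1 = h; omega)) a5
      have a7 : H z j' ≤ H r j' := hM _ _ _ _ (hz0 r) le_rfl
      rw [a6 r] at hr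
      omega
    · have a3 : H z j' ≤ H z c := hM _ _ _ _ le_rfl (not_lt.1 hc)
      have a4 : H z c ≤ H r c := hM _ _ _ _ (hz0 r) le_rfl
      omega
  intro j j' i i' hj hj' he
  by_cases hc : ∀ k, H k j = H k j'
  · rcases h1 i i' with h3 | h3
    · exact h3
    · exact absurd (he.trans (hc i').symm) (h3 j)
  · exfalso
    rcases lt_trichotomy j j' with h3 | h3 | h3
    · exact key j j' h3 hj hj' hc
    · subst h3
      exact hc fun _ => rfl
    · exact key j' j h3 hj' hj fun h4 => hc fun k => (h4 k).symm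

theorem good_strict {h : ℕ} (H : Fin h → Fin h → ℕ) (hh : 0 < h) (hM : Mono H)
    (h1 : RApart H)
    (h2 : ∀ (j j' i : Fin h), ((i : ℕ) = 0 ∨ (i : ℕ) + 1 = h) → H i j = H i j' → ∀ k, H k j = H k j') :
    Good H :=
  Good.base H hh hh h1 (rlag_of_rclique77 H hh (rclique_strict H hh hM h1 h2))

/-- strictly increasing rows and columns -/
theorem good_strict2 {h : ℕ} (H : Fin h → Fin h → ℕ) (hh : 0 < h)
    (h1 : ∀ i, StrictMono (H i)) (h2 : ∀ j, StrictMono fun i => H i j) :
    Mono H ∧ Good H ∧ value H = ((h.factorial : ℝ) / (h : ℝ) ^ h) ^ 2 := by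
  have hM : Mono H := fun i i' j j' hi hj =>
    ((h1 i).monotone hj).trans ((h2 j').monotone hi)
  refine ⟨hM, good_strict H hh hM ?_ ?_, value_inj H ?_ ?_⟩
  · intro i i'
    by_cases hi : i = i'
    · left
      rw [hi]
    · right
      intro j he
      exact hi ((h2 j).injective he)
  · intro j j' i _ he k
    rw [(h1 i).injective he]
  · intro i i' he
    exact (h2 ⟨0, hh⟩).injective (congrFun he ⟨0, hh⟩)
  · intro j j' he
    exact (h1 ⟨0, hh⟩).injective (congrFun he ⟨0, hh⟩)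

end Pool.Agent.Lib.MP_efec9b_co.BS
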