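import Pool.Agent.Lib.MP_efec9b_co.BS.Defs85U
import Pool.Agent.Lib.MP_efec9b_co.BS.Stack85

/-!
MP_efec9b_co: stacking with classes of columns (row U1).
-/

set_option autoImplicit false

namespace Pool.Agent.Lib.MP_efec9b_co.BS

open Finset BU77 S85

namespace K29

open Classical in
/-- rows with the symbols of the second part, in the right classes -/
noncomputable def Gp {b h n : ℕ} (H : Fin b → Fin h → ℕ) (p : Fin h → ℕ)
    (M : Fin n → Fin n → ℕ) (c : Fin h → Fin n) : Finset (Fin n) :=
  univ.filter fun x => ∀ j, ∃ i' j', H i' j' = M x (c j) ∧ p j' = p j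

open Classical in
/-- step 2 with classes -/
theorem step2p {b h n : ℕ} (H : Fin b → Fin h → ℕ) (p : Fin h → ℕ) (M : Fin n → Fin n → ℕ)
    (c : Fin h → Fin n) (hb : 0 < b) :
    ((univ.filter fun r : Fin b → Fin n => StrictMono r ∧
      ∀ i j, M (r i) (c j) = H i j).card : ℝ) ≤
      wordMax (fun i => H i) / (b.factorial : ℝ) * ((Gp H p M c).card : ℝ) ^ b := by
  set A : (Fin h → ℕ) → Finset (Fin n) := fun w => univ.filter fun x => ∀ j, M x (c j) = w j
    with hA
  have e1 : (univ.filter fun r : Fin b → Fin n => StrictMono r ∧ ∀ i j, M (r i) (c j) = H i j) =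
      (univ.filter fun r : Fin b → Fin n => StrictMono r ∧ ∀ i, r i ∈ A (H i)) := by
    ext r
    simp only [mem_filter, mem_univ, true_and, hA]
  have c1 := countG (fun i => H i) A
  have c2 := choose_prod_le (fun i => H i) hb (fun v => (A v).card)
  have c3 : ((univ.filter fun r : Fin b → Fin n => StrictMono r ∧ ∀ i, r i ∈ A (H i)).card : ℝ)
      ≤ ((∏ v ∈ univ.image (fun i => H i), (A v).card.choose (mu (fun i => H i) v) : ℕ) : ℝ) := by
    exact_mod_cast c1
  rw [e1]
  refine (c3.trans c2).trans ?_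
  have hw : 0 ≤ wordMax (fun i => H i) / (b.factorial : ℝ) :=
    div_nonneg (wordMax_nonneg _) (by positivity)
  refine mul_le_mul_of_nonneg_left ?_ hw
  refine pow_le_pow_left₀ (sum_nonneg fun v _ => by positivity) ?_ b
  have h1 : ∑ v ∈ univ.image (fun i => H i), (A v).card ≤ (Gp H p M c).card := by
    rw [← card_biUnion]
    · refine card_le_card fun x hx => ?_
      obtain ⟨v, hv, hx⟩ := mem_biUnion.1 hx
      obtain ⟨i, -, rfl⟩ := mem_image.1 hv
      rw [hA] at hx
      exact mem_filter.2 ⟨mem_univ _, fun j => ⟨i, j, ((mem_filter.1 hx).2 j).symm, rfl⟩⟩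
    · intro v _ v' _ hvv
      rw [Function.onFun, disjoint_left]
      intro x hx hx'
      apply hvv
      funext j
      rw [hA] at hx hx'
      rw [← (mem_filter.1 hx).2 j, ← (mem_filter.1 hx').2 j]
  exact_mod_cast h1

open Classical in
/-- swapping the sums -/
theorem step4p {a b h n : ℕ} (H₁ : Fin a → Fin h → ℕ) (H₂ : Fin b → Fin h → ℕ)
    (H' : Fin a → Fin h → ℕ) (p : Fin h → ℕ) (κ : ℝ)
    (ha : 0 < a) (hb : 0 < b) (hκ : 0 ≤ κ)
    (hp : ∀ i i' j j', H₂ i j = H₂ i' j' → p j = p j')
    (hH : ∀ i i' j j', H' i j = H' i' j' ↔ H₁ i j = H₁ i' j' ∧ p j = p j')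
    (hL : RLoc H' κ) (M : Fin n → Fin n → ℕ) :
    ∑ c ∈ univ.filter (fun c : Fin h → Fin n => StrictMono c),
      ((univ.filter fun r : Fin a → Fin n => StrictMono r ∧
        ∀ i j, M (r i) (c j) = H₁ i j).card : ℝ) * ((Gp H₂ p M c).card : ℝ) ^ b ≤
      κ * ∑ c : Fin h → Fin n, ((G H₁ M c).card : ℝ) ^ a * ((G H₂ M c).card : ℝ) ^ b := by
  set f : ℕ := (∑ i, ∑ j, H' i j) + 1 with hf
  have hfr : ∀ i j, H' i j ≠ f := by
    intro i j hE
    have h1 : H' i j ≤ ∑ j, H' i j := single_le_sum (f := fun j => H' i j)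
      (fun _ _ => Nat.zero_le _) (mem_univ j)
    have h2 : ∑ j, H' i j ≤ ∑ i, ∑ j, H' i j := single_le_sum (f := fun i => ∑ j, H' i j)
      (fun _ _ => Nat.zero_le _) (mem_univ i)
    omega
  -- `cond s y q`: all cells `(s k, y)` have a symbol of `H₂` of class `q`
  set cond : (Fin b → Fin n) → Fin n → ℕ → Prop := fun s y q =>
    ∀ k, ∃ i' j', H₂ i' j' = M (s k) y ∧ p j' = q with hcond
  have huniq : ∀ s y q q', cond s y q → cond s y q' → q = q' := by
    intro s y q q' h1 h2
    obtain ⟨i, j, e1, e2⟩ := h1 ⟨0, hb⟩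
    obtain ⟨i', j', e3, e4⟩ := h2 ⟨0, hb⟩
    rw [← e2, ← e4]
    exact hp i i' j j' (e1.trans e3.symm)
  have hex : ∀ s : Fin b → Fin n, ∃ Ms : Fin n → Fin n → ℕ, ∀ x y i j,
      H' i j = Ms x y ↔ (H₁ i j = M x y ∧ cond s y (p j)) := by
    intro s
    have h1 : ∀ x y, ∃ z : ℕ, ∀ i j, H' i j = z ↔ (H₁ i j = M x y ∧ cond s y (p j)) := by
      intro x y
      by_cases hc : ∃ i j, H₁ i j = M x y ∧ cond s y (p j)
      · obtain ⟨i₀, j₀, e1, e2⟩ := hc
        refine ⟨H' i₀ j₀, fun i j => ?_⟩
        rw [hH]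
        constructor
        · rintro ⟨e3, e4⟩
          rw [e3, e4]
          exact ⟨e1, e2⟩
        · rintro ⟨e3, e4⟩
          exact ⟨e3.trans e1.symm, huniq s y _ _ e4 e2⟩
      · refine ⟨f, fun i j => ?_⟩
        constructor
        · intro e
          exact absurd e (hfr i j)
        · intro e
          exact absurd ⟨i, j, e⟩ hc
    choose Ms hMs using h1
    exact ⟨Ms, hMs⟩
  choose Ms hMs using hex
  have pwp : ∀ c : Fin h → Fin n, ((Gp H₂ p M c).card : ℝ) ^ b =
      ∑ s : Fin b → Fin n, if ∀ j, cond s (c j) (p j) then (1 : ℝ) else 0 := by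
    intro c
    have h1 : (Gp H₂ p M c).card ^ b =
        (univ.filter fun s : Fin b → Fin n => ∀ j, cond s (c j) (p j)).card := by
      rw [← Fintype.card_piFinset_const]
      congr 1
      ext s
      simp only [Fintype.mem_piFinset, mem_filter, mem_univ, true_and, Gp, hcond]
      exact ⟨fun hh j k => hh k j, fun hh k j => hh j k⟩
    rw [← Nat.cast_pow, h1, card_filter]
    push_cast
    rfl
  set ok : (Fin b → Fin n) → Fin n → Prop := fun s y => ∀ k, ∃ i' j', H₂ i' j' = M (s k) y
    with hok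
  have pw : ∀ c : Fin h → Fin n, ((G H₂ M c).card : ℝ) ^ b =
      ∑ s : Fin b → Fin n, if ∀ j, ok s (c j) then (1 : ℝ) else 0 := by
    intro c
    have h1 : (G H₂ M c).card ^ b =
        (univ.filter fun s : Fin b → Fin n => ∀ j, ok s (c j)).card := by
      rw [← Fintype.card_piFinset_const]
      congr 1
      ext s
      simp only [Fintype.mem_piFinset, mem_filter, mem_univ, true_and, G, hok]
      exact ⟨fun hh j k => hh k j, fun hh k j => hh j k⟩
    rw [← Nat.cast_pow, h1, card_filter]
    push_cast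
    rfl
  have main : ∀ s : Fin b → Fin n,
      ∑ c ∈ univ.filter (fun c : Fin h → Fin n => StrictMono c),
        ((univ.filter fun r : Fin a → Fin n => StrictMono r ∧
          ∀ i j, M (r i) (c j) = H₁ i j).card : ℝ) *
            (if ∀ j, cond s (c j) (p j) then (1 : ℝ) else 0) ≤
      κ * ∑ c : Fin h → Fin n, ((G H₁ M c).card : ℝ) ^ a *
        (if ∀ j, ok s (c j) then (1 : ℝ) else 0) := by
    intro s
    have h1 := hL n (Ms s)
    rw [rcopies_eq, grids_eq] at h1
    push_cast at h1
    refine le_trans ?_ (h1.trans ?_)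
    · refine sum_le_sum fun c _ => ?_
      by_cases hc : ∀ j, cond s (c j) (p j)
      · rw [if_pos hc, mul_one]
        have h2 : (univ.filter fun r : Fin a → Fin n => StrictMono r ∧
            ∀ i j, M (r i) (c j) = H₁ i j).card ≤
            (univ.filter fun r : Fin a → Fin n => StrictMono r ∧
              ∀ i j, Ms s (r i) (c j) = H' i j).card := by
          refine card_le_card fun r hr => ?_
          obtain ⟨-, h3, h4⟩ := mem_filter.1 hr
          refine mem_filter.2 ⟨mem_univ _, h3, fun i j => ?_⟩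
          exact ((hMs s (r i) (c j) i j).2 ⟨(h4 i j).symm, hc j⟩).symm
        exact_mod_cast h2
      · rw [if_neg hc, mul_zero]
        positivity
    · refine mul_le_mul_of_nonneg_left ?_ hκ
      refine sum_le_sum fun c _ => ?_
      by_cases hc : ∀ j, ok s (c j)
      · rw [if_pos hc, mul_one]
        refine pow_le_pow_left₀ (Nat.cast_nonneg _) ?_ a
        have h2 : (G H' (Ms s) c).card ≤ (G H₁ M c).card := by
          refine card_le_card fun x hx => ?_
          refine mem_filter.2 ⟨mem_univ _, fun j => ?_⟩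
          obtain ⟨i', j', he⟩ := (mem_filter.1 hx).2 j
          exact ⟨i', j', ((hMs s x (c j) i' j').1 he).1⟩
        exact_mod_cast h2
      · rw [if_neg hc, mul_zero]
        have h2 : G H' (Ms s) c = ∅ := by
          rw [not_forall] at hc
          obtain ⟨j, hj⟩ := hc
          refine filter_eq_empty_iff.2 fun x _ hx => ?_
          obtain ⟨i', j', he⟩ := hx j
          refine hj fun k => ?_
          obtain ⟨i₂, j₂, h5, -⟩ := ((hMs s x (c j) i' j').1 he).2 k
          exact ⟨i₂, j₂, h5⟩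
        rw [h2, card_empty, Nat.cast_zero, zero_pow ha.ne']
  calc _ = ∑ s : Fin b → Fin n, ∑ c ∈ univ.filter (fun c : Fin h → Fin n => StrictMono c),
        ((univ.filter fun r : Fin a → Fin n => StrictMono r ∧
          ∀ i j, M (r i) (c j) = H₁ i j).card : ℝ) *
          (if ∀ j, cond s (c j) (p j) then (1 : ℝ) else 0) := by
        rw [sum_comm]
        refine sum_congr rfl fun c _ => ?_
        rw [pwp c, mul_sum]
    _ ≤ ∑ s : Fin b → Fin n, κ * ∑ c : Fin h → Fin n, ((G H₁ M c).card : ℝ) ^ a *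
        (if ∀ j, ok s (c j) then (1 : ℝ) else 0) := sum_le_sum fun s _ => main s
    _ = _ := by
        rw [← mul_sum, sum_comm]
        congr 1
        refine sum_congr rfl fun c _ => ?_
        rw [pw c, mul_sum]

end K29

open K29 in
open Classical in
theorem stack3_29 : StStack3 := by
  intro a b m h H H' p u v κ ha hb hh hS hκ hL n M
  obtain ⟨hSp, hd, hp, hH, -⟩ := hS
  have hm := card_splits hSp
  have hw : 0 ≤ wordMax (fun i => H (v i)) / (b.factorial : ℝ) :=
    div_nonneg (wordMax_nonneg _) (by positivity)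
  set W := wordMax (fun i => H (v i)) / (b.factorial : ℝ) with hW
  have h1 : (rcopies H M : ℝ) ≤ ∑ c ∈ univ.filter (fun c : Fin h → Fin n => StrictMono c),
      ((univ.filter fun r : Fin a → Fin n => StrictMono r ∧
        ∀ i j, M (r i) (c j) = H (u i) j).card : ℝ) *
        (W * ((Gp (fun i => H (v i)) p M c).card : ℝ) ^ b) := by
    rw [rcopies_eq]
    push_cast
    refine sum_le_sum fun c _ => ?_
    have s1 := step1 H u v hSp M c
    have s2 := step2p (fun i => H (v i)) p M c hb
    have s3 : (((univ.filter fun r : Fin m → Fin n => StrictMono r ∧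
        ∀ i j, M (r i) (c j) = H i j).card : ℕ) : ℝ) ≤
      ((univ.filter fun r : Fin a → Fin n => StrictMono r ∧
        ∀ i j, M (r i) (c j) = H (u i) j).card : ℝ) *
      ((univ.filter fun r : Fin b → Fin n => StrictMono r ∧
        ∀ i j, M (r i) (c j) = H (v i) j).card : ℝ) := by exact_mod_cast s1
    exact s3.trans (mul_le_mul_of_nonneg_left s2 (Nat.cast_nonneg _))
  have h2 : ∑ c ∈ univ.filter (fun c : Fin h → Fin n => StrictMono c),
      ((univ.filter fun r : Fin a → Fin n => StrictMono r ∧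
        ∀ i j, M (r i) (c j) = H (u i) j).card : ℝ) *
        (W * ((Gp (fun i => H (v i)) p M c).card : ℝ) ^ b) =
      W * ∑ c ∈ univ.filter (fun c : Fin h → Fin n => StrictMono c),
      ((univ.filter fun r : Fin a → Fin n => StrictMono r ∧
        ∀ i j, M (r i) (c j) = H (u i) j).card : ℝ) *
        ((Gp (fun i => H (v i)) p M c).card : ℝ) ^ b := by
    rw [mul_sum]
    exact sum_congr rfl fun c _ => by ring
  have h3 := step4p (fun i => H (u i)) (fun i => H (v i)) H' p κ ha hb hκ hp hH hL M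
  have h4 : ∑ c : Fin h → Fin n, ((G (fun i => H (u i)) M c).card : ℝ) ^ a *
      ((G (fun i => H (v i)) M c).card : ℝ) ^ b ≤ fac1 a b * (grids H M : ℝ) := by
    rw [grids_eq]
    push_cast
    rw [mul_sum]
    refine sum_le_sum fun c _ => ?_
    refine (am2 a b ha hb _ _ (Nat.cast_nonneg _) (Nat.cast_nonneg _)).trans ?_
    refine mul_le_mul_of_nonneg_left ?_ (fac1_nonneg a b)
    rw [← hm]
    refine pow_le_pow_left₀ (by positivity) ?_ m
    have hdis : Disjoint (G (fun i => H (u i)) M c) (G (fun i => H (v i)) M c) := by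
      rw [disjoint_left]
      intro x hx hx'
      obtain ⟨i, j, h5⟩ := (mem_filter.1 hx).2 ⟨0, hh⟩
      obtain ⟨i', j', h6⟩ := (mem_filter.1 hx').2 ⟨0, hh⟩
      exact hd i i' j j' (h5.trans h6.symm)
    have hle : (G (fun i => H (u i)) M c).card + (G (fun i => H (v i)) M c).card ≤
        (G H M c).card := by
      rw [← card_union_of_disjoint hdis]
      refine card_le_card fun x hx => ?_
      refine mem_filter.2 ⟨mem_univ _, fun j => ?_⟩
      rcases mem_union.1 hx with h7 | h7
      · obtain ⟨i, j', h8⟩ := (mem_filter.1 h7).2 j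
        exact ⟨u i, j', h8⟩
      · obtain ⟨i, j', h8⟩ := (mem_filter.1 h7).2 j
        exact ⟨v i, j', h8⟩
    exact_mod_cast hle
  calc (rcopies H M : ℝ) ≤ _ := h1
    _ = _ := h2
    _ ≤ W * (κ * ∑ c : Fin h → Fin n, ((G (fun i => H (u i)) M c).card : ℝ) ^ a *
        ((G (fun i => H (v i)) M c).card : ℝ) ^ b) := mul_le_mul_of_nonneg_left h3 hw
    _ ≤ W * (κ * (fac1 a b * (grids H M : ℝ))) :=
        mul_le_mul_of_nonneg_left (mul_le_mul_of_nonneg_left h4 hκ) hw
    _ = _ := by ring

end Pool.Agent.Lib.MP_efec9b_co.BS
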