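import Pool.Agent.Lib.MP_efec9b_co.BS.Defs85U
import Pool.Agent.Lib.MP_efec9b_co.BS.RVAL81

/-!
MP_efec9b_co: stacking and gluing with classes: the values (rows U2 and U4).
-/

set_option autoImplicit false

namespace Pool.Agent.Lib.MP_efec9b_co.BS

open Finset

open V81

theorem vstack3_29 : StVStack3 := by
  intro a b m h H H' p u v ha hb hh hG
  obtain ⟨hS, hsym, hp, hH, hcol⟩ := hG
  rw [rvalue_eq, rvalue_eq]
  have hr := PW_all hS ha hb (fun i => H i) (fun i => H' i) (fun i => H (v i))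
    (fun i i' => ⟨fun e => funext fun j => (hH i i' j j).2 ⟨congrFun e j, rfl⟩,
      fun e => funext fun j => ((hH i i' j j).1 (congrFun e j)).1⟩) (fun i i' => Iff.rfl)
    (fun i j h' => hsym i j ⟨0, hh⟩ ⟨0, hh⟩ (congrFun h' _))
  have hc := PW_kernel (fun j i => H i j) (fun j i => H' i j)
    (fun j j' => ⟨fun h' => funext fun i => (hH i i j j').2 ⟨congrFun h' (u i),
        hp ⟨0, hb⟩ ⟨0, hb⟩ j j' (congrFun h' (v ⟨0, hb⟩))⟩,
      fun h' => funext fun i => hcol j j' ((hH ⟨0, ha⟩ ⟨0, ha⟩ j j').1 (congrFun h' _)).2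
        (fun i' => ((hH i' i' j j').1 (congrFun h' i')).1) i⟩) (h : ℝ)
  have hb' : (b.factorial : ℝ) ≠ 0 := by exact_mod_cast (Nat.factorial_pos b).ne'
  have h2 : wordMax (fun i => H (v i)) / (b.factorial : ℝ) = PW (fun i => H (v i)) b := by
    rw [wm_eq]
    field_simp
  rw [hr, hc, h2]
  unfold fac1
  ring

theorem vglue3_29 : StVGlue3 := by
  intro a b m c d l H e₁ e₂ g₁ g₂ ρ₁ ρ₂ σ₁ σ₂ B₁ B₂ ha hb hc hd hG
  obtain ⟨hR, hc12, hc21, hB₁, hB₂, hC1, hC2, hC3, hC4⟩ := hG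
  obtain ⟨hS, hS', h11_12, -, h11_21, -, -⟩ := hR
  rw [rvalue_eq, rvalue_eq, rvalue_eq]
  have hr := PW_all hS ha hb (fun i => H i) (fun i => B₁ i) (fun i => B₂ i)
    (fun i i' => ⟨fun e => funext fun j => (hB₁ i i' j j).2 ⟨congrFun e (g₁ j),
        (hc12 i i' ⟨0, hd⟩ ⟨0, hd⟩ (congrFun e (g₂ ⟨0, hd⟩))).1, rfl⟩, fun e => hC1 i i' e⟩)
    (fun i i' => ⟨fun e => funext fun j => (hB₂ i i' j j).2 ⟨congrFun e (g₂ j),
        (hc21 i i' ⟨0, hc⟩ ⟨0, hc⟩ (congrFun e (g₁ ⟨0, hc⟩))).1, rfl⟩, fun e => hC2 i i' e⟩)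
    (fun i j h => h11_21 i j ⟨0, hc⟩ ⟨0, hc⟩ (congrFun h _))
  have hcc := PW_all hS' hc hd (fun j i => H i j) (fun j i => B₁ i j) (fun j i => B₂ i j)
    (fun j j' => ⟨fun e => funext fun i => (hB₁ i i j j').2 ⟨congrFun e (e₁ i), rfl,
        (hc21 ⟨0, hb⟩ ⟨0, hb⟩ j j' (congrFun e (e₂ ⟨0, hb⟩))).2⟩,
      fun e => funext fun i => hC3 j j' (congrFun e) i⟩)
    (fun j j' => ⟨fun e => funext fun i => (hB₂ i i j j').2 ⟨congrFun e (e₂ i), rfl,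
        (hc12 ⟨0, ha⟩ ⟨0, ha⟩ j j' (congrFun e (e₁ ⟨0, ha⟩))).2⟩,
      fun e => funext fun i => hC4 j j' (congrFun e) i⟩)
    (fun i j h => h11_12 ⟨0, ha⟩ ⟨0, ha⟩ i j (congrFun h _))
  rw [hr, hcc]
  unfold fac1
  ring

end Pool.Agent.Lib.MP_efec9b_co.BS
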