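import Pool.Agent.Lib.MP_efec9b_co.BS.Inner85
import Pool.Agent.Lib.MP_efec9b_co.BS.RGLUE44
import Pool.Agent.Lib.MP_efec9b_co.BS.Defs85U

/-!
MP_efec9b_co: gluing with class maps (row U3; most steps are those of RGlue2_85).
-/

set_option autoImplicit false

namespace Pool.Agent.Lib.MP_efec9b_co.BS

namespace L29

open S44 Finset

theorem masked3 {a h n : ℕ} {H H' : Fin a → Fin h → ℕ} {ρ : Fin a → ℕ} {σ : Fin h → ℕ} {κ : ℝ}
    (ha : 0 < a) (hh : 0 < h) (hκ : 0 ≤ κ)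
    (hR : ∀ i i' j j', H' i j = H' i' j' ↔ H i j = H i' j' ∧ ρ i = ρ i' ∧ σ j = σ j')
    (hL : RLoc H' κ) (M : Fin n → Fin n → ℕ) (A B : Fin n → ℕ → Prop)
    (hA : ∀ x s s', A x s → A x s' → s = s') (hB : ∀ y s s', B y s → B y s' → s = s') :
    ∑ p : (Fin a → Fin n) × (Fin h → Fin n),
      ind (Cp H M p) * ind ((∀ i, A (p.1 i) (ρ i)) ∧ ∀ j, B (p.2 j) (σ j)) ≤
      κ * ∑ p : (Fin a → Fin n) × (Fin h → Fin n),
        ind (Gr H M p) * ind ((∀ i, ∃ s, A (p.1 i) s) ∧ ∀ j, ∃ s, B (p.2 j) s) := by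
  classical
  set t : ℕ := (univ.sup fun i => univ.sup fun j => H' i j) + 1 with ht
  have hlt : ∀ i j, H' i j < t := by
    intro i j
    have : H' i j ≤ univ.sup fun i => univ.sup fun j => H' i j :=
      (Finset.le_sup (f := fun j => H' i j) (mem_univ j)).trans
        (Finset.le_sup (f := fun i => univ.sup fun j => H' i j) (mem_univ i))
    omega
  have hex : ∀ x y, ∃ z : ℕ, ∀ i j, H' i j = z ↔ (H i j = M x y ∧ A x (ρ i) ∧ B y (σ j)) := by
    intro x y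
    by_cases hc : ∃ i j, H i j = M x y ∧ A x (ρ i) ∧ B y (σ j)
    · obtain ⟨i₀, j₀, e1, e2, e3⟩ := hc
      refine ⟨H' i₀ j₀, fun i j => ?_⟩
      rw [hR]
      constructor
      · rintro ⟨e4, e5, e6⟩
        rw [e4, e5, e6]
        exact ⟨e1, e2, e3⟩
      · rintro ⟨e4, e5, e6⟩
        exact ⟨e4.trans e1.symm, hA x _ _ e5 e2, hB y _ _ e6 e3⟩
    · refine ⟨t, fun i j => ?_⟩
      constructor
      · intro e
        exact absurd e (hlt i j).ne
      · intro e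
        exact absurd ⟨i, j, e⟩ hc
  choose M' hM' using hex
  have h1 := hL n M'
  rw [rcopies_ind, grids_ind] at h1
  refine le_trans (sum_le_sum fun p _ => ?_) (h1.trans
    (mul_le_mul_of_nonneg_left (sum_le_sum fun p _ => ?_) hκ))
  · rw [← ind_and]
    refine ind_le ?_
    rintro ⟨⟨h2, h3, h4⟩, h5, h6⟩
    exact ⟨h2, h3, fun i j => ((hM' (p.1 i) (p.2 j) i j).2 ⟨(h4 i j).symm, h5 i, h6 j⟩).symm⟩
  · rw [← ind_and]
    refine ind_le ?_
    intro hp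
    refine ⟨fun i j => ?_, fun i => ?_, fun j => ?_⟩
    · obtain ⟨i', j', hij⟩ := hp i j
      exact ⟨i', j', ((hM' _ _ i' j').1 hij).1⟩
    · obtain ⟨i', j', hij⟩ := hp i ⟨0, hh⟩
      exact ⟨_, ((hM' _ _ i' j').1 hij).2.1⟩
    · obtain ⟨i', j', hij⟩ := hp ⟨0, ha⟩ j
      exact ⟨_, ((hM' _ _ i' j').1 hij).2.2⟩

end L29

open S44 I85 L29 Finset in
theorem glue3_29 : StGlue3 := by
  classical
  intro a b m c d l H e₁ e₂ g₁ g₂ ρ₁ ρ₂ σ₁ σ₂ B₁ B₂ κ₁ κ₂ ha hb hc hd hG3 hκ₁ hκ₂ hL₁ hL₂ n M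
  obtain ⟨hG, hcl₁, hcl₂, hB₁, hB₂, -, -, -, -⟩ := hG3
  obtain ⟨hs, ht, q1, q2, q3, q4, q5⟩ := hG
  have card : ∀ {a b m : ℕ} {u : Fin a → Fin m} {v : Fin b → Fin m}, Splits u v → a + b = m := by
    intro a b m u v h
    obtain ⟨u1, u2, u3, u4⟩ := h
    have e : Function.Bijective (Sum.elim u v) := by
      constructor
      · rintro (i | i) (j | j) hij
        · exact congrArg Sum.inl (u1.injective hij)
        · exact absurd hij (u3 i j)
        · exact absurd hij.symm (u3 j i)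
        · exact congrArg Sum.inr (u2.injective hij)
      · intro k
        rcases u4 k with ⟨i, hi⟩ | ⟨i, hi⟩
        · exact ⟨Sum.inl i, hi⟩
        · exact ⟨Sum.inr i, hi⟩
    have := Fintype.card_of_bijective e
    simpa using this
  have hm : a + b = m := card hs
  have hl : c + d = l := card ht
  obtain ⟨s1, s2, s3, s4⟩ := hs
  obtain ⟨t1, t2, t3, t4⟩ := ht
  set H₁ : Fin a → Fin c → ℕ := fun i j => H (e₁ i) (g₁ j) with hH₁
  set H₂ : Fin b → Fin d → ℕ := fun i j => H (e₂ i) (g₂ j) with hH₂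
  set S₁ : ℕ → Prop := fun s => ∃ i j, H (e₁ i) (g₂ j) = s with hS₁
  set S₂ : ℕ → Prop := fun s => ∃ i j, H (e₂ i) (g₁ j) = s with hS₂
  have hf1 : 0 ≤ fac1 a b := by unfold fac1; positivity
  have hf2 : 0 ≤ fac1 c d := by unfold fac1; positivity
  -- the off diagonal cells
  set W : (Fin a → Fin n) × (Fin c → Fin n) → (Fin b → Fin n) × (Fin d → Fin n) → Prop :=
    fun p q => (∀ i j, S₁ (M (p.1 i) (q.2 j))) ∧ ∀ i j, S₂ (M (q.1 i) (p.2 j)) with hW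
  -- the refined relation
  set V : (Fin a → Fin n) × (Fin c → Fin n) → (Fin b → Fin n) × (Fin d → Fin n) → Prop :=
    fun p q =>
      (∀ i, ∀ j, ∃ i' j', H (e₁ i') (g₂ j') = M (p.1 i) (q.2 j) ∧ ρ₁ i' = ρ₁ i ∧ σ₂ j' = σ₂ j) ∧
      ∀ j, ∀ i, ∃ i' j', H (e₂ i') (g₁ j') = M (q.1 i) (p.2 j) ∧ ρ₂ i' = ρ₂ i ∧ σ₁ j' = σ₁ j
    with hV
  set V' : (Fin a → Fin n) × (Fin c → Fin n) → (Fin b → Fin n) × (Fin d → Fin n) → Prop :=
    fun p q =>
      (∀ i, ∃ s, ∀ j, ∃ i' j', H (e₁ i') (g₂ j') = M (p.1 i) (q.2 j) ∧ ρ₁ i' = s ∧ σ₂ j' = σ₂ j) ∧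
      ∀ j, ∃ s, ∀ i, ∃ i' j', H (e₂ i') (g₁ j') = M (q.1 i) (p.2 j) ∧ ρ₂ i' = ρ₂ i ∧ σ₁ j' = s
    with hV'
  have step1 : (rcopies H M : ℝ) ≤ ∑ q, ∑ p, ind (Cp H₂ M q) * (ind (Cp H₁ M p) * ind (V p q)) := by
    rw [rcopies_ind, ← Fintype.sum_prod_type']
    refine le_trans (sum_le_sum fun R _ => ?_) (sum_inj
      (fun R : (Fin m → Fin n) × (Fin l → Fin n) =>
        (((R.1 ∘ e₂, R.2 ∘ g₂), (R.1 ∘ e₁, R.2 ∘ g₁)) :
          ((Fin b → Fin n) × (Fin d → Fin n)) × ((Fin a → Fin n) × (Fin c → Fin n)))) ?_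
      (fun x => ind (Cp H₂ M x.1) * (ind (Cp H₁ M x.2) * ind (V x.2 x.1)))
      fun x => mul_nonneg (ind_nonneg _) (mul_nonneg (ind_nonneg _) (ind_nonneg _)))
    · dsimp only
      rw [← ind_and, ← ind_and]
      refine ind_le ?_
      rintro ⟨h1, h2, h3⟩
      exact ⟨⟨h1.comp s2, h2.comp t2, fun i j => h3 _ _⟩,
        ⟨h1.comp s1, h2.comp t1, fun i j => h3 _ _⟩,
        fun i j => ⟨i, j, (h3 _ _).symm, rfl, rfl⟩, fun j i => ⟨i, j, (h3 _ _).symm, rfl, rfl⟩⟩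
    · intro R R' hRR
      simp only [Prod.mk.injEq] at hRR
      obtain ⟨⟨r1, r2⟩, r3, r4⟩ := hRR
      refine Prod.ext ?_ ?_
      · funext k
        rcases s4 k with ⟨i, rfl⟩ | ⟨i, rfl⟩
        · exact congrFun r3 i
        · exact congrFun r1 i
      · funext k
        rcases t4 k with ⟨i, rfl⟩ | ⟨i, rfl⟩
        · exact congrFun r4 i
        · exact congrFun r2 i
  have step2 : ∑ q, ∑ p, ind (Cp H₂ M q) * (ind (Cp H₁ M p) * ind (V p q)) ≤
      κ₁ * ∑ p, ∑ q, ind (Gr H₁ M p) * (ind (Cp H₂ M q) * ind (V' p q)) := by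
    calc ∑ q, ∑ p, ind (Cp H₂ M q) * (ind (Cp H₁ M p) * ind (V p q))
        ≤ ∑ q, ind (Cp H₂ M q) * (κ₁ * ∑ p, ind (Gr H₁ M p) * ind (V' p q)) := by
          refine sum_le_sum fun q _ => ?_
          rw [← mul_sum]
          refine mul_le_mul_of_nonneg_left ?_ (ind_nonneg _)
          exact masked3 ha hc hκ₁ hB₁ hL₁ M
            (fun x s => ∀ j, ∃ i' j', H (e₁ i') (g₂ j') = M x (q.2 j) ∧ ρ₁ i' = s ∧ σ₂ j' = σ₂ j)
            (fun y s => ∀ i, ∃ i' j', H (e₂ i') (g₁ j') = M (q.1 i) y ∧ ρ₂ i' = ρ₂ i ∧ σ₁ j' = s)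
            (by
              intro x s s' h1 h2
              obtain ⟨i', j', k1, k2, k3⟩ := h1 ⟨0, hd⟩
              obtain ⟨i'', j'', k4, k5, k6⟩ := h2 ⟨0, hd⟩
              rw [← k2, ← k5]
              exact (hcl₁ i' i'' j' j'' (k1.trans k4.symm)).1)
            (by
              intro y s s' h1 h2
              obtain ⟨i', j', k1, k2, k3⟩ := h1 ⟨0, hb⟩
              obtain ⟨i'', j'', k4, k5, k6⟩ := h2 ⟨0, hb⟩
              rw [← k3, ← k6]
              exact (hcl₂ i' i'' j' j'' (k1.trans k4.symm)).2)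
      _ = κ₁ * ∑ p, ∑ q, ind (Gr H₁ M p) * (ind (Cp H₂ M q) * ind (V' p q)) := by
          simp only [mul_sum]
          rw [sum_comm]
          refine sum_congr rfl fun p _ => sum_congr rfl fun q _ => ?_
          ring
  have step3 : ∑ p, ∑ q, ind (Gr H₁ M p) * (ind (Cp H₂ M q) * ind (V' p q)) ≤
      κ₂ * ∑ p, ∑ q, ind (Gr H₁ M p) * (ind (Gr H₂ M q) * ind (W p q)) := by
    rw [mul_sum]
    refine sum_le_sum fun p _ => ?_
    rw [← mul_sum, ← mul_sum, mul_left_comm]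
    refine mul_le_mul_of_nonneg_left ?_ (ind_nonneg _)
    have := masked3 hb hd hκ₂ hB₂ hL₂ M
      (fun x s => ∀ j, ∃ i' j', H (e₂ i') (g₁ j') = M x (p.2 j) ∧ ρ₂ i' = s)
      (fun y s => ∀ i, ∃ i' j', H (e₁ i') (g₂ j') = M (p.1 i) y ∧ σ₂ j' = s)
      (by
        intro x s s' h1 h2
        obtain ⟨i', j', k1, k2⟩ := h1 ⟨0, hc⟩
        obtain ⟨i'', j'', k4, k5⟩ := h2 ⟨0, hc⟩
        rw [← k2, ← k5]
        exact (hcl₂ i' i'' j' j'' (k1.trans k4.symm)).1)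
      (by
        intro y s s' h1 h2
        obtain ⟨i', j', k1, k2⟩ := h1 ⟨0, ha⟩
        obtain ⟨i'', j'', k4, k5⟩ := h2 ⟨0, ha⟩
        rw [← k2, ← k5]
        exact (hcl₁ i' i'' j' j'' (k1.trans k4.symm)).2)
    refine le_trans (sum_le_sum fun q _ => ?_) (this.trans
      (mul_le_mul_of_nonneg_left (sum_le_sum fun q _ => ?_) hκ₂))
    · refine mul_le_mul_of_nonneg_left (ind_le ?_) (ind_nonneg _)
      rintro ⟨h1, h2⟩
      refine ⟨fun i j => ?_, fun j i => ?_⟩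
      · obtain ⟨s, h3⟩ := h2 j
        obtain ⟨i', j', k1, k2, -⟩ := h3 i
        exact ⟨i', j', k1, k2⟩
      · obtain ⟨s, h3⟩ := h1 i
        obtain ⟨i', j', k1, -, k3⟩ := h3 j
        exact ⟨i', j', k1, k3⟩
    · refine mul_le_mul_of_nonneg_left (ind_le ?_) (ind_nonneg _)
      rintro ⟨h1, h2⟩
      refine ⟨fun i j => ?_, fun i j => ?_⟩
      · obtain ⟨s, h3⟩ := h2 j
        obtain ⟨i', j', k1, -⟩ := h3 i
        exact ⟨i', j', k1⟩
      · obtain ⟨s, h3⟩ := h1 i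
        obtain ⟨i', j', k1, -⟩ := h3 j
        exact ⟨i', j', k1⟩
  -- the columns
  set P : (Fin a → Fin n) → (Fin b → Fin n) → Fin n → Prop := fun r s y =>
    (∀ i, ∃ i' j', H (e₁ i') (g₁ j') = M (r i) y) ∧ ∀ i, ∃ i' j', H (e₂ i') (g₁ j') = M (s i) y
    with hP
  set Q : (Fin a → Fin n) → (Fin b → Fin n) → Fin n → Prop := fun r s y =>
    (∀ i, ∃ i' j', H (e₁ i') (g₂ j') = M (r i) y) ∧ ∀ i, ∃ i' j', H (e₂ i') (g₂ j') = M (s i) y
    with hQ
  set Z : (Fin a → Fin n) → (Fin b → Fin n) → Fin n → Prop := fun r s y => P r s y ∨ Q r s y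
    with hZ
  have step4 : ∑ p, ∑ q, ind (Gr H₁ M p) * (ind (Gr H₂ M q) * ind (W p q)) =
      ∑ r, ∑ s, (∑ y, ind (P r s y)) ^ c * (∑ y, ind (Q r s y)) ^ d := by
    simp only [Fintype.sum_prod_type, pow_ind]
    refine sum_congr rfl fun r _ => ?_
    rw [sum_comm]
    refine sum_congr rfl fun s _ => ?_
    rw [sum_mul_sum]
    refine sum_congr rfl fun C _ => sum_congr rfl fun D _ => ?_
    rw [← ind_and, ← ind_and, ← ind_and]
    refine ind_congr ?_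
    constructor
    · rintro ⟨h1, h2, h3, h4⟩
      exact ⟨fun j => ⟨fun i => h1 i j, fun i => h4 i j⟩, fun j => ⟨fun i => h3 i j, fun i => h2 i j⟩⟩
    · rintro ⟨h1, h2⟩
      exact ⟨fun i j => (h1 j).1 i, fun i j => (h2 j).2 i, fun i j => (h2 j).1 i,
        fun i j => (h1 j).2 i⟩
  have step5 : ∑ r, ∑ s, (∑ y, ind (P r s y)) ^ c * (∑ y, ind (Q r s y)) ^ d ≤
      fac1 c d * ∑ r, ∑ s, (∑ y, ind (Z r s y)) ^ l := by
    rw [mul_sum]
    refine sum_le_sum fun r _ => ?_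
    rw [mul_sum]
    refine sum_le_sum fun s _ => ?_
    have hP0 : 0 ≤ ∑ y, ind (P r s y) := sum_nonneg fun _ _ => ind_nonneg _
    have hQ0 : 0 ≤ ∑ y, ind (Q r s y) := sum_nonneg fun _ _ => ind_nonneg _
    refine (am2 c d hc hd _ _ hP0 hQ0).trans (mul_le_mul_of_nonneg_left ?_ hf2)
    rw [hl]
    refine pow_le_pow_left₀ (add_nonneg hP0 hQ0) ?_ _
    rw [← sum_add_distrib]
    refine sum_le_sum fun y _ => ?_
    by_cases h1 : P r s y
    · have h2 : ¬ Q r s y := by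
        intro h2
        obtain ⟨i, j, hij⟩ := h1.1 ⟨0, ha⟩
        obtain ⟨i', j', hij'⟩ := h2.1 ⟨0, ha⟩
        exact q1 _ _ _ _ (hij.trans hij'.symm)
      rw [ind_false h2, add_zero]
      exact ind_le fun h3 => Or.inl h3
    · rw [ind_false h1, zero_add]
      exact ind_le fun h3 => Or.inr h3
  have step6 : ∑ r, ∑ s, (∑ y, ind (Z r s y)) ^ l =
      ∑ C : Fin l → Fin n, ∑ r, ∑ s, ind (∀ j, Z r s (C j)) := by
    simp only [pow_ind]
    rw [sum_congr rfl fun r _ => sum_comm, sum_comm]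
  have step7 : ∑ C : Fin l → Fin n, ∑ r, ∑ s, ind (∀ j, Z r s (C j)) ≤
      fac1 a b * (grids H M : ℝ) := by
    rw [grids_eq, mul_sum]
    refine sum_le_sum fun C _ => ?_
    have h1 := inner ha hb (show 0 < l by omega)
      (fun x j => ∃ i' j', H (e₁ i') (g₁ j') = M x (C j))
      (fun x j => ∃ i' j', H (e₁ i') (g₂ j') = M x (C j))
      (fun x j => ∃ i' j', H (e₂ i') (g₁ j') = M x (C j))
      (fun x j => ∃ i' j', H (e₂ i') (g₂ j') = M x (C j))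
      (by rintro x j ⟨i, k, h⟩ ⟨i', k', h'⟩; exact q1 _ _ _ _ (h.trans h'.symm))
      (by rintro x j ⟨i, k, h⟩ ⟨i', k', h'⟩; exact q2 _ _ _ _ (h.trans h'.symm))
      (by rintro x j ⟨i, k, h⟩ ⟨i', k', h'⟩; exact q3 _ _ _ _ (h.trans h'.symm))
      (by rintro x j ⟨i, k, h⟩ ⟨i', k', h'⟩; exact q4 _ _ _ _ (h.trans h'.symm))
      (by
        rcases q5 with q5 | q5
        · left
          rintro x j ⟨i, k, h⟩ ⟨i', k', h'⟩
          exact q5 _ _ _ _ (h.trans h'.symm)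
        · right
          rintro x j ⟨i, k, h⟩ ⟨i', k', h'⟩
          exact q5 _ _ _ _ (h.trans h'.symm))
    refine h1.trans ?_
    refine mul_le_mul_of_nonneg_left ?_ hf1
    rw [hm]
    refine pow_le_pow_left₀ (sum_nonneg fun _ _ => ind_nonneg _) ?_ _
    unfold g
    refine sum_le_sum fun x _ => ind_le fun h j => ?_
    rcases h j with ⟨i', j', h2⟩ | ⟨i', j', h2⟩ | ⟨i', j', h2⟩ | ⟨i', j', h2⟩
    · exact ⟨_, _, h2⟩
    · exact ⟨_, _, h2⟩
    · exact ⟨_, _, h2⟩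
    · exact ⟨_, _, h2⟩
  have hT : ∑ p, ∑ q, ind (Gr H₁ M p) * (ind (Gr H₂ M q) * ind (W p q)) ≤
      fac1 c d * (fac1 a b * (grids H M : ℝ)) := by
    rw [step4]
    refine step5.trans (mul_le_mul_of_nonneg_left ?_ hf2)
    rw [step6]
    exact step7
  calc (rcopies H M : ℝ) ≤ _ := step1
    _ ≤ _ := step2
    _ ≤ κ₁ * (κ₂ * (fac1 c d * (fac1 a b * (grids H M : ℝ)))) :=
        mul_le_mul_of_nonneg_left (step3.trans (mul_le_mul_of_nonneg_left hT hκ₂)) hκ₁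
    _ = κ₁ * κ₂ * (fac1 a b * fac1 c d) * (grids H M : ℝ) := by ring

end Pool.Agent.Lib.MP_efec9b_co.BS
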